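import Pool.Agent.Lib.MP_4e5fcd_ag.K2

/-!
# MON: the motivic monodromy conjecture for `x ^ b * I(W)(M_1, ..., M_s) ^ m`

`M_1, ..., M_s` are monomials with pairwise disjoint supports, `W` is a linear subspace of `ℂ^s`.

The first section contains the definitions of the statement, the others those of the proof.
-/

open MvPolynomial

namespace MotMono.Mon

/-! ### The statement -/

/-- The monomial `M_i = ∏_{β l = i} x_l ^ (d_l)`. For a surjective `β` and positive `d_l` these are
nonconstant monomials with pairwise disjoint supports. -/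
noncomputable def blockMon {N s : ℕ} (β : Fin N → Fin s) (d : Fin N → ℕ) (i : Fin s) :
    MvPolynomial (Fin N) ℂ :=
  ∏ l ∈ Finset.univ.filter (fun l => β l = i), X l ^ d l

/-- the ideal generated by all `∑ a_i M_i` where `∑ a_i z_i` vanishes on `W` -/
noncomputable def pullIdeal {N s : ℕ} (β : Fin N → Fin s) (d : Fin N → ℕ)
    (W : Submodule ℂ (Fin s → ℂ)) : Ideal (MvPolynomial (Fin N) ℂ) :=
  Ideal.span {f | ∃ a : Fin s → ℂ, f = ∑ i, C (a i) * blockMon β d i ∧
    ∀ w ∈ W, ∑ i, a i * w i = 0}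

/-- the ideal `x ^ b * I(W)(M_1, ..., M_s) ^ m` -/
noncomputable def monIdeal {N s : ℕ} (β : Fin N → Fin s) (d b : Fin N → ℕ)
    (W : Submodule ℂ (Fin s → ℂ)) (m : ℕ) : Ideal (MvPolynomial (Fin N) ℂ) :=
  Ideal.span {∏ l, X l ^ b l} * pullIdeal β d W ^ m

/-! ### Data -/

/-- the data -/
structure Data (N s : ℕ) where
  /-- the blocks of variables -/
  β : Fin N → Fin s
  /-- the exponents of the monomials `M_i` -/
  d : Fin N → ℕ
  /-- the exponents of the monomial factor -/
  b : Fin N → ℕ
  /-- the subspace -/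
  W : Submodule ℂ (Fin s → ℂ)
  /-- the multiplicity -/
  m : ℕ
  hβ : Function.Surjective β
  hd : ∀ l, 0 < d l
  hW : W ≠ ⊤
  hm : 0 < m

/-! ### Jets and their coefficient vectors -/

/-- the first index of a nonzero coefficient (`n` if there is none) -/
noncomputable def ord1 {n : ℕ} (x : Fin n → ℂ) : ℕ := sInf {j | ∀ h : j < n, x ⟨j, h⟩ ≠ 0}

/-- the leading coefficient (`0` if there is none) -/
noncomputable def lead1 {n : ℕ} (x : Fin n → ℂ) : ℂ :=
  if h : ord1 x < n then x ⟨ord1 x, h⟩ else 0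

/-- the `e`-th coefficient vector of `(M_1, ..., M_s)` along a jet -/
noncomputable def zc {N s : ℕ} (β : Fin N → Fin s) (d : Fin N → ℕ) {n : ℕ}
    (γ : Fin N × Fin n → ℂ) (e : ℕ) (i : Fin s) : ℂ :=
  (∏ l ∈ Finset.univ.filter (fun l => β l = i), arc γ l ^ d l).coeff e

/-- the order of `M_i` along a jet with orders `o` -/
def nuv {N s : ℕ} (β : Fin N → Fin s) (d o : Fin N → ℕ) (i : Fin s) : ℕ :=
  ∑ l ∈ Finset.univ.filter (fun l => β l = i), d l * o l

/-- The jets with order `o l` in the coordinate `l ∉ Fr` (identically zero if `o l ≥ n`), and with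
order at least `o l` in the coordinate `l ∈ Fr`. -/
def Yset {N : ℕ} (Fr : Finset (Fin N)) (o : Fin N → ℕ) (n : ℕ) : Set (Fin N × Fin n → ℂ) :=
  {γ | (∀ l (j : Fin n), (j : ℕ) < o l → γ (l, j) = 0) ∧
    ∀ l, l ∉ Fr → ∀ h : o l < n, γ (l, ⟨o l, h⟩) ≠ 0}

/-- the coefficients with index `o l` -/
noncomputable def lc {N n : ℕ} (o : Fin N → ℕ) (γ : Fin N × Fin n → ℂ) (l : Fin N) : ℂ :=
  if h : o l < n then γ (l, ⟨o l, h⟩) else 0

/-- the coefficient vectors in the coordinates which straighten them -/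
noncomputable def zv {N s : ℕ} (β : Fin N → Fin s) (d : Fin N → ℕ) (piv : Fin s → Fin N)
    (o : Fin N → ℕ) {n : ℕ} (v : Fin N × Fin n → ℂ) (e : ℕ) (i : Fin s) : ℂ :=
  if e < nuv β d o i then 0
  else if e = nuv β d o i then
    ∏ l ∈ Finset.univ.filter (fun l => β l = i), lc o v l ^ d l
  else if h : e - nuv β d o i + o (piv i) < n then v (piv i, ⟨e - nuv β d o i + o (piv i), h⟩)
  else 0

/-- the coordinate subspace `z_i = 0`, `i ∈ A` -/
def cV {s : ℕ} (A : Finset (Fin s)) : Submodule ℂ (Fin s → ℂ) where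
  carrier := {z | ∀ i ∈ A, z i = 0}
  zero_mem' := by intro i _; rfl
  add_mem' := by
    intro x y hx hy i hi
    rw [Pi.add_apply, hx i hi, hy i hi, add_zero]
  smul_mem' := by
    intro c x hx i hi
    rw [Pi.smul_apply, hx i hi, smul_zero]

variable {N s : ℕ} (D : Data N s)

/-- the ideal -/
noncomputable def Data.I : Ideal (MvPolynomial (Fin N) ℂ) := monIdeal D.β D.d D.b D.W D.m

/-- the variables of a block -/
def Data.B (i : Fin s) : Finset (Fin N) := Finset.univ.filter fun l => D.β l = i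

/-- The free variables: the first variable with `d_l = 1`, `b_l = 0` of each block which has such a
variable. -/
def Data.fr : Finset (Fin N) :=
  Finset.univ.filter fun l => (D.d l = 1 ∧ D.b l = 0) ∧
    ∀ l', l' < l → D.β l' = D.β l → ¬ (D.d l' = 1 ∧ D.b l' = 0)

/-- the other variables of a block -/
def Data.Bp (i : Fin s) : Finset (Fin N) := (D.B i).filter fun l => l ∉ D.fr

/-- the block has a free variable -/
def Data.Free (i : Fin s) : Prop := ∃ l ∈ D.fr, D.β l = i

instance (i : Fin s) : Decidable (D.Free i) :=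
  inferInstanceAs (Decidable (∃ l ∈ D.fr, D.β l = i))

/-- the pivot of a block: its free variable if there is one -/
noncomputable def Data.piv (i : Fin s) : Fin N :=
  if h : ∃ l ∈ D.fr, D.β l = i then h.choose else (D.hβ i).choose

/-- the forms in the first `e` coefficient vectors vanish, and the monomial has order `κ` -/
def Data.Om (κ c n : ℕ) : Set (Fin N × Fin n → ℂ) :=
  {γ | (∀ l (j : Fin n), (j : ℕ) = 0 → γ (l, j) = 0) ∧
    ∑ l, D.b l * ord1 (fun j => γ (l, j)) = κ ∧ ∀ e < c, zc D.β D.d γ e ∈ D.W}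

/-! ### The path recursion -/

/-- the coefficient vector of a level at which the blocks of `A \ A'` start -/
noncomputable def Data.zz (A A' : Finset (Fin s)) (v : Fin N → ℂ) (i : Fin s) : ℂ :=
  if i ∈ A' then 0 else if i ∈ A then ∏ l ∈ D.B i, v l ^ D.d l else v (D.piv i)

/-- the coordinates of a level at which the blocks of `A \ A'` start -/
def Data.Gset (A A' : Finset (Fin s)) : Set (Fin N → ℂ) :=
  {v | (∀ l, D.β l ∈ A' → v l = 0) ∧ (∀ l, D.β l ∈ A → D.β l ∉ A' → l ∉ D.fr → v l ≠ 0) ∧
    D.zz A A' v ∈ D.W}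

/-- its normalised class -/
noncomputable def Data.gg (A A' : Finset (Fin s)) : MC :=
  algebraMap K0 MC (cls (D.Gset A A')) *
    ((Lu ^ (-((Finset.univ.filter fun l => D.β l ∉ A').card : ℤ)) : MCˣ) : MC)

/-- `L⁻¹` -/
noncomputable def Li : MC := ((Lu⁻¹ : MCˣ) : MC)

/-- the normalised class of the set of starting coefficients of a block -/
noncomputable def Data.cc (i : Fin s) : MC := (1 - Li) ^ (D.Bp i).card

/-- `L⁻¹ T ^ (b_l)` -/
noncomputable def Data.rho (l : Fin N) : PowerSeries MC :=
  PowerSeries.C Li * PowerSeries.X ^ D.b l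

/-- the weighted measure of the set of all arcs of order at least one in the variable `l` -/
noncomputable def Data.mass (l : Fin N) : PowerSeries MC :=
  if D.b l = 0 then PowerSeries.C Li
  else PowerSeries.C (1 - Li) * D.rho l * PowerSeries.invOfUnit (1 - D.rho l) 1

/-- the weights of the orders in the variable `l` -/
noncomputable def Data.Pser (l : Fin N) : PowerSeries (PowerSeries MC) :=
  PowerSeries.mk fun n => if n ≠ 0 ∧ D.d l ∣ n then D.rho l ^ (n / D.d l) else 0

/-- the weights of the starting levels of the block `i`, with the variables in `Q` -/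
noncomputable def Data.dlt (i : Fin s) (Q : Finset (Fin N)) : PowerSeries (PowerSeries MC) :=
  (if D.Free i then PowerSeries.C (PowerSeries.C Li) * PowerSeries.X else 1) * ∏ l ∈ Q, D.Pser l

/-- the weights of the tails -/
noncomputable def Data.Tsq (i : Fin s) (Q : Finset (Fin N)) (n : ℕ) : PowerSeries MC :=
  (if D.Free i then PowerSeries.C Li else 1) *
      (PowerSeries.C ((1 - Li) ^ (D.Bp i \ Q).card) * ∏ l ∈ Q, D.mass l) -
    PowerSeries.C (D.cc i) * ∑ n' ∈ Finset.range n, PowerSeries.coeff n' (D.dlt i Q)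

/-- the pair of sequences -/
noncomputable def Data.pr (i : Fin s) (Q : Finset (Fin N)) (n : ℕ) :
    PowerSeries MC × PowerSeries MC :=
  (PowerSeries.coeff n (D.dlt i Q), D.Tsq i Q n)

/-- sequences of weights for all blocks -/
abbrev Seqs (s : ℕ) : Type 1 := Fin s → ℕ → PowerSeries MC × PowerSeries MC

/-- the shift -/
def shift {s : ℕ} (p : Seqs s) : Seqs s := fun i n => p i (n + 1)

/-- The weighted measure of the set where the first `c` coefficient vectors are in `W`, if the
blocks of `A` have not started yet. -/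
noncomputable def Data.FF : ℕ → Finset (Fin s) → Seqs s → PowerSeries MC
  | 0, A, p => ∏ i ∈ A, (p i 0).2
  | c + 1, A, p => ∑ A' ∈ A.powerset, PowerSeries.C (D.gg A A') *
      (∏ i ∈ A \ A', (p i 0).1) * Data.FF c A' (shift p)

/-- the generating function -/
noncomputable def Data.Zs (A : Finset (Fin s)) (p : Seqs s) : PowerSeries MC :=
  PowerSeries.mk fun k => ∑ c ∈ Finset.range (k + 1), if D.m * c ≤ k then
    PowerSeries.coeff (k - D.m * c) (D.FF c A p - D.FF (c + 1) A p) else 0

/-! ### Closed and connected sets of blocks -/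

/-- `W ∩ {z_i = 0, i ∈ A}` -/
def Data.VW (A : Finset (Fin s)) : Submodule ℂ (Fin s → ℂ) := D.W ⊓ cV A

/-- closed sets -/
def Data.Cl (A : Finset (Fin s)) : Prop :=
  ∀ i, ¬ D.Free i → D.VW A ≤ cV {i} → i ∈ A

/-- connected sets -/
def Data.Cn (A : Finset (Fin s)) : Prop :=
  ∀ A' ⊆ A, A'.Nonempty → D.VW (A \ A') ⊔ cV A' ≠ ⊤

/-- choices of a variable (not a free one) in each block of `A` -/
def Data.Choice (A : Finset (Fin s)) (lam : Fin s → Fin N) : Prop :=
  ∀ i ∈ A, D.β (lam i) = i ∧ lam i ∉ D.fr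

/-- the log discrepancy -/
noncomputable def Data.theta (A : Finset (Fin s)) (lam : Fin s → Fin N) : ℚ :=
  (s : ℚ) - Module.finrank ℂ (D.VW A) - A.card + ∑ i ∈ A, 1 / (D.d (lam i) : ℚ)

/-- the multiplicity -/
noncomputable def Data.mult (A : Finset (Fin s)) (lam : Fin s → Fin N) : ℚ :=
  (D.m : ℚ) + ∑ i ∈ A, (D.b (lam i) : ℚ) / D.d (lam i)

end MotMono.Mon
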