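import Pool.Agent.Lib.MP_4e5fcd_ag.Mon.G0

/-! # MON-G2: the order of the monomial factor along a jet -/

open MvPolynomial

namespace MotMono.Mon

variable {N s : ℕ} (D : Data N s)

private theorem ord1_set_mem {n : ℕ} (x : Fin n → ℂ) :
    ∀ h : ord1 x < n, x ⟨ord1 x, h⟩ ≠ 0 :=
  Nat.sInf_mem (s := {j | ∀ h : j < n, x ⟨j, h⟩ ≠ 0}) ⟨n, fun h => absurd h (lt_irrefl n)⟩

theorem ord1_le {n : ℕ} (x : Fin n → ℂ) : ord1 x ≤ n :=
  Nat.sInf_le (fun h => absurd h (lt_irrefl n))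

theorem lead1_ne_zero {n : ℕ} (x : Fin n → ℂ) (h : ord1 x < n) : lead1 x ≠ 0 := by
  unfold lead1
  rw [dif_pos h]
  exact ord1_set_mem x h

theorem eq_zero_of_lt_ord1 {n : ℕ} (x : Fin n → ℂ) (j : Fin n) (h : (j : ℕ) < ord1 x) :
    x j = 0 := by
  by_contra h0
  exact Nat.notMem_of_lt_sInf h (fun _ => h0)

theorem ord1_eq_iff {n : ℕ} (x : Fin n → ℂ) (o : ℕ) (ho : o ≤ n) : ord1 x = o ↔
    (∀ j : Fin n, (j : ℕ) < o → x j = 0) ∧ ∀ h : o < n, x ⟨o, h⟩ ≠ 0 := by
  constructor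
  · rintro rfl
    exact ⟨fun j hj => eq_zero_of_lt_ord1 x j hj, ord1_set_mem x⟩
  · rintro ⟨h1, h2⟩
    refine le_antisymm (Nat.sInf_le h2) ?_
    by_contra h3
    have h4 : ord1 x < o := not_le.1 h3
    have h5 : ord1 x < n := lt_of_lt_of_le h4 ho
    exact ord1_set_mem x h5 (h1 ⟨ord1 x, h5⟩ h4)

private theorem g2_arc_coeff {n : ℕ} (γ : Fin N × Fin n → ℂ) (l : Fin N) (e : ℕ) :
    (arc γ l).coeff e = if h : e < n then γ (l, ⟨e, h⟩) else 0 := by
  unfold arc
  rw [Polynomial.finsetSum_coeff]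
  simp only [Polynomial.coeff_C_mul, Polynomial.coeff_X_pow, mul_ite, mul_one, mul_zero]
  split_ifs with h
  · rw [Finset.sum_eq_single ⟨e, h⟩]
    · simp
    · intro j _ hj
      rw [if_neg]
      intro he
      exact hj (Fin.ext he.symm)
    · intro hj
      exact absurd (Finset.mem_univ _) hj
  · refine Finset.sum_eq_zero fun j _ => ?_
    rw [if_neg]
    intro he
    exact h (he ▸ j.2)

/-- `P` has order at least `p` and coefficient `c` of index `p` -/
private def Low (P : Polynomial ℂ) (p : ℕ) (c : ℂ) : Prop :=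
  ∃ R : Polynomial ℂ, P = Polynomial.X ^ p * R ∧ R.coeff 0 = c

private theorem low_iff (P : Polynomial ℂ) (p : ℕ) (c : ℂ) :
    Low P p c ↔ (∀ e < p, P.coeff e = 0) ∧ P.coeff p = c := by
  constructor
  · rintro ⟨R, rfl, rfl⟩
    refine ⟨fun e he => ?_, ?_⟩
    · rw [Polynomial.coeff_X_pow_mul', if_neg (by omega)]
    · rw [Polynomial.coeff_X_pow_mul', if_pos le_rfl, Nat.sub_self]
  · rintro ⟨h1, h2⟩
    obtain ⟨R, hR⟩ := Polynomial.X_pow_dvd_iff.2 h1
    refine ⟨R, hR, ?_⟩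
    rw [hR, Polynomial.coeff_X_pow_mul', if_pos le_rfl, Nat.sub_self] at h2
    exact h2

private theorem Low.mul {P Q : Polynomial ℂ} {p q : ℕ} {c d : ℂ} (hP : Low P p c)
    (hQ : Low Q q d) : Low (P * Q) (p + q) (c * d) := by
  obtain ⟨R, rfl, rfl⟩ := hP
  obtain ⟨S, rfl, rfl⟩ := hQ
  exact ⟨R * S, by ring, Polynomial.mul_coeff_zero R S⟩

private theorem Low.one : Low 1 0 1 := ⟨1, by simp, by simp⟩

private theorem Low.pow {P : Polynomial ℂ} {p : ℕ} {c : ℂ} (hP : Low P p c) (b : ℕ) :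
    Low (P ^ b) (b * p) (c ^ b) := by
  induction b with
  | zero => simpa using Low.one
  | succ b ih =>
    rw [pow_succ, pow_succ, add_mul, one_mul]
    exact ih.mul hP

private theorem Low.prod {ι : Type} (S : Finset ι) {P : ι → Polynomial ℂ} {p : ι → ℕ}
    {c : ι → ℂ} (h : ∀ i ∈ S, Low (P i) (p i) (c i)) :
    Low (∏ i ∈ S, P i) (∑ i ∈ S, p i) (∏ i ∈ S, c i) := by
  classical
  induction S using Finset.induction_on with
  | empty => simpa using Low.one
  | insert i S hi ih =>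
    rw [Finset.prod_insert hi, Finset.sum_insert hi, Finset.prod_insert hi]
    exact (h i (Finset.mem_insert_self i S)).mul (ih fun j hj => h j (Finset.mem_insert_of_mem hj))

private theorem low_arc {n : ℕ} (γ : Fin N × Fin n → ℂ) (l : Fin N) :
    Low (arc γ l) (ord1 (fun j => γ (l, j))) (lead1 (fun j => γ (l, j))) := by
  rw [low_iff]
  refine ⟨fun e he => ?_, ?_⟩
  · rw [g2_arc_coeff]
    split_ifs with h
    · exact eq_zero_of_lt_ord1 (fun j => γ (l, j)) ⟨e, h⟩ he
    · rfl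
  · rw [g2_arc_coeff]
    rfl

private theorem low_PP {n : ℕ} (γ : Fin N × Fin n → ℂ) :
    Low (D.PP γ) (∑ l, D.b l * ord1 (fun j => γ (l, j)))
      (∏ l, lead1 (fun j => γ (l, j)) ^ D.b l) :=
  Low.prod Finset.univ fun l _ => (low_arc γ l).pow (D.b l)

theorem PP_coeff {n : ℕ} (γ : Fin N × Fin n → ℂ)
    (h : ∀ l, 0 < D.b l → ord1 (fun j => γ (l, j)) < n) :
    (∀ e < ∑ l, D.b l * ord1 (fun j => γ (l, j)), (D.PP γ).coeff e = 0) ∧
      (D.PP γ).coeff (∑ l, D.b l * ord1 (fun j => γ (l, j))) =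
        ∏ l, lead1 (fun j => γ (l, j)) ^ D.b l ∧
      ∏ l, lead1 (fun j => γ (l, j)) ^ D.b l ≠ 0 := by
  have h1 := (low_iff _ _ _).1 (low_PP D γ)
  refine ⟨h1.1, h1.2, Finset.prod_ne_zero_iff.2 fun l _ => ?_⟩
  rcases Nat.eq_zero_or_pos (D.b l) with hb | hb
  · rw [hb, pow_zero]
    exact one_ne_zero
  · exact pow_ne_zero _ (lead1_ne_zero _ (h l hb))

/-- `PP γ` has order `κ < n` iff the weighted sum of the orders is `κ` -/
theorem PP_order_iff {n : ℕ} (γ : Fin N × Fin n → ℂ) (κ : ℕ) (hκ : κ < n) :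
    ((∀ e < κ, (D.PP γ).coeff e = 0) ∧ (D.PP γ).coeff κ ≠ 0) ↔
      ∑ l, D.b l * ord1 (fun j => γ (l, j)) = κ := by
  constructor
  · rintro ⟨h1, h2⟩
    have hfin : ∀ l, 0 < D.b l → ord1 (fun j => γ (l, j)) < n := by
      intro l hb
      by_contra h3
      have h4 : arc γ l = 0 := by
        ext e
        rw [g2_arc_coeff, Polynomial.coeff_zero]
        split_ifs with h
        · exact eq_zero_of_lt_ord1 (fun j => γ (l, j)) ⟨e, h⟩ (lt_of_lt_of_le h (not_lt.1 h3))
        · rfl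
      apply h2
      have h5 : D.PP γ = 0 := by
        unfold Data.PP
        refine Finset.prod_eq_zero (Finset.mem_univ l) ?_
        rw [h4, zero_pow hb.ne']
      rw [h5, Polynomial.coeff_zero]
    obtain ⟨h3, h4, h5⟩ := PP_coeff D γ hfin
    rcases lt_trichotomy (∑ l, D.b l * ord1 (fun j => γ (l, j))) κ with h6 | h6 | h6
    · exact absurd (h1 _ h6) (by rw [h4]; exact h5)
    · exact h6
    · exact absurd (h3 _ h6) h2
  · intro h
    have hfin : ∀ l, 0 < D.b l → ord1 (fun j => γ (l, j)) < n := by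
      intro l hb
      refine lt_of_le_of_lt ?_ hκ
      rw [← h]
      refine le_trans ?_ (Finset.single_le_sum (f := fun l => D.b l * ord1 (fun j => γ (l, j)))
        (fun _ _ => Nat.zero_le _) (Finset.mem_univ l))
      exact Nat.le_mul_of_pos_left _ hb
    obtain ⟨h3, h4, h5⟩ := PP_coeff D γ hfin
    rw [h] at h3 h4
    exact ⟨h3, by rw [h4]; exact h5⟩

/-- the first coefficient vectors are determined by the jet, of order less than `n` -/
theorem constr_ord1 {n : ℕ} (l : Fin N) (o : ℕ) :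
    Constr {γ : Fin N × Fin n → ℂ | ord1 (fun j => γ (l, j)) = o} := by
  by_cases ho : o ≤ n
  · have h1 : {γ : Fin N × Fin n → ℂ | ord1 (fun j => γ (l, j)) = o} =
        (⋂ j : Fin n, {γ : Fin N × Fin n → ℂ | (j : ℕ) < o → γ (l, j) = 0}) ∩
          {γ : Fin N × Fin n → ℂ | ∀ h : o < n, γ (l, ⟨o, h⟩) ≠ 0} := by
      ext γ
      simp only [Set.mem_ofPred_eq, Set.mem_inter_iff, Set.mem_iInter]
      exact ord1_eq_iff _ o ho
    rw [h1]
    refine Constr.inter (constr_iInter fun j => ?_) ?_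
    · by_cases hj : (j : ℕ) < o
      · have h2 : {γ : Fin N × Fin n → ℂ | (j : ℕ) < o → γ (l, j) = 0} =
            {γ | eval γ (X (l, j) : MvPolynomial (Fin N × Fin n) ℂ) = 0} := by
          ext γ
          simp only [Set.mem_ofPred_eq, eval_X]
          exact ⟨fun h => h hj, fun h _ => h⟩
        rw [h2]
        exact Constr.zeroSet _
      · have h2 : {γ : Fin N × Fin n → ℂ | (j : ℕ) < o → γ (l, j) = 0} = Set.univ := by
          ext γ
          simp only [Set.mem_ofPred_eq, Set.mem_univ, iff_true]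
          exact fun h => absurd h hj
        rw [h2]
        exact constr_univ
    · by_cases hn : o < n
      · have h2 : {γ : Fin N × Fin n → ℂ | ∀ h : o < n, γ (l, ⟨o, h⟩) ≠ 0} =
            {γ | eval γ (X (l, ⟨o, hn⟩) : MvPolynomial (Fin N × Fin n) ℂ) ≠ 0} := by
          ext γ
          simp only [Set.mem_ofPred_eq, eval_X]
          exact ⟨fun h => h hn, fun h _ => h⟩
        rw [h2]
        exact constr_ne _
      · have h2 : {γ : Fin N × Fin n → ℂ | ∀ h : o < n, γ (l, ⟨o, h⟩) ≠ 0} = Set.univ := by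
          ext γ
          simp only [Set.mem_ofPred_eq, Set.mem_univ, iff_true]
          exact fun h => absurd h hn
        rw [h2]
        exact constr_univ
  · have h1 : {γ : Fin N × Fin n → ℂ | ord1 (fun j => γ (l, j)) = o} = ∅ := by
      ext γ
      simp only [Set.mem_ofPred_eq, Set.mem_empty_iff_false, iff_false]
      intro h
      exact ho (h ▸ ord1_le _)
    rw [h1]
    exact constr_empty

theorem constr_wt {n : ℕ} (b : Fin N → ℕ) (κ : ℕ) :
    Constr {γ : Fin N × Fin n → ℂ | ∑ l, b l * ord1 (fun j => γ (l, j)) = κ} := by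
  have h1 : {γ : Fin N × Fin n → ℂ | ∑ l, b l * ord1 (fun j => γ (l, j)) = κ} =
      ⋃ o : {o : Fin N → Fin (n + 1) // ∑ l, b l * (o l : ℕ) = κ},
        ⋂ l, {γ : Fin N × Fin n → ℂ | ord1 (fun j => γ (l, j)) = (o.1 l : ℕ)} := by
    ext γ
    simp only [Set.mem_ofPred_eq, Set.mem_iUnion, Set.mem_iInter]
    constructor
    · intro h
      refine ⟨⟨fun l => ⟨ord1 (fun j => γ (l, j)), Nat.lt_succ_of_le (ord1_le _)⟩, h⟩, fun l => rfl⟩
    · rintro ⟨⟨o, ho⟩, h⟩
      rw [← ho]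
      refine Finset.sum_congr rfl fun l _ => ?_
      rw [h l]
  rw [h1]
  exact constr_iUnion fun o => constr_iInter fun l => constr_ord1 l _

end MotMono.Mon
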