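import Pool.Agent.Lib.MP_4e5fcd_ag.Kum.E3

/-! # MON-R2a: fixed points of torus actions -/

open MvPolynomial

namespace MotMono.Mon

theorem R2a_constr {σ : Type} {E : Set (σ → ℂ)} (hE : Constr E) (i : σ) :
    Constr {x | x ∈ E ∧ x i ≠ 0} := by
  have h1 := hE.inter (constr_ne (X i : MvPolynomial σ ℂ))
  have h2 : {x | x ∈ E ∧ x i ≠ 0} = E ∩ {x | eval x (X i : MvPolynomial σ ℂ) ≠ 0} := by
    ext x
    simp only [Set.mem_inter_iff, Set.mem_ofPred_eq, eval_X]
  rw [h2]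
  exact h1

theorem R2a_step (χ : K0 →+* ℤ) (hχ : IsEulerChar χ) {σ : Type} [Finite σ]
    (E : Set (σ → ℂ)) (hE : Constr E) (w : σ → ℤ)
    (hinv : ∀ x ∈ E, ∀ τ : ℂ, τ ≠ 0 → (fun i => τ ^ w i * x i) ∈ E) (i : σ) (hi : w i ≠ 0) :
    χ (cls {x | x ∈ E ∧ x i ≠ 0}) = 0 := by
  have hC : Constr {x | x ∈ E ∧ x i ≠ 0} := R2a_constr hE i
  have key : ∀ v : σ → ℤ, 0 < v i →
      (∀ x ∈ E, ∀ τ : ℂ, τ ≠ 0 → (fun i => τ ^ v i * x i) ∈ E) →
      χ (cls {x | x ∈ E ∧ x i ≠ 0}) = 0 := by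
    intro v hv hvinv
    refine MotMono.Kum.chi_torus χ hχ _ hC v (X i) (v i).toNat (by omega) ?_ ?_ ?_
    · intro x hx τ hτ
      exact ⟨hvinv x hx.1 τ hτ, mul_ne_zero (zpow_ne_zero _ hτ) hx.2⟩
    · intro x hx
      rw [eval_X]
      exact hx.2
    · intro x _ τ _
      rw [eval_X, eval_X, ← zpow_natCast, Int.toNat_of_nonneg hv.le]
  rcases lt_or_gt_of_ne hi with h | h
  · refine key (fun j => - w j) (by simpa using h) ?_
    intro x hx τ hτ
    have h1 := hinv x hx τ⁻¹ (inv_ne_zero hτ)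
    simpa only [inv_zpow, ← zpow_neg] using h1
  · exact key w h hinv

/-- The Euler characteristic of a set with a torus action is the one of the set of fixed
points. -/
theorem chi_fixed (χ : K0 →+* ℤ) (hχ : IsEulerChar χ) {σ : Type} [Finite σ]
    (E : Set (σ → ℂ)) (hE : Constr E) (w : σ → ℤ)
    (hinv : ∀ x ∈ E, ∀ τ : ℂ, τ ≠ 0 → (fun i => τ ^ w i * x i) ∈ E) :
    χ (cls E) = χ (cls {x | x ∈ E ∧ ∀ i, w i ≠ 0 → x i = 0}) := by
  classical
  have : Fintype σ := Fintype.ofFinite σ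
  have key : ∀ T : Finset σ, (∀ i ∈ T, w i ≠ 0) →
      Constr {x | x ∈ E ∧ ∀ i ∈ T, x i = 0} ∧
      χ (cls E) = χ (cls {x | x ∈ E ∧ ∀ i ∈ T, x i = 0}) := by
    intro T
    induction T using Finset.induction_on with
    | empty =>
      intro _
      have h1 : {x | x ∈ E ∧ ∀ i ∈ (∅ : Finset σ), x i = 0} = E := by
        ext x
        simp
      rw [h1]
      exact ⟨hE, rfl⟩
    | insert i T hi ih =>
      intro hT
      obtain ⟨h1, h2⟩ := ih fun j hj => hT j (Finset.mem_insert_of_mem hj)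
      have h3 : Constr {x | x ∈ E ∧ ∀ j ∈ insert i T, x j = 0} := by
        have h4 := h1.inter (constr_eq (X i : MvPolynomial σ ℂ) 0)
        have h5 : {x | x ∈ E ∧ ∀ j ∈ insert i T, x j = 0} =
            {x | x ∈ E ∧ ∀ j ∈ T, x j = 0} ∩
              {x | eval x (X i : MvPolynomial σ ℂ) = eval x 0} := by
          ext x
          simp only [Finset.mem_insert, forall_eq_or_imp, Set.mem_inter_iff, Set.mem_ofPred_eq,
            eval_X, map_zero]
          tauto
        rw [h5]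
        exact h4
      have h6 : Constr {x | x ∈ {x | x ∈ E ∧ ∀ j ∈ T, x j = 0} ∧ x i ≠ 0} := R2a_constr h1 i
      refine ⟨h3, ?_⟩
      rw [h2]
      have h8 : {x | x ∈ E ∧ ∀ j ∈ T, x j = 0} =
          {x | x ∈ E ∧ ∀ j ∈ insert i T, x j = 0} ∪
            {x | x ∈ {x | x ∈ E ∧ ∀ j ∈ T, x j = 0} ∧ x i ≠ 0} := by
        ext x
        simp only [Finset.mem_insert, forall_eq_or_imp, Set.mem_union, Set.mem_ofPred_eq]
        tauto
      have h9 := cls_union h3 h6 (by
        rw [Set.disjoint_left]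
        intro x hx hx'
        exact hx'.2 (hx.2 i (Finset.mem_insert_self _ _)))
      have h10 := R2a_step χ hχ _ h1 w (by
        intro x hx τ hτ
        refine ⟨hinv x hx.1 τ hτ, fun j hj => ?_⟩
        show τ ^ w j * x j = 0
        rw [hx.2 j hj, mul_zero]) i (hT i (Finset.mem_insert_self _ _))
      rw [← h8] at h9
      rw [h9, map_add, h10, add_zero]
  have h1 := (key (Finset.univ.filter fun i => w i ≠ 0) (by
    intro i hi
    exact (Finset.mem_filter.1 hi).2)).2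
  rw [h1]
  congr 2
  ext x
  simp only [Finset.mem_filter, Finset.mem_univ, true_and]

end MotMono.Mon
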