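import Pool.Agent.Lib.MP_4e5fcd_ag.Mon.Defs

/-! # MON-H1: independent conditions on the fibres of a map of coordinates -/

open MvPolynomial

namespace MotMono.Mon

theorem constr_fibers {σ κ : Type} [Finite σ] [Fintype κ] (π : σ → κ)
    (G : ∀ k, Set ({x // π x = k} → ℂ)) (hG : ∀ k, Constr (G k)) :
    Constr {v : σ → ℂ | ∀ k, (fun x : {x // π x = k} => v x.1) ∈ G k} := by
  have e : {v : σ → ℂ | ∀ k, (fun x : {x // π x = k} => v x.1) ∈ G k} =
      ⋂ k, {v : σ → ℂ | (fun x : {x // π x = k} => v x.1) ∈ G k} := by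
    ext v; simp
  rw [e]
  exact constr_iInter fun k => (hG k).comp Subtype.val

private theorem H1_constr_sigma {κ : Type} [Finite κ] (τ : κ → Type)
    (G : ∀ k, Set (τ k → ℂ)) (hG : ∀ k, Constr (G k)) :
    Constr {v : (Σ k, τ k) → ℂ | ∀ k, (fun x : τ k => v ⟨k, x⟩) ∈ G k} := by
  have e : {v : (Σ k, τ k) → ℂ | ∀ k, (fun x : τ k => v ⟨k, x⟩) ∈ G k} =
      ⋂ k, {v : (Σ k, τ k) → ℂ | (fun x : τ k => v ⟨k, x⟩) ∈ G k} := by
    ext v; simp
  rw [e]
  exact constr_iInter fun k => (hG k).comp (Sigma.mk k)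

private theorem H1_sigma (n : ℕ) : ∀ (τ : Fin n → Type) [∀ k, Finite (τ k)]
    (G : ∀ k, Set (τ k → ℂ)), (∀ k, Constr (G k)) →
    cls {v : (Σ k, τ k) → ℂ | ∀ k, (fun x : τ k => v ⟨k, x⟩) ∈ G k} = ∏ k, cls (G k) := by
  induction n with
  | zero =>
    intro τ _ G hG
    have h : {v : (Σ k, τ k) → ℂ | ∀ k, (fun x : τ k => v ⟨k, x⟩) ∈ G k} = {0} := by
      ext v
      simp only [Set.mem_ofPred_eq, Set.mem_singleton_iff]
      refine ⟨fun _ => ?_, fun _ l => l.elim0⟩
      funext x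
      exact x.1.elim0
    rw [h, cls_singleton]
    simp
  | succ n ih =>
    intro τ _ G hG
    have hG' : ∀ l : Fin n, Constr (G l.succ) := fun l => hG l.succ
    rw [Fin.prod_univ_succ, ← ih (fun l => τ l.succ) (fun l => G l.succ) hG',
      ← cls_prodSet (hG 0) (H1_constr_sigma _ _ hG')]
    refine cls_iso (H1_constr_sigma _ _ hG) ((hG 0).prodSet (H1_constr_sigma _ _ hG')) ?_
    refine ⟨fun v s => Sum.elim (fun x => v ⟨0, x⟩) (fun q => v ⟨q.1.succ, q.2⟩) s,
      fun z q => Fin.cases (motive := fun k => τ k → ℂ) (fun x => z (Sum.inl x))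
        (fun k x => z (Sum.inr ⟨k, x⟩)) q.1 q.2, ?_, ?_, ?_, ?_, ?_, ?_⟩
    · intro s
      rcases s with i | q
      · exact regFun_coord _ _
      · exact regFun_coord _ _
    · rintro ⟨k, x⟩
      revert x
      refine Fin.cases (fun x => ?_) (fun l x => ?_) k
      · exact regFun_coord _ (Sum.inl x)
      · exact regFun_coord _ (Sum.inr (⟨l, x⟩ : Σ l : Fin n, τ l.succ))
    · intro γ hγ
      exact ⟨hγ 0, fun l => hγ l.succ⟩
    · intro z hz l
      refine Fin.cases ?_ (fun l => ?_) l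
      · exact hz.1
      · exact hz.2 l
    · intro γ _
      funext q
      obtain ⟨k, x⟩ := q
      revert x
      refine Fin.cases (fun x => ?_) (fun l x => ?_) k <;> rfl
    · intro z _
      funext s
      rcases s with i | q <;> rfl

theorem cls_fibers {σ κ : Type} [Finite σ] [Fintype κ] (π : σ → κ)
    (G : ∀ k, Set ({x // π x = k} → ℂ)) (hG : ∀ k, Constr (G k)) :
    cls {v : σ → ℂ | ∀ k, (fun x : {x // π x = k} => v x.1) ∈ G k} = ∏ k, cls (G k) := by
  let e := Fintype.equivFin κ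
  have h1 := H1_sigma (Fintype.card κ) (fun k => {x // π x = e.symm k}) (fun k => G (e.symm k))
    (fun k => hG _)
  rw [← Equiv.prod_comp e.symm (fun k => cls (G k)), ← h1]
  refine cls_iso (constr_fibers π G hG) (H1_constr_sigma _ _ fun k => hG _) ?_
  let φ : σ ≃ (Σ k : Fin (Fintype.card κ), {x // π x = e.symm k}) :=
    { toFun := fun x => ⟨e (π x), x, (e.symm_apply_apply _).symm⟩
      invFun := fun q => q.2.1
      left_inv := fun _ => rfl
      right_inv := by
        rintro ⟨k, x, hx⟩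
        obtain rfl : e (π x) = k := by rw [hx, e.apply_symm_apply]
        rfl }
  have h2 := RegIso.reindex φ {v : σ → ℂ | ∀ k, (fun x : {x // π x = k} => v x.1) ∈ G k}
  have h3 : {y : (Σ k : Fin (Fintype.card κ), {x // π x = e.symm k}) → ℂ | (fun i => y (φ i)) ∈
      {v : σ → ℂ | ∀ k, (fun x : {x // π x = k} => v x.1) ∈ G k}} =
      {v : (Σ k : Fin (Fintype.card κ), {x // π x = e.symm k}) → ℂ |
        ∀ k, (fun x : {x // π x = e.symm k} => v ⟨k, x⟩) ∈ G (e.symm k)} := by
    ext y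
    simp only [Set.mem_ofPred_eq]
    have h4 : ∀ k : Fin (Fintype.card κ), (fun x : {x // π x = e.symm k} => y (φ x.1)) =
        fun x => y ⟨k, x⟩ := by
      intro k
      funext x
      exact congrArg y (φ.apply_symm_apply ⟨k, x⟩)
    constructor
    · intro h k
      have := h (e.symm k)
      rwa [h4] at this
    · intro h k
      obtain ⟨k, rfl⟩ := e.symm.surjective k
      rw [h4]
      exact h k
  rwa [h3] at h2

end MotMono.Mon
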