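import Pool.Agent.Lib.MP_4e5fcd_ag.Mon.T3
import Pool.Agent.Lib.MP_4e5fcd_ag.Mon.H1

/-! # MON-H2: the class of a stratum with given orders -/

open MvPolynomial

namespace MotMono.Mon

theorem h2_cls_ne : cls ({x : Unit → ℂ | x () ≠ 0}) = LL - 1 := by
  have h : ({x : Unit → ℂ | x () ≠ 0}) = Set.univ \ {0} := by
    ext x
    simp only [Set.mem_ofPred_eq, Set.mem_sdiff, Set.mem_univ, true_and, Set.mem_singleton_iff]
    refine ⟨fun h h2 => h (by rw [h2]; rfl), fun h h2 => h ?_⟩
    funext u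
    exact h2
  rw [h, cls_diff constr_univ (constr_singleton 0) (Set.subset_univ _), cls_singleton]
  rfl

open Classical in
/-- the class of a box with factors a point, the punctured line and the line -/
theorem h2_box {σ : Type} [Fintype σ] (Z F : σ → Prop) :
    Constr {w : σ → ℂ | ∀ x, (Z x → w x = 0) ∧ (¬ Z x → F x → w x ≠ 0)} ∧
    cls {w : σ → ℂ | ∀ x, (Z x → w x = 0) ∧ (¬ Z x → F x → w x ≠ 0)} =
      ∏ x, (if Z x then 1 else if F x then LL - 1 else LL) := by
  let G : σ → Set (Unit → ℂ) := fun x =>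
    if Z x then {0} else if F x then {y | y () ≠ 0} else Set.univ
  have hG : ∀ x, Constr (G x) := by
    intro x
    simp only [G]
    split_ifs
    · exact constr_singleton 0
    · have := constr_ne (X () : MvPolynomial Unit ℂ)
      simpa using this
    · exact constr_univ
  have hcl : ∀ x, cls (G x) = if Z x then 1 else if F x then LL - 1 else LL := by
    intro x
    simp only [G]
    split_ifs
    · exact cls_singleton 0
    · exact h2_cls_ne
    · rfl
  have h1 := cls_levels hG
  have e : {y : Unit × σ → ℂ | (fun i => y ((Equiv.punitProd σ).symm i)) ∈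
      {w : σ → ℂ | ∀ x, (Z x → w x = 0) ∧ (¬ Z x → F x → w x ≠ 0)}} =
      {γ : Unit × σ → ℂ | ∀ l, (fun i => γ (i, l)) ∈ G l} := by
    ext y
    simp only [Set.mem_ofPred_eq]
    refine forall_congr' fun x => ?_
    simp only [G]
    have hx : ((Equiv.punitProd σ).symm x) = ((), x) := rfl
    rw [hx]
    by_cases hz : Z x
    · simp only [hz, true_imp_iff, not_true, false_imp_iff, and_true, if_true,
        Set.mem_singleton_iff]
      refine ⟨fun h => ?_, fun h => congrFun h ()⟩
      funext u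
      exact h
    · by_cases hf : F x
      · simp [hz, hf]
      · simp [hz, hf]
  have hr := RegIso.reindex (Equiv.punitProd σ).symm
    {w : σ → ℂ | ∀ x, (Z x → w x = 0) ∧ (¬ Z x → F x → w x ≠ 0)}
  rw [e] at hr
  have hc : Constr {w : σ → ℂ | ∀ x, (Z x → w x = 0) ∧ (¬ Z x → F x → w x ≠ 0)} := by
    have := (constr_levels hG).comp (fun q : Unit × σ => q.2)
    have h3 : {x : σ → ℂ | (fun j : Unit × σ => x j.2) ∈
        {γ : Unit × σ → ℂ | ∀ l, (fun i => γ (i, l)) ∈ G l}} =
        {w : σ → ℂ | ∀ x, (Z x → w x = 0) ∧ (¬ Z x → F x → w x ≠ 0)} := by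
      rw [← e]
      rfl
    rwa [h3] at this
  refine ⟨hc, ?_⟩
  rw [cls_iso hc (constr_levels hG) hr, h1]
  exact Finset.prod_congr rfl fun x _ => hcl x

variable {N s : ℕ} (D : Data N s)

/-- the blocks which start at level `e` or later -/
def Data.As (o : Fin N → ℕ) (e : ℕ) : Finset (Fin s) :=
  Finset.univ.filter fun i => e ≤ nuv D.β D.d o i

theorem h2_fr_mem (l : Fin N) : l ∈ D.fr ↔ (D.d l = 1 ∧ D.b l = 0) ∧
    ∀ l', l' < l → D.β l' = D.β l → ¬ (D.d l' = 1 ∧ D.b l' = 0) := by
  simp [Data.fr]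

theorem piv_spec (i : Fin s) : D.β (D.piv i) = i := by
  unfold Data.piv
  split_ifs with h
  · exact h.choose_spec.2
  · exact (D.hβ i).choose_spec

theorem h2_fr_unique (l l' : Fin N) (hl : l ∈ D.fr) (hl' : l' ∈ D.fr) (h : D.β l = D.β l') :
    l = l' := by
  rw [h2_fr_mem] at hl hl'
  rcases lt_trichotomy l l' with h1 | h1 | h1
  · exact absurd hl.1 (hl'.2 l h1 h)
  · exact h1
  · exact absurd hl'.1 (hl.2 l' h1 h.symm)

theorem fr_spec (l : Fin N) (hl : l ∈ D.fr) : l = D.piv (D.β l) ∧ D.d l = 1 ∧ D.b l = 0 := by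
  refine ⟨?_, ((h2_fr_mem D l).1 hl).1⟩
  have h : ∃ l' ∈ D.fr, D.β l' = D.β l := ⟨l, hl, rfl⟩
  unfold Data.piv
  rw [dif_pos h]
  exact h2_fr_unique D _ _ hl h.choose_spec.1 h.choose_spec.2.symm

theorem h2_PC (n c : ℕ) : PC (N := N) (s := s) (n := n)
    fun _ z => ∀ e : Fin n, (e : ℕ) < c → z e ∈ D.W :=
  PC.all fun e => PC.imp _ (PC.mem D.W e)

theorem h2_set_eq (o : Fin N → ℕ) (n c : ℕ) (hc : c ≤ n) :
    {γ : Fin N × Fin n → ℂ | γ ∈ Yset D.fr o n ∧ ∀ e < c, zc D.β D.d γ e ∈ D.W} =
      {γ | γ ∈ Yset D.fr o n ∧ (fun (_ : Fin N → ℂ) (z : Fin n → Fin s → ℂ) =>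
        ∀ e : Fin n, (e : ℕ) < c → z e ∈ D.W) (lc o γ) (fun e => zc D.β D.d γ e)} := by
  ext γ
  simp only [Set.mem_ofPred_eq]
  refine and_congr_right fun _ => ⟨fun h e he => h e he, fun h e he => h ⟨e, by omega⟩ he⟩

theorem constr_stratum (o : Fin N → ℕ) (n c : ℕ) :
    Constr {γ : Fin N × Fin n → ℂ | γ ∈ Yset D.fr o n ∧ ∀ e < c, zc D.β D.d γ e ∈ D.W} := by
  have h1 : Constr (⋂ e : Fin c, {γ : Fin N × Fin n → ℂ | zc D.β D.d γ e ∈ D.W}) := by
    refine constr_iInter fun e => ?_
    choose P hP using fun i : Fin s => exists_poly_zc (n := n) D.β D.d (e : ℕ) i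
    have := (constr_submodule D.W).preimage P
    have h2 : {x : Fin N × Fin n → ℂ | (fun j => eval x (P j)) ∈ (D.W : Set (Fin s → ℂ))} =
        {γ : Fin N × Fin n → ℂ | zc D.β D.d γ e ∈ D.W} := by
      ext γ
      simp only [Set.mem_ofPred_eq, SetLike.mem_coe]
      have : (fun j => eval γ (P j)) = zc D.β D.d γ e := by
        funext j
        exact hP j γ
      rw [this]
    rwa [h2] at this
  have h3 := (constr_Yset (n := n) D.fr o).inter h1
  have h4 : Yset D.fr o n ∩ (⋂ e : Fin c, {γ : Fin N × Fin n → ℂ | zc D.β D.d γ e ∈ D.W}) =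
      {γ : Fin N × Fin n → ℂ | γ ∈ Yset D.fr o n ∧ ∀ e < c, zc D.β D.d γ e ∈ D.W} := by
    ext γ
    simp only [Set.mem_inter_iff, Set.mem_iInter, Set.mem_ofPred_eq]
    exact and_congr_right fun _ => ⟨fun h e he => h ⟨e, he⟩, fun h e => h e e.2⟩
  rwa [h4] at h3

open Classical in
/-- the class of a level -/
theorem h2_constr_Gset (A A' : Finset (Fin s)) : Constr (D.Gset A A') := by
  have h1 : Constr {v : Fin N → ℂ | ∀ x, (D.β x ∈ A' → v x = 0) ∧
      (¬ D.β x ∈ A' → (D.β x ∈ A ∧ x ∉ D.fr) → v x ≠ 0)} :=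
    (h2_box (fun x => D.β x ∈ A') (fun x => D.β x ∈ A ∧ x ∉ D.fr)).1
  let P : Fin s → MvPolynomial (Fin N) ℂ := fun i =>
    if i ∈ A' then 0 else if i ∈ A then ∏ l ∈ D.B i, X l ^ D.d l else X (D.piv i)
  have h2 := (constr_submodule D.W).preimage P
  have h3 := h1.inter h2
  have h4 : {v : Fin N → ℂ | ∀ x, (D.β x ∈ A' → v x = 0) ∧
      (¬ D.β x ∈ A' → (D.β x ∈ A ∧ x ∉ D.fr) → v x ≠ 0)} ∩
      {x : Fin N → ℂ | (fun j => eval x (P j)) ∈ (D.W : Set (Fin s → ℂ))} = D.Gset A A' := by
    ext v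
    have hv : (fun j => eval v (P j)) = D.zz A A' v := by
      funext i
      simp only [P, Data.zz]
      split_ifs <;> simp
    simp only [Set.mem_inter_iff, Set.mem_ofPred_eq, SetLike.mem_coe, hv, Data.Gset]
    constructor
    · rintro ⟨h1, h2⟩
      exact ⟨fun l => (h1 l).1, fun l ha hb hc => (h1 l).2 hb ⟨ha, hc⟩, h2⟩
    · rintro ⟨h1, h2, h3⟩
      exact ⟨fun l => ⟨h1 l, fun hb ha => h2 l ha.1 hb ha.2⟩, h3⟩
  rwa [h4] at h3

/-! the fibres -/

section fib

variable (o : Fin N → ℕ) (n c : ℕ)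

open Classical in
/-- the level of a coordinate (if it is less than `c`) -/
noncomputable def h2_pi (x : Fin N × Fin n) : Option (Fin c) :=
  if h : o x.1 ≤ (x.2 : ℕ) ∧ nuv D.β D.d o (D.β x.1) + ((x.2 : ℕ) - o x.1) < c then
    some ⟨nuv D.β D.d o (D.β x.1) + ((x.2 : ℕ) - o x.1), h.2⟩ else none

theorem h2_pi_some (x : Fin N × Fin n) (e : Fin c) : h2_pi D o n c x = some e ↔
    o x.1 ≤ (x.2 : ℕ) ∧ nuv D.β D.d o (D.β x.1) + ((x.2 : ℕ) - o x.1) = e := by
  unfold h2_pi
  split_ifs with h
  · rw [Option.some_inj, Fin.ext_iff]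
    exact ⟨fun h2 => ⟨h.1, h2⟩, fun h2 => h2.2⟩
  · simp only [false_iff]
    rintro ⟨h1, h2⟩
    exact h ⟨h1, h2 ▸ e.2⟩

theorem h2_pi_none (x : Fin N × Fin n) : h2_pi D o n c x = none ↔
    ¬ (o x.1 ≤ (x.2 : ℕ) ∧ nuv D.β D.d o (D.β x.1) + ((x.2 : ℕ) - o x.1) < c) := by
  unfold h2_pi
  split_ifs with h <;> simp [h]

open Classical in
/-- extension by zero -/
noncomputable def h2_ext (k : Option (Fin c)) (w : {x // h2_pi D o n c x = k} → ℂ)
    (x : Fin N × Fin n) : ℂ := if h : h2_pi D o n c x = k then w ⟨x, h⟩ else 0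

/-- the conditions -/
def h2_G (k : Option (Fin c)) : Set ({x // h2_pi D o n c x = k} → ℂ) :=
  match k with
  | some e => {w | (∀ l, l ∉ D.fr → nuv D.β D.d o (D.β l) = e →
      lc o (h2_ext D o n c (some e) w) l ≠ 0) ∧
        zv D.β D.d D.piv o (h2_ext D o n c (some e) w) e ∈ D.W}
  | none => {w | (∀ l (j : Fin n), (j : ℕ) < o l → h2_ext D o n c none w (l, j) = 0) ∧
      ∀ l, l ∉ D.fr → ∀ h : o l < n, c ≤ nuv D.β D.d o (D.β l) →
        h2_ext D o n c none w (l, ⟨o l, h⟩) ≠ 0}

theorem h2_le_nuv (l : Fin N) : o l ≤ nuv D.β D.d o (D.β l) := by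
  unfold nuv
  have h1 : D.d l * o l ≤ ∑ l' ∈ Finset.univ.filter (fun l' => D.β l' = D.β l), D.d l' * o l' :=
    Finset.single_le_sum (f := fun l' => D.d l' * o l') (fun _ _ => Nat.zero_le _) (by simp)
  exact (Nat.le_mul_of_pos_left _ (D.hd l)).trans h1

/-- the extension by zero of the restriction to a level has the same data at this level -/
theorem h2_lc (hc : c ≤ n) (v : Fin N × Fin n → ℂ) (e : Fin c) (l : Fin N)
    (hl : nuv D.β D.d o (D.β l) = e) :
    lc o (h2_ext D o n c (some e) fun x => v x.1) l = lc o v l := by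
  unfold lc
  split_ifs with h
  · unfold h2_ext
    rw [dif_pos]
    rw [h2_pi_some]
    simp [hl]
  · rfl

theorem h2_zv (hc : c ≤ n) (v : Fin N × Fin n → ℂ) (e : Fin c) :
    zv D.β D.d D.piv o (h2_ext D o n c (some e) fun x => v x.1) e =
      zv D.β D.d D.piv o v e := by
  funext i
  unfold zv
  split_ifs with h1 h2 h3
  · rfl
  · refine Finset.prod_congr rfl fun l hl => ?_
    rw [h2_lc D o n c hc v e l]
    rw [Finset.mem_filter] at hl
    rw [hl.2, ← h2]
  · unfold h2_ext
    rw [dif_pos]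
    rw [h2_pi_some]
    simp only
    have := piv_spec D i
    rw [this]
    omega
  · rfl

theorem h2_mem_iff (hc : c ≤ n) (v : Fin N × Fin n → ℂ) :
    (v ∈ Yset D.fr o n ∧ ∀ e : Fin n, (e : ℕ) < c → zv D.β D.d D.piv o v e ∈ D.W) ↔
      ∀ k, (fun x : {x // h2_pi D o n c x = k} => v x.1) ∈ h2_G D o n c k := by
  constructor
  · rintro ⟨⟨h1, h2⟩, h3⟩ k
    rcases k with _ | e
    · refine ⟨fun l j hj => ?_, fun l hl h hcl => ?_⟩
      · unfold h2_ext
        split_ifs
        · exact h1 l j hj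
        · rfl
      · unfold h2_ext
        rw [dif_pos]
        · exact h2 l hl h
        · rw [h2_pi_none]
          simp only
          omega
    · refine ⟨fun l hl hle => ?_, ?_⟩
      · rw [h2_lc D o n c hc v e l hle]
        have hol := h2_le_nuv D o l
        have : o l < n := by have := e.2; omega
        unfold lc
        rw [dif_pos this]
        exact h2 l hl this
      · rw [h2_zv D o n c hc v e]
        exact h3 ⟨e, by have := e.2; omega⟩ e.2
  · intro h
    refine ⟨⟨fun l j hj => ?_, fun l hl hn => ?_⟩, fun e he => ?_⟩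
    · have h0 := (h none).1 l j hj
      unfold h2_ext at h0
      rw [dif_pos] at h0
      · exact h0
      · rw [h2_pi_none]
        simp only
        omega
    · by_cases hcl : c ≤ nuv D.β D.d o (D.β l)
      · have h0 := (h none).2 l hl hn hcl
        unfold h2_ext at h0
        rw [dif_pos] at h0
        · exact h0
        · rw [h2_pi_none]
          simp only
          omega
      · have h0 := (h (some ⟨nuv D.β D.d o (D.β l), by omega⟩)).1 l hl rfl
        rw [h2_lc D o n c hc v _ l rfl] at h0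
        unfold lc at h0
        rwa [dif_pos hn] at h0
    · have h0 := (h (some ⟨e, he⟩)).2
      rw [h2_zv D o n c hc v _] at h0
      exact h0

/-- polynomial for the leading coefficients -/
noncomputable def h2_lcP (l : Fin N) : MvPolynomial (Fin N × Fin n) ℂ :=
  if h : o l < n then X (l, ⟨o l, h⟩) else 0

/-- polynomial for the coefficient vectors -/
noncomputable def h2_zvP (e : ℕ) (i : Fin s) : MvPolynomial (Fin N × Fin n) ℂ :=
  if e < nuv D.β D.d o i then 0
  else if e = nuv D.β D.d o i then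
    ∏ l ∈ Finset.univ.filter (fun l => D.β l = i), h2_lcP o n l ^ D.d l
  else if h : e - nuv D.β D.d o i + o (D.piv i) < n then
    X (D.piv i, ⟨e - nuv D.β D.d o i + o (D.piv i), h⟩)
  else 0

theorem h2_eval_lcP (l : Fin N) (v : Fin N × Fin n → ℂ) : eval v (h2_lcP o n l) = lc o v l := by
  unfold h2_lcP lc
  split_ifs <;> simp

theorem h2_eval_zvP (e : ℕ) (i : Fin s) (v : Fin N × Fin n → ℂ) :
    eval v (h2_zvP D o n e i) = zv D.β D.d D.piv o v e i := by
  unfold h2_zvP zv
  split_ifs
  · simp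
  · rw [map_prod]
    simp [h2_eval_lcP]
  · simp
  · simp

/-- extension by zero is polynomial -/
noncomputable def h2_extP (k : Option (Fin c)) (x : Fin N × Fin n) :
    MvPolynomial {x // h2_pi D o n c x = k} ℂ := by
  classical
  exact if h : h2_pi D o n c x = k then X ⟨x, h⟩ else 0

theorem h2_eval_extP (k : Option (Fin c)) (w : {x // h2_pi D o n c x = k} → ℂ) :
    (fun x => eval w (h2_extP D o n c k x)) = h2_ext D o n c k w := by
  funext x
  unfold h2_extP h2_ext
  split_ifs <;> simp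

theorem h2_constr_G (k : Option (Fin c)) : Constr (h2_G D o n c k) := by
  rcases k with _ | e
  · have h1 : Constr {v : Fin N × Fin n → ℂ | ∀ x, (((x.2 : ℕ) < o x.1) → v x = 0) ∧
        (¬ ((x.2 : ℕ) < o x.1) → (x.1 ∉ D.fr ∧ (x.2 : ℕ) = o x.1 ∧
          c ≤ nuv D.β D.d o (D.β x.1)) → v x ≠ 0)} := by
      classical
      exact (h2_box (fun x : Fin N × Fin n => (x.2 : ℕ) < o x.1)
        (fun x => x.1 ∉ D.fr ∧ (x.2 : ℕ) = o x.1 ∧ c ≤ nuv D.β D.d o (D.β x.1))).1
    have h2 := h1.preimage (h2_extP D o n c none)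
    have h3 : {w : {x // h2_pi D o n c x = none} → ℂ |
        (fun j => eval w (h2_extP D o n c none j)) ∈
          {v : Fin N × Fin n → ℂ | ∀ x, (((x.2 : ℕ) < o x.1) → v x = 0) ∧
        (¬ ((x.2 : ℕ) < o x.1) → (x.1 ∉ D.fr ∧ (x.2 : ℕ) = o x.1 ∧
          c ≤ nuv D.β D.d o (D.β x.1)) → v x ≠ 0)}} = h2_G D o n c none := by
      ext w
      simp only [Set.mem_ofPred_eq, h2_eval_extP, h2_G]
      constructor
      · intro h
        refine ⟨fun l j hj => (h (l, j)).1 hj, fun l hl hn hcl => ?_⟩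
        exact (h (l, ⟨o l, hn⟩)).2 (by simp) ⟨hl, rfl, hcl⟩
      · rintro ⟨ha, hb⟩ ⟨l, j⟩
        refine ⟨fun hj => ha l j hj, fun _ h => ?_⟩
        obtain ⟨h4, h5, h6⟩ := h
        simp only at h4 h5 h6
        have hn : o l < n := h5 ▸ j.2
        have : j = ⟨o l, hn⟩ := Fin.ext h5
        rw [this]
        exact hb l h4 hn h6
    rwa [h3] at h2
  · have h1 : Constr ((⋂ l : Fin N, {v : Fin N × Fin n → ℂ | l ∉ D.fr →
        nuv D.β D.d o (D.β l) = e → eval v (h2_lcP o n l) ≠ 0}) ∩
        {v | (fun i => eval v (h2_zvP D o n e i)) ∈ (D.W : Set (Fin s → ℂ))}) := by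
      refine (constr_iInter fun l => ?_).inter ((constr_submodule D.W).preimage _)
      by_cases h : l ∉ D.fr ∧ nuv D.β D.d o (D.β l) = e
      · have := constr_ne (h2_lcP o n l)
        simpa [h.1, h.2] using this
      · have : {v : Fin N × Fin n → ℂ | l ∉ D.fr →
            nuv D.β D.d o (D.β l) = e → eval v (h2_lcP o n l) ≠ 0} = Set.univ := by
          ext v
          simp only [Set.mem_ofPred_eq, Set.mem_univ, iff_true]
          intro h1 h2
          exact absurd ⟨h1, h2⟩ h
        rw [this]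
        exact constr_univ
    have h2 := h1.preimage (h2_extP D o n c (some e))
    have h3 : {w : {x // h2_pi D o n c x = some e} → ℂ |
        (fun j => eval w (h2_extP D o n c (some e) j)) ∈
          ((⋂ l : Fin N, {v : Fin N × Fin n → ℂ | l ∉ D.fr →
        nuv D.β D.d o (D.β l) = e → eval v (h2_lcP o n l) ≠ 0}) ∩
        {v | (fun i => eval v (h2_zvP D o n e i)) ∈ (D.W : Set (Fin s → ℂ))})} =
          h2_G D o n c (some e) := by
      ext w
      simp only [Set.mem_ofPred_eq, h2_eval_extP, h2_G, Set.mem_inter_iff, Set.mem_iInter,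
        h2_eval_lcP, SetLike.mem_coe]
      have : (fun i => eval (h2_ext D o n c (some e) w) (h2_zvP D o n e i)) =
          zv D.β D.d D.piv o (h2_ext D o n c (some e) w) e := by
        funext i
        exact h2_eval_zvP D o n e i _
      rw [this]
    rwa [h3] at h2

/-- the vector of the coordinates of a level -/
noncomputable def h2_f (e : Fin c) (w : {x // h2_pi D o n c x = some e} → ℂ) (l : Fin N) : ℂ :=
  if h : nuv D.β D.d o (D.β l) ≤ e ∧ o l + (e - nuv D.β D.d o (D.β l)) < n then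
    h2_ext D o n c (some e) w (l, ⟨o l + (e - nuv D.β D.d o (D.β l)), h.2⟩) else 0

theorem h2_zz_f (hc : c ≤ n) (e : Fin c) (w : {x // h2_pi D o n c x = some e} → ℂ) :
    D.zz (D.As o e) (D.As o (e + 1)) (h2_f D o n c e w) =
      zv D.β D.d D.piv o (h2_ext D o n c (some e) w) e := by
  have he := e.2
  funext i
  unfold Data.zz zv
  simp only [Data.As, Finset.mem_filter, Finset.mem_univ, true_and]
  by_cases h1 : (e : ℕ) < nuv D.β D.d o i
  · rw [if_pos (by omega), if_pos h1]
  · rw [if_neg (by omega), if_neg h1]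
    by_cases h2 : (e : ℕ) = nuv D.β D.d o i
    · rw [if_pos (by omega), if_pos h2]
      refine Finset.prod_congr rfl fun l hl => ?_
      have hl' : D.β l = i := by simpa [Data.B] using hl
      congr 1
      unfold h2_f lc
      have hol := h2_le_nuv D o l
      have e1 : nuv D.β D.d o (D.β l) = e := by rw [hl', ← h2]
      have e2 : o l < n := by omega
      have e3 : nuv D.β D.d o (D.β l) ≤ e ∧ o l + (e - nuv D.β D.d o (D.β l)) < n := by omega
      rw [dif_pos e3, dif_pos e2]
      congr 2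
      apply Fin.ext
      simp only
      omega
    · rw [if_neg (by omega), if_neg h2]
      unfold h2_f
      have hp := piv_spec D i
      have hol := h2_le_nuv D o (D.piv i)
      have e3 : nuv D.β D.d o (D.β (D.piv i)) ≤ e ∧
          o (D.piv i) + (e - nuv D.β D.d o (D.β (D.piv i))) < n := by
        rw [hp] at hol ⊢
        omega
      have e4 : e - nuv D.β D.d o i + o (D.piv i) < n := by
        rw [hp] at e3
        omega
      rw [dif_pos e3, dif_pos e4]
      congr 2
      apply Fin.ext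
      simp only [hp]
      omega

theorem h2_iso_some (hc : c ≤ n) (e : Fin c) :
    RegIso (h2_G D o n c (some e)) (D.Gset (D.As o e) (D.As o (e + 1))) := by
  have he := e.2
  have hfg : ∀ y ∈ D.Gset (D.As o e) (D.As o (e + 1)),
      h2_f D o n c e (fun x => y x.1.1) = y := by
    intro y hy
    funext l
    unfold h2_f
    have hol := h2_le_nuv D o l
    split_ifs with h
    · unfold h2_ext
      rw [dif_pos]
      rw [h2_pi_some]
      simp only
      omega
    · have h0 := hy.1 l
      simp only [Data.As, Finset.mem_filter, Finset.mem_univ, true_and] at h0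
      exact (h0 (by omega)).symm
  have hmem : ∀ w : {x // h2_pi D o n c x = some e} → ℂ,
      w ∈ h2_G D o n c (some e) ↔
        h2_f D o n c e w ∈ D.Gset (D.As o e) (D.As o (e + 1)) := by
    intro w
    have h1 : ∀ l, nuv D.β D.d o (D.β l) = e →
        h2_f D o n c e w l = lc o (h2_ext D o n c (some e) w) l := by
      intro l hl
      have hol := h2_le_nuv D o l
      unfold h2_f lc
      have e2 : o l < n := by omega
      have e3 : nuv D.β D.d o (D.β l) ≤ e ∧ o l + (e - nuv D.β D.d o (D.β l)) < n := by omega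
      rw [dif_pos e3, dif_pos e2]
      congr 2
      apply Fin.ext
      simp only
      omega
    constructor
    · rintro ⟨ha, hb⟩
      refine ⟨fun l hl => ?_, fun l hA hA' hfr => ?_, ?_⟩
      · simp only [Data.As, Finset.mem_filter, Finset.mem_univ, true_and] at hl
        unfold h2_f
        rw [dif_neg (by omega)]
      · simp only [Data.As, Finset.mem_filter, Finset.mem_univ, true_and] at hA hA'
        have : nuv D.β D.d o (D.β l) = e := by omega
        rw [h1 l this]
        exact ha l hfr this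
      · rw [h2_zz_f D o n c hc e w]
        exact hb
    · rintro ⟨ha, hb, hd⟩
      refine ⟨fun l hl hle => ?_, ?_⟩
      · rw [← h1 l hle]
        refine hb l ?_ ?_ hl
        · simp only [Data.As, Finset.mem_filter, Finset.mem_univ, true_and]
          omega
        · simp only [Data.As, Finset.mem_filter, Finset.mem_univ, true_and]
          omega
      · rw [h2_zz_f D o n c hc e w] at hd
        exact hd
  refine ⟨fun w => h2_f D o n c e w, fun v x => v x.1.1, fun l => ?_, fun x => regFun_coord _ _,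
    fun w hw => (hmem w).1 hw, fun v hv => ?_, fun w hw => ?_, fun v hv => hfg v hv⟩
  · by_cases h : nuv D.β D.d o (D.β l) ≤ e ∧ o l + (e - nuv D.β D.d o (D.β l)) < n
    · have h2 : h2_pi D o n c (l, ⟨o l + (e - nuv D.β D.d o (D.β l)), h.2⟩) = some e := by
        rw [h2_pi_some]
        simp only
        omega
      have : (fun w : {x // h2_pi D o n c x = some e} → ℂ => h2_f D o n c e w l) =
          fun w => w ⟨(l, ⟨o l + (e - nuv D.β D.d o (D.β l)), h.2⟩), h2⟩ := by
        funext w
        unfold h2_f h2_ext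
        rw [dif_pos h, dif_pos h2]
      rw [this]
      exact regFun_coord _ _
    · have : (fun w : {x // h2_pi D o n c x = some e} → ℂ => h2_f D o n c e w l) =
          fun _ => 0 := by
        funext w
        unfold h2_f
        rw [dif_neg h]
      rw [this]
      exact regFun_const _ _
  · rw [hmem, hfg v hv]
    exact hv
  · funext x
    obtain ⟨⟨l, j⟩, hx⟩ := x
    have hx' := (h2_pi_some D o n c (l, j) e).1 hx
    simp only at hx'
    have e3 : nuv D.β D.d o (D.β l) ≤ e ∧ o l + (e - nuv D.β D.d o (D.β l)) < n := by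
      have := j.2
      omega
    have e4 : (⟨o l + (e - nuv D.β D.d o (D.β l)), e3.2⟩ : Fin n) = j := by
      apply Fin.ext
      simp only
      omega
    show h2_f D o n c e w l = w ⟨(l, j), hx⟩
    unfold h2_f
    rw [dif_pos e3, e4]
    unfold h2_ext
    rw [dif_pos hx]

theorem h2_iso_none : RegIso (h2_G D o n c none)
    {v : Fin N × Fin n → ℂ | ∀ x, (((x.2 : ℕ) < o x.1 ∨
        nuv D.β D.d o (D.β x.1) + ((x.2 : ℕ) - o x.1) < c) → v x = 0) ∧
      (¬ ((x.2 : ℕ) < o x.1 ∨ nuv D.β D.d o (D.β x.1) + ((x.2 : ℕ) - o x.1) < c) →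
        (x.1 ∉ D.fr ∧ (x.2 : ℕ) = o x.1) → v x ≠ 0)} := by
  have hext : ∀ v ∈ {v : Fin N × Fin n → ℂ | ∀ x, (((x.2 : ℕ) < o x.1 ∨
        nuv D.β D.d o (D.β x.1) + ((x.2 : ℕ) - o x.1) < c) → v x = 0) ∧
      (¬ ((x.2 : ℕ) < o x.1 ∨ nuv D.β D.d o (D.β x.1) + ((x.2 : ℕ) - o x.1) < c) →
        (x.1 ∉ D.fr ∧ (x.2 : ℕ) = o x.1) → v x ≠ 0)},
      h2_ext D o n c none (fun x => v x.1) = v := by
    intro v hv
    funext x
    unfold h2_ext
    split_ifs with h
    · rfl
    · rw [h2_pi_none, not_not] at h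
      exact ((hv x).1 (Or.inr h.2)).symm
  refine ⟨fun w => h2_ext D o n c none w, fun v x => v x.1, fun x => ?_,
    fun x => regFun_coord _ _, fun w hw => ?_, fun v hv => ?_, fun w hw => ?_, hext⟩
  · by_cases h : h2_pi D o n c x = none
    · have : (fun w : {x // h2_pi D o n c x = none} → ℂ => h2_ext D o n c none w x) =
          fun w => w ⟨x, h⟩ := by
        funext w
        unfold h2_ext
        rw [dif_pos h]
      rw [this]
      exact regFun_coord _ _
    · have : (fun w : {x // h2_pi D o n c x = none} → ℂ => h2_ext D o n c none w x) =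
          fun _ => 0 := by
        funext w
        unfold h2_ext
        rw [dif_neg h]
      rw [this]
      exact regFun_const _ _
  · rintro ⟨l, j⟩
    simp only
    constructor
    · rintro (h | h)
      · exact hw.1 l j h
      · by_cases h2 : (j : ℕ) < o l
        · exact hw.1 l j h2
        · unfold h2_ext
          rw [dif_neg]
          rw [h2_pi_none, not_not]
          simp only
          omega
    · intro h1 h2
      have hn : o l < n := h2.2 ▸ j.2
      have hj : j = ⟨o l, hn⟩ := Fin.ext h2.2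
      have := hw.2 l h2.1 hn (by omega)
      rwa [← hj] at this
  · refine ⟨fun l j hj => ?_, fun l hl hn hcl => ?_⟩
    · rw [hext v hv]
      exact (hv (l, j)).1 (Or.inl hj)
    · rw [hext v hv]
      refine (hv (l, ⟨o l, hn⟩)).2 ?_ ⟨hl, rfl⟩
      simp only
      omega
  · funext x
    obtain ⟨x, hx⟩ := x
    show h2_ext D o n c none w x = w ⟨x, hx⟩
    unfold h2_ext
    rw [dif_pos hx]

open Classical in
theorem h2_cls_none : cls (h2_G D o n c none) =
    ∏ l : Fin N, ∏ j : Fin n, (if (j : ℕ) < o l ∨ nuv D.β D.d o (D.β l) + ((j : ℕ) - o l) < c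
      then 1 else if l ∉ D.fr ∧ (j : ℕ) = o l then LL - 1 else LL) := by
  have h := h2_box (σ := Fin N × Fin n) (fun x => ((x.2 : ℕ) < o x.1 ∨
        nuv D.β D.d o (D.β x.1) + ((x.2 : ℕ) - o x.1) < c)) (fun x => x.1 ∉ D.fr ∧ (x.2 : ℕ) = o x.1)
  rw [cls_iso (h2_constr_G D o n c none) h.1 (h2_iso_none D o n c), h.2, Fintype.prod_prod_type]
  refine Finset.prod_congr rfl fun l _ => Finset.prod_congr rfl fun j _ => ?_
  congr!

end fib

theorem h2_map_LL : algebraMap K0 MC LL = ((Lu : MCˣ) : MC) := by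
  unfold Lu
  rw [IsUnit.unit_spec]

theorem h2_LL_Li : algebraMap K0 MC LL * Li = 1 := by
  rw [h2_map_LL]
  unfold Li
  exact Units.mul_inv Lu

open Classical in
/-- the factors belonging to a variable -/
theorem h2_row (o ν n c : ℕ) (f : Prop) (hoν : o ≤ ν) (hon : o ≤ n) (hc : c ≤ n) :
    (∏ j : Fin n, (algebraMap K0 MC (if (j : ℕ) < o ∨ ν + ((j : ℕ) - o) < c
      then 1 else if f ∧ (j : ℕ) = o then LL - 1 else LL) * Li)) =
      Li ^ (c - ν) * ((if c ≤ ν ∧ f ∧ o < n then 1 - Li else 1) * Li ^ o) := by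
  have h1 : ∀ j : Fin n, (algebraMap K0 MC (if (j : ℕ) < o ∨ ν + ((j : ℕ) - o) < c
      then 1 else if f ∧ (j : ℕ) = o then LL - 1 else LL) * Li) =
      (fun j : ℕ => if j < o ∨ ν + (j - o) < c then Li else
        if f ∧ j = o then 1 - Li else 1) j := by
    intro j
    simp only
    split_ifs
    · rw [map_one, one_mul]
    · rw [map_sub, map_one, sub_mul, h2_LL_Li, one_mul]
    · exact h2_LL_Li
  rw [Finset.prod_congr rfl fun j _ => h1 j,
    Fin.prod_univ_eq_prod_range (fun j : ℕ => if j < o ∨ ν + (j - o) < c then Li else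
        if f ∧ j = o then 1 - Li else 1) n]
  obtain ⟨r, rfl⟩ := Nat.exists_eq_add_of_le hon
  rw [Finset.prod_range_add]
  have h2 : ∏ x ∈ Finset.range o, (if x < o ∨ ν + (x - o) < c then Li else
        if f ∧ x = o then 1 - Li else 1) = Li ^ o := by
    rw [Finset.prod_congr rfl (g := fun _ => Li), Finset.prod_const, Finset.card_range]
    intro x hx
    rw [Finset.mem_range] at hx
    rw [if_pos (Or.inl hx)]
  rw [h2]
  have h3 : ∏ x ∈ Finset.range r, (if o + x < o ∨ ν + (o + x - o) < c then Li else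
        if f ∧ o + x = o then 1 - Li else 1) =
      Li ^ (c - ν) * (if c ≤ ν ∧ f ∧ o < o + r then 1 - Li else 1) := by
    have h4 : ∀ x, (if o + x < o ∨ ν + (o + x - o) < c then Li else
        if f ∧ o + x = o then (1 - Li : MC) else 1) =
        (if ν + x < c then Li else if f ∧ x = 0 then 1 - Li else 1) := by
      intro x
      have e1 : (o + x < o ∨ ν + (o + x - o) < c) ↔ ν + x < c := by omega
      have e2 : (o + x = o) ↔ x = 0 := by omega
      simp only [e1, e2]
    rw [Finset.prod_congr rfl fun x _ => h4 x]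
    by_cases hcν : c ≤ ν
    · rw [Nat.sub_eq_zero_of_le hcν, pow_zero, one_mul]
      have h5 : ∀ x, (if ν + x < c then Li else if f ∧ x = 0 then (1 - Li : MC) else 1) =
          if x = 0 then (if f then 1 - Li else 1) else 1 := by
        intro x
        rw [if_neg (by omega)]
        by_cases hx : x = 0 <;> simp [hx]
      rw [Finset.prod_congr rfl fun x _ => h5 x, Finset.prod_ite_eq']
      by_cases hf : f <;> by_cases hr : 0 < r <;> simp [hf, hr, hcν]
    · rw [if_neg (by tauto), mul_one]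
      obtain ⟨t, rfl⟩ : ∃ t, r = (c - ν) + t := ⟨r - (c - ν), by omega⟩
      rw [Finset.prod_range_add]
      have h6 : ∏ x ∈ Finset.range (c - ν),
          (if ν + x < c then Li else if f ∧ x = 0 then (1 - Li : MC) else 1) = Li ^ (c - ν) := by
        rw [Finset.prod_congr rfl (g := fun _ => Li), Finset.prod_const, Finset.card_range]
        intro x hx
        rw [Finset.mem_range] at hx
        rw [if_pos (by omega)]
      have h7 : ∏ x ∈ Finset.range t,
          (if ν + (c - ν + x) < c then Li else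
            if f ∧ c - ν + x = 0 then (1 - Li : MC) else 1) = 1 := by
        refine Finset.prod_eq_one fun x _ => ?_
        rw [if_neg (by omega), if_neg (by omega)]
      rw [h6, h7, mul_one]
  rw [h3]
  ring

/-- counting the coordinates of the levels -/
theorem h2_count (o : Fin N → ℕ) (c : ℕ) :
    ∏ e ∈ Finset.range c, (Li ^ (Finset.univ.filter fun l => D.β l ∉ D.As o (e + 1)).card : MC) =
      ∏ l, Li ^ (c - nuv D.β D.d o (D.β l)) := by
  have h1 : ∀ e, (Li ^ (Finset.univ.filter fun l => D.β l ∉ D.As o (e + 1)).card : MC) =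
      ∏ l : Fin N, if nuv D.β D.d o (D.β l) ≤ e then Li else 1 := by
    intro e
    rw [Finset.prod_ite, Finset.prod_const, Finset.prod_const_one, mul_one]
    congr 2
    ext l
    simp only [Data.As, Finset.mem_filter, Finset.mem_univ, true_and]
    omega
  rw [Finset.prod_congr rfl fun e _ => h1 e, Finset.prod_comm]
  refine Finset.prod_congr rfl fun l _ => ?_
  rw [Finset.prod_ite, Finset.prod_const, Finset.prod_const_one, mul_one]
  congr 1
  have : (Finset.range c).filter (fun e => nuv D.β D.d o (D.β l) ≤ e) =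
      Finset.Ico (nuv D.β D.d o (D.β l)) c := by
    ext e
    simp only [Finset.mem_filter, Finset.mem_range, Finset.mem_Ico]
    omega
  rw [this, Nat.card_Ico]

theorem h2_gg (A A' : Finset (Fin s)) : D.gg A A' = algebraMap K0 MC (cls (D.Gset A A')) *
    Li ^ (Finset.univ.filter fun l => D.β l ∉ A').card := by
  unfold Data.gg Li
  rw [zpow_neg, zpow_natCast, ← inv_pow, Units.val_pow_eq_pow_val]

theorem cls_stratum (o : Fin N → ℕ) (n c : ℕ) (hc : c ≤ n) (hfr : ∀ l ∈ D.fr, o l = 1)
    (ho : ∀ l, 1 ≤ o l) (hon : ∀ l, o l ≤ n) :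
    algebraMap K0 MC (cls {γ : Fin N × Fin n → ℂ | γ ∈ Yset D.fr o n ∧
        ∀ e < c, zc D.β D.d γ e ∈ D.W}) * ((Lu ^ (-(N * n : ℤ)) : MCˣ) : MC) =
      (∏ e ∈ Finset.range c, D.gg (D.As o e) (D.As o (e + 1))) *
        ∏ l, (if c ≤ nuv D.β D.d o (D.β l) ∧ l ∉ D.fr ∧ o l < n then 1 - Li else 1) *
          Li ^ o l := by
  classical
  rw [h2_set_eq D o n c hc, cls_theta D.β D.d D.hd D.piv (piv_spec D) D.fr
    (fun l hl => ⟨(fr_spec D l hl).1, (fr_spec D l hl).2.1⟩) o _ (h2_PC D n c)]
  have h1 : {v | v ∈ Yset D.fr o n ∧ (fun (_ : Fin N → ℂ) (z : Fin n → Fin s → ℂ) =>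
        ∀ e : Fin n, (e : ℕ) < c → z e ∈ D.W) (lc o v) (fun e => zv D.β D.d D.piv o v e)} =
      {v : Fin N × Fin n → ℂ | ∀ k, (fun x : {x // h2_pi D o n c x = k} => v x.1) ∈
        h2_G D o n c k} := by
    ext v
    exact h2_mem_iff D o n c hc v
  rw [h1, cls_fibers (h2_pi D o n c) (h2_G D o n c) (h2_constr_G D o n c), Fintype.prod_option,
    map_mul, map_prod]
  have h2 : ∀ e : Fin c, algebraMap K0 MC (cls (h2_G D o n c (some e))) =
      (fun e : ℕ => algebraMap K0 MC (cls (D.Gset (D.As o e) (D.As o (e + 1))))) e := by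
    intro e
    simp only
    rw [cls_iso (h2_constr_G D o n c (some e)) (h2_constr_Gset D _ _) (h2_iso_some D o n c hc e)]
  rw [Finset.prod_congr rfl fun e _ => h2 e, Fin.prod_univ_eq_prod_range
    (fun e : ℕ => algebraMap K0 MC (cls (D.Gset (D.As o e) (D.As o (e + 1))))) c,
    h2_cls_none, map_prod]
  have h3 : ((Lu ^ (-(N * n : ℤ)) : MCˣ) : MC) = ∏ _l : Fin N, ∏ _j : Fin n, Li := by
    unfold Li
    rw [Finset.prod_const, Finset.prod_const, Finset.card_univ, Finset.card_univ, Fintype.card_fin,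
      Fintype.card_fin, ← pow_mul, zpow_neg, ← Nat.cast_mul, zpow_natCast, ← inv_pow,
      Units.val_pow_eq_pow_val, mul_comm n N]
  have h4 : (∏ e ∈ Finset.range c, D.gg (D.As o e) (D.As o (e + 1))) =
      (∏ e ∈ Finset.range c, algebraMap K0 MC (cls (D.Gset (D.As o e) (D.As o (e + 1))))) *
        ∏ l, Li ^ (c - nuv D.β D.d o (D.β l)) := by
    rw [← h2_count, ← Finset.prod_mul_distrib]
    exact Finset.prod_congr rfl fun e _ => h2_gg D _ _
  rw [h3, h4]
  have h5 : ((∏ l : Fin N, algebraMap K0 MC (∏ j : Fin n, if (j : ℕ) < o l ∨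
      nuv D.β D.d o (D.β l) + ((j : ℕ) - o l) < c then 1 else
        if l ∉ D.fr ∧ (j : ℕ) = o l then LL - 1 else LL)) * ∏ _l : Fin N, ∏ _j : Fin n, Li) =
      (∏ l, Li ^ (c - nuv D.β D.d o (D.β l))) * ∏ l, (if c ≤ nuv D.β D.d o (D.β l) ∧ l ∉ D.fr ∧
        o l < n then 1 - Li else 1) * Li ^ o l := by
    rw [← Finset.prod_mul_distrib, ← Finset.prod_mul_distrib]
    refine Finset.prod_congr rfl fun l _ => ?_
    rw [map_prod, ← Finset.prod_mul_distrib]
    convert h2_row (o l) (nuv D.β D.d o (D.β l)) n c (l ∉ D.fr) (h2_le_nuv D o l) (hon l) hc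
  rw [mul_right_comm, h5]
  ring

end MotMono.Mon
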