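import Pool.Agent.Lib.MP_4e5fcd_ag.Mon.T2

/-! # MON-T3: constructibility, and classes of sets given by the coefficient vectors -/

open MvPolynomial

namespace MotMono.Mon

variable {N s n : ℕ}

/-- a constructible condition on leading coefficients and coefficient vectors -/
def PC (P : (Fin N → ℂ) → (Fin n → Fin s → ℂ) → Prop) : Prop :=
  Constr {w : Fin N ⊕ Fin n × Fin s → ℂ | P (fun l => w (Sum.inl l)) fun e i => w (Sum.inr (e, i))}

theorem constr_Yset (Fr : Finset (Fin N)) (o : Fin N → ℕ) : Constr (Yset Fr o n) := by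
  have h1 : Constr (⋂ q : Fin N × Fin n, {γ : Fin N × Fin n → ℂ | (q.2 : ℕ) < o q.1 → γ q = 0}) := by
    refine constr_iInter fun q => ?_
    by_cases h : (q.2 : ℕ) < o q.1
    · have h2 := Constr.zeroSet (X q : MvPolynomial (Fin N × Fin n) ℂ)
      have e : {x : Fin N × Fin n → ℂ | eval x (X q : MvPolynomial (Fin N × Fin n) ℂ) = 0} =
          {γ : Fin N × Fin n → ℂ | (q.2 : ℕ) < o q.1 → γ q = 0} := by
        ext x
        rw [Set.mem_ofPred_eq, Set.mem_ofPred_eq, eval_X]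
        exact ⟨fun h3 _ => h3, fun h3 => h3 h⟩
      rwa [e] at h2
    · have e : {γ : Fin N × Fin n → ℂ | (q.2 : ℕ) < o q.1 → γ q = 0} = Set.univ := by
        ext x
        rw [Set.mem_ofPred_eq]
        exact ⟨fun _ => Set.mem_univ _, fun _ h3 => absurd h3 h⟩
      rw [e]
      exact constr_univ
  have h2 : Constr (⋂ l : Fin N, {γ : Fin N × Fin n → ℂ |
      l ∉ Fr → ∀ h : o l < n, γ (l, ⟨o l, h⟩) ≠ 0}) := by
    refine constr_iInter fun l => ?_
    by_cases h : l ∉ Fr ∧ o l < n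
    · have h2 := constr_ne (X (l, ⟨o l, h.2⟩) : MvPolynomial (Fin N × Fin n) ℂ)
      have e : {x : Fin N × Fin n → ℂ |
          eval x (X (l, ⟨o l, h.2⟩) : MvPolynomial (Fin N × Fin n) ℂ) ≠ 0} =
          {γ : Fin N × Fin n → ℂ | l ∉ Fr → ∀ h : o l < n, γ (l, ⟨o l, h⟩) ≠ 0} := by
        ext x
        rw [Set.mem_ofPred_eq, Set.mem_ofPred_eq, eval_X]
        exact ⟨fun h3 _ _ => h3, fun h3 => h3 h.1 h.2⟩
      rwa [e] at h2
    · have e : {γ : Fin N × Fin n → ℂ | l ∉ Fr → ∀ h : o l < n, γ (l, ⟨o l, h⟩) ≠ 0} =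
          Set.univ := by
        ext x
        rw [Set.mem_ofPred_eq]
        exact ⟨fun _ => Set.mem_univ _, fun _ h3 h4 => absurd ⟨h3, h4⟩ h⟩
      rw [e]
      exact constr_univ
  have e : Yset Fr o n = (⋂ q : Fin N × Fin n, {γ : Fin N × Fin n → ℂ |
      (q.2 : ℕ) < o q.1 → γ q = 0}) ∩ ⋂ l : Fin N, {γ : Fin N × Fin n → ℂ |
      l ∉ Fr → ∀ h : o l < n, γ (l, ⟨o l, h⟩) ≠ 0} := by
    ext γ
    rw [Set.mem_inter_iff, Set.mem_iInter, Set.mem_iInter]
    exact ⟨fun h => ⟨fun q => h.1 q.1 q.2, h.2⟩, fun h => ⟨fun l j => h.1 (l, j), h.2⟩⟩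
  rw [e]
  exact h1.inter h2

private noncomputable def T3lc (o : Fin N → ℕ) (l : Fin N) : MvPolynomial (Fin N × Fin n) ℂ :=
  if h : o l < n then X (l, ⟨o l, h⟩) else 0

private theorem T3lc_eval (o : Fin N → ℕ) (l : Fin N) (γ : Fin N × Fin n → ℂ) :
    eval γ (T3lc (n := n) o l) = lc o γ l := by
  unfold T3lc lc
  split_ifs with h
  · rw [eval_X]
  · rw [map_zero]

private theorem T3_pull (P : (Fin N → ℂ) → (Fin n → Fin s → ℂ) → Prop) (hP : PC P)
    (Fr : Finset (Fin N)) (o : Fin N → ℕ) (z : (Fin N × Fin n → ℂ) → Fin n → Fin s → ℂ)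
    (hz : ∀ e i, ∃ Q : MvPolynomial (Fin N × Fin n) ℂ, ∀ γ, eval γ Q = z γ e i) :
    Constr {γ | γ ∈ Yset Fr o n ∧ P (lc o γ) (z γ)} := by
  choose Q hQ using hz
  have h := Constr.preimage hP (fun j : Fin N ⊕ Fin n × Fin s =>
    Sum.elim (fun l => T3lc (n := n) o l) (fun q : Fin n × Fin s => Q q.1 q.2) j)
  have e : {x : Fin N × Fin n → ℂ | (fun j : Fin N ⊕ Fin n × Fin s => eval x
      (Sum.elim (fun l => T3lc (n := n) o l) (fun q : Fin n × Fin s => Q q.1 q.2) j)) ∈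
      {w : Fin N ⊕ Fin n × Fin s → ℂ | P (fun l => w (Sum.inl l)) fun e i => w (Sum.inr (e, i))}} =
      {γ | P (lc o γ) (z γ)} := by
    ext γ
    rw [Set.mem_ofPred_eq, Set.mem_ofPred_eq, Set.mem_ofPred_eq]
    have e1 : (fun l => eval γ (Sum.elim (fun l => T3lc (n := n) o l)
        (fun q : Fin n × Fin s => Q q.1 q.2) (Sum.inl l))) = lc o γ := by
      funext l
      exact T3lc_eval o l γ
    have e2 : (fun (e : Fin n) (i : Fin s) => eval γ (Sum.elim (fun l => T3lc (n := n) o l)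
        (fun q : Fin n × Fin s => Q q.1 q.2) (Sum.inr (e, i)))) = z γ := by
      funext e i
      exact hQ e i γ
    rw [e1, e2]
  rw [e] at h
  exact (constr_Yset Fr o).inter h

theorem constr_zc (β : Fin N → Fin s) (d : Fin N → ℕ) (Fr : Finset (Fin N)) (o : Fin N → ℕ)
    (P : (Fin N → ℂ) → (Fin n → Fin s → ℂ) → Prop) (hP : PC P) :
    Constr {γ | γ ∈ Yset Fr o n ∧ P (lc o γ) (fun e => zc β d γ e)} :=
  T3_pull P hP Fr o (fun γ e => zc β d γ e) fun e i => exists_poly_zc β d e i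

theorem constr_zv (β : Fin N → Fin s) (d : Fin N → ℕ) (piv : Fin s → Fin N)
    (Fr : Finset (Fin N)) (o : Fin N → ℕ)
    (P : (Fin N → ℂ) → (Fin n → Fin s → ℂ) → Prop) (hP : PC P) :
    Constr {v | v ∈ Yset Fr o n ∧ P (lc o v) (fun e => zv β d piv o v e)} := by
  refine T3_pull P hP Fr o (fun v e => zv β d piv o v e) fun e i => ?_
  simp only [zv]
  split_ifs with h1 h2 h3
  · exact ⟨0, fun _ => map_zero _⟩
  · refine ⟨∏ l ∈ Finset.univ.filter (fun l => β l = i), T3lc (n := n) o l ^ d l, fun γ => ?_⟩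
    rw [map_prod]
    refine Finset.prod_congr rfl fun l _ => ?_
    rw [map_pow, T3lc_eval]
  · exact ⟨X _, fun _ => eval_X _⟩
  · exact ⟨0, fun _ => map_zero _⟩

theorem cls_theta (β : Fin N → Fin s) (d : Fin N → ℕ) (hd : ∀ l, 0 < d l)
    (piv : Fin s → Fin N) (hpiv : ∀ i, β (piv i) = i) (Fr : Finset (Fin N))
    (hFr : ∀ l ∈ Fr, l = piv (β l) ∧ d l = 1) (o : Fin N → ℕ)
    (P : (Fin N → ℂ) → (Fin n → Fin s → ℂ) → Prop) (hP : PC P) :
    cls {γ | γ ∈ Yset Fr o n ∧ P (lc o γ) (fun e => zc β d γ e)} =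
      cls {v | v ∈ Yset Fr o n ∧ P (lc o v) (fun e => zv β d piv o v e)} := by
  obtain ⟨f, g, hf, hg, hfY, hgY, hgf, hfg, hlc, hz⟩ :=
    exists_theta (n := n) β d hd piv hpiv Fr hFr o
  have hz' : ∀ x ∈ Yset Fr o n, (fun e : Fin n => zc β d x e) =
      fun e : Fin n => zv β d piv o (f x) e := fun x hx => funext fun e => hz x hx e e.2
  refine cls_iso (constr_zc β d Fr o P hP) (constr_zv β d piv Fr o P hP)
    ⟨f, g, fun j => (hf j).mono fun x hx => hx.1, fun j => (hg j).mono fun x hx => hx.1, ?_, ?_,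
      fun x hx => hgf x hx.1, fun y hy => hfg y hy.1⟩
  · rintro x ⟨hx, hPx⟩
    refine ⟨hfY x hx, ?_⟩
    rw [hlc x hx, ← hz' x hx]
    exact hPx
  · rintro y ⟨hy, hPy⟩
    refine ⟨hgY y hy, ?_⟩
    rw [hz' _ (hgY y hy), hfg y hy, ← hlc _ (hgY y hy), hfg y hy]
    exact hPy

/-- closure properties of `PC` -/
theorem PC.and {P Q : (Fin N → ℂ) → (Fin n → Fin s → ℂ) → Prop} (hP : PC P) (hQ : PC Q) :
    PC fun c z => P c z ∧ Q c z := Constr.inter hP hQ

theorem PC.const (p : Prop) : PC (N := N) (s := s) (n := n) fun _ _ => p := by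
  unfold PC
  by_cases h : p
  · have e : {w : Fin N ⊕ Fin n × Fin s → ℂ | p} = Set.univ := by
      ext x
      exact ⟨fun _ => Set.mem_univ _, fun _ => h⟩
    rw [e]
    exact constr_univ
  · have e : {w : Fin N ⊕ Fin n × Fin s → ℂ | p} = ∅ := by
      ext x
      exact ⟨fun h' => absurd h' h, fun h' => absurd h' (Set.notMem_empty x)⟩
    rw [e]
    exact constr_empty

theorem PC.all {κ : Type} [Finite κ] {P : κ → (Fin N → ℂ) → (Fin n → Fin s → ℂ) → Prop}
    (hP : ∀ k, PC (P k)) : PC fun c z => ∀ k, P k c z := by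
  have h := constr_iInter (E := fun k => {w : Fin N ⊕ Fin n × Fin s → ℂ |
    P k (fun l => w (Sum.inl l)) fun e i => w (Sum.inr (e, i))}) hP
  unfold PC
  convert h using 1
  ext w
  rw [Set.mem_iInter]
  rfl

theorem PC.imp (p : Prop) {P : (Fin N → ℂ) → (Fin n → Fin s → ℂ) → Prop} (hP : PC P) :
    PC fun c z => p → P c z := by
  by_cases h : p
  · unfold PC at *
    convert hP using 1
    ext w
    exact ⟨fun h' => h' h, fun h' _ => h'⟩
  · have h1 := PC.const (N := N) (s := s) (n := n) True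
    unfold PC at *
    convert h1 using 1
    ext w
    exact ⟨fun _ => trivial, fun _ h' => absurd h' h⟩

/-- an equation between polynomial functions -/
theorem PC.eq (P Q : MvPolynomial (Fin N ⊕ Fin n × Fin s) ℂ) :
    PC fun c z => eval (Sum.elim c fun q => z q.1 q.2) P =
      eval (Sum.elim c fun q => z q.1 q.2) Q := by
  have h := constr_eq P Q
  unfold PC
  convert h using 1
  ext w
  have e : (Sum.elim (fun l => w (Sum.inl l)) fun q : Fin n × Fin s => w (Sum.inr (q.1, q.2))) =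
      w := by
    funext x
    rcases x with x | x <;> rfl
  rw [Set.mem_ofPred_eq, Set.mem_ofPred_eq]
  beta_reduce
  rw [e]

/-- a linear condition on one coefficient vector -/
theorem PC.mem (W : Submodule ℂ (Fin s → ℂ)) (e : Fin n) :
    PC (N := N) fun _ z => z e ∈ W :=
  (constr_submodule W).comp fun i => (Sum.inr (e, i) : Fin N ⊕ Fin n × Fin s)

end MotMono.Mon
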