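import Pool.Agent.Lib.MP_4e5fcd_ag.Mon.G0

/-! # MON-G1: orders and leading coefficients along a jet -/

open MvPolynomial

namespace MotMono.Mon

variable {N s : ℕ} (D : Data N s)

theorem arc_coeff {n : ℕ} (γ : Fin N × Fin n → ℂ) (l : Fin N) (e : ℕ) :
    (arc γ l).coeff e = if h : e < n then γ (l, ⟨e, h⟩) else 0 := by
  rw [arc, Polynomial.finsetSum_coeff]
  simp only [Polynomial.coeff_C_mul_X_pow]
  split_ifs with h
  · rw [Finset.sum_eq_single ⟨e, h⟩]
    · simp
    · intro j _ hj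
      rw [if_neg]
      rintro rfl
      exact hj rfl
    · intro h'
      exact absurd (Finset.mem_univ _) h'
  · refine Finset.sum_eq_zero fun j _ => ?_
    rw [if_neg]
    rintro rfl
    exact h j.2

private lemma G1_mul {P Q : Polynomial ℂ} {p q : ℕ} (hP : ∀ e < p, P.coeff e = 0)
    (hQ : ∀ e < q, Q.coeff e = 0) :
    (∀ e < p + q, (P * Q).coeff e = 0) ∧ (P * Q).coeff (p + q) = P.coeff p * Q.coeff q := by
  obtain ⟨P', rfl⟩ := Polynomial.X_pow_dvd_iff.2 hP
  obtain ⟨Q', rfl⟩ := Polynomial.X_pow_dvd_iff.2 hQ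
  have h1 : Polynomial.X ^ p * P' * (Polynomial.X ^ q * Q') =
      Polynomial.X ^ (p + q) * (P' * Q') := by ring
  rw [h1]
  refine ⟨fun e he => ?_, ?_⟩
  · rw [Polynomial.coeff_X_pow_mul', if_neg (not_le.2 he)]
  · simp only [Polynomial.coeff_X_pow_mul', le_refl, if_true, Nat.sub_self,
      Polynomial.mul_coeff_zero]

private lemma G1_prod {ι : Type*} (S : Finset ι) (Q : ι → Polynomial ℂ) (c : ℕ)
    (hQ : ∀ j ∈ S, ∀ e < c, (Q j).coeff e = 0) :
    (∀ e < S.card * c, (∏ j ∈ S, Q j).coeff e = 0) ∧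
      (∏ j ∈ S, Q j).coeff (S.card * c) = ∏ j ∈ S, (Q j).coeff c := by
  classical
  induction S using Finset.induction_on with
  | empty => simp
  | insert a S ha ih =>
    have h1 := ih fun j hj => hQ j (Finset.mem_insert_of_mem hj)
    have h2 := G1_mul (hQ a (Finset.mem_insert_self _ _)) h1.1
    rw [Finset.card_insert_of_notMem ha, Finset.prod_insert ha, Finset.prod_insert ha,
      show (S.card + 1) * c = c + S.card * c by ring, ← h1.2]
    exact h2

private lemma G1_coeff_zero {n : ℕ} (γ : Fin N × Fin n → ℂ) (h : MvPolynomial (Fin N) ℂ) :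
    (along h γ).coeff 0 = eval (fun l => lc (fun _ => 0) γ l) h := by
  have h6 : (fun l => lc (fun _ => 0) γ l) = fun l => (arc γ l).eval 0 := by
    funext l
    rw [← Polynomial.coeff_zero_eq_eval_zero, arc_coeff, lc]
  rw [h6, Polynomial.coeff_zero_eq_eval_zero, along]
  induction h using MvPolynomial.induction_on with
  | C a => simp
  | add p q hp hq => simp [hp, hq]
  | mul_X p n hp => simp [hp]

private lemma G1_gen {n : ℕ} (γ : Fin N × Fin n → ℂ) (κ c : ℕ)
    (hP : ∀ e < κ, (D.PP γ).coeff e = 0) (hz : ∀ e < c, zc D.β D.d γ e ∈ D.W)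
    (h : MvPolynomial (Fin N) ℂ) (a : Fin D.m → Fin s → ℂ) (ha : ∀ j, a j ∈ D.ann) :
    (∀ e < κ + D.m * c, (along (h * D.gen a) γ).coeff e = 0) ∧
      (along (h * D.gen a) γ).coeff (κ + D.m * c) = eval (fun l => lc (fun _ => 0) γ l) h *
        ((D.PP γ).coeff κ * ∏ j, a j ⬝ᵥ zc D.β D.d γ c) := by
  have hf : ∀ j e, (∑ i, Polynomial.C (a j i) * D.MM γ i).coeff e =
      a j ⬝ᵥ zc D.β D.d γ e := by
    intro j e
    rw [Polynomial.finsetSum_coeff, dotProduct]
    refine Finset.sum_congr rfl fun i _ => ?_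
    rw [Polynomial.coeff_C_mul]
    rfl
  have h1 := G1_prod (Finset.univ : Finset (Fin D.m))
    (fun j => ∑ i, Polynomial.C (a j i) * D.MM γ i) c (fun j _ e he => by
      rw [hf]
      exact ha j _ (hz e he))
  rw [Finset.card_univ, Fintype.card_fin] at h1
  have h2 := G1_mul hP h1.1
  have h3 := G1_mul (P := along h γ) (p := 0) (by intro e he; exact absurd he (Nat.not_lt_zero _))
    h2.1
  have h4 : along (h * D.gen a) γ = along h γ * along (D.gen a) γ := by
    simp only [along, map_mul]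
  have h5 := G1_coeff_zero γ h
  rw [zero_add, h2.2, h1.2, h5] at h3
  rw [h4, along_gen]
  simp only [hf] at h3
  exact h3

/-- Key computation: let `PP γ` have order at least `κ` and let the first `c` coefficient vectors
be in `W`. -/
theorem coeff_along {n : ℕ} (γ : Fin N × Fin n → ℂ) (κ c : ℕ)
    (hP : ∀ e < κ, (D.PP γ).coeff e = 0) (hz : ∀ e < c, zc D.β D.d γ e ∈ D.W) :
    (∀ f ∈ D.I, ∀ e < κ + D.m * c, (along f γ).coeff e = 0) ∧
    ∀ (h : MvPolynomial (Fin N) ℂ) (a : Fin D.m → Fin s → ℂ), (∀ j, a j ∈ D.ann) →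
      (along (h * D.gen a) γ).coeff (κ + D.m * c) = eval (fun l => lc (fun _ => 0) γ l) h *
        ((D.PP γ).coeff κ * ∏ j, a j ⬝ᵥ zc D.β D.d γ c) := by
  refine ⟨?_, fun h a ha => (G1_gen D γ κ c hP hz h a ha).2⟩
  refine I_induction D (P := fun f => ∀ e < κ + D.m * c, (along f γ).coeff e = 0) ?_ ?_ ?_
  · intro e _
    simp [along]
  · intro f g _ _ hf hg e he
    have h1 : along (f + g) γ = along f γ + along g γ := by simp only [along, map_add]
    rw [h1, Polynomial.coeff_add, hf e he, hg e he, add_zero]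
  · exact fun h a ha => (G1_gen D γ κ c hP hz h a ha).1

/-- The ideal vanishes along the jet to an order less than `n` only if `PP γ` and the contact have
finite orders. -/
theorem exists_orders {n : ℕ} (γ : Fin N × Fin n → ℂ) (k : ℕ) (hk : k < n)
    (h : ∃ f ∈ D.I, (along f γ).coeff k ≠ 0) :
    ∃ κ c, κ + D.m * c ≤ k ∧ (∀ e < κ, (D.PP γ).coeff e = 0) ∧ (D.PP γ).coeff κ ≠ 0 ∧
      (∀ e < c, zc D.β D.d γ e ∈ D.W) ∧ zc D.β D.d γ c ∉ D.W := by
  classical
  obtain ⟨f, hf, hne⟩ := h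
  have h1 : ∃ e, (D.PP γ).coeff e ≠ 0 := by
    by_contra hcon
    push Not at hcon
    refine hne ((coeff_along D γ (k + 1) 0 (fun e _ => hcon e) ?_).1 f hf k ?_)
    · intro e he
      exact absurd he (Nat.not_lt_zero _)
    · lia
  have h2 : ∃ e, zc D.β D.d γ e ∉ D.W := by
    by_contra hcon
    push Not at hcon
    refine hne ((coeff_along D γ 0 (k + 1) ?_ (fun e _ => hcon e)).1 f hf k ?_)
    · intro e he
      exact absurd he (Nat.not_lt_zero _)
    · have := D.hm
      nlinarith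
  have h3 : ∀ e < Nat.find h1, (D.PP γ).coeff e = 0 := fun e he =>
    not_not.1 (Nat.find_min h1 he)
  have h4 : ∀ e < Nat.find h2, zc D.β D.d γ e ∈ D.W := fun e he =>
    not_not.1 (Nat.find_min h2 he)
  refine ⟨Nat.find h1, Nat.find h2, ?_, h3, Nat.find_spec h1, h4, Nat.find_spec h2⟩
  by_contra hcon
  exact hne ((coeff_along D γ _ _ h3 h4).1 f hf k (not_le.1 hcon))

end MotMono.Mon
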