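import Pool.Agent.Lib.MP_4e5fcd_ag.Mon.Defs

/-! # MON-G0: generators of the ideal -/

open MvPolynomial

namespace MotMono.Mon

variable {N s : ℕ} (D : Data N s)

/-- the linear forms which vanish on `W` -/
def Data.ann : Set (Fin s → ℂ) := {a | ∀ w ∈ D.W, a ⬝ᵥ w = 0}

/-- generators of the ideal -/
noncomputable def Data.gen (a : Fin D.m → Fin s → ℂ) : MvPolynomial (Fin N) ℂ :=
  (∏ l, X l ^ D.b l) * ∏ j, ∑ i, C (a j i) * blockMon D.β D.d i

/-- the monomial factor along a jet -/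
noncomputable def Data.PP {n : ℕ} (γ : Fin N × Fin n → ℂ) : Polynomial ℂ :=
  ∏ l, arc γ l ^ D.b l

/-- the monomial `M_i` along a jet -/
noncomputable def Data.MM {n : ℕ} (γ : Fin N × Fin n → ℂ) (i : Fin s) : Polynomial ℂ :=
  ∏ l ∈ Finset.univ.filter (fun l => D.β l = i), arc γ l ^ D.d l

private lemma G0_span_pow {R ι : Type*} [CommRing R] (T : Set ι) (u : ι → R) (k : ℕ) :
    Ideal.span (u '' T) ^ k =
      Ideal.span {f | ∃ a : Fin k → ι, (∀ j, a j ∈ T) ∧ f = ∏ j, u (a j)} := by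
  induction k with
  | zero =>
    rw [pow_zero, Ideal.one_eq_top, eq_comm, Ideal.eq_top_iff_one]
    exact Ideal.subset_span ⟨Fin.elim0, fun j => j.elim0, by simp⟩
  | succ k ih =>
    rw [pow_succ', ih, Ideal.span_mul_span']
    congr 1
    ext f
    constructor
    · rintro ⟨_, ⟨x, hx, rfl⟩, _, ⟨a, ha, rfl⟩, rfl⟩
      refine ⟨Fin.cons x a, fun j => ?_, ?_⟩
      · refine Fin.cases ?_ (fun j => ?_) j
        · simpa using hx
        · simpa using ha j
      · simp [Fin.prod_univ_succ]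
    · rintro ⟨a, ha, rfl⟩
      refine ⟨u (a 0), ⟨a 0, ha 0, rfl⟩, ∏ j : Fin k, u (a j.succ),
        ⟨fun j => a j.succ, fun j => ha _, rfl⟩, ?_⟩
      simp [Fin.prod_univ_succ]

theorem I_eq_span : D.I = Ideal.span {f | ∃ a : Fin D.m → Fin s → ℂ, (∀ j, a j ∈ D.ann) ∧
    f = D.gen a} := by
  have h1 : pullIdeal D.β D.d D.W =
      Ideal.span ((fun a : Fin s → ℂ => ∑ i, C (a i) * blockMon D.β D.d i) '' D.ann) := by
    rw [pullIdeal]
    congr 1
    ext f
    constructor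
    · rintro ⟨a, rfl, ha⟩
      exact ⟨a, ha, rfl⟩
    · rintro ⟨a, ha, rfl⟩
      exact ⟨a, rfl, ha⟩
  rw [Data.I, monIdeal, h1, G0_span_pow, Ideal.span_mul_span', Set.singleton_mul]
  congr 1
  ext f
  constructor
  · rintro ⟨_, ⟨a, ha, rfl⟩, rfl⟩
    exact ⟨a, ha, rfl⟩
  · rintro ⟨a, ha, rfl⟩
    exact ⟨_, ⟨a, ha, rfl⟩, rfl⟩

theorem along_gen {n : ℕ} (a : Fin D.m → Fin s → ℂ) (γ : Fin N × Fin n → ℂ) :
    along (D.gen a) γ = D.PP γ * ∏ j, ∑ i, Polynomial.C (a j i) * D.MM γ i := by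
  simp only [along, Data.gen, Data.PP, Data.MM, blockMon, map_mul, map_prod, map_sum, map_pow,
    aeval_X, aeval_C, Polynomial.algebraMap_eq]

theorem exists_ann (z : Fin s → ℂ) (hz : z ∉ D.W) : ∃ a ∈ D.ann, a ⬝ᵥ z = 1 := by
  obtain ⟨f, hf, hW⟩ := Submodule.exists_le_ker_of_notMem hz
  have key : ∀ v : Fin s → ℂ, (fun i => f (Pi.single i 1)) ⬝ᵥ v = f v := by
    intro v
    conv_rhs => rw [pi_eq_sum_univ' v]
    simp only [map_sum, map_smul, smul_eq_mul, dotProduct]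
    exact Finset.sum_congr rfl fun i _ => mul_comm _ _
  refine ⟨(f z)⁻¹ • fun i => f (Pi.single i 1), ?_, ?_⟩
  · intro w hw
    rw [smul_dotProduct, key, LinearMap.mem_ker.1 (hW hw), smul_zero]
  · rw [smul_dotProduct, key, smul_eq_mul, inv_mul_cancel₀ hf]

theorem mem_W_of_ann (z : Fin s → ℂ) (h : ∀ a ∈ D.ann, a ⬝ᵥ z = 0) : z ∈ D.W := by
  by_contra hz
  obtain ⟨a, ha, h1⟩ := exists_ann D z hz
  rw [h a ha] at h1
  exact zero_ne_one h1

/-- induction principle for the elements of the ideal -/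
theorem I_induction {P : MvPolynomial (Fin N) ℂ → Prop} (h0 : P 0)
    (hadd : ∀ f g, f ∈ D.I → g ∈ D.I → P f → P g → P (f + g))
    (hgen : ∀ (h : MvPolynomial (Fin N) ℂ) (a : Fin D.m → Fin s → ℂ), (∀ j, a j ∈ D.ann) →
      P (h * D.gen a)) : ∀ f ∈ D.I, P f := by
  intro f hf
  have key : ∀ f ∈ D.I, ∀ h : MvPolynomial (Fin N) ℂ, P (h * f) := by
    intro f hf
    rw [I_eq_span] at hf
    refine Submodule.span_induction (p := fun f _ => ∀ h : MvPolynomial (Fin N) ℂ, P (h * f))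
      ?_ ?_ ?_ ?_ hf
    · rintro _ ⟨a, ha, rfl⟩ h
      exact hgen h a ha
    · intro h
      rw [mul_zero]
      exact h0
    · intro x y hx hy h1 h2 h
      rw [mul_add]
      have hx' : x ∈ D.I := by
        rw [I_eq_span]
        exact hx
      have hy' : y ∈ D.I := by
        rw [I_eq_span]
        exact hy
      exact hadd _ _ (Ideal.mul_mem_left _ _ hx') (Ideal.mul_mem_left _ _ hy') (h1 h) (h2 h)
    · intro c x _ h1 h
      rw [smul_eq_mul, ← mul_assoc]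
      exact h1 _
  have := key f hf 1
  rwa [one_mul] at this

theorem gen_mem (h : MvPolynomial (Fin N) ℂ) (a : Fin D.m → Fin s → ℂ)
    (ha : ∀ j, a j ∈ D.ann) : h * D.gen a ∈ D.I := by
  rw [I_eq_span]
  exact Ideal.mul_mem_left _ _ (Ideal.subset_span ⟨a, ha, rfl⟩)

end MotMono.Mon
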