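import Pool.Agent.Lib.MP_4e5fcd_ag.Mon.G1
import Pool.Agent.Lib.MP_4e5fcd_ag.Mon.G2
import Pool.Agent.Lib.MP_4e5fcd_ag.Mon.T3

/-! # MON-G3: the coefficients of the motivic zeta function -/

open MvPolynomial

namespace MotMono.Mon

variable {N s : ℕ} (D : Data N s)

theorem constr_Om (κ c n : ℕ) : Constr (D.Om κ c n) := by
  have h1 : D.Om κ c n =
      ((⋂ q : Fin N × Fin n, {γ : Fin N × Fin n → ℂ | (q.2 : ℕ) = 0 → γ q = 0}) ∩
        {γ | ∑ l, D.b l * ord1 (fun j => γ (l, j)) = κ}) ∩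
          ⋂ e : Fin c, {γ | zc D.β D.d γ e ∈ D.W} := by
    ext γ
    simp only [Data.Om, Set.mem_ofPred_eq, Set.mem_inter_iff, Set.mem_iInter]
    constructor
    · rintro ⟨g1, g2, g3⟩
      exact ⟨⟨fun q hq => g1 q.1 q.2 hq, g2⟩, fun e => g3 e e.2⟩
    · rintro ⟨⟨g1, g2⟩, g3⟩
      exact ⟨fun l j hj => g1 (l, j) hj, g2, fun e he => g3 ⟨e, he⟩⟩
  rw [h1]
  refine Constr.inter (Constr.inter (constr_iInter fun q => ?_) (constr_wt D.b κ))
    (constr_iInter fun e => ?_)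
  · by_cases hq : (q.2 : ℕ) = 0
    · have h2 : {γ : Fin N × Fin n → ℂ | (q.2 : ℕ) = 0 → γ q = 0} =
          {γ | eval γ (X q : MvPolynomial (Fin N × Fin n) ℂ) = 0} := by
        ext γ
        simp only [Set.mem_ofPred_eq, eval_X]
        exact ⟨fun h => h hq, fun h _ => h⟩
      rw [h2]
      exact Constr.zeroSet _
    · have h2 : {γ : Fin N × Fin n → ℂ | (q.2 : ℕ) = 0 → γ q = 0} = Set.univ := by
        ext γ
        simp only [Set.mem_ofPred_eq, Set.mem_univ, iff_true]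
        exact fun h => absurd h hq
      rw [h2]
      exact constr_univ
  · choose P hP using fun i => exists_poly_zc (n := n) D.β D.d (e : ℕ) i
    have h2 := (constr_submodule D.W).preimage P
    have h3 : {γ : Fin N × Fin n → ℂ | zc D.β D.d γ e ∈ D.W} =
        {γ | (fun j => eval γ (P j)) ∈ (D.W : Set (Fin s → ℂ))} := by
      ext γ
      have h4 : (fun j => eval γ (P j)) = zc D.β D.d γ e := by
        funext j
        exact hP j γ
      simp only [Set.mem_ofPred_eq, h4, SetLike.mem_coe]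
    rw [h3]
    exact h2

private theorem g3_gen {n : ℕ} (γ : Fin N × Fin n → ℂ) (κ c : ℕ)
    (hP : ∀ e < κ, (D.PP γ).coeff e = 0) (hz : ∀ e < c, zc D.β D.d γ e ∈ D.W)
    (hc : zc D.β D.d γ c ∉ D.W) :
    ∃ f ∈ D.I, (along f γ).coeff (κ + D.m * c) = (D.PP γ).coeff κ := by
  obtain ⟨a, ha, ha1⟩ := exists_ann D _ hc
  refine ⟨1 * D.gen (fun _ => a), gen_mem D 1 _ fun _ => ha, ?_⟩
  rw [(coeff_along D γ κ c hP hz).2 1 (fun _ => a) (fun _ => ha)]
  simp only [ha1, map_one, one_mul, Finset.prod_const_one, mul_one]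

theorem mem_ordLocus_iff (k : ℕ) (γ : Fin N × Fin (k + 1) → ℂ) :
    γ ∈ ordLocus D.I k ↔ ∃ c, D.m * c ≤ k ∧ γ ∈ D.Om (k - D.m * c) c (k + 1) ∧
      γ ∉ D.Om (k - D.m * c) (c + 1) (k + 1) := by
  constructor
  · rintro ⟨h0, h1, h2⟩
    obtain ⟨κ, c, hle, hP, hP0, hz, hc⟩ := exists_orders D γ k (Nat.lt_succ_self k) h2
    obtain ⟨f, hf, hfk⟩ := g3_gen D γ κ c hP hz hc
    have hk : κ + D.m * c = k := by
      rcases lt_or_eq_of_le hle with h3 | h3
      · exact absurd (h1 f hf _ h3) (by rw [hfk]; exact hP0)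
      · exact h3
    have hκ : k - D.m * c = κ := by omega
    refine ⟨c, by omega, ?_, ?_⟩
    · rw [hκ]
      refine ⟨fun l j hj => ?_, (PP_order_iff D γ κ (by omega)).1 ⟨hP, hP0⟩, hz⟩
      have : j = 0 := Fin.ext hj
      rw [this]
      exact h0 l
    · rw [hκ]
      rintro ⟨-, -, h3⟩
      exact hc (h3 c (Nat.lt_succ_self c))
  · rintro ⟨c, hc, ⟨h0, h1, h2⟩, h3⟩
    have hcW : zc D.β D.d γ c ∉ D.W := by
      intro h4
      refine h3 ⟨h0, h1, fun e he => ?_⟩
      rcases Nat.lt_succ_iff_lt_or_eq.1 he with h5 | h5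
      · exact h2 e h5
      · rw [h5]
        exact h4
    obtain ⟨hP, hP0⟩ := (PP_order_iff D γ (k - D.m * c) (by omega)).2 h1
    have hk : k - D.m * c + D.m * c = k := by omega
    obtain ⟨f, hf, hfk⟩ := g3_gen D γ _ c hP h2 hcW
    rw [hk] at hfk
    refine ⟨fun i => h0 i 0 rfl, fun f hf l hl => ?_, f, hf, by rw [hfk]; exact hP0⟩
    exact (coeff_along D γ _ c hP h2).1 f hf l (by rw [hk]; exact hl)

theorem cls_ordLocus (k : ℕ) : cls (ordLocus D.I k) =
    ∑ c ∈ Finset.range (k + 1), if D.m * c ≤ k then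
      cls (D.Om (k - D.m * c) c (k + 1)) - cls (D.Om (k - D.m * c) (c + 1) (k + 1)) else 0 := by
  have hsub : ∀ κ c n, D.Om κ (c + 1) n ⊆ D.Om κ c n := by
    rintro κ c n γ ⟨h0, h1, h2⟩
    exact ⟨h0, h1, fun e he => h2 e (Nat.lt_succ_of_lt he)⟩
  set E : ℕ → Set (Fin N × Fin (k + 1) → ℂ) := fun c => if D.m * c ≤ k then
    D.Om (k - D.m * c) c (k + 1) \ D.Om (k - D.m * c) (c + 1) (k + 1) else ∅ with hE
  have h1 : ordLocus D.I k = ⋃ c ∈ Finset.range (k + 1), E c := by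
    ext γ
    rw [mem_ordLocus_iff]
    simp only [Set.mem_iUnion, Finset.mem_range, hE]
    constructor
    · rintro ⟨c, hc, h2, h3⟩
      have hm := D.hm
      refine ⟨c, ?_, ?_⟩
      · have : 1 * c ≤ D.m * c := Nat.mul_le_mul_right c hm
        omega
      · rw [if_pos hc]
        exact ⟨h2, h3⟩
    · rintro ⟨c, -, hc⟩
      split_ifs at hc with h2
      · exact ⟨c, h2, hc.1, hc.2⟩
      · exact absurd hc (Set.notMem_empty γ)
  rw [h1, cls_biUnion]
  · refine Finset.sum_congr rfl fun c _ => ?_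
    simp only [hE]
    split_ifs with h2
    · exact cls_diff (constr_Om D _ _ _) (constr_Om D _ _ _) (hsub _ _ _)
    · exact cls_empty
  · intro c _
    simp only [hE]
    split_ifs
    · exact (constr_Om D _ _ _).diff (constr_Om D _ _ _)
    · exact constr_empty
  · have key : ∀ c c', c < c' → ∀ γ, γ ∈ E c → γ ∉ E c' := by
      intro c c' hcc γ h2 h3
      simp only [hE] at h2 h3
      split_ifs at h2 h3 with g1 g2
      · obtain ⟨⟨a0, a1, a2⟩, a3⟩ := h2
        obtain ⟨⟨b0, b1, b2⟩, -⟩ := h3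
        refine a3 ⟨a0, a1, fun e he => b2 e (by omega)⟩
      · exact absurd h3 (Set.notMem_empty γ)
      · exact absurd h2 (Set.notMem_empty γ)
      · exact absurd h2 (Set.notMem_empty γ)
    intro c _ c' _ hcc
    rw [Set.disjoint_left]
    intro γ h2 h3
    rcases lt_or_gt_of_ne hcc with h4 | h4
    · exact key c c' h4 γ h2 h3
    · exact key c' c h4 γ h3 h2

end MotMono.Mon
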