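import Pool.Agent.Lib.MP_4e5fcd_ag.Mon.Defs

/-! # MON-H3: closed form of the path recursion -/

open MvPolynomial

namespace MotMono.Mon

variable {N s : ℕ} (D : Data N s)

theorem FF_closed (c : ℕ) (A : Finset (Fin s)) (p : Seqs s) :
    D.FF c A p = ∑ ν ∈ Fintype.piFinset (fun i => if i ∈ A then Finset.range (c + 1) else {0}),
      (∏ e ∈ Finset.range c, PowerSeries.C (D.gg (A.filter fun i => e ≤ ν i)
        (A.filter fun i => e + 1 ≤ ν i))) *
          ∏ i ∈ A, if ν i < c then (p i (ν i)).1 else (p i c).2 := by
  induction c generalizing A p with
  | zero =>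
    have h1 : (fun i : Fin s => if i ∈ A then Finset.range (0 + 1) else ({0} : Finset ℕ)) =
        fun _ => {0} := by
      funext i
      by_cases h : i ∈ A
      · rw [if_pos h]; rfl
      · rw [if_neg h]
    rw [h1, Fintype.piFinset_singleton, Finset.sum_singleton]
    simp [Data.FF]
  | succ c ih =>
    have hstep : D.FF (c + 1) A p = ∑ A' ∈ A.powerset, PowerSeries.C (D.gg A A') *
      (∏ i ∈ A \ A', (p i 0).1) * D.FF c A' (shift p) := rfl
    rw [hstep, ← Finset.sum_fiberwise_of_maps_to (t := A.powerset)
      (g := fun ν : Fin s → ℕ => A.filter fun i => 1 ≤ ν i)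
      (fun ν _ => Finset.mem_powerset.mpr (Finset.filter_subset _ _))]
    refine Finset.sum_congr rfl fun A' hA' => ?_
    rw [Finset.mem_powerset] at hA'
    rw [ih A' (shift p), Finset.mul_sum]
    refine Finset.sum_nbij' (fun ν i => if i ∈ A' then ν i + 1 else 0) (fun ν i => ν i - 1)
      ?_ ?_ ?_ ?_ ?_
    · intro ν hν
      rw [Fintype.mem_piFinset] at hν
      rw [Finset.mem_filter, Fintype.mem_piFinset]
      refine ⟨fun i => ?_, ?_⟩
      · have h1 := hν i
        by_cases hi : i ∈ A'
        · rw [if_pos hi, Finset.mem_range] at h1
          rw [if_pos (hA' hi), if_pos hi, Finset.mem_range]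
          omega
        · rw [if_neg hi]
          by_cases hiA : i ∈ A
          · rw [if_pos hiA, Finset.mem_range]
            omega
          · rw [if_neg hiA, Finset.mem_singleton]
      · ext i
        rw [Finset.mem_filter]
        constructor
        · rintro ⟨_, h⟩
          by_contra hi
          simp only [if_neg hi] at h
          omega
        · intro hi
          refine ⟨hA' hi, ?_⟩
          simp only [if_pos hi]
          omega
    · intro ν hν
      rw [Finset.mem_filter, Fintype.mem_piFinset] at hν
      obtain ⟨h1, h2⟩ := hν
      rw [Fintype.mem_piFinset]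
      intro i
      have h3 := h1 i
      by_cases hi : i ∈ A'
      · rw [if_pos (hA' hi), Finset.mem_range] at h3
        rw [if_pos hi, Finset.mem_range]
        omega
      · rw [if_neg hi, Finset.mem_singleton]
        by_cases hiA : i ∈ A
        · by_contra h4
          apply hi
          rw [← h2, Finset.mem_filter]
          exact ⟨hiA, by omega⟩
        · rw [if_neg hiA, Finset.mem_singleton] at h3
          omega
    · intro ν hν
      rw [Fintype.mem_piFinset] at hν
      funext i
      by_cases hi : i ∈ A'
      · simp only [if_pos hi]
        omega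
      · have h1 := hν i
        rw [if_neg hi, Finset.mem_singleton] at h1
        simp only [if_neg hi]
        omega
    · intro ν hν
      rw [Finset.mem_filter, Fintype.mem_piFinset] at hν
      obtain ⟨h1, h2⟩ := hν
      funext i
      by_cases hi : i ∈ A'
      · simp only [if_pos hi]
        have h3 := hi
        rw [← h2, Finset.mem_filter] at h3
        omega
      · simp only [if_neg hi]
        by_cases hiA : i ∈ A
        · by_contra h4
          apply hi
          rw [← h2, Finset.mem_filter]
          exact ⟨hiA, by omega⟩
        · have h3 := h1 i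
          rw [if_neg hiA, Finset.mem_singleton] at h3
          omega
    · intro ν hν
      rw [Fintype.mem_piFinset] at hν
      simp only
      have e0 : (A.filter fun i => 0 ≤ (if i ∈ A' then ν i + 1 else 0)) = A := by
        apply Finset.filter_true_of_mem
        intro i _
        omega
      have e1 : ∀ e, (A.filter fun i => e + 1 ≤ (if i ∈ A' then ν i + 1 else 0)) =
          A'.filter fun i => e ≤ ν i := by
        intro e
        ext i
        rw [Finset.mem_filter, Finset.mem_filter]
        constructor
        · rintro ⟨_, h⟩
          by_cases hi : i ∈ A'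
          · rw [if_pos hi] at h
            exact ⟨hi, by omega⟩
          · rw [if_neg hi] at h
            omega
        · rintro ⟨hi, h⟩
          refine ⟨hA' hi, ?_⟩
          rw [if_pos hi]
          omega
      have e2 : (A'.filter fun i => 0 ≤ ν i) = A' := by
        apply Finset.filter_true_of_mem
        intro i _
        omega
      rw [Finset.prod_range_succ', e0]
      simp only [e1, e2]
      rw [← Finset.prod_sdiff hA']
      have e3 : ∏ i ∈ A \ A', (if (if i ∈ A' then ν i + 1 else 0) < c + 1 then
          (p i (if i ∈ A' then ν i + 1 else 0)).1 else (p i (c + 1)).2) =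
          ∏ i ∈ A \ A', (p i 0).1 := by
        refine Finset.prod_congr rfl fun i hi => ?_
        have hi' := (Finset.mem_sdiff.mp hi).2
        rw [if_neg hi', if_pos (by omega)]
      have e4 : ∏ i ∈ A', (if (if i ∈ A' then ν i + 1 else 0) < c + 1 then
          (p i (if i ∈ A' then ν i + 1 else 0)).1 else (p i (c + 1)).2) =
          ∏ i ∈ A', if ν i < c then (shift p i (ν i)).1 else (shift p i c).2 := by
        refine Finset.prod_congr rfl fun i hi => ?_
        rw [if_pos hi]
        by_cases h : ν i < c
        · rw [if_pos h, if_pos (by omega)]
          rfl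
        · rw [if_neg h, if_neg (by omega)]
          rfl
      rw [e3, e4]
      ring

end MotMono.Mon
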