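import Pool.Agent.Lib.MP_4e5fcd_ag.Mon.Defs

/-! # MON-H4a: sums over functions which factor over blocks -/

namespace MotMono.Mon

/-- a sum of products of functions of the blocks -/
theorem sum_blocks {R : Type*} [CommRing R] {N s : ℕ} (β : Fin N → Fin s)
    (S : Fin N → Finset ℕ) (hS : ∀ l, 1 ∈ S l) (Φ : Fin s → (Fin N → ℕ) → R)
    (hΦ : ∀ i o o', (∀ l, β l = i → o l = o' l) → Φ i o = Φ i o') :
    ∑ o ∈ Fintype.piFinset S, ∏ i, Φ i o =
      ∏ i, ∑ o ∈ Fintype.piFinset (fun l => if β l = i then S l else {1}), Φ i o := by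
  classical
  rw [Finset.prod_univ_sum]
  refine Finset.sum_bij' (fun o _ => fun i l => if β l = i then o l else 1)
    (fun x _ => fun l => x (β l) l) ?_ ?_ ?_ ?_ ?_
  · intro o ho
    rw [Fintype.mem_piFinset] at ho
    rw [Fintype.mem_piFinset]
    intro i
    rw [Fintype.mem_piFinset]
    intro l
    split_ifs with h
    · exact ho l
    · exact Finset.mem_singleton_self 1
  · intro x hx
    rw [Fintype.mem_piFinset] at hx
    rw [Fintype.mem_piFinset]
    intro l
    have h := Fintype.mem_piFinset.1 (hx (β l)) l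
    rw [if_pos rfl] at h
    exact h
  · intro o _
    funext l
    exact if_pos rfl
  · intro x hx
    rw [Fintype.mem_piFinset] at hx
    funext i l
    by_cases h : β l = i
    · subst h
      exact if_pos rfl
    · have h2 := Fintype.mem_piFinset.1 (hx i) l
      rw [if_neg h, Finset.mem_singleton] at h2
      rw [if_neg h, h2]
  · intro o _
    refine Finset.prod_congr rfl fun i _ => hΦ i _ _ fun l hl => ?_
    exact (if_pos hl).symm

/-- the same, graded by a function of each block with finitely many values -/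
theorem sum_blocks_fiber {R : Type*} [CommRing R] {N s : ℕ} (β : Fin N → Fin s)
    (S : Fin N → Finset ℕ) (hS : ∀ l, 1 ∈ S l) (Φ : Fin s → (Fin N → ℕ) → R)
    (hΦ : ∀ i o o', (∀ l, β l = i → o l = o' l) → Φ i o = Φ i o')
    (ν : Fin s → (Fin N → ℕ) → ℕ)
    (hν : ∀ i o o', (∀ l, β l = i → o l = o' l) → ν i o = ν i o') (c : ℕ)
    (G : (Fin s → ℕ) → R) :
    ∑ o ∈ Fintype.piFinset S, G (fun i => min (ν i o) c) * ∏ i, Φ i o =
      ∑ μ ∈ Fintype.piFinset (fun _ : Fin s => Finset.range (c + 1)), G μ *
        ∏ i, ∑ o ∈ (Fintype.piFinset fun l => if β l = i then S l else {1}).filter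
          (fun o => min (ν i o) c = μ i), Φ i o := by
  classical
  have h1 : ∀ o : Fin N → ℕ, G (fun i => min (ν i o) c) * ∏ i, Φ i o =
      ∑ μ ∈ Fintype.piFinset (fun _ : Fin s => Finset.range (c + 1)),
        G μ * ∏ i, (if min (ν i o) c = μ i then Φ i o else 0) := by
    intro o
    rw [Finset.sum_eq_single (fun i => min (ν i o) c)]
    · simp
    · intro μ _ hne
      obtain ⟨i, hi⟩ : ∃ i, μ i ≠ min (ν i o) c := by
        by_contra hcon
        push Not at hcon
        exact hne (funext hcon)
      rw [Finset.prod_eq_zero (Finset.mem_univ i) (if_neg (Ne.symm hi)), mul_zero]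
    · intro hmem
      exfalso
      apply hmem
      rw [Fintype.mem_piFinset]
      intro i
      rw [Finset.mem_range]
      exact Nat.lt_succ_of_le (min_le_right _ _)
  rw [Finset.sum_congr rfl fun o _ => h1 o, Finset.sum_comm]
  refine Finset.sum_congr rfl fun μ _ => ?_
  rw [← Finset.mul_sum, sum_blocks β S hS (fun i o => if min (ν i o) c = μ i then Φ i o else 0)]
  · congr 1
    refine Finset.prod_congr rfl fun i _ => ?_
    rw [Finset.sum_filter]
  · intro i o o' h
    rw [hν i o o' h, hΦ i o o' h]

end MotMono.Mon
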