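import Pool.Agent.Lib.MP_4e5fcd_ag.Mon.H2

/-! # MON-H4b: the weights of a block -/

open MvPolynomial

namespace MotMono.Mon

variable {N s : ℕ} (D : Data N s)

/-- the possible orders in the variable `l`, for jets with `n` levels -/
def Data.Ord (n : ℕ) (l : Fin N) : Finset ℕ := if l ∈ D.fr then {1} else Finset.Icc 1 n

/-- the possible orders in the block `i` -/
def Data.OrdB (n : ℕ) (i : Fin s) : Finset (Fin N → ℕ) :=
  Fintype.piFinset fun l => if D.β l = i then D.Ord n l else {1}

theorem H4b_mem_B {D : Data N s} {i : Fin s} {l : Fin N} : l ∈ D.B i ↔ D.β l = i := by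
  simp [Data.B]

/-- sums over the orders in a block of products factor -/
theorem H4b_sum_prod {R : Type*} [CommRing R] (i : Fin s) (n : ℕ) (f : Fin N → ℕ → R) :
    ∑ o ∈ D.OrdB n i, ∏ l ∈ D.B i, f l (o l) = ∏ l ∈ D.B i, ∑ a ∈ D.Ord n l, f l a := by
  classical
  have h1 : ∏ l ∈ D.B i, ∑ a ∈ D.Ord n l, f l a =
      ∏ l, ∑ a ∈ (if D.β l = i then D.Ord n l else {1}), (if D.β l = i then f l a else 1) := by
    rw [Data.B, Finset.prod_filter]
    refine Finset.prod_congr rfl fun l _ => ?_
    by_cases h : D.β l = i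
    · simp only [h, if_true]
    · simp [h]
  rw [h1, Finset.prod_univ_sum]
  refine Finset.sum_congr rfl fun o _ => ?_
  rw [Data.B, Finset.prod_filter]

/-- the free part and the rest of a block -/
theorem H4b_prod_B {R : Type*} [CommRing R] (i : Fin s) (g : Fin N → R) (x : R)
    (hx : ∀ l ∈ D.fr, D.β l = i → g l = x) :
    ∏ l ∈ D.B i, g l = (if D.Free i then x else 1) * ∏ l ∈ D.Bp i, g l := by
  classical
  have h0 : ∏ l ∈ D.B i, g l = (∏ l ∈ (D.B i).filter (fun l => l ∈ D.fr), g l) *
      ∏ l ∈ (D.B i).filter (fun l => l ∉ D.fr), g l :=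
    (Finset.prod_filter_mul_prod_filter_not _ _ _).symm
  rw [h0, Data.Bp]
  congr 1
  by_cases hF : D.Free i
  · rw [if_pos hF]
    obtain ⟨l, hl, hli⟩ := hF
    have h1 : (D.B i).filter (fun l => l ∈ D.fr) = {l} := by
      ext l'
      rw [Finset.mem_filter, H4b_mem_B, Finset.mem_singleton]
      constructor
      · rintro ⟨h2, h3⟩
        rw [(fr_spec D l' h3).1, (fr_spec D l hl).1, h2, hli]
      · rintro rfl
        exact ⟨hli, hl⟩
    rw [h1, Finset.prod_singleton, hx l hl hli]
  · rw [if_neg hF]
    apply Finset.prod_eq_one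
    intro l hl
    rw [Finset.mem_filter, H4b_mem_B] at hl
    exact absurd ⟨l, hl.2, hl.1⟩ hF

/-- congruence modulo `X ^ (n + 1)` is compatible with products -/
theorem H4b_congr_prod {R : Type*} [CommRing R] (n : ℕ) (Q : Finset (Fin N))
    (f g : Fin N → PowerSeries R)
    (h : ∀ l ∈ Q, ∀ k ≤ n, PowerSeries.coeff k (f l) = PowerSeries.coeff k (g l)) :
    ∀ k ≤ n, PowerSeries.coeff k (∏ l ∈ Q, f l) = PowerSeries.coeff k (∏ l ∈ Q, g l) := by
  classical
  induction Q using Finset.induction_on with
  | empty => intro k _; rfl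
  | insert a Q ha ih =>
    intro k hk
    rw [Finset.prod_insert ha, Finset.prod_insert ha, PowerSeries.coeff_mul, PowerSeries.coeff_mul]
    refine Finset.sum_congr rfl fun p hp => ?_
    rw [Finset.HasAntidiagonal.mem_antidiagonal] at hp
    rw [h a (Finset.mem_insert_self a Q) p.1 (by omega),
      ih (fun l hl => h l (Finset.mem_insert_of_mem hl)) p.2 (by omega)]

/-- weights of the orders of a block which starts at level `ν` -/
theorem sum_start (i : Fin s) (n c ν : ℕ) (hc : c ≤ n) (hν : ν < c) :
    ∑ o ∈ (D.OrdB n i).filter (fun o => nuv D.β D.d o i = ν),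
      ∏ l ∈ D.B i, (PowerSeries.C (Li ^ o l) * PowerSeries.X ^ (D.b l * o l)) =
        PowerSeries.coeff ν (D.dlt i (D.Bp i)) := by
  classical
  set f : Fin N → ℕ → PowerSeries (PowerSeries MC) :=
    fun l a => PowerSeries.monomial (D.d l * a) (D.rho l ^ a) with hf
  have hrho : ∀ l a, D.rho l ^ a = PowerSeries.C (Li ^ a) * PowerSeries.X ^ (D.b l * a) := by
    intro l a
    rw [Data.rho, mul_pow, ← map_pow, ← pow_mul]
  have hmon : ∀ (Q : Finset (Fin N)) (o : Fin N → ℕ), ∏ l ∈ Q, f l (o l) =
      PowerSeries.monomial (∑ l ∈ Q, D.d l * o l) (∏ l ∈ Q, D.rho l ^ o l) := by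
    intro Q o
    induction Q using Finset.induction_on with
    | empty =>
      rw [Finset.prod_empty, Finset.sum_empty, Finset.prod_empty, PowerSeries.monomial_zero_eq_C_apply,
        map_one]
    | insert a Q ha ih =>
      rw [Finset.prod_insert ha, Finset.sum_insert ha, Finset.prod_insert ha, ih, hf,
        PowerSeries.monomial_mul_monomial]
  have h1 := H4b_sum_prod D i n f
  have h2 := congrArg (PowerSeries.coeff ν) h1
  rw [map_sum] at h2
  have h3 : ∑ o ∈ D.OrdB n i, PowerSeries.coeff ν (∏ l ∈ D.B i, f l (o l)) =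
      ∑ o ∈ (D.OrdB n i).filter (fun o => nuv D.β D.d o i = ν),
        ∏ l ∈ D.B i, (PowerSeries.C (Li ^ o l) * PowerSeries.X ^ (D.b l * o l)) := by
    rw [Finset.sum_filter]
    refine Finset.sum_congr rfl fun o _ => ?_
    rw [hmon, PowerSeries.coeff_monomial]
    have h4 : ∑ l ∈ D.B i, D.d l * o l = nuv D.β D.d o i := rfl
    rw [h4]
    by_cases h : nuv D.β D.d o i = ν
    · rw [if_pos h, if_pos h.symm]
      exact Finset.prod_congr rfl fun l _ => hrho l _
    · rw [if_neg h, if_neg (Ne.symm h)]
  rw [← h3, h2, H4b_prod_B D i (fun l => ∑ a ∈ D.Ord n l, f l a)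
    (PowerSeries.C (PowerSeries.C Li) * PowerSeries.X), Data.dlt]
  · rw [PowerSeries.coeff_mul, PowerSeries.coeff_mul]
    refine Finset.sum_congr rfl fun p hp => ?_
    rw [Finset.HasAntidiagonal.mem_antidiagonal] at hp
    congr 1
    refine H4b_congr_prod n (D.Bp i) _ _ ?_ p.2 (by omega)
    intro l hl k hk
    have hlf : l ∉ D.fr := (Finset.mem_filter.1 hl).2
    rw [Data.Ord, if_neg hlf, map_sum, Data.Pser, PowerSeries.coeff_mk]
    have hd := D.hd l
    split_ifs with hcase
    · obtain ⟨hk0, a, rfl⟩ := hcase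
      rw [Nat.mul_div_cancel_left a hd]
      rw [Finset.sum_eq_single a]
      · rw [hf]
        beta_reduce
        rw [PowerSeries.coeff_monomial, if_pos rfl]
      · intro a' _ hne
        rw [hf]
        beta_reduce
        rw [PowerSeries.coeff_monomial, if_neg]
        intro h
        exact hne (Nat.eq_of_mul_eq_mul_left hd h).symm
      · intro hmem
        exfalso
        apply hmem
        rw [Finset.mem_Icc]
        constructor
        · rcases Nat.eq_zero_or_pos a with h | h
          · rw [h, mul_zero] at hk0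
            exact absurd rfl hk0
          · exact h
        · exact le_trans (Nat.le_mul_of_pos_left a hd) hk
    · apply Finset.sum_eq_zero
      intro a ha
      rw [Finset.mem_Icc] at ha
      rw [hf]
      beta_reduce
      rw [PowerSeries.coeff_monomial, if_neg]
      rintro rfl
      exact hcase ⟨by have := Nat.mul_pos hd (by omega : 0 < a); omega, dvd_mul_right _ _⟩
  · intro l hl _
    obtain ⟨-, hd1, hb0⟩ := fr_spec D l hl
    rw [Data.Ord, if_pos hl, Finset.sum_singleton, hf]
    beta_reduce
    rw [hd1, pow_one, Data.rho, hb0, pow_zero, mul_one, mul_one]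
    apply PowerSeries.ext
    intro k
    rw [PowerSeries.coeff_monomial, PowerSeries.coeff_C_mul, PowerSeries.coeff_X]
    split_ifs
    · rw [mul_one]
    · rw [mul_zero]

end MotMono.Mon
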