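import Pool.Agent.Lib.MP_4e5fcd_ag.Mon.H4b

/-! # MON-H4c: the weights of the tails of a block -/

open MvPolynomial

namespace MotMono.Mon

variable {N s : ℕ} (D : Data N s)

/-- the weight of an order in one variable -/
noncomputable def H4cf (n : ℕ) (l : Fin N) (a : ℕ) : PowerSeries MC :=
  PowerSeries.C ((if l ∉ D.fr ∧ a < n then 1 - Li else 1) * Li ^ a) * PowerSeries.X ^ (D.b l * a)

theorem H4c_rho_pow (l : Fin N) (a : ℕ) :
    D.rho l ^ a = PowerSeries.C (Li ^ a) * PowerSeries.X ^ (D.b l * a) := by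
  rw [Data.rho, mul_pow, ← map_pow, ← pow_mul]

theorem H4c_inv (l : Fin N) (hb : D.b l ≠ 0) :
    (1 - D.rho l) * PowerSeries.invOfUnit (1 - D.rho l) 1 = 1 := by
  apply PowerSeries.mul_invOfUnit
  rw [map_sub, map_one, Data.rho, map_mul, map_pow, PowerSeries.constantCoeff_X, zero_pow hb,
    mul_zero, sub_zero, Units.val_one]

theorem H4c_geom {R : Type*} [CommRing R] (x y : R) (n : ℕ) :
    (1 - x) * ∑ a ∈ Finset.range n, y * x ^ (a + 1) = y * (x - x ^ (n + 1)) := by
  induction n with
  | zero => simp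
  | succ n ih =>
    rw [Finset.sum_range_succ, mul_add, ih]
    ring

theorem H4c_sum (n : ℕ) (l : Fin N) (hl : l ∉ D.fr) :
    ∑ a ∈ D.Ord (n + 1) l, H4cf D (n + 1) l a =
      (∑ a ∈ Finset.range n, PowerSeries.C (1 - Li) * D.rho l ^ (a + 1)) + D.rho l ^ (n + 1) := by
  classical
  have hI : Finset.Icc 1 (n + 1) = (Finset.range (n + 1)).map ⟨(· + 1), add_left_injective 1⟩ := by
    ext a
    rw [Finset.mem_Icc, Finset.mem_map]
    constructor
    · intro h
      exact ⟨a - 1, Finset.mem_range.2 (by omega), by simp only [Function.Embedding.coeFn_mk]; omega⟩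
    · rintro ⟨a', h1, h2⟩
      rw [Finset.mem_range] at h1
      simp only [Function.Embedding.coeFn_mk] at h2
      omega
  rw [Data.Ord, if_neg hl, hI, Finset.sum_map, Finset.sum_range_succ]
  congr 1
  · refine Finset.sum_congr rfl fun a ha => ?_
    rw [Finset.mem_range] at ha
    simp only [Function.Embedding.coeFn_mk]
    rw [H4cf, if_pos ⟨hl, by omega⟩, H4c_rho_pow, map_mul, mul_assoc]
  · simp only [Function.Embedding.coeFn_mk]
    rw [H4cf, if_neg (fun h => absurd h.2 (lt_irrefl _)), one_mul, H4c_rho_pow]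

/-- one variable -/
theorem H4c_single (n : ℕ) (l : Fin N) (hl : l ∉ D.fr) (k : ℕ) (hk : k < n) :
    PowerSeries.coeff k (∑ a ∈ D.Ord n l, H4cf D n l a) = PowerSeries.coeff k (D.mass l) := by
  classical
  obtain ⟨n, rfl⟩ : ∃ m, n = m + 1 := ⟨n - 1, by omega⟩
  rw [H4c_sum D n l hl]
  by_cases hb : D.b l = 0
  · have hrho : D.rho l = PowerSeries.C Li := by rw [Data.rho, hb, pow_zero, mul_one]
    rw [Data.mass, if_pos hb, hrho]
    congr 1
    have h1 := H4c_geom (Li : MC) 1 n
    have h2 : (1 - Li) * ∑ a ∈ Finset.range n, (Li : MC) ^ (a + 1) + Li ^ (n + 1) = Li := by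
      simp only [one_mul] at h1
      rw [h1]
      ring
    rw [← Finset.mul_sum]
    have h3 : ∑ a ∈ Finset.range n, (PowerSeries.C Li : PowerSeries MC) ^ (a + 1) =
        PowerSeries.C (∑ a ∈ Finset.range n, (Li : MC) ^ (a + 1)) := by
      rw [map_sum]
      exact Finset.sum_congr rfl fun a _ => (map_pow _ _ _).symm
    rw [h3, ← map_mul, ← map_pow, ← map_add, h2]
  · have hinv := H4c_inv D l hb
    set S : PowerSeries MC :=
      (∑ a ∈ Finset.range n, PowerSeries.C (1 - Li) * D.rho l ^ (a + 1)) + D.rho l ^ (n + 1) with hS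
    set inv := PowerSeries.invOfUnit (1 - D.rho l) 1 with hi
    have hm : D.mass l = PowerSeries.C (1 - Li) * D.rho l * inv := by
      rw [Data.mass, if_neg hb]
    have hg := H4c_geom (D.rho l) (PowerSeries.C (1 - Li)) n
    have h1 : S - D.mass l = D.rho l ^ (n + 1) * (1 - inv * PowerSeries.C (1 - Li)) := by
      have e : ∑ a ∈ Finset.range n, PowerSeries.C (1 - Li) * D.rho l ^ (a + 1) =
          inv * (PowerSeries.C (1 - Li) * (D.rho l - D.rho l ^ (n + 1))) := by
        rw [← hg, ← mul_assoc, mul_comm inv, hinv, one_mul]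
      rw [hS, hm, e]
      ring
    have h2 : (PowerSeries.X : PowerSeries MC) ^ (n + 1) ∣ S - D.mass l := by
      rw [h1, H4c_rho_pow]
      refine Dvd.dvd.mul_right (Dvd.dvd.mul_left (pow_dvd_pow _ ?_) _) _
      exact Nat.le_mul_of_pos_left _ (Nat.pos_of_ne_zero hb)
    have h3 := PowerSeries.X_pow_dvd_iff.1 h2 k hk
    rw [map_sub, sub_eq_zero] at h3
    exact h3

/-- the sum over all orders is the mass, up to order `n` -/
theorem sum_all (i : Fin s) (n κ : ℕ) (hκ : κ < n) :
    PowerSeries.coeff κ (∑ o ∈ D.OrdB n i, ∏ l ∈ D.B i,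
      (PowerSeries.C ((if l ∉ D.fr ∧ o l < n then 1 - Li else 1) * Li ^ o l) *
        PowerSeries.X ^ (D.b l * o l))) = PowerSeries.coeff κ (D.Tsq i (D.Bp i) 0) := by
  classical
  have h1 := H4b_sum_prod D i n (H4cf D n)
  have h2 : ∑ o ∈ D.OrdB n i, ∏ l ∈ D.B i,
      (PowerSeries.C ((if l ∉ D.fr ∧ o l < n then 1 - Li else 1) * Li ^ o l) *
        PowerSeries.X ^ (D.b l * o l)) = ∏ l ∈ D.B i, ∑ a ∈ D.Ord n l, H4cf D n l a := h1
  rw [h2, H4b_prod_B D i _ (PowerSeries.C Li), Data.Tsq, Finset.range_zero, Finset.sum_empty,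
    mul_zero, sub_zero, sdiff_self]
  · simp only [Finset.bot_eq_empty, Finset.card_empty, pow_zero, map_one, one_mul]
    rw [PowerSeries.coeff_mul, PowerSeries.coeff_mul]
    refine Finset.sum_congr rfl fun p hp => ?_
    rw [Finset.HasAntidiagonal.mem_antidiagonal] at hp
    congr 1
    refine H4b_congr_prod κ (D.Bp i) _ _ ?_ p.2 (by omega)
    intro l hl k hk
    exact H4c_single D n l (Finset.mem_filter.1 hl).2 k (by omega)
  · intro l hl _
    obtain ⟨-, -, hb0⟩ := fr_spec D l hl
    rw [Data.Ord, if_pos hl, Finset.sum_singleton, H4cf, if_neg (fun h => h.1 hl), hb0, zero_mul,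
      pow_zero, mul_one, one_mul, pow_one]

/-- weights of the orders of a block which starts at level `c` or later -/
theorem sum_tail (i : Fin s) (n c κ : ℕ) (hc : c ≤ n) (hκ : κ < n) :
    PowerSeries.coeff κ (∑ o ∈ (D.OrdB n i).filter (fun o => c ≤ nuv D.β D.d o i),
      ∏ l ∈ D.B i, (PowerSeries.C ((if l ∉ D.fr ∧ o l < n then 1 - Li else 1) * Li ^ o l) *
        PowerSeries.X ^ (D.b l * o l))) = PowerSeries.coeff κ (D.Tsq i (D.Bp i) c) := by
  classical
  set W : (Fin N → ℕ) → PowerSeries MC := fun o => ∏ l ∈ D.B i,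
    (PowerSeries.C ((if l ∉ D.fr ∧ o l < n then 1 - Li else 1) * Li ^ o l) *
        PowerSeries.X ^ (D.b l * o l)) with hW
  have h1 : ∑ o ∈ (D.OrdB n i).filter (fun o => c ≤ nuv D.β D.d o i), W o =
      ∑ o ∈ D.OrdB n i, W o -
        ∑ o ∈ (D.OrdB n i).filter (fun o => ¬ c ≤ nuv D.β D.d o i), W o := by
    rw [← Finset.sum_filter_add_sum_filter_not (D.OrdB n i) (fun o => c ≤ nuv D.β D.d o i) W]
    ring
  have hcc : ∏ l ∈ D.B i, (PowerSeries.C (if l ∉ D.fr then 1 - Li else 1) : PowerSeries MC) =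
      PowerSeries.C (D.cc i) := by
    rw [← map_prod, Data.cc, Data.Bp, ← Finset.prod_const, Finset.prod_filter]
  have h2 : ∑ o ∈ (D.OrdB n i).filter (fun o => ¬ c ≤ nuv D.β D.d o i), W o =
      PowerSeries.C (D.cc i) * ∑ n' ∈ Finset.range c, PowerSeries.coeff n' (D.dlt i (D.Bp i)) := by
    rw [← Finset.sum_fiberwise_of_maps_to (t := Finset.range c) (g := fun o => nuv D.β D.d o i),
      Finset.mul_sum]
    · refine Finset.sum_congr rfl fun ν hν => ?_
      rw [Finset.mem_range] at hν
      rw [← sum_start D i n c ν hc hν, Finset.mul_sum, Finset.filter_filter]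
      have hfil : (D.OrdB n i).filter (fun o => ¬ c ≤ nuv D.β D.d o i ∧ nuv D.β D.d o i = ν) =
          (D.OrdB n i).filter (fun o => nuv D.β D.d o i = ν) := by
        refine Finset.filter_congr fun o _ => ?_
        constructor
        · exact fun h => h.2
        · exact fun h => ⟨by omega, h⟩
      rw [hfil]
      refine Finset.sum_congr rfl fun o ho => ?_
      rw [Finset.mem_filter] at ho
      rw [← hcc, hW]
      beta_reduce
      rw [← Finset.prod_mul_distrib]
      refine Finset.prod_congr rfl fun l hl => ?_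
      have hol : o l < n := by
        have h3 : D.d l * o l ≤ nuv D.β D.d o i := by
          refine Finset.single_le_sum (f := fun l => D.d l * o l) (fun _ _ => Nat.zero_le _) ?_
          rw [Finset.mem_filter]
          exact ⟨Finset.mem_univ l, H4b_mem_B.1 hl⟩
        have h4 := Nat.le_mul_of_pos_left (o l) (D.hd l)
        have h5 := ho.2
        omega
      have hif : (if l ∉ D.fr ∧ o l < n then (1 - Li : MC) else 1) =
          if l ∉ D.fr then 1 - Li else 1 := by
        by_cases hlf : l ∈ D.fr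
        · rw [if_neg (fun h => h.1 hlf), if_neg (fun h => h hlf)]
        · rw [if_pos ⟨hlf, hol⟩, if_pos hlf]
      rw [hif, map_mul, mul_assoc]
    · intro o ho
      rw [Finset.mem_filter] at ho
      rw [Finset.mem_range]
      omega
  have h3 := sum_all D i n κ hκ
  change PowerSeries.coeff κ (∑ o ∈ D.OrdB n i, W o) = _ at h3
  change PowerSeries.coeff κ (∑ o ∈ (D.OrdB n i).filter (fun o => c ≤ nuv D.β D.d o i), W o) = _
  rw [h1, h2, map_sub, h3, ← map_sub]
  congr 1
  rw [Data.Tsq, Data.Tsq, Finset.range_zero, Finset.sum_empty, mul_zero, sub_zero]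

end MotMono.Mon
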