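import Pool.Agent.Lib.MP_4e5fcd_ag.Mon.G2
import Pool.Agent.Lib.MP_4e5fcd_ag.Mon.H3
import Pool.Agent.Lib.MP_4e5fcd_ag.Mon.H4a
import Pool.Agent.Lib.MP_4e5fcd_ag.Mon.H4c

/-! # MON-H5: the measure of the sets `Om` -/

open MvPolynomial

namespace MotMono.Mon

variable {N s : ℕ} (D : Data N s)

private theorem h5_mul {R : Type*} [CommRing R] {n : ℕ} {f f' g g' : PowerSeries R}
    (hf : ∀ k < n, PowerSeries.coeff k f = PowerSeries.coeff k f')
    (hg : ∀ k < n, PowerSeries.coeff k g = PowerSeries.coeff k g') :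
    ∀ k < n, PowerSeries.coeff k (f * g) = PowerSeries.coeff k (f' * g') := by
  intro k hk
  rw [PowerSeries.coeff_mul, PowerSeries.coeff_mul]
  refine Finset.sum_congr rfl fun p hp => ?_
  have h1 := Finset.HasAntidiagonal.mem_antidiagonal.1 hp
  rw [hf _ (by omega), hg _ (by omega)]

private theorem h5_prod {R : Type*} [CommRing R] {n : ℕ} {ι : Type*} (t : Finset ι)
    (f g : ι → PowerSeries R)
    (h : ∀ i ∈ t, ∀ k < n, PowerSeries.coeff k (f i) = PowerSeries.coeff k (g i)) :
    ∀ k < n, PowerSeries.coeff k (∏ i ∈ t, f i) = PowerSeries.coeff k (∏ i ∈ t, g i) := by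
  classical
  induction t using Finset.induction_on with
  | empty =>
    intro k _
    rw [Finset.prod_empty, Finset.prod_empty]
  | insert a t ha ih =>
    rw [Finset.prod_insert ha, Finset.prod_insert ha]
    exact h5_mul (h a (Finset.mem_insert_self a t))
      (ih fun i hi => h i (Finset.mem_insert_of_mem hi))

private theorem h5_mem {κ c n : ℕ} (hκ : κ < n) (γ : Fin N × Fin n → ℂ) :
    γ ∈ D.Om κ c n ↔ ∃ o ∈ (Fintype.piFinset (D.Ord n)).filter
      (fun o => ∑ l, D.b l * o l = κ),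
        γ ∈ Yset D.fr o n ∧ ∀ e < c, zc D.β D.d γ e ∈ D.W := by
  have hn : 0 < n := by omega
  constructor
  · rintro ⟨h0, hs, hz⟩
    have hpos : ∀ l, 1 ≤ ord1 (fun j => γ (l, j)) := by
      intro l
      by_contra hcon
      have h1 : ord1 (fun j => γ (l, j)) = 0 := by omega
      have h2 := (ord1_eq_iff _ 0 (Nat.zero_le n)).1 h1
      exact h2.2 hn (h0 l ⟨0, hn⟩ rfl)
    obtain ⟨o, hoF, hoN⟩ : ∃ o : Fin N → ℕ, (∀ l ∈ D.fr, o l = 1) ∧
        ∀ l, l ∉ D.fr → o l = ord1 (fun j => γ (l, j)) :=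
      ⟨fun l => if l ∈ D.fr then 1 else ord1 (fun j => γ (l, j)), fun l hl => if_pos hl,
        fun l hl => if_neg hl⟩
    refine ⟨o, ?_, ⟨?_, ?_⟩, hz⟩
    · rw [Finset.mem_filter, Fintype.mem_piFinset]
      refine ⟨fun l => ?_, ?_⟩
      · unfold Data.Ord
        by_cases hl : l ∈ D.fr
        · rw [if_pos hl, Finset.mem_singleton]
          exact hoF l hl
        · rw [if_neg hl, Finset.mem_Icc, hoN l hl]
          exact ⟨hpos l, ord1_le _⟩
      · rw [← hs]
        refine Finset.sum_congr rfl fun l _ => ?_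
        by_cases hl : l ∈ D.fr
        · rw [(fr_spec D l hl).2.2, zero_mul, zero_mul]
        · rw [hoN l hl]
    · intro l j hj
      by_cases hl : l ∈ D.fr
      · rw [hoF l hl] at hj
        exact h0 l j (by omega)
      · rw [hoN l hl] at hj
        exact eq_zero_of_lt_ord1 (fun j => γ (l, j)) j hj
    · intro l hl h
      exact ((ord1_eq_iff (fun j => γ (l, j)) (o l) h.le).1 (hoN l hl).symm).2 h
  · rintro ⟨o, ho, ⟨hY1, hY2⟩, hz⟩
    rw [Finset.mem_filter, Fintype.mem_piFinset] at ho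
    obtain ⟨ho, hs⟩ := ho
    have ho1 : ∀ l, 1 ≤ o l ∧ o l ≤ n := by
      intro l
      have h1 := ho l
      unfold Data.Ord at h1
      by_cases hl : l ∈ D.fr
      · rw [if_pos hl, Finset.mem_singleton] at h1
        omega
      · rw [if_neg hl, Finset.mem_Icc] at h1
        exact h1
    refine ⟨fun l j hj => hY1 l j (by have := (ho1 l).1; omega), ?_, hz⟩
    rw [← hs]
    refine Finset.sum_congr rfl fun l _ => ?_
    by_cases hl : l ∈ D.fr
    · rw [(fr_spec D l hl).2.2, zero_mul, zero_mul]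
    · rw [(ord1_eq_iff (fun j => γ (l, j)) (o l) (ho1 l).2).2 ⟨fun j hj => hY1 l j hj, hY2 l hl⟩]

private theorem h5_unique {n : ℕ} {γ : Fin N × Fin n → ℂ} {o o' : Fin N → ℕ}
    (ho : o ∈ Fintype.piFinset (D.Ord n)) (ho' : o' ∈ Fintype.piFinset (D.Ord n))
    (h : γ ∈ Yset D.fr o n) (h' : γ ∈ Yset D.fr o' n) : o = o' := by
  funext l
  rw [Fintype.mem_piFinset] at ho ho'
  have h1 := ho l
  have h2 := ho' l
  unfold Data.Ord at h1 h2
  by_cases hl : l ∈ D.fr
  · rw [if_pos hl, Finset.mem_singleton] at h1 h2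
    rw [h1, h2]
  · rw [if_neg hl, Finset.mem_Icc] at h1 h2
    have e1 := (ord1_eq_iff (fun j => γ (l, j)) (o l) h1.2).2
      ⟨fun j hj => h.1 l j hj, h.2 l hl⟩
    have e2 := (ord1_eq_iff (fun j => γ (l, j)) (o' l) h2.2).2
      ⟨fun j hj => h'.1 l j hj, h'.2 l hl⟩
    rw [← e1, e2]

/-- decomposition by the orders -/
theorem cls_Om_eq_sum (κ c n : ℕ) (hκ : κ < n) (hc : c ≤ n) :
    cls (D.Om κ c n) = ∑ o ∈ (Fintype.piFinset (D.Ord n)).filter
      (fun o => ∑ l, D.b l * o l = κ),
        cls {γ : Fin N × Fin n → ℂ | γ ∈ Yset D.fr o n ∧ ∀ e < c, zc D.β D.d γ e ∈ D.W} := by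
  rw [← cls_biUnion]
  · congr 1
    ext γ
    rw [h5_mem D hκ γ]
    simp only [Set.mem_iUnion, Set.mem_ofPred_eq, exists_prop]
  · intro o _
    exact constr_stratum D o n c
  · intro o ho o' ho' hne
    rw [Set.disjoint_left]
    rintro γ ⟨h1, -⟩ ⟨h2, -⟩
    exact hne (h5_unique D (Finset.mem_filter.1 ho).1 (Finset.mem_filter.1 ho').1 h1 h2)

private theorem h5_mono (a : MC) (m κ : ℕ) :
    PowerSeries.coeff κ (PowerSeries.C a * PowerSeries.X ^ m : PowerSeries MC) =
      if m = κ then a else 0 := by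
  rw [PowerSeries.coeff_C_mul, PowerSeries.coeff_X_pow]
  by_cases h : κ = m
  · rw [if_pos h, if_pos h.symm, mul_one]
  · rw [if_neg h, if_neg (Ne.symm h), mul_zero]

/-- the weights of a block -/
private noncomputable def h5_Phi (c n : ℕ) (i : Fin s) (o : Fin N → ℕ) : PowerSeries MC :=
  ∏ l ∈ D.B i, (PowerSeries.C ((if c ≤ nuv D.β D.d o i ∧ l ∉ D.fr ∧ o l < n then 1 - Li else 1) *
    Li ^ o l) * PowerSeries.X ^ (D.b l * o l))

private theorem h5_Phi_prod (c n : ℕ) (o : Fin N → ℕ) :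
    ∏ i, h5_Phi D c n i o =
      PowerSeries.C (∏ l, (if c ≤ nuv D.β D.d o (D.β l) ∧ l ∉ D.fr ∧ o l < n then 1 - Li else 1) *
          Li ^ o l) * PowerSeries.X ^ (∑ l, D.b l * o l) := by
  have h1 : ∀ i, h5_Phi D c n i o = ∏ l ∈ Finset.univ.filter (fun l => D.β l = i),
      (PowerSeries.C ((if c ≤ nuv D.β D.d o (D.β l) ∧ l ∉ D.fr ∧ o l < n then 1 - Li else 1) *
        Li ^ o l) * PowerSeries.X ^ (D.b l * o l)) := by
    intro i
    unfold h5_Phi Data.B
    refine Finset.prod_congr rfl fun l hl => ?_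
    rw [(Finset.mem_filter.1 hl).2]
  rw [Finset.prod_congr rfl fun i _ => h1 i, Finset.prod_fiberwise, Finset.prod_mul_distrib,
    map_prod, Finset.prod_pow_eq_pow_sum]

private theorem h5_nuv_congr (i : Fin s) (o o' : Fin N → ℕ) (h : ∀ l, D.β l = i → o l = o' l) :
    nuv D.β D.d o i = nuv D.β D.d o' i := by
  unfold nuv
  refine Finset.sum_congr rfl fun l hl => ?_
  rw [h l (Finset.mem_filter.1 hl).2]

private theorem h5_Phi_congr (c n : ℕ) (i : Fin s) (o o' : Fin N → ℕ)
    (h : ∀ l, D.β l = i → o l = o' l) : h5_Phi D c n i o = h5_Phi D c n i o' := by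
  unfold h5_Phi
  refine Finset.prod_congr rfl fun l hl => ?_
  rw [h5_nuv_congr D i o o' h, h l (Finset.mem_filter.1 hl).2]

/-- the sums over a block -/
private theorem h5_block (c n μ : ℕ) (hc : c ≤ n) (hμ : μ ≤ c) (i : Fin s) :
    ∀ k < n, PowerSeries.coeff k
      (∑ o ∈ (Fintype.piFinset fun l => if D.β l = i then D.Ord n l else {1}).filter
          (fun o => min (nuv D.β D.d o i) c = μ), h5_Phi D c n i o) =
      PowerSeries.coeff k
        (if μ < c then (D.pr i (D.Bp i) μ).1 else (D.pr i (D.Bp i) c).2) := by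
  intro k hk
  by_cases h : μ < c
  · rw [if_pos h]
    have h1 : (∑ o ∈ (Fintype.piFinset fun l => if D.β l = i then D.Ord n l else {1}).filter
          (fun o => min (nuv D.β D.d o i) c = μ), h5_Phi D c n i o) =
        ∑ o ∈ (D.OrdB n i).filter (fun o => nuv D.β D.d o i = μ),
          ∏ l ∈ D.B i, (PowerSeries.C (Li ^ o l) * PowerSeries.X ^ (D.b l * o l)) := by
      refine Finset.sum_congr ?_ fun o ho => ?_
      · ext o
        rw [Finset.mem_filter, Finset.mem_filter]
        refine and_congr Iff.rfl ?_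
        omega
      · have h2 : nuv D.β D.d o i = μ := (Finset.mem_filter.1 ho).2
        unfold h5_Phi
        refine Finset.prod_congr rfl fun l _ => ?_
        rw [if_neg (fun h3 => by omega), one_mul]
    rw [h1, sum_start D i n c μ hc h]
    rfl
  · rw [if_neg h]
    have h1 : (∑ o ∈ (Fintype.piFinset fun l => if D.β l = i then D.Ord n l else {1}).filter
          (fun o => min (nuv D.β D.d o i) c = μ), h5_Phi D c n i o) =
        ∑ o ∈ (D.OrdB n i).filter (fun o => c ≤ nuv D.β D.d o i),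
          ∏ l ∈ D.B i, (PowerSeries.C ((if l ∉ D.fr ∧ o l < n then 1 - Li else 1) * Li ^ o l) *
            PowerSeries.X ^ (D.b l * o l)) := by
      refine Finset.sum_congr ?_ fun o ho => ?_
      · ext o
        rw [Finset.mem_filter, Finset.mem_filter]
        refine and_congr Iff.rfl ?_
        omega
      · have h2 : c ≤ nuv D.β D.d o i := (Finset.mem_filter.1 ho).2
        unfold h5_Phi
        refine Finset.prod_congr rfl fun l _ => ?_
        have h3 : (if c ≤ nuv D.β D.d o i ∧ l ∉ D.fr ∧ o l < n then 1 - Li else 1) =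
            if l ∉ D.fr ∧ o l < n then 1 - Li else 1 := by
          simp only [h2, true_and]
        rw [h3]
    rw [h1, sum_tail D i n c k hc hk]
    rfl

theorem coeff_Om (κ c n : ℕ) (hκ : κ < n) (hc : c ≤ n) :
    algebraMap K0 MC (cls (D.Om κ c n)) * ((Lu ^ (-(N * n : ℤ)) : MCˣ) : MC) =
      PowerSeries.coeff κ (D.FF c Finset.univ fun i n => D.pr i (D.Bp i) n) := by
  classical
  have hOrd : ∀ o ∈ Fintype.piFinset (D.Ord n), (∀ l ∈ D.fr, o l = 1) ∧ (∀ l, 1 ≤ o l) ∧
      ∀ l, o l ≤ n := by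
    intro o ho
    rw [Fintype.mem_piFinset] at ho
    have h1 : ∀ l, (l ∈ D.fr → o l = 1) ∧ 1 ≤ o l ∧ o l ≤ n := by
      intro l
      have h1 := ho l
      unfold Data.Ord at h1
      by_cases hl : l ∈ D.fr
      · rw [if_pos hl, Finset.mem_singleton] at h1
        exact ⟨fun _ => h1, by omega, by omega⟩
      · rw [if_neg hl, Finset.mem_Icc] at h1
        exact ⟨fun h => absurd h hl, h1⟩
    exact ⟨fun l => (h1 l).1, fun l => (h1 l).2.1, fun l => (h1 l).2.2⟩
  set G : (Fin s → ℕ) → PowerSeries MC := fun μ =>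
    ∏ e ∈ Finset.range c, PowerSeries.C (D.gg (Finset.univ.filter fun i => e ≤ μ i)
      (Finset.univ.filter fun i => e + 1 ≤ μ i)) with hG
  -- left side
  have hleft : algebraMap K0 MC (cls (D.Om κ c n)) * ((Lu ^ (-(N * n : ℤ)) : MCˣ) : MC) =
      PowerSeries.coeff κ (∑ o ∈ Fintype.piFinset (D.Ord n),
        G (fun i => min (nuv D.β D.d o i) c) * ∏ i, h5_Phi D c n i o) := by
    rw [cls_Om_eq_sum D κ c n hκ hc, map_sum, Finset.sum_mul, map_sum, Finset.sum_filter]
    refine Finset.sum_congr rfl fun o ho => ?_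
    obtain ⟨h1, h2, h3⟩ := hOrd o ho
    have h4 : G (fun i => min (nuv D.β D.d o i) c) =
        PowerSeries.C (∏ e ∈ Finset.range c, D.gg (D.As o e) (D.As o (e + 1))) := by
      rw [map_prod]
      refine Finset.prod_congr rfl fun e he => ?_
      have he' := Finset.mem_range.1 he
      have e1 : (Finset.univ.filter fun i => e ≤ min (nuv D.β D.d o i) c) = D.As o e := by
        unfold Data.As
        refine Finset.filter_congr fun i _ => ?_
        omega
      have e2 : (Finset.univ.filter fun i => e + 1 ≤ min (nuv D.β D.d o i) c) =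
          D.As o (e + 1) := by
        unfold Data.As
        refine Finset.filter_congr fun i _ => ?_
        omega
      rw [e1, e2]
    rw [h4, h5_Phi_prod, ← mul_assoc, ← map_mul, h5_mono]
    by_cases h5 : ∑ l, D.b l * o l = κ
    · rw [if_pos h5, if_pos h5]
      exact cls_stratum D o n c hc h1 h2 h3
    · rw [if_neg h5, if_neg h5]
  have hS : ∀ l, 1 ∈ D.Ord n l := by
    intro l
    unfold Data.Ord
    by_cases hl : l ∈ D.fr
    · rw [if_pos hl, Finset.mem_singleton]
    · rw [if_neg hl, Finset.mem_Icc]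
      omega
  rw [hleft, sum_blocks_fiber D.β (D.Ord n) hS (h5_Phi D c n) (h5_Phi_congr D c n)
    (fun i o => nuv D.β D.d o i) (fun i o o' h => h5_nuv_congr D i o o' h) c G, FF_closed D,
    map_sum, map_sum]
  have hset : (Fintype.piFinset fun i : Fin s =>
      if i ∈ (Finset.univ : Finset (Fin s)) then Finset.range (c + 1) else {0}) =
        Fintype.piFinset fun _ : Fin s => Finset.range (c + 1) := by
    congr 1
    funext i
    rw [if_pos (Finset.mem_univ i)]
  rw [hset]
  refine Finset.sum_congr rfl fun μ hμ => ?_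
  rw [Fintype.mem_piFinset] at hμ
  refine h5_mul (n := n) (fun _ _ => rfl) ?_ κ hκ
  refine h5_prod _ _ _ fun i _ => ?_
  have h6 := Finset.mem_range.1 (hμ i)
  exact h5_block D c n (μ i) hc (by omega) i

end MotMono.Mon
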