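import Pool.Agent.Lib.MP_4e5fcd_ag.Mon.G3
import Pool.Agent.Lib.MP_4e5fcd_ag.Mon.H5

/-! # MON-H6: the motivic zeta function -/

open MvPolynomial

namespace MotMono.Mon

variable {N s : ℕ} (D : Data N s)

theorem Zmot_eq : Zmot D.I = D.Zs Finset.univ fun i n => D.pr i (D.Bp i) n := by
  unfold Zmot Data.Zs
  ext k
  rw [PowerSeries.coeff_mk, PowerSeries.coeff_mk, cls_ordLocus D k, map_sum, Finset.sum_mul]
  refine Finset.sum_congr rfl fun c hc => ?_
  have hc' := Finset.mem_range.1 hc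
  by_cases h : D.m * c ≤ k
  · rw [if_pos h, if_pos h, map_sub, sub_mul, map_sub]
    have h1 := coeff_Om D (k - D.m * c) c (k + 1) (by omega) (by omega)
    have h2 := coeff_Om D (k - D.m * c) (c + 1) (k + 1) (by omega) (by omega)
    rw [Nat.cast_add, Nat.cast_one] at h1 h2
    rw [h1, h2]
  · rw [if_neg h, if_neg h, map_zero, zero_mul]

end MotMono.Mon
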