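import Pool.Agent.Lib.MP_4e5fcd_ag.Mon.H2

/-! # MON-H7a: classes of levels -/

open MvPolynomial

namespace MotMono.Mon

variable {N s : ℕ} (D : Data N s)

theorem H7a_LL : algebraMap K0 MC LL = ((Lu : MCˣ) : MC) := by
  unfold Lu
  rw [IsUnit.unit_spec]

/-- the coefficient vector of a level at which no block starts -/
noncomputable def H7a_f (A : Finset (Fin s)) : (Fin N → ℂ) →ₗ[ℂ] (Fin s → ℂ) where
  toFun v i := if i ∈ A then 0 else v (D.piv i)
  map_add' x y := by
    funext i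
    by_cases h : i ∈ A <;> simp [h]
  map_smul' c x := by
    funext i
    by_cases h : i ∈ A <;> simp [h]

theorem H7a_f_apply (A : Finset (Fin s)) (v : Fin N → ℂ) (i : Fin s) :
    H7a_f D A v i = if i ∈ A then 0 else v (D.piv i) := rfl

/-- the set of coordinates of a level at which no block starts -/
noncomputable def H7a_U (A : Finset (Fin s)) : Submodule ℂ (Fin N → ℂ) where
  carrier := {v | (∀ l, D.β l ∈ A → v l = 0) ∧ H7a_f D A v ∈ D.W}
  zero_mem' := ⟨fun _ _ => rfl, by rw [map_zero]; exact D.W.zero_mem⟩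
  add_mem' := by
    rintro x y ⟨hx, hx'⟩ ⟨hy, hy'⟩
    refine ⟨fun l hl => ?_, ?_⟩
    · rw [Pi.add_apply, hx l hl, hy l hl, add_zero]
    · rw [map_add]
      exact D.W.add_mem hx' hy'
  smul_mem' := by
    rintro c x ⟨hx, hx'⟩
    refine ⟨fun l hl => ?_, ?_⟩
    · rw [Pi.smul_apply, hx l hl, smul_zero]
    · rw [map_smul]
      exact D.W.smul_mem c hx'

theorem H7a_Gset (A : Finset (Fin s)) : D.Gset A A = (H7a_U D A : Set (Fin N → ℂ)) := by
  ext v
  have h : D.zz A A v = H7a_f D A v := by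
    funext i
    unfold Data.zz
    rw [H7a_f_apply]
    by_cases h : i ∈ A
    · rw [if_pos h, if_pos h]
    · rw [if_neg h, if_neg h, if_neg h]
  constructor
  · rintro ⟨h1, -, h3⟩
    exact ⟨h1, h ▸ h3⟩
  · rintro ⟨h1, h3⟩
    exact ⟨h1, fun l hl hl' => absurd hl hl', h.symm ▸ h3⟩

/-- the values of the inverse -/
noncomputable def H7a_g (A : Finset (Fin s))
    (p : (D.VW A) × ({l // D.β l ∉ A ∧ l ≠ D.piv (D.β l)} → ℂ)) (l : Fin N) : ℂ :=
  if h : D.β l ∈ A then 0 else if h' : l = D.piv (D.β l) then p.1.1 (D.β l) else p.2 ⟨l, h, h'⟩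

theorem H7a_g_piv (A : Finset (Fin s))
    (p : (D.VW A) × ({l // D.β l ∉ A ∧ l ≠ D.piv (D.β l)} → ℂ)) (i : Fin s) (hi : i ∉ A) :
    H7a_g D A p (D.piv i) = p.1.1 i := by
  have h1 : D.β (D.piv i) = i := piv_spec D i
  unfold H7a_g
  rw [dif_neg (by rwa [h1]), dif_pos (by rw [h1]), h1]

theorem H7a_fg (A : Finset (Fin s))
    (p : (D.VW A) × ({l // D.β l ∉ A ∧ l ≠ D.piv (D.β l)} → ℂ)) :
    H7a_f D A (H7a_g D A p) = p.1.1 := by
  funext i
  rw [H7a_f_apply]
  by_cases h : i ∈ A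
  · rw [if_pos h]
    exact (p.1.2.2 i h).symm
  · rw [if_neg h, H7a_g_piv D A p i h]

/-- the linear isomorphism -/
noncomputable def H7a_e (A : Finset (Fin s)) :
    H7a_U D A ≃ₗ[ℂ] (D.VW A) × ({l // D.β l ∉ A ∧ l ≠ D.piv (D.β l)} → ℂ) where
  toFun v := (⟨H7a_f D A v.1, v.2.2, fun i hi => if_pos hi⟩, fun l => v.1 l.1)
  map_add' x y := by
    refine Prod.ext (Subtype.ext ?_) rfl
    exact map_add _ _ _
  map_smul' c x := by
    refine Prod.ext (Subtype.ext ?_) rfl
    exact map_smul _ _ _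
  invFun p := ⟨H7a_g D A p, fun l hl => dif_pos hl, by
    rw [H7a_fg]
    exact p.1.2.1⟩
  left_inv := by
    rintro ⟨v, hv, hv'⟩
    apply Subtype.ext
    funext l
    show H7a_g D A _ l = v l
    unfold H7a_g
    by_cases h : D.β l ∈ A
    · rw [dif_pos h, hv l h]
    · rw [dif_neg h]
      by_cases h' : l = D.piv (D.β l)
      · rw [dif_pos h']
        show H7a_f D A v (D.β l) = v l
        rw [H7a_f_apply, if_neg h, ← h']
      · rw [dif_neg h']
  right_inv := by
    intro p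
    refine Prod.ext (Subtype.ext ?_) ?_
    · exact H7a_fg D A p
    · funext l
      show H7a_g D A p l.1 = p.2 l
      unfold H7a_g
      rw [dif_neg l.2.1, dif_neg l.2.2]

/-- the pivots -/
noncomputable def H7a_piv : Fin s ↪ Fin N :=
  ⟨D.piv, fun i j h => by
    have h1 := piv_spec D i
    rw [h, piv_spec D j] at h1
    exact h1.symm⟩

theorem H7a_piv_apply (i : Fin s) : H7a_piv D i = D.piv i := rfl

theorem H7a_card (A : Finset (Fin s)) :
    (Fintype.card {l // D.β l ∉ A ∧ l ≠ D.piv (D.β l)} : ℤ) =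
      ((Finset.univ.filter fun l => D.β l ∉ A).card : ℤ) - (s - A.card) := by
  have h1 : Fintype.card {l // D.β l ∉ A ∧ l ≠ D.piv (D.β l)} +
      (Aᶜ).card = (Finset.univ.filter fun l => D.β l ∉ A).card := by
    rw [Fintype.card_subtype, ← Finset.card_map (H7a_piv D), ← Finset.card_union_of_disjoint]
    · congr 1
      ext l
      simp only [Finset.mem_union, Finset.mem_filter, Finset.mem_univ, true_and, Finset.mem_map,
        Finset.mem_compl, H7a_piv_apply]
      constructor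
      · rintro (⟨h, -⟩ | ⟨i, hi, rfl⟩)
        · exact h
        · rwa [piv_spec D i]
      · intro h
        by_cases h' : l = D.piv (D.β l)
        · exact Or.inr ⟨D.β l, h, h'.symm⟩
        · exact Or.inl ⟨h, h'⟩
    · rw [Finset.disjoint_left]
      intro l hl hl'
      simp only [Finset.mem_filter, Finset.mem_univ, true_and] at hl
      simp only [Finset.mem_map, Finset.mem_compl, H7a_piv_apply] at hl'
      obtain ⟨i, hi, rfl⟩ := hl'
      apply hl.2
      rw [piv_spec D i]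
  have h2 : (Aᶜ).card + A.card = s := by
    rw [Finset.card_compl_add_card, Fintype.card_fin]
  omega

/-- a level at which no block starts -/
theorem gg_self (A : Finset (Fin s)) :
    D.gg A A = ((Lu ^ ((Module.finrank ℂ (D.VW A) : ℤ) - (s - A.card)) : MCˣ) : MC) := by
  have h1 : (Module.finrank ℂ (H7a_U D A) : ℤ) = Module.finrank ℂ (D.VW A) +
      ((Finset.univ.filter fun l => D.β l ∉ A).card : ℤ) - (s - A.card) := by
    rw [(H7a_e D A).finrank_eq, Module.finrank_prod, Module.finrank_fintype_fun_eq_card]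
    push_cast
    rw [H7a_card D A]
    ring
  unfold Data.gg
  rw [H7a_Gset, cls_submodule, map_pow, H7a_LL, ← Units.val_pow_eq_pow_val, ← Units.val_mul,
    ← zpow_natCast Lu, ← zpow_add]
  congr 2
  rw [h1]
  ring

theorem H7a_VW_mono {A A' : Finset (Fin s)} (h : A' ⊆ A) : D.VW A ≤ D.VW A' := by
  rintro z ⟨h1, h2⟩
  exact ⟨h1, fun i hi => h2 i (h hi)⟩

theorem H7a_cV_mono {A A' : Finset (Fin s)} (h : A' ⊆ A) : cV A ≤ cV A' :=
  fun _ hz i hi => hz i (h hi)

/-- closed sets lead to closed sets -/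
theorem Cl_of_gg_ne_zero (A A' : Finset (Fin s)) (hA' : A' ⊆ A) (hA : D.Cl A)
    (h : D.gg A A' ≠ 0) : D.Cl A' := by
  intro i hi hle
  have hne : (D.Gset A A').Nonempty := by
    by_contra hc
    rw [Set.not_nonempty_iff_eq_empty] at hc
    apply h
    unfold Data.gg
    rw [hc, cls_empty, map_zero, zero_mul]
  obtain ⟨v, hv1, hv2, hv3⟩ := hne
  by_contra hiA'
  have hiA : i ∈ A := hA i hi ((H7a_VW_mono D hA').trans hle)
  have hz : D.zz A A' v ∈ cV {i} := by
    apply hle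
    refine ⟨hv3, fun j hj => ?_⟩
    unfold Data.zz
    rw [if_pos hj]
  have hz' : D.zz A A' v i = 0 := hz i (Finset.mem_singleton_self i)
  unfold Data.zz at hz'
  rw [if_neg hiA', if_pos hiA, Finset.prod_eq_zero_iff] at hz'
  obtain ⟨l, hl, hl0⟩ := hz'
  have hβ : D.β l = i := (Finset.mem_filter.mp hl).2
  refine hv2 l (hβ ▸ hiA) (hβ ▸ hiA') (fun hfr => hi ⟨l, hfr, hβ⟩) ?_
  exact pow_eq_zero_iff (D.hd l).ne' |>.mp hl0

theorem Cl_univ : D.Cl Finset.univ := fun i _ _ => Finset.mem_univ i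

/-- decomposition of a closed set which is not connected -/
theorem exists_sep (A : Finset (Fin s)) (hA : D.Cl A) (hc : ¬ D.Cn A) :
    ∃ A₁ A₂, Disjoint A₁ A₂ ∧ A₁ ∪ A₂ = A ∧ A₂.Nonempty ∧ D.VW A₁ ⊔ cV A₂ = ⊤ ∧ D.Cl A₁ := by
  unfold Data.Cn at hc
  push Not at hc
  obtain ⟨A', hA', hne, htop⟩ := hc
  refine ⟨A \ A', A', Finset.sdiff_disjoint, Finset.sdiff_union_of_subset hA', hne, htop, ?_⟩
  intro i hi hle
  have hiA : i ∈ A := hA i hi ((H7a_VW_mono D Finset.sdiff_subset).trans hle)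
  refine Finset.mem_sdiff.mpr ⟨hiA, fun hiA' => ?_⟩
  have h1 : cV A' ≤ cV {i} := H7a_cV_mono (Finset.singleton_subset_iff.mpr hiA')
  have h2 : (⊤ : Submodule ℂ (Fin s → ℂ)) ≤ cV {i} := htop ▸ sup_le hle h1
  have h3 : (fun _ => (1 : ℂ)) ∈ cV {i} := h2 Submodule.mem_top
  exact one_ne_zero (h3 i (Finset.mem_singleton_self i))

end MotMono.Mon
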