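import Pool.Agent.Lib.MP_4e5fcd_ag.Mon.H2

/-! # MON-H7b: multiplicativity of the classes of levels -/

open MvPolynomial

namespace MotMono.Mon

variable {N s : ℕ} (D : Data N s)

/-! ### Cylinders -/

/-- the class of a set given by equations `u l = 0` and inequations `u l ≠ 0` -/
private theorem H7b_cyl (Z P : Finset (Fin N)) (hZP : Disjoint Z P) :
    Constr {u : Fin N → ℂ | (∀ l ∈ Z, u l = 0) ∧ ∀ l ∈ P, u l ≠ 0} ∧
    cls {u : Fin N → ℂ | (∀ l ∈ Z, u l = 0) ∧ ∀ l ∈ P, u l ≠ 0} =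
      ∏ l, (if l ∈ Z then 1 else if l ∈ P then LL - 1 else LL) := by
  classical
  set G : Fin N → Set (Unit → ℂ) := fun l => {x | (l ∈ Z → x () = 0) ∧ (l ∈ P → x () ≠ 0)} with hG
  have hsing : ({0} : Set (Unit → ℂ)) = {x | x () = 0} := by
    ext x
    simp only [Set.mem_singleton_iff, Set.mem_ofPred_eq]
    constructor
    · rintro rfl
      rfl
    · intro h
      funext u
      exact h
  have hc : ∀ l, Constr (G l) ∧ cls (G l) = (if l ∈ Z then 1 else if l ∈ P then LL - 1 else LL) := by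
    intro l
    by_cases hZ : l ∈ Z
    · have hP : l ∉ P := Finset.disjoint_left.mp hZP hZ
      have e : G l = {0} := by
        rw [hsing, hG]
        ext x
        simp [hZ, hP]
      rw [e, if_pos hZ]
      exact ⟨constr_singleton _, cls_singleton _⟩
    · rw [if_neg hZ]
      by_cases hP : l ∈ P
      · have e : G l = Set.univ \ {0} := by
          rw [hsing, hG]
          ext x
          simp [hZ, hP]
        rw [e, if_pos hP]
        refine ⟨constr_univ.diff (constr_singleton _), ?_⟩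
        rw [cls_diff constr_univ (constr_singleton _) (Set.subset_univ _), cls_singleton]
        rfl
      · have e : G l = Set.univ := by
          rw [hG]
          ext x
          simp [hZ, hP]
        rw [e, if_neg hP]
        exact ⟨constr_univ, rfl⟩
  have h1 := cls_levels (σ := Unit) (G := G) fun l => (hc l).1
  have hcl := constr_levels (σ := Unit) (G := G) fun l => (hc l).1
  have hr := RegIso.reindex (Equiv.punitProd (Fin N))
    {γ : Unit × Fin N → ℂ | ∀ l, (fun i => γ (i, l)) ∈ G l}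
  have hset : {y : Fin N → ℂ | (fun i => y (Equiv.punitProd (Fin N) i)) ∈
      {γ : Unit × Fin N → ℂ | ∀ l, (fun i => γ (i, l)) ∈ G l}} =
      {u : Fin N → ℂ | (∀ l ∈ Z, u l = 0) ∧ ∀ l ∈ P, u l ≠ 0} := by
    ext y
    simp only [Set.mem_ofPred_eq, hG, Equiv.punitProd_apply]
    constructor
    · intro h
      exact ⟨fun l hl => (h l).1 hl, fun l hl => (h l).2 hl⟩
    · intro h l
      exact ⟨h.1 l, h.2 l⟩
  rw [hset] at hr
  have hcon : Constr {u : Fin N → ℂ | (∀ l ∈ Z, u l = 0) ∧ ∀ l ∈ P, u l ≠ 0} := by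
    rw [← hset]
    exact hcl.comp (Equiv.punitProd (Fin N))
  refine ⟨hcon, ?_⟩
  rw [← cls_iso hcl hcon hr, h1]
  exact Finset.prod_congr rfl fun l _ => (hc l).2

/-! ### Regular functions -/

private theorem H7b_reg_lin {σ : Type} (E : Set (σ → ℂ)) (w : (Fin s → ℂ) →ₗ[ℂ] (Fin s → ℂ))
    (v : (σ → ℂ) → (Fin s → ℂ)) (hv : ∀ j, RegFun E fun z => v z j) (j : Fin s) :
    RegFun E fun z => w (v z) j := by
  have h := regFun_lin (Set.univ : Set (Fin s → ℂ)) (LinearMap.proj j ∘ₗ w)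
  exact RegFun.comp (f := v) hv h fun x _ => Set.mem_univ _

private theorem H7b_reg_pow {σ : Type} {E : Set (σ → ℂ)} {f : (σ → ℂ) → ℂ} (hf : RegFun E f)
    (n : ℕ) : RegFun E fun z => f z ^ n := by
  induction n with
  | zero => simpa using regFun_const E 1
  | succ n ih => simpa [pow_succ] using ih.mul hf

private theorem H7b_reg_prod {σ ι : Type} {E : Set (σ → ℂ)} (t : Finset ι)
    {f : ι → (σ → ℂ) → ℂ} (hf : ∀ i, RegFun E (f i)) : RegFun E fun z => ∏ i ∈ t, f i z := by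
  classical
  induction t using Finset.induction_on with
  | empty => simpa using regFun_const E 1
  | insert a t ha ih =>
    simp_rw [Finset.prod_insert ha]
    exact (hf a).mul ih

/-! ### Linear algebra -/

private theorem H7b_section (A₁ A₂ : Finset (Fin s)) (htop : D.VW A₁ ⊔ cV A₂ = ⊤) :
    ∃ w : (Fin s → ℂ) →ₗ[ℂ] (Fin s → ℂ), (∀ x, w x ∈ D.VW A₁) ∧ ∀ x, ∀ i ∈ A₂, w x i = x i := by
  set φ : (D.VW A₁ × (cV A₂ : Submodule ℂ (Fin s → ℂ))) →ₗ[ℂ] (Fin s → ℂ) :=
    LinearMap.coprod (D.VW A₁).subtype (cV A₂ : Submodule ℂ (Fin s → ℂ)).subtype with hφ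
  have hr : LinearMap.range φ = ⊤ := by
    rw [hφ, LinearMap.range_coprod, Submodule.range_subtype, Submodule.range_subtype, htop]
  obtain ⟨g, hg⟩ := φ.exists_rightInverse_of_surjective hr
  refine ⟨(D.VW A₁).subtype ∘ₗ LinearMap.fst ℂ _ _ ∘ₗ g, fun x => ?_, fun x i hi => ?_⟩
  · exact (g x).1.2
  · have h1 : φ (g x) = x := by
      rw [← LinearMap.comp_apply, hg, LinearMap.id_apply]
    have h2 : ((g x).1 : Fin s → ℂ) + ((g x).2 : Fin s → ℂ) = x := by
      rw [hφ, LinearMap.coprod_apply] at h1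
      exact h1
    have h3 : ((g x).2 : Fin s → ℂ) i = 0 := (g x).2.2 i hi
    have h4 := congrFun h2 i
    rw [Pi.add_apply, h3, add_zero] at h4
    exact h4

/-! ### Constructibility -/

private theorem H7b_constr (A A' : Finset (Fin s)) : Constr (D.Gset A A') := by
  classical
  have h1 : Constr {v : Fin N → ℂ | ∀ l, D.β l ∈ A' → v l = 0} := by
    have e : {v : Fin N → ℂ | ∀ l, D.β l ∈ A' → v l = 0} =
        ⋂ l, {v | D.β l ∈ A' → v l = 0} := by
      ext v
      simp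
    rw [e]
    refine constr_iInter fun l => ?_
    by_cases h : D.β l ∈ A'
    · have := Constr.zeroSet (X l : MvPolynomial (Fin N) ℂ)
      simpa [h] using this
    · have := constr_univ (σ := Fin N)
      simpa [h] using this
  have h2 : Constr {v : Fin N → ℂ | ∀ l, D.β l ∈ A → D.β l ∉ A' → l ∉ D.fr → v l ≠ 0} := by
    have e : {v : Fin N → ℂ | ∀ l, D.β l ∈ A → D.β l ∉ A' → l ∉ D.fr → v l ≠ 0} =
        ⋂ l, {v | D.β l ∈ A → D.β l ∉ A' → l ∉ D.fr → v l ≠ 0} := by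
      ext v
      simp
    rw [e]
    refine constr_iInter fun l => ?_
    by_cases h : D.β l ∈ A ∧ D.β l ∉ A' ∧ l ∉ D.fr
    · have := (Constr.zeroSet (X l : MvPolynomial (Fin N) ℂ)).compl
      have e2 : {v : Fin N → ℂ | D.β l ∈ A → D.β l ∉ A' → l ∉ D.fr → v l ≠ 0} =
          {x | eval x (X l : MvPolynomial (Fin N) ℂ) = 0}ᶜ := by
        ext v
        simp [h.1, h.2.1, h.2.2]
      rw [e2]
      exact this
    · have e2 : {v : Fin N → ℂ | D.β l ∈ A → D.β l ∉ A' → l ∉ D.fr → v l ≠ 0} = Set.univ := by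
        ext v
        simp only [Set.mem_ofPred_eq, Set.mem_univ, iff_true]
        intro a b c
        exact absurd ⟨a, b, c⟩ h
      rw [e2]
      exact constr_univ
  have h3 : Constr {v : Fin N → ℂ | D.zz A A' v ∈ D.W} := by
    have h4 := (constr_submodule D.W).preimage (fun i => (if i ∈ A' then 0 else
      if i ∈ A then ∏ l ∈ D.B i, X l ^ D.d l else X (D.piv i) : MvPolynomial (Fin N) ℂ))
    have e : {v : Fin N → ℂ | D.zz A A' v ∈ D.W} = {x : Fin N → ℂ | (fun i => eval x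
        (if i ∈ A' then 0 else if i ∈ A then ∏ l ∈ D.B i, X l ^ D.d l else X (D.piv i) :
          MvPolynomial (Fin N) ℂ)) ∈ (D.W : Set (Fin s → ℂ))} := by
      ext v
      simp only [Set.mem_ofPred_eq, SetLike.mem_coe]
      have : D.zz A A' v = fun i => eval v
        (if i ∈ A' then 0 else if i ∈ A then ∏ l ∈ D.B i, X l ^ D.d l else X (D.piv i) :
          MvPolynomial (Fin N) ℂ) := by
        funext i
        unfold Data.zz
        split_ifs <;> simp
      rw [this]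
    rw [e]
    exact h4
  have e : D.Gset A A' = {v : Fin N → ℂ | ∀ l, D.β l ∈ A' → v l = 0} ∩
      ({v : Fin N → ℂ | ∀ l, D.β l ∈ A → D.β l ∉ A' → l ∉ D.fr → v l ≠ 0} ∩
        {v : Fin N → ℂ | D.zz A A' v ∈ D.W}) := rfl
  rw [e]
  exact h1.inter (h2.inter h3)

/-! ### The isomorphism -/

/-- values of the monomials of the second group of blocks -/
private noncomputable def H7b_q (A₂' : Finset (Fin s)) (v : Fin N → ℂ) (i : Fin s) : ℂ :=
  if i ∈ A₂' then 0 else ∏ l ∈ D.B i, v l ^ D.d l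

private noncomputable def H7b_x (A₂ A₂' : Finset (Fin s)) (v y : Fin N → ℂ) (i : Fin s) : ℂ :=
  if i ∈ A₂ then y (D.piv i) - H7b_q D A₂' v i else 0

private theorem H7b_x_congr (A₂ A₂' : Finset (Fin s)) {v y v' y' : Fin N → ℂ}
    (hv : ∀ l, D.β l ∈ A₂ → v l = v' l) (hy : ∀ l, D.β l ∈ A₂ → y l = y' l) :
    H7b_x D A₂ A₂' v y = H7b_x D A₂ A₂' v' y' := by
  funext i
  unfold H7b_x
  by_cases hi : i ∈ A₂
  · rw [if_pos hi, if_pos hi, hy _ (by rw [piv_spec]; exact hi)]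
    congr 1
    unfold H7b_q
    split_ifs
    · rfl
    · refine Finset.prod_congr rfl fun l hl => ?_
      have hl' : D.β l = i := (Finset.mem_filter.mp hl).2
      rw [hv l (by rw [hl']; exact hi)]
  · rw [if_neg hi, if_neg hi]

private noncomputable def H7b_F1 (w : (Fin s → ℂ) →ₗ[ℂ] (Fin s → ℂ)) (A₁ A₂ A₂' : Finset (Fin s))
    (v y : Fin N → ℂ) (l : Fin N) : ℂ :=
  if D.β l ∈ A₁ then v l else if D.β l ∈ A₂ then y l else
    v l + (if l = D.piv (D.β l) then w (H7b_x D A₂ A₂' v y) (D.β l) else 0)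

private noncomputable def H7b_F2 (A₂ : Finset (Fin s)) (v : Fin N → ℂ) (l : Fin N) : ℂ :=
  if D.β l ∈ A₂ then v l else 0

private noncomputable def H7b_G1 (w : (Fin s → ℂ) →ₗ[ℂ] (Fin s → ℂ)) (A₁ A₂ A₂' : Finset (Fin s))
    (v u : Fin N → ℂ) (l : Fin N) : ℂ :=
  if D.β l ∈ A₁ then v l else if D.β l ∈ A₂ then u l else
    v l - (if l = D.piv (D.β l) then w (H7b_x D A₂ A₂' u v) (D.β l) else 0)

section iso

variable {D} {w : (Fin s → ℂ) →ₗ[ℂ] (Fin s → ℂ)} {A₁ A₂ A₁' A₂' : Finset (Fin s)}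

private theorem H7b_GF (hd : Disjoint A₁ A₂) (v y : Fin N → ℂ) :
    H7b_G1 D w A₁ A₂ A₂' (H7b_F1 D w A₁ A₂ A₂' v y) (H7b_F2 D A₂ v) = v := by
  have hx : H7b_x D A₂ A₂' (H7b_F2 D A₂ v) (H7b_F1 D w A₁ A₂ A₂' v y) = H7b_x D A₂ A₂' v y := by
    refine H7b_x_congr D A₂ A₂' (fun l hl => ?_) fun l hl => ?_
    · unfold H7b_F2
      rw [if_pos hl]
    · unfold H7b_F1
      rw [if_neg (fun h => Finset.disjoint_left.mp hd h hl), if_pos hl]
  funext l
  unfold H7b_G1
  rw [hx]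
  by_cases h1 : D.β l ∈ A₁
  · rw [if_pos h1]
    unfold H7b_F1
    rw [if_pos h1]
  · rw [if_neg h1]
    by_cases h2 : D.β l ∈ A₂
    · rw [if_pos h2]
      unfold H7b_F2
      rw [if_pos h2]
    · rw [if_neg h2]
      unfold H7b_F1
      rw [if_neg h1, if_neg h2]
      ring

private theorem H7b_GF2 (hd : Disjoint A₁ A₂) (v y : Fin N → ℂ)
    (hy : ∀ l, D.β l ∉ A₂ → y l = 0) : H7b_F2 D A₂ (H7b_F1 D w A₁ A₂ A₂' v y) = y := by
  funext l
  unfold H7b_F2
  by_cases h2 : D.β l ∈ A₂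
  · rw [if_pos h2]
    unfold H7b_F1
    rw [if_neg (fun h => Finset.disjoint_left.mp hd h h2), if_pos h2]
  · rw [if_neg h2, hy l h2]

private theorem H7b_FG (hd : Disjoint A₁ A₂) (v u : Fin N → ℂ) :
    H7b_F1 D w A₁ A₂ A₂' (H7b_G1 D w A₁ A₂ A₂' v u) (H7b_F2 D A₂ v) = v := by
  have hx : H7b_x D A₂ A₂' (H7b_G1 D w A₁ A₂ A₂' v u) (H7b_F2 D A₂ v) = H7b_x D A₂ A₂' u v := by
    refine H7b_x_congr D A₂ A₂' (fun l hl => ?_) fun l hl => ?_
    · unfold H7b_G1
      rw [if_neg (fun h => Finset.disjoint_left.mp hd h hl), if_pos hl]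
    · unfold H7b_F2
      rw [if_pos hl]
  funext l
  unfold H7b_F1
  rw [hx]
  by_cases h1 : D.β l ∈ A₁
  · rw [if_pos h1]
    unfold H7b_G1
    rw [if_pos h1]
  · rw [if_neg h1]
    by_cases h2 : D.β l ∈ A₂
    · rw [if_pos h2]
      unfold H7b_F2
      rw [if_pos h2]
    · rw [if_neg h2]
      unfold H7b_G1
      rw [if_neg h1, if_neg h2]
      ring

private theorem H7b_FG2 (hd : Disjoint A₁ A₂) (v u : Fin N → ℂ)
    (hu : ∀ l, D.β l ∉ A₂ → u l = 0) : H7b_F2 D A₂ (H7b_G1 D w A₁ A₂ A₂' v u) = u := by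
  funext l
  unfold H7b_F2
  by_cases h2 : D.β l ∈ A₂
  · rw [if_pos h2]
    unfold H7b_G1
    rw [if_neg (fun h => Finset.disjoint_left.mp hd h h2), if_pos h2]
  · rw [if_neg h2, hu l h2]

private theorem H7b_zz (hd : Disjoint A₁ A₂) (h1 : A₁' ⊆ A₁) (h2 : A₂' ⊆ A₂)
    (hw1 : ∀ x, w x ∈ D.VW A₁) (hw2 : ∀ x, ∀ i ∈ A₂, w x i = x i) (v y : Fin N → ℂ) :
    D.zz A₁ A₁' (H7b_F1 D w A₁ A₂ A₂' v y) =
      D.zz (A₁ ∪ A₂) (A₁' ∪ A₂') v + w (H7b_x D A₂ A₂' v y) := by
  have hdis : ∀ i, i ∈ A₁ → i ∉ A₂ := fun i hi => Finset.disjoint_left.mp hd hi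
  have hwA : ∀ x, ∀ i ∈ A₁, w x i = 0 := fun x i hi => (hw1 x).2 i hi
  funext i
  rw [Pi.add_apply]
  by_cases hi1 : i ∈ A₁
  · rw [hwA _ i hi1, add_zero]
    unfold Data.zz
    have hi2 : i ∉ A₂ := hdis i hi1
    have hi2' : i ∉ A₂' := fun h => hi2 (h2 h)
    by_cases hi1' : i ∈ A₁'
    · rw [if_pos hi1', if_pos (Finset.mem_union_left _ hi1')]
    · rw [if_neg hi1', if_pos hi1, if_neg (by
        rw [Finset.mem_union]
        exact fun h => h.elim hi1' hi2'), if_pos (Finset.mem_union_left _ hi1)]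
      refine Finset.prod_congr rfl fun l hl => ?_
      have hl' : D.β l = i := (Finset.mem_filter.mp hl).2
      unfold H7b_F1
      rw [if_pos (by rw [hl']; exact hi1)]
  · have hi1' : i ∉ A₁' := fun h => hi1 (h1 h)
    have e1 : D.zz A₁ A₁' (H7b_F1 D w A₁ A₂ A₂' v y) i = H7b_F1 D w A₁ A₂ A₂' v y (D.piv i) := by
      unfold Data.zz
      rw [if_neg hi1', if_neg hi1]
    rw [e1]
    unfold H7b_F1
    rw [piv_spec, if_neg hi1]
    by_cases hi2 : i ∈ A₂
    · rw [if_pos hi2, hw2 _ i hi2]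
      unfold H7b_x
      rw [if_pos hi2]
      have e2 : D.zz (A₁ ∪ A₂) (A₁' ∪ A₂') v i = H7b_q D A₂' v i := by
        unfold Data.zz H7b_q
        by_cases hi2' : i ∈ A₂'
        · rw [if_pos (Finset.mem_union_right _ hi2'), if_pos hi2']
        · rw [if_neg (by
            rw [Finset.mem_union]
            exact fun h => h.elim hi1' hi2'), if_pos (Finset.mem_union_right _ hi2), if_neg hi2']
      rw [e2]
      ring
    · rw [if_neg hi2, if_pos rfl]
      have hi2' : i ∉ A₂' := fun h => hi2 (h2 h)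
      have e2 : D.zz (A₁ ∪ A₂) (A₁' ∪ A₂') v i = v (D.piv i) := by
        unfold Data.zz
        rw [if_neg (by
            rw [Finset.mem_union]
            exact fun h => h.elim hi1' hi2'), if_neg (by
            rw [Finset.mem_union]
            exact fun h => h.elim hi1 hi2)]
      rw [e2]

/-- the conditions of the two sides agree -/
private theorem H7b_mem (hd : Disjoint A₁ A₂) (h1 : A₁' ⊆ A₁) (h2 : A₂' ⊆ A₂)
    (hw1 : ∀ x, w x ∈ D.VW A₁) (hw2 : ∀ x, ∀ i ∈ A₂, w x i = x i) (v y : Fin N → ℂ) :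
    v ∈ D.Gset (A₁ ∪ A₂) (A₁' ∪ A₂') ↔ H7b_F1 D w A₁ A₂ A₂' v y ∈ D.Gset A₁ A₁' ∧
      ((∀ l, (D.β l ∉ A₂ ∨ D.β l ∈ A₂') → H7b_F2 D A₂ v l = 0) ∧
        ∀ l, (D.β l ∈ A₂ ∧ D.β l ∉ A₂' ∧ l ∉ D.fr) → H7b_F2 D A₂ v l ≠ 0) := by
  have hdis : ∀ i, i ∈ A₁ → i ∉ A₂ := fun i hi => Finset.disjoint_left.mp hd hi
  have hF1 : ∀ l, D.β l ∈ A₁ → H7b_F1 D w A₁ A₂ A₂' v y l = v l := fun l hl => by
    unfold H7b_F1
    rw [if_pos hl]
  have hF2 : ∀ l, D.β l ∈ A₂ → H7b_F2 D A₂ v l = v l := fun l hl => by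
    unfold H7b_F2
    rw [if_pos hl]
  have hW : D.zz A₁ A₁' (H7b_F1 D w A₁ A₂ A₂' v y) ∈ D.W ↔
      D.zz (A₁ ∪ A₂) (A₁' ∪ A₂') v ∈ D.W := by
    rw [H7b_zz hd h1 h2 hw1 hw2]
    have h3 : w (H7b_x D A₂ A₂' v y) ∈ D.W := (hw1 _).1
    exact ⟨fun h => by simpa using D.W.sub_mem h h3, fun h => D.W.add_mem h h3⟩
  constructor
  · rintro ⟨a, b, c⟩
    refine ⟨⟨fun l hl => ?_, fun l hl hl' hf => ?_, hW.mpr c⟩, fun l hl => ?_, fun l hl => ?_⟩
    · rw [hF1 l (h1 hl)]
      exact a l (Finset.mem_union_left _ hl)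
    · rw [hF1 l hl]
      exact b l (Finset.mem_union_left _ hl) (by
        rw [Finset.mem_union]
        exact fun h => h.elim hl' fun h' => hdis _ hl (h2 h')) hf
    · rcases hl with hl | hl
      · unfold H7b_F2
        rw [if_neg hl]
      · rw [hF2 l (h2 hl)]
        exact a l (Finset.mem_union_right _ hl)
    · rw [hF2 l hl.1]
      exact b l (Finset.mem_union_right _ hl.1) (by
        rw [Finset.mem_union]
        exact fun h => h.elim (fun h' => hdis _ (h1 h') hl.1) hl.2.1) hl.2.2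
  · rintro ⟨⟨a, b, c⟩, a', b'⟩
    refine ⟨fun l hl => ?_, fun l hl hl' hf => ?_, hW.mp c⟩
    · rcases Finset.mem_union.mp hl with hl | hl
      · rw [← hF1 l (h1 hl)]
        exact a l hl
      · rw [← hF2 l (h2 hl)]
        exact a' l (Or.inr hl)
    · rw [Finset.mem_union, not_or] at hl'
      rcases Finset.mem_union.mp hl with hl | hl
      · rw [← hF1 l hl]
        exact b l hl hl'.1 hf
      · rw [← hF2 l hl]
        exact b' l ⟨hl, hl'.2, hf⟩

private theorem H7b_reg_x {σ : Type} {E : Set (σ → ℂ)} {v y : (σ → ℂ) → (Fin N → ℂ)}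
    (hv : ∀ l, RegFun E fun z => v z l) (hy : ∀ l, RegFun E fun z => y z l) (i : Fin s) :
    RegFun E fun z => H7b_x D A₂ A₂' (v z) (y z) i := by
  unfold H7b_x
  by_cases hi : i ∈ A₂
  · simp only [if_pos hi]
    refine (hy _).sub ?_
    unfold H7b_q
    by_cases hi' : i ∈ A₂'
    · simp only [if_pos hi']
      exact regFun_const E 0
    · simp only [if_neg hi']
      exact H7b_reg_prod _ fun l => H7b_reg_pow (hv l) _
  · simp only [if_neg hi]
    exact regFun_const E 0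

private theorem H7b_reg_F1 {σ : Type} {E : Set (σ → ℂ)} {v y : (σ → ℂ) → (Fin N → ℂ)}
    (hv : ∀ l, RegFun E fun z => v z l) (hy : ∀ l, RegFun E fun z => y z l) (l : Fin N) :
    RegFun E fun z => H7b_F1 D w A₁ A₂ A₂' (v z) (y z) l := by
  unfold H7b_F1
  by_cases h1 : D.β l ∈ A₁
  · simp only [if_pos h1]
    exact hv l
  · simp only [if_neg h1]
    by_cases h2 : D.β l ∈ A₂
    · simp only [if_pos h2]
      exact hy l
    · simp only [if_neg h2]
      refine (hv l).add ?_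
      by_cases h3 : l = D.piv (D.β l)
      · simp only [if_pos h3]
        exact H7b_reg_lin E w _ (fun j => H7b_reg_x hv hy j) _
      · simp only [if_neg h3]
        exact regFun_const E 0

private theorem H7b_reg_G1 {σ : Type} {E : Set (σ → ℂ)} {v y : (σ → ℂ) → (Fin N → ℂ)}
    (hv : ∀ l, RegFun E fun z => v z l) (hy : ∀ l, RegFun E fun z => y z l) (l : Fin N) :
    RegFun E fun z => H7b_G1 D w A₁ A₂ A₂' (v z) (y z) l := by
  unfold H7b_G1
  by_cases h1 : D.β l ∈ A₁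
  · simp only [if_pos h1]
    exact hv l
  · simp only [if_neg h1]
    by_cases h2 : D.β l ∈ A₂
    · simp only [if_pos h2]
      exact hy l
    · simp only [if_neg h2]
      refine (hv l).sub ?_
      by_cases h3 : l = D.piv (D.β l)
      · simp only [if_pos h3]
        exact H7b_reg_lin E w _ (fun j => H7b_reg_x hy hv j) _
      · simp only [if_neg h3]
        exact regFun_const E 0

private theorem H7b_reg_F2 {σ : Type} {E : Set (σ → ℂ)} {v : (σ → ℂ) → (Fin N → ℂ)}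
    (hv : ∀ l, RegFun E fun z => v z l) (l : Fin N) :
    RegFun E fun z => H7b_F2 D A₂ (v z) l := by
  unfold H7b_F2
  by_cases h2 : D.β l ∈ A₂
  · simp only [if_pos h2]
    exact hv l
  · simp only [if_neg h2]
    exact regFun_const E 0

private theorem H7b_iso (hd : Disjoint A₁ A₂) (h1 : A₁' ⊆ A₁) (h2 : A₂' ⊆ A₂)
    (hw1 : ∀ x, w x ∈ D.VW A₁) (hw2 : ∀ x, ∀ i ∈ A₂, w x i = x i) :
    RegIso (prodSet (D.Gset (A₁ ∪ A₂) (A₁' ∪ A₂'))
        {u : Fin N → ℂ | (∀ l ∈ Finset.univ.filter (fun l => D.β l ∉ A₂), u l = 0) ∧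
          ∀ l ∈ (∅ : Finset (Fin N)), u l ≠ 0})
      (prodSet (D.Gset A₁ A₁')
        {u : Fin N → ℂ | (∀ l ∈ Finset.univ.filter (fun l => D.β l ∉ A₂ ∨ D.β l ∈ A₂'), u l = 0) ∧
          ∀ l ∈ Finset.univ.filter (fun l => D.β l ∈ A₂ ∧ D.β l ∉ A₂' ∧ l ∉ D.fr), u l ≠ 0}) := by
  refine ⟨fun z => Sum.elim
      (H7b_F1 D w A₁ A₂ A₂' (fun l => z (Sum.inl l)) (fun l => z (Sum.inr l)))
      (H7b_F2 D A₂ (fun l => z (Sum.inl l))),
    fun z => Sum.elim
      (H7b_G1 D w A₁ A₂ A₂' (fun l => z (Sum.inl l)) (fun l => z (Sum.inr l)))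
      (H7b_F2 D A₂ (fun l => z (Sum.inl l))), ?_, ?_, ?_, ?_, ?_, ?_⟩
  · intro q
    rcases q with l | l
    · exact H7b_reg_F1 (fun l => regFun_coord _ _) (fun l => regFun_coord _ _) l
    · exact H7b_reg_F2 (fun l => regFun_coord _ _) l
  · intro q
    rcases q with l | l
    · exact H7b_reg_G1 (fun l => regFun_coord _ _) (fun l => regFun_coord _ _) l
    · exact H7b_reg_F2 (fun l => regFun_coord _ _) l
  · rintro z ⟨hz, -⟩
    obtain ⟨a, b, c⟩ := (H7b_mem hd h1 h2 hw1 hw2 (fun l => z (Sum.inl l))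
      (fun l => z (Sum.inr l))).mp hz
    exact ⟨a, fun l hl => b l (Finset.mem_filter.mp hl).2, fun l hl =>
      c l (Finset.mem_filter.mp hl).2⟩
  · rintro z ⟨hz, hu, hu'⟩
    refine ⟨(H7b_mem hd h1 h2 hw1 hw2 _ (H7b_F2 D A₂ (fun l => z (Sum.inl l)))).mpr ?_, ?_, ?_⟩
    · show H7b_F1 D w A₁ A₂ A₂' (H7b_G1 D w A₁ A₂ A₂' (fun l => z (Sum.inl l))
        (fun l => z (Sum.inr l))) (H7b_F2 D A₂ (fun l => z (Sum.inl l))) ∈ D.Gset A₁ A₁' ∧ _
      rw [H7b_FG hd]
      refine ⟨hz, ?_⟩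
      have e : H7b_F2 D A₂ (H7b_G1 D w A₁ A₂ A₂' (fun l => z (Sum.inl l))
          (fun l => z (Sum.inr l))) = fun l => z (Sum.inr l) :=
        H7b_FG2 hd _ _ fun l hl => hu l (Finset.mem_filter.mpr ⟨Finset.mem_univ _, Or.inl hl⟩)
      constructor
      · intro l hl
        show H7b_F2 D A₂ (H7b_G1 D w A₁ A₂ A₂' (fun l => z (Sum.inl l))
          (fun l => z (Sum.inr l))) l = 0
        rw [e]
        exact hu l (Finset.mem_filter.mpr ⟨Finset.mem_univ _, hl⟩)
      · intro l hl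
        show H7b_F2 D A₂ (H7b_G1 D w A₁ A₂ A₂' (fun l => z (Sum.inl l))
          (fun l => z (Sum.inr l))) l ≠ 0
        rw [e]
        exact hu' l (Finset.mem_filter.mpr ⟨Finset.mem_univ _, hl⟩)
    · intro l hl
      show H7b_F2 D A₂ (fun l => z (Sum.inl l)) l = 0
      unfold H7b_F2
      rw [if_neg (Finset.mem_filter.mp hl).2]
    · intro l hl
      exact absurd hl (Finset.notMem_empty l)
  · rintro z ⟨-, hy, -⟩
    funext q
    rcases q with l | l
    · exact congrFun (H7b_GF hd (fun l => z (Sum.inl l)) (fun l => z (Sum.inr l))) l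
    · exact congrFun (H7b_GF2 hd (fun l => z (Sum.inl l)) (fun l => z (Sum.inr l))
        fun l hl => hy l (Finset.mem_filter.mpr ⟨Finset.mem_univ _, hl⟩)) l
  · rintro z ⟨-, hu, -⟩
    funext q
    rcases q with l | l
    · exact congrFun (H7b_FG hd (fun l => z (Sum.inl l)) (fun l => z (Sum.inr l))) l
    · exact congrFun (H7b_FG2 hd (fun l => z (Sum.inl l)) (fun l => z (Sum.inr l))
        fun l hl => hu l (Finset.mem_filter.mpr ⟨Finset.mem_univ _, Or.inl hl⟩)) l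

end iso

theorem gg_mul (A₁ A₂ A₁' A₂' : Finset (Fin s)) (hd : Disjoint A₁ A₂)
    (htop : D.VW A₁ ⊔ cV A₂ = ⊤) (h1 : A₁' ⊆ A₁) (h2 : A₂' ⊆ A₂) :
    D.gg (A₁ ∪ A₂) (A₁' ∪ A₂') = D.gg A₁ A₁' * ∏ i ∈ A₂ \ A₂', D.cc i := by
  classical
  obtain ⟨w, hw1, hw2⟩ := H7b_section D A₁ A₂ htop
  have hdis : ∀ i, i ∈ A₁ → i ∉ A₂ := fun i hi => Finset.disjoint_left.mp hd hi
  obtain ⟨cU, eU⟩ := H7b_cyl (Finset.univ.filter (fun l => D.β l ∉ A₂)) ∅
    (Finset.disjoint_empty_right _)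
  obtain ⟨cS, eS⟩ := H7b_cyl (Finset.univ.filter (fun l => D.β l ∉ A₂ ∨ D.β l ∈ A₂'))
    (Finset.univ.filter (fun l => D.β l ∈ A₂ ∧ D.β l ∉ A₂' ∧ l ∉ D.fr)) (by
      rw [Finset.disjoint_left]
      intro l hl hl'
      rcases (Finset.mem_filter.mp hl).2 with h | h
      · exact h (Finset.mem_filter.mp hl').2.1
      · exact (Finset.mem_filter.mp hl').2.2.1 h)
  have hiso := cls_iso (Constr.prodSet (H7b_constr D (A₁ ∪ A₂) (A₁' ∪ A₂')) cU)
    (Constr.prodSet (H7b_constr D A₁ A₁') cS) (H7b_iso hd h1 h2 hw1 hw2)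
  rw [cls_prodSet (H7b_constr D _ _) cU, cls_prodSet (H7b_constr D _ _) cS, eU, eS] at hiso
  have hLL : algebraMap K0 MC LL = ((Lu : MCˣ) : MC) := by
    unfold Lu
    rw [IsUnit.unit_spec]
  have hLi : ((Lu : MCˣ) : MC) * Li = 1 := by
    unfold Li
    rw [Units.mul_inv]
  have h := congrArg (algebraMap K0 MC) hiso
  rw [map_mul, map_mul] at h
  -- first product
  have p1 : algebraMap K0 MC (∏ l, (if l ∈ Finset.univ.filter (fun l => D.β l ∉ A₂) then 1 else
      if l ∈ (∅ : Finset (Fin N)) then LL - 1 else LL)) =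
      ((Lu : MCˣ) : MC) ^ (Finset.univ.filter (fun l => D.β l ∈ A₂)).card := by
    rw [map_prod, ← Finset.prod_const, Finset.prod_filter]
    refine Finset.prod_congr rfl fun l _ => ?_
    by_cases hl : D.β l ∈ A₂
    · rw [if_neg (by rw [Finset.mem_filter]; exact fun h => h.2 hl), if_neg (Finset.notMem_empty l),
        if_pos hl, hLL]
    · rw [if_pos (by rw [Finset.mem_filter]; exact ⟨Finset.mem_univ _, hl⟩), if_neg hl, map_one]
  -- second product
  have p2 : algebraMap K0 MC (∏ l, (if l ∈ Finset.univ.filter (fun l => D.β l ∉ A₂ ∨ D.β l ∈ A₂')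
      then 1 else if l ∈ Finset.univ.filter (fun l => D.β l ∈ A₂ ∧ D.β l ∉ A₂' ∧ l ∉ D.fr)
      then LL - 1 else LL)) =
      ((Lu : MCˣ) : MC) ^ (Finset.univ.filter (fun l => D.β l ∈ A₂ ∧ D.β l ∉ A₂')).card *
        ∏ i ∈ A₂ \ A₂', D.cc i := by
    have e1 : ∏ i ∈ A₂ \ A₂', D.cc i =
        ∏ l ∈ Finset.univ.filter (fun l => D.β l ∈ A₂ ∧ D.β l ∉ A₂' ∧ l ∉ D.fr), (1 - Li) := by
      rw [← Finset.prod_fiberwise_of_maps_to (g := D.β) (t := A₂ \ A₂') (fun l hl => by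
        rw [Finset.mem_sdiff]
        exact ⟨(Finset.mem_filter.mp hl).2.1, (Finset.mem_filter.mp hl).2.2.1⟩)]
      refine Finset.prod_congr rfl fun i hi => ?_
      rw [Finset.mem_sdiff] at hi
      rw [Finset.prod_const]
      unfold Data.cc
      congr 2
      ext l
      simp only [Data.Bp, Data.B, Finset.mem_filter, Finset.mem_univ, true_and]
      constructor
      · rintro ⟨a, b⟩
        exact ⟨⟨by rw [a]; exact hi.1, by rw [a]; exact hi.2, b⟩, a⟩
      · rintro ⟨⟨_, _, b⟩, a⟩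
        exact ⟨a, b⟩
    rw [e1, map_prod, ← Finset.prod_const, Finset.prod_filter, Finset.prod_filter,
      ← Finset.prod_mul_distrib]
    refine Finset.prod_congr rfl fun l _ => ?_
    by_cases hl : D.β l ∈ A₂ ∧ D.β l ∉ A₂'
    · rw [if_neg (by
          rw [Finset.mem_filter]
          exact fun h => h.2.elim (fun h' => h' hl.1) hl.2), if_pos hl]
      by_cases hf : l ∈ D.fr
      · rw [if_neg (by rw [Finset.mem_filter]; exact fun h => h.2.2.2 hf),
          if_neg (fun h => h.2.2 hf), hLL, mul_one]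
      · rw [if_pos (by rw [Finset.mem_filter]; exact ⟨Finset.mem_univ _, hl.1, hl.2, hf⟩),
          if_pos ⟨hl.1, hl.2, hf⟩, map_sub, hLL, map_one, mul_sub, mul_one, hLi]
    · rw [if_pos (by
          rw [Finset.mem_filter]
          refine ⟨Finset.mem_univ _, ?_⟩
          by_contra hcon
          push Not at hcon
          exact hl hcon), if_neg hl, if_neg (fun h => hl ⟨h.1, h.2.1⟩), map_one, mul_one]
  rw [p1, p2] at h
  -- counting
  have c1 : (Finset.univ.filter (fun l => D.β l ∈ A₂)).card =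
      (Finset.univ.filter (fun l => D.β l ∈ A₂ ∧ D.β l ∉ A₂')).card +
        (Finset.univ.filter (fun l => D.β l ∈ A₂')).card := by
    rw [← Finset.card_union_of_disjoint]
    · congr 1
      ext l
      simp only [Finset.mem_filter, Finset.mem_univ, true_and, Finset.mem_union]
      constructor
      · intro h3
        by_cases h4 : D.β l ∈ A₂'
        · exact Or.inr h4
        · exact Or.inl ⟨h3, h4⟩
      · rintro (h3 | h3)
        · exact h3.1
        · exact h2 h3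
    · rw [Finset.disjoint_left]
      intro l hl hl'
      exact (Finset.mem_filter.mp hl).2.2 (Finset.mem_filter.mp hl').2
  have c2 : (Finset.univ.filter (fun l => D.β l ∉ A₁')).card =
      (Finset.univ.filter (fun l => D.β l ∉ A₁' ∪ A₂')).card +
        (Finset.univ.filter (fun l => D.β l ∈ A₂')).card := by
    rw [← Finset.card_union_of_disjoint]
    · congr 1
      ext l
      simp only [Finset.mem_filter, Finset.mem_univ, true_and, Finset.mem_union, not_or]
      constructor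
      · intro h3
        by_cases h4 : D.β l ∈ A₂'
        · exact Or.inr h4
        · exact Or.inl ⟨h3, h4⟩
      · rintro (h3 | h3)
        · exact h3.1
        · exact fun h4 => hdis _ (h1 h4) (h2 h3)
    · rw [Finset.disjoint_left]
      intro l hl hl'
      exact (Finset.mem_filter.mp hl).2 (Finset.mem_union_right _ (Finset.mem_filter.mp hl').2)
  unfold Data.gg
  set g := algebraMap K0 MC (cls (D.Gset (A₁ ∪ A₂) (A₁' ∪ A₂'))) with hg
  set g₁ := algebraMap K0 MC (cls (D.Gset A₁ A₁')) with hg₁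
  set P := ∏ i ∈ A₂ \ A₂', D.cc i with hP
  set n₃ := (Finset.univ.filter (fun l => D.β l ∈ A₂ ∧ D.β l ∉ A₂')).card with hn₃
  set n₄ := (Finset.univ.filter (fun l => D.β l ∈ A₂')).card with hn₄
  set a := (Finset.univ.filter (fun l => D.β l ∉ A₁' ∪ A₂')).card with ha
  rw [c1] at h
  rw [c2]
  have u1 : ((Lu ^ (-(a : ℤ)) : MCˣ) : MC) =
      ((Lu : MCˣ) : MC) ^ (n₃ + n₄) * ((Lu ^ (-((n₃ + n₄ + a : ℕ) : ℤ)) : MCˣ) : MC) := by
    rw [← Units.val_pow_eq_pow_val, ← Units.val_mul, ← zpow_natCast Lu, ← zpow_add]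
    congr 2
    push_cast
    ring
  have u2 : ((Lu ^ (-((a + n₄ : ℕ) : ℤ)) : MCˣ) : MC) =
      ((Lu : MCˣ) : MC) ^ n₃ * ((Lu ^ (-((n₃ + n₄ + a : ℕ) : ℤ)) : MCˣ) : MC) := by
    rw [← Units.val_pow_eq_pow_val, ← Units.val_mul, ← zpow_natCast Lu, ← zpow_add]
    congr 2
    push_cast
    ring
  rw [u1, u2, ← mul_assoc, h]
  ring

end MotMono.Mon
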