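import Pool.Agent.Lib.MP_4e5fcd_ag.Mon.R3a
import Pool.Agent.Lib.MP_4e5fcd_ag.Kum.E3

/-! # MON-R3b: pieces with Euler characteristic zero -/

open MvPolynomial

namespace MotMono.Mon

variable {N s : ℕ} {D : Data N s} (S : D.Str)

theorem R3b_block {j : Fin s} (hj : j ∈ S.A2) : D.β (S.lam j) = j := by
  rw [← S.pv_lam j hj]
  exact S.pv_block j

theorem R3b_oo {n : ℕ} (o : Fin s → ℕ) {l : Fin N} (hl : D.β l ∈ S.A2) :
    S.oo n o l = if l = S.lam (D.β l) then o (D.β l) else 0 := by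
  unfold Data.Str.oo
  rw [if_neg fun h => (Finset.disjoint_left.mp S.disj hl) h.1]
  by_cases h : l = S.lam (D.β l)
  · rw [if_pos ⟨hl, h⟩, if_pos h]
  · rw [if_neg fun h' => h h'.2, if_neg h]

theorem R3b_nuv {n : ℕ} (o : Fin s → ℕ) {j : Fin s} (hj : j ∈ S.A2) :
    nuv D.β D.d (S.oo n o) j = D.d (S.lam j) * o j := by
  unfold nuv
  rw [Finset.sum_eq_single (S.lam j)]
  · rw [R3b_oo S o (by rw [R3b_block S hj]; exact hj), R3b_block S hj, if_pos rfl]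
  · intro l hl hne
    rw [Finset.mem_filter] at hl
    rw [R3b_oo S o (by rw [hl.2]; exact hj), hl.2, if_neg hne, mul_zero]
  · intro h
    exact (h (Finset.mem_filter.mpr ⟨Finset.mem_univ _, R3b_block S hj⟩)).elim

theorem R3b_nuv_deep {n : ℕ} (o : Fin s → ℕ) {j : Fin s} (hj : j ∈ S.Ab) :
    n ≤ nuv D.β D.d (S.oo n o) j := by
  obtain ⟨h1, h2, -, -⟩ := S.deep1 j hj
  unfold nuv
  have h3 : D.d (S.lam j) * S.oo n o (S.lam j) ≤
      ∑ l ∈ Finset.univ.filter (fun l => D.β l = j), D.d l * S.oo n o l :=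
    Finset.single_le_sum (f := fun l => D.d l * S.oo n o l) (fun _ _ => Nat.zero_le _)
      (Finset.mem_filter.mpr ⟨Finset.mem_univ _, h1⟩)
  have h4 : S.oo n o (S.lam j) = n := by
    unfold Data.Str.oo
    rw [h1, if_pos ⟨hj, Or.inl rfl⟩]
  rw [h4, h2, one_mul] at h3
  exact h3

theorem R3b_nuv_other {n : ℕ} (o : Fin s → ℕ) {j : Fin s} (hj : j ∉ S.A2) (hj' : j ∉ S.Ab) :
    nuv D.β D.d (S.oo n o) j = 0 := by
  unfold nuv
  refine Finset.sum_eq_zero fun l hl => ?_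
  rw [Finset.mem_filter] at hl
  unfold Data.Str.oo
  rw [hl.2, if_neg fun h => hj' h.1, if_neg fun h => hj h.1, mul_zero]

theorem R3b_zpow_sum {ι : Type} (t : Finset ι) (τ : ℂ) (hτ : τ ≠ 0) (f : ι → ℤ) :
    ∏ i ∈ t, τ ^ f i = τ ^ (∑ i ∈ t, f i) := by
  classical
  induction t using Finset.induction_on with
  | empty => simp
  | insert a t ha ih => rw [Finset.prod_insert ha, Finset.sum_insert ha, zpow_add₀ hτ, ih]

/-- the weights -/
noncomputable def Data.Str.R3b_wt (n : ℕ) (o : Fin s → ℕ) (f : ℕ → ℤ) (g : Fin s → ℤ)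
    (q : Fin N × Fin n) : ℤ :=
  if q.1 = S.pv (D.β q.1) ∧ S.oo n o q.1 < (q.2 : ℕ) then
    f (nuv D.β D.d (S.oo n o) (D.β q.1) + (q.2 : ℕ) - S.oo n o q.1)
  else if (q.2 : ℕ) = S.oo n o q.1 ∧ D.β q.1 ∈ S.A2 ∧ q.1 = S.lam (D.β q.1) then g (D.β q.1)
  else 0

theorem R3b_lc {n : ℕ} (o : Fin s → ℕ) (f : ℕ → ℤ) (g : Fin s → ℤ) (τ : ℂ)
    (v : Fin N × Fin n → ℂ) (l : Fin N) :
    lc (S.oo n o) (fun q => τ ^ S.R3b_wt n o f g q * v q) l =
      (if D.β l ∈ S.A2 ∧ l = S.lam (D.β l) then τ ^ g (D.β l) else 1) * lc (S.oo n o) v l := by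
  unfold lc
  by_cases h : S.oo n o l < n
  · rw [dif_pos h, dif_pos h]
    have hw : S.R3b_wt n o f g (l, ⟨S.oo n o l, h⟩) =
        if D.β l ∈ S.A2 ∧ l = S.lam (D.β l) then g (D.β l) else 0 := by
      unfold Data.Str.R3b_wt
      rw [if_neg fun h2 => lt_irrefl _ h2.2]
      by_cases h3 : D.β l ∈ S.A2 ∧ l = S.lam (D.β l)
      · rw [if_pos ⟨rfl, h3⟩, if_pos h3]
      · rw [if_neg fun h4 => h3 h4.2, if_neg h3]
    change τ ^ S.R3b_wt n o f g (l, ⟨S.oo n o l, h⟩) * v (l, ⟨S.oo n o l, h⟩) = _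
    rw [hw]
    by_cases h3 : D.β l ∈ S.A2 ∧ l = S.lam (D.β l)
    · rw [if_pos h3, if_pos h3]
    · rw [if_neg h3, if_neg h3, zpow_zero]
  · rw [dif_neg h, dif_neg h, mul_zero]

theorem R3b_zv {n : ℕ} (o : Fin s → ℕ) (ℓ : ℕ) (hℓ : ℓ < n) (f : ℕ → ℤ) (g : Fin s → ℤ)
    (hg : ∀ j ∈ S.A2, D.d (S.lam j) * o j ≤ ℓ →
      (D.d (S.lam j) : ℤ) * g j = f (D.d (S.lam j) * o j)) (τ : ℂ)
    (v : Fin N × Fin n → ℂ) (e : ℕ) (he1 : 1 ≤ e) (he : e ≤ ℓ) (j : Fin s) :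
    zv D.β D.d S.pv (S.oo n o) (fun q => τ ^ S.R3b_wt n o f g q * v q) e j =
      τ ^ f e * zv D.β D.d S.pv (S.oo n o) v e j := by
  unfold zv
  by_cases h1 : e < nuv D.β D.d (S.oo n o) j
  · rw [if_pos h1, if_pos h1, mul_zero]
  rw [if_neg h1, if_neg h1]
  by_cases h2 : e = nuv D.β D.d (S.oo n o) j
  · rw [if_pos h2, if_pos h2]
    have hj : j ∈ S.A2 := by
      by_contra hj
      by_cases hj' : j ∈ S.Ab
      · have := R3b_nuv_deep S (n := n) o hj'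
        omega
      · have := R3b_nuv_other S (n := n) o hj hj'
        omega
    have h3 : ∀ l ∈ Finset.univ.filter (fun l => D.β l = j),
        lc (S.oo n o) (fun q => τ ^ S.R3b_wt n o f g q * v q) l ^ D.d l =
          (if l = S.lam j then τ ^ g j else 1) ^ D.d l * lc (S.oo n o) v l ^ D.d l := by
      intro l hl
      rw [Finset.mem_filter] at hl
      rw [R3b_lc, mul_pow, hl.2]
      congr 2
      by_cases h4 : l = S.lam j
      · rw [if_pos ⟨hj, h4⟩, if_pos h4]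
      · rw [if_neg fun h5 => h4 h5.2, if_neg h4]
    rw [Finset.prod_congr rfl h3, Finset.prod_mul_distrib]
    congr 1
    rw [Finset.prod_eq_single (S.lam j)]
    · rw [if_pos rfl, ← zpow_natCast, ← zpow_mul, h2, R3b_nuv S o hj, ← hg j hj (by
        rw [← R3b_nuv S (n := n) o hj]; omega), mul_comm]
    · intro l _ hne
      rw [if_neg hne, one_pow]
    · intro h
      exact (h (Finset.mem_filter.mpr ⟨Finset.mem_univ _, R3b_block S hj⟩)).elim
  · rw [if_neg h2, if_neg h2]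
    by_cases h3 : e - nuv D.β D.d (S.oo n o) j + S.oo n o (S.pv j) < n
    · rw [dif_pos h3, dif_pos h3]
      have hw : S.R3b_wt n o f g
          (S.pv j, ⟨e - nuv D.β D.d (S.oo n o) j + S.oo n o (S.pv j), h3⟩) = f e := by
        unfold Data.Str.R3b_wt
        have e1 : nuv D.β D.d (S.oo n o) j + (e - nuv D.β D.d (S.oo n o) j + S.oo n o (S.pv j)) -
          S.oo n o (S.pv j) = e := by omega
        simp only [S.pv_block]
        rw [if_pos ⟨trivial, by omega⟩, e1]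
      change τ ^ S.R3b_wt n o f g
        (S.pv j, ⟨e - nuv D.β D.d (S.oo n o) j + S.oo n o (S.pv j), h3⟩) * _ = _
      rw [hw]
    · rw [dif_neg h3, dif_neg h3, mul_zero]

theorem R3b_inv (η : Fin s → ℂ) {n : ℕ} (o : Fin s → ℕ) (ho : ∀ j ∈ S.A2, 1 ≤ o j)
    (ℓ : ℕ) (hℓ1 : 1 ≤ ℓ) (f : ℕ → ℤ) (g : Fin s → ℤ)
    (hg : ∀ j ∈ S.A2, D.d (S.lam j) * o j ≤ ℓ →
      (D.d (S.lam j) : ℤ) * g j = f (D.d (S.lam j) * o j))
    (hsum : ∑ j ∈ S.A2, g j * (D.b (S.lam j) : ℤ) + f ℓ * D.m = 0) (τ : ℂ) (hτ : τ ≠ 0)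
    (v : Fin N × Fin n → ℂ) (hv : v ∈ S.Cv η n o ℓ) :
    (fun q => τ ^ S.R3b_wt n o f g q * v q) ∈ S.Cv η n o ℓ := by
  obtain ⟨⟨hy1, hy2⟩, hc1, hc2, hc3⟩ := hv
  refine ⟨⟨?_, ?_⟩, ?_, ?_, ?_⟩
  · intro l j hj
    change τ ^ S.R3b_wt n o f g (l, j) * v (l, j) = 0
    rw [hy1 l j hj, mul_zero]
  · intro l hl h
    exact mul_ne_zero (zpow_ne_zero _ hτ) (hy2 l hl h)
  · intro l hl
    rw [R3b_lc, hc1 l hl]
    by_cases h3 : D.β l ∈ S.A2 ∧ l = S.lam (D.β l)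
    · exfalso
      rw [R3b_oo S o h3.1, if_pos h3.2] at hl
      have := ho _ h3.1
      omega
    · rw [if_neg h3, one_mul]
  · intro e he1 he
    have h1 : (fun j => zv D.β D.d S.pv (S.oo n o) (fun q => τ ^ S.R3b_wt n o f g q * v q) e j) =
        τ ^ f e • fun j => zv D.β D.d S.pv (S.oo n o) v e j := by
      funext j
      rw [Pi.smul_apply, smul_eq_mul]
      exact R3b_zv S o e e.2 f g (fun j' hj' h' => hg j' hj' (by omega)) τ v e he1 le_rfl j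
    change (fun j => zv D.β D.d S.pv (S.oo n o) (fun q => τ ^ S.R3b_wt n o f g q * v q) e j) ∈ D.W
    rw [h1]
    exact D.W.smul_mem _ (hc2 e he1 he)
  · intro h
    obtain ⟨h4, h5⟩ := hc3 h
    have h1 : (fun j => zv D.β D.d S.pv (S.oo n o) (fun q => τ ^ S.R3b_wt n o f g q * v q) ℓ j) =
        τ ^ f ℓ • fun j => zv D.β D.d S.pv (S.oo n o) v ℓ j := by
      funext j
      rw [Pi.smul_apply, smul_eq_mul]
      exact R3b_zv S o ℓ h f g hg τ v ℓ hℓ1 le_rfl j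
    change (fun j => zv D.β D.d S.pv (S.oo n o) (fun q => τ ^ S.R3b_wt n o f g q * v q) ℓ j) -
      (S.a ⬝ᵥ fun j => zv D.β D.d S.pv (S.oo n o) (fun q => τ ^ S.R3b_wt n o f g q * v q) ℓ j) •
        S.x ∈ D.W ∧ (∏ i ∈ S.A2, (lc (S.oo n o) (fun q => τ ^ S.R3b_wt n o f g q * v q) (S.lam i) /
          η i) ^ D.b (S.lam i)) *
      (S.a ⬝ᵥ fun j => zv D.β D.d S.pv (S.oo n o) (fun q => τ ^ S.R3b_wt n o f g q * v q) ℓ j) ^
        D.m = 1
    rw [h1, dotProduct_smul, smul_eq_mul]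
    refine ⟨?_, ?_⟩
    · have h6 := D.W.smul_mem (τ ^ f ℓ) h4
      rw [smul_sub, smul_smul] at h6
      exact h6
    · have h7 : ∀ i ∈ S.A2, (lc (S.oo n o) (fun q => τ ^ S.R3b_wt n o f g q * v q) (S.lam i) /
          η i) ^ D.b (S.lam i) = τ ^ (g i * (D.b (S.lam i) : ℤ)) *
            (lc (S.oo n o) v (S.lam i) / η i) ^ D.b (S.lam i) := by
        intro i hi
        rw [R3b_lc, R3b_block S hi, if_pos ⟨hi, rfl⟩, mul_div_assoc, mul_pow, zpow_mul,
          zpow_natCast]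
      rw [Finset.prod_congr rfl h7, Finset.prod_mul_distrib, R3b_zpow_sum _ _ hτ, mul_pow,
        ← zpow_natCast (τ ^ f ℓ), ← zpow_mul]
      have h8 : τ ^ (∑ i ∈ S.A2, g i * (D.b (S.lam i) : ℤ)) * τ ^ (f ℓ * (D.m : ℤ)) = 1 := by
        rw [← zpow_add₀ hτ, hsum, zpow_zero]
      calc _ = (τ ^ (∑ i ∈ S.A2, g i * (D.b (S.lam i) : ℤ)) * τ ^ (f ℓ * (D.m : ℤ))) *
            ((∏ i ∈ S.A2, (lc (S.oo n o) v (S.lam i) / η i) ^ D.b (S.lam i)) *
              (S.a ⬝ᵥ fun j => zv D.β D.d S.pv (S.oo n o) v ℓ j) ^ D.m) := by ring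
        _ = 1 := by rw [h8, one_mul]; exact h5

theorem R3b_main (χ : K0 →+* ℤ) (hχ : IsEulerChar χ) (η : Fin s → ℂ) {n : ℕ} (o : Fin s → ℕ)
    (ho : ∀ j ∈ S.A2, 1 ≤ o j) (ℓ : ℕ) (hℓ1 : 1 ≤ ℓ) (f : ℕ → ℤ) (g : Fin s → ℤ)
    (hg : ∀ j ∈ S.A2, D.d (S.lam j) * o j ≤ ℓ →
      (D.d (S.lam j) : ℤ) * g j = f (D.d (S.lam j) * o j))
    (hsum : ∑ j ∈ S.A2, g j * (D.b (S.lam j) : ℤ) + f ℓ * D.m = 0)
    (i : Fin s) (hi : i ∈ S.A2) (hin : o i < n) (hgi : 0 < g i) :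
    χ (cls (S.Cv η n o ℓ)) = 0 := by
  have hoo : S.oo n o (S.lam i) = o i := by
    rw [R3b_oo S o (by rw [R3b_block S hi]; exact hi), R3b_block S hi, if_pos rfl]
  refine Kum.chi_torus χ hχ (S.Cv η n o ℓ) (constr_zv D.β D.d S.pv S.Fr (S.oo n o) _
    (Cond_PC S η n o ℓ)) (S.R3b_wt n o f g) (X (S.lam i, ⟨o i, hin⟩)) (g i).toNat (by omega)
    (fun v hv τ hτ => R3b_inv S η o ho ℓ hℓ1 f g hg hsum τ hτ v hv) ?_ ?_
  · intro v hv
    rw [eval_X]
    have h1 := hv.1.2 (S.lam i) (by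
      unfold Data.Str.Fr
      classical
      rw [Finset.mem_filter, R3b_block S hi]
      exact fun h => h.2.1 hi) (by rw [hoo]; exact hin)
    have h2 : (⟨S.oo n o (S.lam i), by rw [hoo]; exact hin⟩ : Fin n) = ⟨o i, hin⟩ := Fin.ext hoo
    rwa [h2] at h1
  · intro v _ τ _
    rw [eval_X, eval_X]
    congr 1
    have h3 : S.R3b_wt n o f g (S.lam i, ⟨o i, hin⟩) = g i := by
      unfold Data.Str.R3b_wt
      simp only
      rw [hoo, if_neg fun h => lt_irrefl _ h.2, R3b_block S hi, if_pos ⟨rfl, hi, rfl⟩]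
    rw [h3, ← zpow_natCast]
    congr 1
    omega

theorem chi_Cv_zero (χ : K0 →+* ℤ) (hχ : IsEulerChar χ) (η : Fin s → ℂ)
    (hη : ∀ i ∈ S.A2, η i ≠ 0) (d : ℕ) (q : (Fin s → ℕ) × ℕ) (hq : q ∈ S.Idx d) (i : Fin s)
    (hi : i ∈ S.A2) (hid : q.1 i ≤ d) (hne : D.d (S.lam i) * q.1 i ≠ q.2) :
    χ (cls (S.Cv η (d + 1) q.1 q.2)) = 0 := by
  classical
  have _ := hη
  obtain ⟨o, ℓ⟩ := q
  unfold Data.Str.Idx at hq
  rw [Finset.mem_filter, Finset.mem_product, Fintype.mem_piFinset, Finset.mem_Icc] at hq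
  obtain ⟨⟨ho', hℓ1, hℓd⟩, -⟩ := hq
  simp only at ho' hℓ1 hℓd hid hne
  have ho : ∀ j ∈ S.A2, 1 ≤ o j := by
    intro j hj
    have h := ho' j
    rw [if_pos hj, Finset.mem_Icc] at h
    exact h.1
  -- the least common multiple
  set E : ℕ := ∏ l, D.d l with hE
  have hE0 : 0 < E := Finset.prod_pos fun l _ => D.hd l
  have hEd : ∀ l, D.d l ∣ E := fun l => Finset.dvd_prod_of_mem _ (Finset.mem_univ l)
  set S' : ℕ → ℤ := fun e => ∑ j ∈ S.A2.filter (fun j => D.d (S.lam j) * o j = e),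
    ((D.b (S.lam j) * (E / D.d (S.lam j)) : ℕ) : ℤ) with hS'
  have hS0 : ∀ e, 0 ≤ S' e := fun e => Finset.sum_nonneg fun _ _ => Nat.cast_nonneg _
  have hdiv : ∀ l, (D.d l : ℤ) * ((E / D.d l : ℕ) : ℤ) = E := by
    intro l
    rw [← Nat.cast_mul, Nat.mul_div_cancel' (hEd l)]
  have hEdpos : ∀ l, 0 < ((E / D.d l : ℕ) : ℤ) := by
    intro l
    have := Nat.div_pos (Nat.le_of_dvd hE0 (hEd l)) (D.hd l)
    exact_mod_cast this
  have hmE : 0 < (D.m : ℤ) * E := by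
    have := D.hm
    positivity
  have hsumS : ∀ e (c : ℤ), ∑ j ∈ S.A2, (if D.d (S.lam j) * o j = e then
      ((E / D.d (S.lam j) : ℕ) : ℤ) * c else 0) * (D.b (S.lam j) : ℤ) = c * S' e := by
    intro e c
    rw [hS', Finset.mul_sum, Finset.sum_filter]
    refine Finset.sum_congr rfl fun j _ => ?_
    split_ifs
    · push_cast
      ring
    · ring
  set e0 : ℕ := D.d (S.lam i) * o i with he0
  rcases lt_or_gt_of_ne hne with hlt | hgt
  · -- the block starts before `ℓ`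
    set α : ℤ := S' ℓ + D.m * E with hα
    set β : ℤ := -S' e0 with hβ
    have hα0 : 0 < α := by
      have := hS0 ℓ
      omega
    refine R3b_main S χ hχ η o ho ℓ hℓ1
      (fun e => if e = e0 then E * α else if e = ℓ then E * β else 0)
      (fun j => (if D.d (S.lam j) * o j = e0 then ((E / D.d (S.lam j) : ℕ) : ℤ) * α else 0) +
        (if D.d (S.lam j) * o j = ℓ then ((E / D.d (S.lam j) : ℕ) : ℤ) * β else 0)) ?_ ?_ i hi
        (by omega) ?_
    · intro j _ _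
      have h1 := hdiv (S.lam j)
      by_cases h2 : D.d (S.lam j) * o j = e0
      · rw [if_pos h2, if_neg (by omega), if_pos h2, add_zero, ← mul_assoc, h1]
      · rw [if_neg h2, if_neg h2, zero_add]
        by_cases h3 : D.d (S.lam j) * o j = ℓ
        · rw [if_pos h3, if_pos h3, ← mul_assoc, h1]
        · rw [if_neg h3, if_neg h3, mul_zero]
    · simp only [add_mul, Finset.sum_add_distrib]
      rw [hsumS e0 α, hsumS ℓ β, if_neg (by omega), if_pos trivial, hα, hβ]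
      ring
    · rw [if_pos he0.symm, if_neg (by omega), add_zero]
      exact mul_pos (hEdpos _) hα0
  · -- the block starts after `ℓ`
    set α : ℤ := S' ℓ + D.m * E with hα
    set β : ℤ := -(D.b (S.lam i) : ℤ) with hβ
    have hα0 : 0 < α := by
      have := hS0 ℓ
      omega
    refine R3b_main S χ hχ η o ho ℓ hℓ1 (fun e => if e = ℓ then E * β else 0)
      (fun j => (if D.d (S.lam j) * o j = ℓ then ((E / D.d (S.lam j) : ℕ) : ℤ) * β else 0) +
        if j = i then α else 0) ?_ ?_ i hi (by omega) ?_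
    · intro j _ hj2
      have h1 := hdiv (S.lam j)
      have hji : j ≠ i := by
        rintro rfl
        omega
      rw [if_neg hji, add_zero]
      by_cases h3 : D.d (S.lam j) * o j = ℓ
      · rw [if_pos h3, if_pos h3, ← mul_assoc, h1]
      · rw [if_neg h3, if_neg h3, mul_zero]
    · simp only [add_mul, Finset.sum_add_distrib, ite_mul, zero_mul]
      have h4 := hsumS ℓ β
      simp only [ite_mul, zero_mul] at h4
      rw [h4, Finset.sum_ite_eq' S.A2 i, if_pos hi, if_pos trivial, hα, hβ]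
      ring
    · rw [if_neg (by omega), if_pos rfl, zero_add]
      exact hα0

end MotMono.Mon
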