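import Pool.Agent.Lib.MP_4e5fcd_ag.Mon.R3a

/-! # MON-R3c: the main pieces -/

open MvPolynomial

namespace MotMono.Mon

variable {N s : ℕ} {D : Data N s} (S : D.Str)

/-- the coordinates of `zm` as polynomials -/
noncomputable def r3c_P (K : Finset (Fin s)) (i : Fin s) : MvPolynomial (Fin s) ℂ :=
  if i ∈ K then C (S.kap i) * X i ^ D.d (S.lam i) else if i ∈ S.A2 ∨ i ∈ S.Ab then 0 else X i

theorem r3c_eval_P (K : Finset (Fin s)) (w : Fin s → ℂ) (i : Fin s) :
    eval w (r3c_P S K i) = S.zm K w i := by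
  unfold r3c_P Data.Str.zm
  split_ifs <;> simp

theorem constr_MF (η : Fin s → ℂ) (K : Finset (Fin s)) : Constr (S.MF η K) := by
  classical
  have h1 : Constr {w : Fin s → ℂ | ∀ i ∈ K, w i ≠ 0} := by
    have e : {w : Fin s → ℂ | ∀ i ∈ K, w i ≠ 0} =
        ⋂ i, {w : Fin s → ℂ | i ∈ K → w i ≠ 0} := by
      ext w; simp
    rw [e]
    refine constr_iInter fun i => ?_
    by_cases hi : i ∈ K
    · have := constr_ne (X i : MvPolynomial (Fin s) ℂ)
      simpa [hi] using this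
    · have := constr_univ (σ := Fin s)
      simpa [hi] using this
  have h2 : Constr {w : Fin s → ℂ | ∀ i, i ∉ K → i ∈ S.A2 ∨ i ∈ S.Ab → w i = 0} := by
    have e : {w : Fin s → ℂ | ∀ i, i ∉ K → i ∈ S.A2 ∨ i ∈ S.Ab → w i = 0} =
        ⋂ i, {w : Fin s → ℂ | i ∉ K → i ∈ S.A2 ∨ i ∈ S.Ab → w i = 0} := by
      ext w; simp only [Set.mem_iInter, Set.mem_ofPred_eq]
    rw [e]
    refine constr_iInter fun i => ?_
    by_cases hi : i ∉ K ∧ (i ∈ S.A2 ∨ i ∈ S.Ab)
    · have := Constr.zeroSet (X i : MvPolynomial (Fin s) ℂ)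
      have e' : {w : Fin s → ℂ | i ∉ K → i ∈ S.A2 ∨ i ∈ S.Ab → w i = 0} =
          {w | eval w (X i) = 0} := by
        ext w
        simp only [Set.mem_ofPred_eq, eval_X]
        exact ⟨fun h => h hi.1 hi.2, fun h _ _ => h⟩
      rw [e']; exact this
    · have e' : {w : Fin s → ℂ | i ∉ K → i ∈ S.A2 ∨ i ∈ S.Ab → w i = 0} = Set.univ := by
        ext w
        simp only [Set.mem_ofPred_eq, Set.mem_univ, iff_true]
        exact fun h h' => absurd ⟨h, h'⟩ hi
      rw [e']; exact constr_univ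
  have hsum : ∀ w : Fin s → ℂ, eval w (∑ j, C (S.a j) * r3c_P S K j) = S.a ⬝ᵥ S.zm K w := by
    intro w
    rw [map_sum]
    unfold dotProduct
    refine Finset.sum_congr rfl fun j _ => ?_
    rw [map_mul, eval_C, r3c_eval_P]
  have h3 : Constr {w : Fin s → ℂ | S.zm K w - (S.a ⬝ᵥ S.zm K w) • S.x ∈ D.W} := by
    have := (constr_submodule D.W).preimage
      (fun i => r3c_P S K i - (∑ j, C (S.a j) * r3c_P S K j) * C (S.x i))
    have e : {w : Fin s → ℂ | S.zm K w - (S.a ⬝ᵥ S.zm K w) • S.x ∈ D.W} =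
        {w | (fun i => eval w (r3c_P S K i - (∑ j, C (S.a j) * r3c_P S K j) * C (S.x i))) ∈
          (D.W : Set (Fin s → ℂ))} := by
      ext w
      have : (fun i => eval w (r3c_P S K i - (∑ j, C (S.a j) * r3c_P S K j) * C (S.x i))) =
          S.zm K w - (S.a ⬝ᵥ S.zm K w) • S.x := by
        funext i
        rw [map_sub, map_mul, eval_C, hsum, r3c_eval_P]
        rfl
      simp only [Set.mem_ofPred_eq, this, SetLike.mem_coe]
    rw [e]; exact this
  have h4 : Constr {w : Fin s → ℂ | (∏ i ∈ K, (w i / η i) ^ D.b (S.lam i)) *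
      (S.a ⬝ᵥ S.zm K w) ^ D.m = 1} := by
    have := constr_eq ((∏ i ∈ K, (X i * C (η i)⁻¹) ^ D.b (S.lam i)) *
      (∑ j, C (S.a j) * r3c_P S K j) ^ D.m) (1 : MvPolynomial (Fin s) ℂ)
    have e : {w : Fin s → ℂ | (∏ i ∈ K, (w i / η i) ^ D.b (S.lam i)) *
        (S.a ⬝ᵥ S.zm K w) ^ D.m = 1} = {w | eval w ((∏ i ∈ K, (X i * C (η i)⁻¹) ^ D.b (S.lam i)) *
        (∑ j, C (S.a j) * r3c_P S K j) ^ D.m) = eval w (1 : MvPolynomial (Fin s) ℂ)} := by
      ext w
      simp only [Set.mem_ofPred_eq]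
      rw [map_mul, map_pow, hsum, map_prod, map_one]
      simp only [map_pow, map_mul, eval_X, eval_C, div_eq_mul_inv]
    rw [e]; exact this
  have e : S.MF η K = ({w : Fin s → ℂ | ∀ i ∈ K, w i ≠ 0} ∩
      {w : Fin s → ℂ | ∀ i, i ∉ K → i ∈ S.A2 ∨ i ∈ S.Ab → w i = 0}) ∩
      ({w : Fin s → ℂ | S.zm K w - (S.a ⬝ᵥ S.zm K w) • S.x ∈ D.W} ∩
      {w : Fin s → ℂ | (∏ i ∈ K, (w i / η i) ^ D.b (S.lam i)) *
        (S.a ⬝ᵥ S.zm K w) ^ D.m = 1}) := by
    ext w
    unfold Data.Str.MF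
    simp only [Set.mem_ofPred_eq, Set.mem_inter_iff]
    tauto
  rw [e]
  exact (h1.inter h2).inter (h3.inter h4)

/-! ### affine spaces -/

theorem r3c_chi_affine (χ : K0 →+* ℤ) (hχ : IsEulerChar χ) {σ : Type} [Finite σ]
    (R : Submodule ℂ (σ → ℂ)) (u₀ : σ → ℂ) {E : Set (σ → ℂ)}
    (hE : ∀ u, u ∈ E ↔ u - u₀ ∈ R) : Constr E ∧ χ (cls E) = 1 := by
  have hc : Constr E := by
    have := (constr_submodule R).preimage (fun i => X i - C (u₀ i) : σ → MvPolynomial σ ℂ)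
    have e : E = {x : σ → ℂ | (fun j => eval x (X j - C (u₀ j) : MvPolynomial σ ℂ)) ∈
        (R : Set (σ → ℂ))} := by
      ext u
      rw [hE]
      have : (fun j => eval u (X j - C (u₀ j) : MvPolynomial σ ℂ)) = u - u₀ := by
        funext j
        rw [map_sub, eval_X, eval_C]
        rfl
      simp only [Set.mem_ofPred_eq, this, SetLike.mem_coe]
    rw [e]; exact this
  refine ⟨hc, ?_⟩
  have h1 : cls E = cls (R : Set (σ → ℂ)) := by
    refine cls_iso hc (constr_submodule R) ?_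
    refine RegIso.linear LinearMap.id LinearMap.id (-u₀) u₀ ?_ ?_ ?_ ?_
    · intro x hx
      have := (hE x).mp hx
      rw [SetLike.mem_coe, LinearMap.id_apply, ← sub_eq_add_neg]
      exact this
    · intro y hy
      rw [hE, LinearMap.id_apply, add_sub_cancel_right]
      exact hy
    · intro x _
      simp
    · intro y _
      simp
  rw [h1, cls_submodule, map_pow, hχ.line, one_pow]

/-! ### the coordinates of a main piece -/

/-- the level of the main coordinate of a block -/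
def r3c_lev (o : Fin s → ℕ) (ℓ : ℕ) (i : Fin s) : ℕ := if i ∈ S.A2 then o i else ℓ

/-- the main coordinates -/
def r3c_mn {n : ℕ} (o : Fin s → ℕ) (ℓ : ℕ) (q : Fin N × Fin n) : Prop :=
  D.β q.1 ∉ S.Ab ∧ q.1 = S.pv (D.β q.1) ∧ (q.2 : ℕ) = r3c_lev S o ℓ (D.β q.1)

open Classical in
/-- the values of the main coordinates -/
noncomputable def r3c_w {n : ℕ} (o : Fin s → ℕ) (ℓ : ℕ) (v : Fin N × Fin n → ℂ) (i : Fin s) : ℂ :=
  if h : i ∉ S.Ab ∧ r3c_lev S o ℓ i < n then v (S.pv i, ⟨r3c_lev S o ℓ i, h.2⟩) else 0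

open Classical in
/-- the other coordinates -/
noncomputable def r3c_r {n : ℕ} (o : Fin s → ℕ) (ℓ : ℕ) (v : Fin N × Fin n → ℂ)
    (q : Fin N × Fin n) : ℂ := if r3c_mn S o ℓ q then 0 else v q

/-- the free coordinates of a level below `ℓ` -/
noncomputable def r3c_z {n : ℕ} (u : Fin N × Fin n → ℂ) (e : Fin n) (i : Fin s) : ℂ :=
  if i ∉ S.A2 ∧ i ∉ S.Ab then u (S.pv i, e) else 0

theorem r3c_oo_deep (n : ℕ) (o : Fin s → ℕ) (l : Fin N) (h1 : D.β l ∈ S.Ab)
    (h2 : l = S.lam (D.β l) ∨ l = S.lam' (D.β l)) : S.oo n o l = n := by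
  unfold Data.Str.oo
  rw [if_pos ⟨h1, h2⟩]

theorem r3c_oo_pv (n : ℕ) (o : Fin s → ℕ) (i : Fin s) (hi : i ∉ S.Ab) :
    S.oo n o (S.pv i) = if i ∈ S.A2 then o i else 0 := by
  unfold Data.Str.oo
  rw [S.pv_block i, if_neg (fun h => hi h.1)]
  by_cases h : i ∈ S.A2
  · rw [if_pos ⟨h, S.pv_lam i h⟩, if_pos h]
  · rw [if_neg (fun h' => h h'.1), if_neg h]

theorem r3c_oo_other (n : ℕ) (o : Fin s → ℕ) (l : Fin N) (h1 : D.β l ∉ S.Ab)
    (h2 : l ≠ S.pv (D.β l)) : S.oo n o l = 0 := by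
  unfold Data.Str.oo
  rw [if_neg (fun h => h1 h.1), if_neg]
  rintro ⟨h3, h4⟩
  exact h2 (by rw [S.pv_lam _ h3]; exact h4)

theorem r3c_nuv (n : ℕ) (o : Fin s → ℕ) (i : Fin s) (hi : i ∉ S.Ab) :
    nuv D.β D.d (S.oo n o) i = D.d (S.pv i) * (if i ∈ S.A2 then o i else 0) := by
  unfold nuv
  rw [Finset.sum_eq_single (S.pv i)]
  · rw [r3c_oo_pv S n o i hi]
  · intro l hl hne
    have hb : D.β l = i := (Finset.mem_filter.mp hl).2
    rw [r3c_oo_other S n o l (by rw [hb]; exact hi) (by rw [hb]; exact hne), mul_zero]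
  · intro h
    exact absurd (by simp [S.pv_block i]) h

theorem r3c_nuv_deep (n : ℕ) (o : Fin s → ℕ) (i : Fin s) (hi : i ∈ S.Ab) :
    n ≤ nuv D.β D.d (S.oo n o) i := by
  obtain ⟨h1, h2, -, -⟩ := S.deep1 i hi
  unfold nuv
  have h3 : D.d (S.lam i) * S.oo n o (S.lam i) = n := by
    rw [h2, one_mul, r3c_oo_deep S n o (S.lam i) (by rw [h1]; exact hi) (Or.inl (by rw [h1]))]
  calc n = D.d (S.lam i) * S.oo n o (S.lam i) := h3.symm
    _ ≤ _ := Finset.single_le_sum (f := fun l => D.d l * S.oo n o l) (fun _ _ => Nat.zero_le _)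
      (Finset.mem_filter.mpr ⟨Finset.mem_univ _, h1⟩)

theorem r3c_nuv_A2 (n : ℕ) (o : Fin s → ℕ) (i : Fin s) (hi : i ∈ S.A2) :
    nuv D.β D.d (S.oo n o) i = D.d (S.lam i) * o i := by
  have hi' : i ∉ S.Ab := fun h => (Finset.disjoint_left.mp S.disj hi) h
  rw [r3c_nuv S n o i hi', if_pos hi, S.pv_lam i hi]

theorem r3c_nuv_free (n : ℕ) (o : Fin s → ℕ) (i : Fin s) (hi : i ∉ S.A2) (hi' : i ∉ S.Ab) :
    nuv D.β D.d (S.oo n o) i = 0 := by
  rw [r3c_nuv S n o i hi', if_neg hi, mul_zero]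

/-- the assumptions on the orders -/
structure r3c_Ok (d : ℕ) (o : Fin s → ℕ) (ℓ : ℕ) : Prop where
  one_le : ∀ i ∈ S.A2, 1 ≤ o i
  le : ∀ i ∈ S.A2, o i ≤ d + 1
  one_le_l : 1 ≤ ℓ
  l_le : ℓ ≤ d
  start : ∀ i ∈ S.A2, o i ≤ d → D.d (S.lam i) * o i = ℓ
  b_zero : ∀ i ∈ S.A2, ¬ o i ≤ d → D.b (S.lam i) = 0

theorem r3c_ok (d : ℕ) (q : (Fin s → ℕ) × ℕ) (hq : q ∈ S.Idx d)
    (h : ∀ i ∈ S.A2, q.1 i ≤ d → D.d (S.lam i) * q.1 i = q.2) : r3c_Ok S d q.1 q.2 := by
  unfold Data.Str.Idx at hq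
  rw [Finset.mem_filter, Finset.mem_product, Fintype.mem_piFinset, Finset.mem_Icc] at hq
  obtain ⟨⟨h1, h2, h3⟩, h4⟩ := hq
  have h5 : ∀ i ∈ S.A2, 1 ≤ q.1 i ∧ q.1 i ≤ d + 1 := by
    intro i hi
    have := h1 i
    rw [if_pos hi, Finset.mem_Icc] at this
    exact this
  refine ⟨fun i hi => (h5 i hi).1, fun i hi => (h5 i hi).2, h2, h3, h, ?_⟩
  intro i hi hid
  by_contra hb
  have h6 : D.b (S.lam i) * q.1 i ≤ ∑ i ∈ S.A2, D.b (S.lam i) * q.1 i :=
    Finset.single_le_sum (f := fun i => D.b (S.lam i) * q.1 i) (fun _ _ => Nat.zero_le _) hi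
  have h7 : q.1 i ≤ D.b (S.lam i) * q.1 i := Nat.le_mul_of_pos_left _ (Nat.pos_of_ne_zero hb)
  omega

variable {d ℓ : ℕ} {o : Fin s → ℕ}

theorem r3c_zv_small (ho : r3c_Ok S d o ℓ) (v : Fin N × Fin (d + 1) → ℂ) (e : Fin (d + 1))
    (h1 : 1 ≤ (e : ℕ)) (h2 : (e : ℕ) < ℓ) :
    (fun i => zv D.β D.d S.pv (S.oo (d + 1) o) v e i) = r3c_z S v e := by
  funext i
  unfold zv r3c_z
  by_cases hi : i ∈ S.Ab
  · have := r3c_nuv_deep S (d + 1) o i hi
    rw [if_pos (by have := e.2; omega), if_neg (fun h => h.2 hi)]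
  by_cases hi2 : i ∈ S.A2
  · have h0 : (e : ℕ) < nuv D.β D.d (S.oo (d + 1) o) i := by
      rw [r3c_nuv_A2 S (d + 1) o i hi2]
      by_cases h3 : o i ≤ d
      · rw [ho.start i hi2 h3]; exact h2
      · have h4 : 1 ≤ D.d (S.lam i) := D.hd _
        have h5 : o i ≤ D.d (S.lam i) * o i := Nat.le_mul_of_pos_left _ h4
        have := e.2
        omega
    rw [if_pos h0, if_neg (fun h => h.1 hi2)]
  · have h3 := r3c_nuv_free S (d + 1) o i hi2 hi
    have h4 : S.oo (d + 1) o (S.pv i) = 0 := by rw [r3c_oo_pv S _ o i hi, if_neg hi2]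
    rw [if_neg (by omega), if_neg (by omega), if_pos (⟨hi2, hi⟩ : i ∉ S.A2 ∧ i ∉ S.Ab)]
    simp only [h3, h4, Nat.sub_zero, Nat.add_zero]
    rw [dif_pos e.2]

theorem r3c_lc_zero (ho : r3c_Ok S d o ℓ) (v : Fin N × Fin (d + 1) → ℂ) (l : Fin N)
    (h : S.oo (d + 1) o l = 0) : lc (S.oo (d + 1) o) v l = v (l, 0) := by
  unfold lc
  simp only [h]
  rw [dif_pos (Nat.succ_pos d)]
  rfl

/-- a main coordinate, started block -/
theorem r3c_lc_lam (ho : r3c_Ok S d o ℓ) (v : Fin N × Fin (d + 1) → ℂ) (i : Fin s)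
    (hi : i ∈ S.A2) : lc (S.oo (d + 1) o) v (S.lam i) = r3c_w S o ℓ v i := by
  have hi' : i ∉ S.Ab := fun h => (Finset.disjoint_left.mp S.disj hi) h
  have h1 : S.oo (d + 1) o (S.lam i) = o i := by
    rw [← S.pv_lam i hi, r3c_oo_pv S _ o i hi', if_pos hi]
  have h2 : r3c_lev S o ℓ i = o i := by unfold r3c_lev; rw [if_pos hi]
  unfold lc r3c_w
  simp only [h1, h2, hi', not_false_eq_true, true_and, S.pv_lam i hi]

theorem r3c_w_zero (ho : r3c_Ok S d o ℓ) (v : Fin N × Fin (d + 1) → ℂ) (i : Fin s)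
    (hi : i ∉ S.A2.filter fun i => o i ≤ d) (h : i ∈ S.A2 ∨ i ∈ S.Ab) :
    r3c_w S o ℓ v i = 0 := by
  unfold r3c_w
  rw [dif_neg]
  rintro ⟨h1, h2⟩
  rcases h with h | h
  · unfold r3c_lev at h2
    rw [if_pos h] at h2
    exact hi (Finset.mem_filter.mpr ⟨h, by omega⟩)
  · exact h1 h

theorem r3c_w_free (ho : r3c_Ok S d o ℓ) (v : Fin N × Fin (d + 1) → ℂ) (i : Fin s)
    (h1 : i ∉ S.A2) (h2 : i ∉ S.Ab) (hl : ℓ < d + 1) : r3c_w S o ℓ v i = v (S.pv i, ⟨ℓ, hl⟩) := by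
  unfold r3c_w
  have h3 : r3c_lev S o ℓ i = ℓ := by unfold r3c_lev; rw [if_neg h1]
  simp only [h3, h2, not_false_eq_true, true_and, hl, dite_true]

theorem r3c_zv_main (ho : r3c_Ok S d o ℓ) (v : Fin N × Fin (d + 1) → ℂ) (hl : ℓ < d + 1)
    (hC : ∀ l, S.oo (d + 1) o l = 0 → lc (S.oo (d + 1) o) v l = S.p l) :
    (fun i => zv D.β D.d S.pv (S.oo (d + 1) o) v ℓ i) =
      S.zm (S.A2.filter fun i => o i ≤ d) (r3c_w S o ℓ v) := by
  funext i
  unfold zv Data.Str.zm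
  by_cases hi : i ∈ S.Ab
  · have := r3c_nuv_deep S (d + 1) o i hi
    have h1 : i ∉ S.A2.filter fun i => o i ≤ d := fun h =>
      (Finset.disjoint_left.mp S.disj (Finset.mem_filter.mp h).1) hi
    rw [if_pos (by omega), if_neg h1, if_pos (Or.inr hi)]
  by_cases hi2 : i ∈ S.A2
  · by_cases h3 : o i ≤ d
    · have hK : i ∈ S.A2.filter fun i => o i ≤ d := Finset.mem_filter.mpr ⟨hi2, h3⟩
      have h4 : nuv D.β D.d (S.oo (d + 1) o) i = ℓ := by
        rw [r3c_nuv_A2 S (d + 1) o i hi2, ho.start i hi2 h3]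
      rw [if_neg (by omega), if_pos h4.symm, if_pos hK]
      have hlam : S.lam i ∈ D.B i := by
        unfold Data.B
        rw [Finset.mem_filter, ← S.pv_lam i hi2]
        exact ⟨Finset.mem_univ _, S.pv_block i⟩
      have h5 : (Finset.univ.filter fun l => D.β l = i) = D.B i := rfl
      rw [h5, ← Finset.mul_prod_erase _ _ hlam, r3c_lc_lam S ho v i hi2, mul_comm]
      congr 1
      unfold Data.Str.kap
      refine Finset.prod_congr rfl fun l hl' => ?_
      obtain ⟨h6, h7⟩ := Finset.mem_erase.mp hl'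
      have h8 : D.β l = i := by
        unfold Data.B at h7
        exact (Finset.mem_filter.mp h7).2
      rw [hC l (r3c_oo_other S _ o l (by rw [h8]; exact hi) (by rw [h8, S.pv_lam i hi2]; exact h6))]
    · have hK : i ∉ S.A2.filter fun i => o i ≤ d := fun h => h3 (Finset.mem_filter.mp h).2
      have h4 : ℓ < nuv D.β D.d (S.oo (d + 1) o) i := by
        rw [r3c_nuv_A2 S (d + 1) o i hi2]
        have h4 : 1 ≤ D.d (S.lam i) := D.hd _
        have h5 : o i ≤ D.d (S.lam i) * o i := Nat.le_mul_of_pos_left _ h4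
        omega
      rw [if_pos h4, if_neg hK, if_pos (Or.inl hi2)]
  · have h3 := r3c_nuv_free S (d + 1) o i hi2 hi
    have h4 : S.oo (d + 1) o (S.pv i) = 0 := by rw [r3c_oo_pv S _ o i hi, if_neg hi2]
    have h1 : i ∉ S.A2.filter fun i => o i ≤ d := fun h => hi2 (Finset.mem_filter.mp h).1
    have := ho.one_le_l
    rw [if_neg (by omega), if_neg (by omega), if_neg h1, if_neg (by tauto),
      r3c_w_free S ho v i hi2 hi hl]
    simp only [h3, h4, Nat.sub_zero, Nat.add_zero]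
    rw [dif_pos hl]

/-- the rest of the coordinates -/
def r3c_R (d : ℕ) (o : Fin s → ℕ) (ℓ : ℕ) : Set (Fin N × Fin (d + 1) → ℂ) :=
  {u | (∀ q, r3c_mn S o ℓ q → u q = 0) ∧
    (∀ l (j : Fin (d + 1)), (j : ℕ) < S.oo (d + 1) o l → u (l, j) = 0) ∧
    (∀ l, S.oo (d + 1) o l = 0 → u (l, 0) = S.p l) ∧
    ∀ e : Fin (d + 1), 1 ≤ (e : ℕ) → (e : ℕ) < ℓ → r3c_z S u e ∈ D.W}

theorem r3c_not_mn_zero (ho : r3c_Ok S d o ℓ) (l : Fin N) :
    ¬ r3c_mn S o ℓ (l, (0 : Fin (d + 1))) := by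
  rintro ⟨-, -, h⟩
  simp only [Fin.val_zero] at h
  unfold r3c_lev at h
  by_cases h1 : D.β l ∈ S.A2
  · rw [if_pos h1] at h
    have := ho.one_le _ h1
    omega
  · rw [if_neg h1] at h
    have := ho.one_le_l
    omega

theorem r3c_not_mn_lt (ho : r3c_Ok S d o ℓ) (l : Fin N) (j : Fin (d + 1))
    (hj : (j : ℕ) < S.oo (d + 1) o l) : ¬ r3c_mn S o ℓ (l, j) := by
  rintro ⟨h1, h2, h3⟩
  simp only at h1 h2 h3
  have h4 := r3c_oo_pv S (d + 1) o _ h1
  rw [← h2] at h4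
  unfold r3c_lev at h3
  by_cases h5 : D.β l ∈ S.A2
  · rw [if_pos h5] at h3 h4
    omega
  · rw [if_neg h5] at h4
    omega

theorem r3c_not_mn_small (ho : r3c_Ok S d o ℓ) (i : Fin s) (hi : i ∉ S.A2) (e : Fin (d + 1))
    (he : (e : ℕ) < ℓ) : ¬ r3c_mn S o ℓ (S.pv i, e) := by
  rintro ⟨-, -, h3⟩
  simp only [S.pv_block i] at h3
  unfold r3c_lev at h3
  rw [if_neg hi] at h3
  omega

theorem r3c_mem_iff (ho : r3c_Ok S d o ℓ) (η : Fin s → ℂ) (v : Fin N × Fin (d + 1) → ℂ) :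
    v ∈ S.Cv η (d + 1) o ℓ ↔
      r3c_w S o ℓ v ∈ S.MF η (S.A2.filter fun i => o i ≤ d) ∧ r3c_r S o ℓ v ∈ r3c_R S d o ℓ := by
  have hl : ℓ < d + 1 := by have := ho.l_le; omega
  have hz : ∀ e : Fin (d + 1), (e : ℕ) < ℓ → r3c_z S (r3c_r S o ℓ v) e = r3c_z S v e := by
    intro e he
    funext i
    unfold r3c_z
    by_cases hi : i ∉ S.A2 ∧ i ∉ S.Ab
    · rw [if_pos hi, if_pos hi]
      unfold r3c_r
      rw [if_neg (r3c_not_mn_small S ho i hi.1 e he)]
    · rw [if_neg hi, if_neg hi]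
  have hr0 : ∀ l, r3c_r S o ℓ v (l, 0) = v (l, 0) := by
    intro l
    unfold r3c_r
    rw [if_neg (r3c_not_mn_zero S ho l)]
  have hrl : ∀ l (j : Fin (d + 1)), (j : ℕ) < S.oo (d + 1) o l →
      r3c_r S o ℓ v (l, j) = v (l, j) := by
    intro l j hj
    unfold r3c_r
    rw [if_neg (r3c_not_mn_lt S ho l j hj)]
  have hprod : (∏ i ∈ S.A2, (lc (S.oo (d + 1) o) v (S.lam i) / η i) ^ D.b (S.lam i)) =
      ∏ i ∈ S.A2.filter (fun i => o i ≤ d), (r3c_w S o ℓ v i / η i) ^ D.b (S.lam i) := by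
    rw [Finset.prod_filter]
    refine Finset.prod_congr rfl fun i hi => ?_
    by_cases h : o i ≤ d
    · rw [if_pos h, r3c_lc_lam S ho v i hi]
    · rw [if_neg h, ho.b_zero i hi h, pow_zero]
  constructor
  · rintro ⟨⟨hA, hB⟩, hC, hE, hG⟩
    obtain ⟨hG1, hG2⟩ := hG hl
    have hzm : (fun e : Fin (d + 1) => (fun i => zv D.β D.d S.pv (S.oo (d + 1) o) v (e : ℕ) i))
        ⟨ℓ, hl⟩ = S.zm (S.A2.filter fun i => o i ≤ d) (r3c_w S o ℓ v) := r3c_zv_main S ho v hl hC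
    rw [hzm] at hG1 hG2
    refine ⟨⟨?_, fun i h1 h2 => r3c_w_zero S ho v i h1 h2, hG1, ?_⟩, ?_, ?_, ?_, ?_⟩
    · intro i hi
      obtain ⟨h1, h2⟩ := Finset.mem_filter.mp hi
      have h3 : i ∉ S.Ab := fun h => (Finset.disjoint_left.mp S.disj h1) h
      have h4 : S.oo (d + 1) o (S.lam i) = o i := by
        rw [← S.pv_lam i h1, r3c_oo_pv S _ o i h3, if_pos h1]
      have h5 : S.oo (d + 1) o (S.lam i) < d + 1 := by omega
      have h6 : S.lam i ∉ S.Fr := by
        unfold Data.Str.Fr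
        rw [Finset.mem_filter]
        rintro ⟨-, h, -⟩
        rw [← S.pv_lam i h1, S.pv_block i] at h
        exact h h1
      have h7 := hB _ h6 h5
      rw [← r3c_lc_lam S ho v i h1]
      unfold lc
      rw [dif_pos h5]
      exact h7
    · rw [← hprod]; exact hG2
    · intro q hq
      unfold r3c_r
      rw [if_pos hq]
    · intro l j hj
      rw [hrl l j hj]
      exact hA l j hj
    · intro l h0
      rw [hr0, ← r3c_lc_zero S ho v l h0]
      exact hC l h0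
    · intro e h1 h2
      rw [hz e h2, ← r3c_zv_small S ho v e h1 h2]
      exact hE e h1 h2
  · rintro ⟨⟨hw1, hw2, hw3, hw4⟩, hr1, hr2, hr3, hr4⟩
    have hC : ∀ l, S.oo (d + 1) o l = 0 → lc (S.oo (d + 1) o) v l = S.p l := by
      intro l h0
      rw [r3c_lc_zero S ho v l h0, ← hr0]
      exact hr3 l h0
    have hzm : (fun e : Fin (d + 1) => (fun i => zv D.β D.d S.pv (S.oo (d + 1) o) v (e : ℕ) i))
        ⟨ℓ, hl⟩ = S.zm (S.A2.filter fun i => o i ≤ d) (r3c_w S o ℓ v) := r3c_zv_main S ho v hl hC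
    refine ⟨⟨?_, ?_⟩, hC, ?_, ?_⟩
    · intro l j hj
      rw [← hrl l j hj]
      exact hr2 l j hj
    · intro l hFr h
      by_cases h0 : S.oo (d + 1) o l = 0
      · have h1 : v (l, ⟨S.oo (d + 1) o l, h⟩) = S.p l := by
          rw [← hC l h0]
          unfold lc
          rw [dif_pos h]
        rw [h1]
        by_cases hb : D.β l ∈ S.Ab
        · refine S.deep_p l hb ?_ ?_
          · intro h'
            have := r3c_oo_deep S (d + 1) o l hb (Or.inl h')
            omega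
          · intro h'
            have := r3c_oo_deep S (d + 1) o l hb (Or.inr h')
            omega
        · by_cases hp : l = S.pv (D.β l)
          · have h2 := r3c_oo_pv S (d + 1) o _ hb
            rw [← hp, h0] at h2
            by_cases h3 : D.β l ∈ S.A2
            · rw [if_pos h3] at h2
              have := ho.one_le _ h3
              omega
            · intro h4
              refine hFr ?_
              unfold Data.Str.Fr
              rw [Finset.mem_filter]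
              exact ⟨Finset.mem_univ _, h3, hb, hp, h4⟩
          · exact S.p_ne l hb hp
      · have hb : D.β l ∉ S.Ab := by
          intro hb
          by_cases h' : l = S.lam (D.β l) ∨ l = S.lam' (D.β l)
          · have := r3c_oo_deep S (d + 1) o l hb h'
            omega
          · apply h0
            unfold Data.Str.oo
            rw [if_neg (fun h => h' h.2), if_neg]
            rintro ⟨h1, -⟩
            exact (Finset.disjoint_left.mp S.disj h1) hb
        have hp : l = S.pv (D.β l) := by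
          by_contra hp
          exact h0 (r3c_oo_other S _ o l hb hp)
        have h2 := r3c_oo_pv S (d + 1) o _ hb
        rw [← hp] at h2
        have h3 : D.β l ∈ S.A2 := by
          by_contra h3
          rw [if_neg h3] at h2
          exact h0 h2
        rw [if_pos h3] at h2
        have h4 : D.β l ∈ S.A2.filter fun i => o i ≤ d := Finset.mem_filter.mpr ⟨h3, by omega⟩
        have h5 := hw1 _ h4
        rw [← r3c_lc_lam S ho v _ h3, ← S.pv_lam _ h3, ← hp] at h5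
        unfold lc at h5
        rw [dif_pos h] at h5
        exact h5
    · intro e h1 h2
      have := hr4 e h1 h2
      rw [hz e h2, ← r3c_zv_small S ho v e h1 h2] at this
      exact this
    · intro h
      rw [hzm]
      refine ⟨hw3, ?_⟩
      rw [hprod]
      exact hw4

theorem r3c_z_add {n : ℕ} (u v : Fin N × Fin n → ℂ) (e : Fin n) :
    r3c_z S (u + v) e = r3c_z S u e + r3c_z S v e := by
  funext i
  simp only [r3c_z, Pi.add_apply]
  split_ifs <;> simp

theorem r3c_z_smul {n : ℕ} (c : ℂ) (u : Fin N × Fin n → ℂ) (e : Fin n) :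
    r3c_z S (c • u) e = c • r3c_z S u e := by
  funext i
  simp only [r3c_z, Pi.smul_apply]
  split_ifs <;> simp

/-- the direction space of the rest of the coordinates -/
noncomputable def r3c_R0 (d : ℕ) (o : Fin s → ℕ) (ℓ : ℕ) :
    Submodule ℂ (Fin N × Fin (d + 1) → ℂ) where
  carrier := {u | (∀ q, r3c_mn S o ℓ q → u q = 0) ∧
    (∀ l (j : Fin (d + 1)), (j : ℕ) < S.oo (d + 1) o l → u (l, j) = 0) ∧
    (∀ l, S.oo (d + 1) o l = 0 → u (l, 0) = 0) ∧
    ∀ e : Fin (d + 1), 1 ≤ (e : ℕ) → (e : ℕ) < ℓ → r3c_z S u e ∈ D.W}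
  zero_mem' := by
    refine ⟨fun _ _ => rfl, fun _ _ _ => rfl, fun _ _ => rfl, fun e _ _ => ?_⟩
    have : r3c_z S (0 : Fin N × Fin (d + 1) → ℂ) e = 0 := by
      funext i
      simp [r3c_z]
    rw [this]
    exact D.W.zero_mem
  add_mem' := by
    rintro u v ⟨h1, h2, h3, h4⟩ ⟨h1', h2', h3', h4'⟩
    refine ⟨fun q hq => ?_, fun l j hj => ?_, fun l h0 => ?_, fun e he he' => ?_⟩
    · rw [Pi.add_apply, h1 q hq, h1' q hq, add_zero]
    · rw [Pi.add_apply, h2 l j hj, h2' l j hj, add_zero]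
    · rw [Pi.add_apply, h3 l h0, h3' l h0, add_zero]
    · rw [r3c_z_add]
      exact D.W.add_mem (h4 e he he') (h4' e he he')
  smul_mem' := by
    rintro c u ⟨h1, h2, h3, h4⟩
    refine ⟨fun q hq => ?_, fun l j hj => ?_, fun l h0 => ?_, fun e he he' => ?_⟩
    · rw [Pi.smul_apply, h1 q hq, smul_zero]
    · rw [Pi.smul_apply, h2 l j hj, smul_zero]
    · rw [Pi.smul_apply, h3 l h0, smul_zero]
    · rw [r3c_z_smul]
      exact D.W.smul_mem c (h4 e he he')

theorem r3c_chi_R (χ : K0 →+* ℤ) (hχ : IsEulerChar χ) (ho : r3c_Ok S d o ℓ) :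
    Constr (r3c_R S d o ℓ) ∧ χ (cls (r3c_R S d o ℓ)) = 1 := by
  classical
  refine r3c_chi_affine χ hχ (r3c_R0 S d o ℓ)
    (fun q => if q.2 = 0 ∧ S.oo (d + 1) o q.1 = 0 then S.p q.1 else 0) ?_
  intro u
  have h1 : ∀ q, r3c_mn S o ℓ q → (u - fun q : Fin N × Fin (d + 1) =>
      if q.2 = 0 ∧ S.oo (d + 1) o q.1 = 0 then S.p q.1 else 0) q = u q := by
    rintro ⟨l, j⟩ hq
    rw [Pi.sub_apply, if_neg, sub_zero]
    rintro ⟨h, -⟩
    simp only at h
    rw [h] at hq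
    exact r3c_not_mn_zero S ho l hq
  have h2 : ∀ l (j : Fin (d + 1)), (j : ℕ) < S.oo (d + 1) o l →
      (u - fun q : Fin N × Fin (d + 1) =>
      if q.2 = 0 ∧ S.oo (d + 1) o q.1 = 0 then S.p q.1 else 0) (l, j) = u (l, j) := by
    intro l j hj
    rw [Pi.sub_apply, if_neg, sub_zero]
    rintro ⟨-, h⟩
    simp only at h
    omega
  have h3 : ∀ l, S.oo (d + 1) o l = 0 → (u - fun q : Fin N × Fin (d + 1) =>
      if q.2 = 0 ∧ S.oo (d + 1) o q.1 = 0 then S.p q.1 else 0) (l, 0) = u (l, 0) - S.p l := by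
    intro l h0
    rw [Pi.sub_apply, if_pos ⟨rfl, h0⟩]
  have h4 : ∀ e : Fin (d + 1), 1 ≤ (e : ℕ) → r3c_z S (u - fun q : Fin N × Fin (d + 1) =>
      if q.2 = 0 ∧ S.oo (d + 1) o q.1 = 0 then S.p q.1 else 0) e = r3c_z S u e := by
    intro e he
    funext i
    unfold r3c_z
    by_cases hi : i ∉ S.A2 ∧ i ∉ S.Ab
    · rw [if_pos hi, if_pos hi, Pi.sub_apply, if_neg, sub_zero]
      rintro ⟨h, -⟩
      simp only at h
      rw [h] at he
      simp at he
    · rw [if_neg hi, if_neg hi]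
  constructor
  · rintro ⟨hr1, hr2, hr3, hr4⟩
    refine ⟨fun q hq => ?_, fun l j hj => ?_, fun l h0 => ?_, fun e he he' => ?_⟩
    · rw [h1 q hq]; exact hr1 q hq
    · rw [h2 l j hj]; exact hr2 l j hj
    · rw [h3 l h0, hr3 l h0, sub_self]
    · rw [h4 e he]; exact hr4 e he he'
  · rintro ⟨hr1, hr2, hr3, hr4⟩
    refine ⟨fun q hq => ?_, fun l j hj => ?_, fun l h0 => ?_, fun e he he' => ?_⟩
    · rw [← h1 q hq]; exact hr1 q hq
    · rw [← h2 l j hj]; exact hr2 l j hj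
    · have := hr3 l h0
      rw [h3 l h0] at this
      exact sub_eq_zero.mp this
    · rw [← h4 e he]; exact hr4 e he he'

theorem r3c_iso (ho : r3c_Ok S d o ℓ) (η : Fin s → ℂ) :
    RegIso (S.Cv η (d + 1) o ℓ)
      (prodSet (S.MF η (S.A2.filter fun i => o i ≤ d)) (r3c_R S d o ℓ)) := by
  classical
  have hl : ℓ < d + 1 := by have := ho.l_le; omega
  have hgf : ∀ x : Fin N × Fin (d + 1) → ℂ, (fun q : Fin N × Fin (d + 1) =>
      if r3c_mn S o ℓ q then (Sum.elim (r3c_w S o ℓ x) (r3c_r S o ℓ x) : _ → ℂ)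
        (Sum.inl (D.β q.1)) else (Sum.elim (r3c_w S o ℓ x) (r3c_r S o ℓ x) : _ → ℂ)
        (Sum.inr q)) = x := by
    intro x
    funext q
    obtain ⟨l, j⟩ := q
    by_cases hq : r3c_mn S o ℓ (l, j)
    · rw [if_pos hq]
      obtain ⟨h1, h2, h3⟩ := hq
      simp only at h1 h2 h3
      have h4 : r3c_lev S o ℓ (D.β l) < d + 1 := by rw [← h3]; exact j.2
      simp only [Sum.elim_inl]
      unfold r3c_w
      rw [dif_pos ⟨h1, h4⟩]
      congr 1
      refine Prod.ext h2.symm (Fin.ext h3.symm)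
    · rw [if_neg hq]
      simp only [Sum.elim_inr]
      unfold r3c_r
      rw [if_neg hq]
  have hfg : ∀ z ∈ prodSet (S.MF η (S.A2.filter fun i => o i ≤ d)) (r3c_R S d o ℓ),
      (Sum.elim (r3c_w S o ℓ fun q : Fin N × Fin (d + 1) =>
        if r3c_mn S o ℓ q then z (Sum.inl (D.β q.1)) else z (Sum.inr q))
      (r3c_r S o ℓ fun q : Fin N × Fin (d + 1) =>
        if r3c_mn S o ℓ q then z (Sum.inl (D.β q.1)) else z (Sum.inr q)) : _ → ℂ) = z := by
    rintro z ⟨⟨hw1, hw2, hw3, hw4⟩, hr1, hr2, hr3, hr4⟩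
    funext q
    rcases q with i | q
    · simp only [Sum.elim_inl]
      unfold r3c_w
      by_cases h : i ∉ S.Ab ∧ r3c_lev S o ℓ i < d + 1
      · rw [dif_pos h]
        beta_reduce
        rw [if_pos, S.pv_block i]
        refine ⟨?_, ?_, ?_⟩
        · rw [S.pv_block i]; exact h.1
        · rw [S.pv_block i]
        · rw [S.pv_block i]
      · rw [dif_neg h]
        refine (hw2 i ?_ ?_).symm
        · intro hK
          obtain ⟨h1, h2⟩ := Finset.mem_filter.mp hK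
          refine h ⟨fun h' => (Finset.disjoint_left.mp S.disj h1) h', ?_⟩
          unfold r3c_lev
          rw [if_pos h1]
          omega
        · by_contra hn
          refine h ⟨fun h' => hn (Or.inr h'), ?_⟩
          unfold r3c_lev
          rw [if_neg (fun h' => hn (Or.inl h'))]
          exact hl
    · simp only [Sum.elim_inr]
      unfold r3c_r
      by_cases hq : r3c_mn S o ℓ q
      · rw [if_pos hq]
        exact (hr1 q hq).symm
      · rw [if_neg hq]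
        beta_reduce
        rw [if_neg hq]
  refine ⟨fun v => Sum.elim (r3c_w S o ℓ v) (r3c_r S o ℓ v),
    fun z q => if r3c_mn S o ℓ q then z (Sum.inl (D.β q.1)) else z (Sum.inr q), ?_, ?_, ?_, ?_,
    fun x _ => hgf x, fun y hy => hfg y hy⟩
  · rintro (i | q)
    · simp only [Sum.elim_inl]
      unfold r3c_w
      by_cases h : i ∉ S.Ab ∧ r3c_lev S o ℓ i < d + 1
      · simp only [dif_pos h]
        exact regFun_coord _ _
      · simp only [dif_neg h]
        exact regFun_const _ _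
    · simp only [Sum.elim_inr]
      unfold r3c_r
      by_cases hq : r3c_mn S o ℓ q
      · simp only [if_pos hq]
        exact regFun_const _ _
      · simp only [if_neg hq]
        exact regFun_coord _ _
  · intro q
    by_cases hq : r3c_mn S o ℓ q
    · simp only [if_pos hq]
      exact regFun_coord _ _
    · simp only [if_neg hq]
      exact regFun_coord _ _
  · intro v hv
    exact (r3c_mem_iff S ho η v).mp hv
  · intro z hz
    rw [r3c_mem_iff S ho η]
    have h := hfg z hz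
    have h1 : r3c_w S o ℓ (fun q : Fin N × Fin (d + 1) =>
        if r3c_mn S o ℓ q then z (Sum.inl (D.β q.1)) else z (Sum.inr q)) =
        fun i => z (Sum.inl i) := by
      funext i
      exact congrFun h (Sum.inl i)
    have h2 : r3c_r S o ℓ (fun q : Fin N × Fin (d + 1) =>
        if r3c_mn S o ℓ q then z (Sum.inl (D.β q.1)) else z (Sum.inr q)) =
        fun q => z (Sum.inr q) := by
      funext q
      exact congrFun h (Sum.inr q)
    rw [h1, h2]
    exact hz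

theorem chi_Cv_main (χ : K0 →+* ℤ) (hχ : IsEulerChar χ) (η : Fin s → ℂ)
    (hη : ∀ i ∈ S.A2, η i ≠ 0) (d : ℕ) (q : (Fin s → ℕ) × ℕ) (hq : q ∈ S.Idx d)
    (h : ∀ i ∈ S.A2, q.1 i ≤ d → D.d (S.lam i) * q.1 i = q.2) :
    χ (cls (S.Cv η (d + 1) q.1 q.2)) = χ (cls (S.MF η (S.A2.filter fun i => q.1 i ≤ d))) := by
  have ho := r3c_ok S d q hq h
  obtain ⟨h1, h2⟩ := r3c_chi_R S χ hχ ho
  have h3 := constr_MF S η (S.A2.filter fun i => q.1 i ≤ d)
  have h4 : Constr (S.Cv η (d + 1) q.1 q.2) :=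
    constr_zv D.β D.d S.pv S.Fr (S.oo (d + 1) q.1) _ (Cond_PC S η (d + 1) q.1 q.2)
  rw [cls_iso h4 (h3.prodSet h1) (r3c_iso S ho η), cls_prodSet h3 h1, map_mul, h2, mul_one]

end MotMono.Mon
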