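import Pool.Agent.Lib.MP_4e5fcd_ag.Mon.RDefs
import Pool.Agent.Lib.MP_4e5fcd_ag.Kum.E3
import Pool.Agent.Lib.MP_4e5fcd_ag.Kum.E3b

/-! # MON-R3d: the Euler characteristic of the model -/

open MvPolynomial

namespace MotMono.Mon

variable {N s : ℕ} {D : Data N s} (S : D.Str)

/-- the linear form as a polynomial in given polynomials -/
theorem r3d_eval_dot {σ : Type} (a : Fin s → ℂ) (P : Fin s → MvPolynomial σ ℂ) (w : σ → ℂ) :
    eval w (∑ i, C (a i) * P i) = a ⬝ᵥ fun i => eval w (P i) := by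
  rw [map_sum]
  unfold dotProduct
  refine Finset.sum_congr rfl fun i _ => ?_
  rw [map_mul, eval_C]

theorem r3d_constr_W {σ : Type} [Finite σ] (W : Submodule ℂ (Fin s → ℂ)) (x a : Fin s → ℂ)
    (P : Fin s → MvPolynomial σ ℂ) :
    Constr {w : σ → ℂ | (fun i => eval w (P i)) -
      (a ⬝ᵥ fun i => eval w (P i)) • x ∈ W} := by
  have h := (constr_submodule W).preimage
    (fun i => P i - (∑ j, C (a j) * P j) * C (x i))
  have e : {w : σ → ℂ | (fun i => eval w (P i - (∑ j, C (a j) * P j) * C (x i))) ∈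
      (W : Set (Fin s → ℂ))} =
      {w : σ → ℂ | (fun i => eval w (P i)) - (a ⬝ᵥ fun i => eval w (P i)) • x ∈ W} := by
    ext w
    simp only [Set.mem_ofPred_eq, SetLike.mem_coe]
    have : (fun i => eval w (P i - (∑ j, C (a j) * P j) * C (x i))) =
        (fun i => eval w (P i)) - (a ⬝ᵥ fun i => eval w (P i)) • x := by
      funext i
      rw [map_sub, map_mul, r3d_eval_dot, eval_C]
      rfl
    rw [this]
  rwa [e] at h

theorem r3d_constr_forall {σ ι : Type} [Finite σ] [Finite ι] {E : ι → Set (σ → ℂ)}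
    {Q : ι → Prop} (h : ∀ i, Q i → Constr (E i)) : Constr {w | ∀ i, Q i → w ∈ E i} := by
  classical
  have e : {w | ∀ i, Q i → w ∈ E i} = ⋂ i : ι, (if Q i then E i else Set.univ) := by
    ext w
    simp only [Set.mem_ofPred_eq, Set.mem_iInter]
    refine forall_congr' fun i => ?_
    by_cases hi : Q i
    · rw [if_pos hi]
      exact ⟨fun h => h hi, fun h _ => h⟩
    · rw [if_neg hi]
      exact ⟨fun _ => Set.mem_univ _, fun _ h => absurd h hi⟩
  rw [e]
  refine constr_iInter fun i => ?_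
  by_cases hi : Q i
  · rw [if_pos hi]
    exact h i hi
  · rw [if_neg hi]
    exact constr_univ

theorem constr_hset (K : Finset (Fin s)) : Constr (S.hset K) := by
  have h1 := r3d_constr_W D.W S.x S.a (fun i => (X i : MvPolynomial (Fin s) ℂ))
  simp only [eval_X] at h1
  have h2 : Constr {z : Fin s → ℂ | S.a ⬝ᵥ z = 1} := by
    have h := constr_eq (∑ i, C (S.a i) * (X i : MvPolynomial (Fin s) ℂ)) (C 1)
    have e : {w : Fin s → ℂ | eval w (∑ i, C (S.a i) * (X i : MvPolynomial (Fin s) ℂ)) =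
        eval w (C 1)} = {z : Fin s → ℂ | S.a ⬝ᵥ z = 1} := by
      ext w
      simp only [Set.mem_ofPred_eq]
      rw [r3d_eval_dot, eval_C]
      simp only [eval_X]
    rwa [e] at h
  have h0 : ∀ i : Fin s, Constr {z : Fin s → ℂ | z i = 0} := by
    intro i
    have h := constr_eq (X i : MvPolynomial (Fin s) ℂ) (C 0)
    simpa only [eval_X, eval_C] using h
  have hn : ∀ i : Fin s, Constr {z : Fin s → ℂ | z i ≠ 0} := by
    intro i
    have h := constr_ne (X i : MvPolynomial (Fin s) ℂ)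
    simpa only [eval_X] using h
  have h3 : Constr {z : Fin s → ℂ | ∀ i, i ∈ S.Ab → z ∈ {z : Fin s → ℂ | z i = 0}} :=
    r3d_constr_forall fun i _ => h0 i
  have h4 : Constr {z : Fin s → ℂ | ∀ i, i ∈ S.A2 → z ∈ {z : Fin s → ℂ | (i ∈ K ↔ z i ≠ 0)}} := by
    refine r3d_constr_forall fun i _ => ?_
    by_cases hi : i ∈ K
    · simpa only [hi, true_iff] using hn i
    · simpa only [hi, false_iff, not_not] using h0 i
  have h5 := (h1.inter h2).inter (h3.inter h4)
  have e : S.hset K = ({w : Fin s → ℂ | (fun i => w i) - (S.a ⬝ᵥ fun i => w i) • S.x ∈ D.W} ∩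
      {z : Fin s → ℂ | S.a ⬝ᵥ z = 1}) ∩
      ({z : Fin s → ℂ | ∀ i, i ∈ S.Ab → z ∈ {z : Fin s → ℂ | z i = 0}} ∩
      {z : Fin s → ℂ | ∀ i, i ∈ S.A2 → z ∈ {z : Fin s → ℂ | (i ∈ K ↔ z i ≠ 0)}}) := by
    ext z
    constructor
    · rintro ⟨a1, a2, a3, a4⟩
      exact ⟨⟨a1, a2⟩, a3, a4⟩
    · rintro ⟨⟨a1, a2⟩, a3, a4⟩
      exact ⟨a1, a2, a3, a4⟩
  rw [e]
  exact h5

theorem r3d_kap_ne (i : Fin s) (hi : i ∈ S.A2) : S.kap i ≠ 0 := by
  unfold Data.Str.kap
  rw [Finset.prod_ne_zero_iff]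
  intro l hl
  rw [Finset.mem_erase, Data.B, Finset.mem_filter] at hl
  apply pow_ne_zero
  apply S.p_ne l
  · rw [hl.2.2]
    exact Finset.disjoint_left.1 S.disj hi
  · rw [hl.2.2, S.pv_lam i hi]
    exact hl.1

/-- the coefficient vector in the model, as polynomials -/
noncomputable def r3dZ (K : Finset (Fin s)) (i : Fin s) : MvPolynomial (Fin s) ℂ :=
  if i ∈ K then C (S.kap i) * X i ^ D.d (S.lam i) else if i ∈ S.A2 ∨ i ∈ S.Ab then 0 else X i

theorem r3d_eval_Z (K : Finset (Fin s)) (w : Fin s → ℂ) :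
    (fun i => eval w (r3dZ S K i)) = S.zm K w := by
  funext i
  unfold r3dZ Data.Str.zm
  split_ifs <;> simp

/-- the model without the last condition -/
def r3dE (K : Finset (Fin s)) : Set (Fin s → ℂ) :=
  {w | (∀ i ∈ K, w i ≠ 0) ∧ (∀ i, i ∉ K → i ∈ S.A2 ∨ i ∈ S.Ab → w i = 0) ∧
    S.zm K w - (S.a ⬝ᵥ S.zm K w) • S.x ∈ D.W ∧ S.a ⬝ᵥ S.zm K w ≠ 0}

theorem r3d_constr_E (K : Finset (Fin s)) : Constr (r3dE S K) := by
  have h1 := r3d_constr_W D.W S.x S.a (r3dZ S K)
  have h2 : Constr {w : Fin s → ℂ | S.a ⬝ᵥ S.zm K w ≠ 0} := by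
    have h := constr_ne (∑ i, C (S.a i) * r3dZ S K i)
    have e : {w : Fin s → ℂ | eval w (∑ i, C (S.a i) * r3dZ S K i) ≠ 0} =
        {w : Fin s → ℂ | S.a ⬝ᵥ S.zm K w ≠ 0} := by
      ext w
      simp only [Set.mem_ofPred_eq]
      rw [r3d_eval_dot, r3d_eval_Z]
    rwa [e] at h
  have h3 : Constr {z : Fin s → ℂ | ∀ i, i ∈ K → z ∈ {z : Fin s → ℂ | z i ≠ 0}} := by
    refine r3d_constr_forall fun i _ => ?_
    have h := constr_ne (X i : MvPolynomial (Fin s) ℂ)
    simpa only [eval_X] using h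
  have h4 : Constr {z : Fin s → ℂ | ∀ i, (i ∉ K ∧ (i ∈ S.A2 ∨ i ∈ S.Ab)) →
      z ∈ {z : Fin s → ℂ | z i = 0}} := by
    refine r3d_constr_forall fun i _ => ?_
    have h := constr_eq (X i : MvPolynomial (Fin s) ℂ) (C 0)
    simpa only [eval_X, eval_C] using h
  have h5 := (h3.inter h4).inter (h1.inter h2)
  have e : r3dE S K = ({z : Fin s → ℂ | ∀ i, i ∈ K → z ∈ {z : Fin s → ℂ | z i ≠ 0}} ∩
      {z : Fin s → ℂ | ∀ i, (i ∉ K ∧ (i ∈ S.A2 ∨ i ∈ S.Ab)) → z ∈ {z : Fin s → ℂ | z i = 0}}) ∩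
      ({w : Fin s → ℂ | (fun i => eval w (r3dZ S K i)) -
      (S.a ⬝ᵥ fun i => eval w (r3dZ S K i)) • S.x ∈ D.W} ∩
      {w : Fin s → ℂ | S.a ⬝ᵥ S.zm K w ≠ 0}) := by
    ext w
    simp only [Set.mem_inter_iff, Set.mem_ofPred_eq, r3d_eval_Z]
    constructor
    · rintro ⟨a1, a2, a3, a4⟩
      exact ⟨⟨a1, fun i hi => a2 i hi.1 hi.2⟩, a3, a4⟩
    · rintro ⟨⟨a1, a2⟩, a3, a4⟩
      exact ⟨a1, fun i hi hi' => a2 i ⟨hi, hi'⟩, a3, a4⟩
  rw [e]
  exact h5

/-- weights -/
def r3dw (K : Finset (Fin s)) (M : ℕ) (i : Fin s) : ℤ :=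
  if i ∈ K then ((M / D.d (S.lam i) : ℕ) : ℤ) else (M : ℤ)

theorem r3d_zm_smul (K : Finset (Fin s)) (hK : K ⊆ S.A2) (M : ℕ)
    (hM : ∀ i ∈ S.A2, D.d (S.lam i) ∣ M) (w : Fin s → ℂ) (τ : ℂ) :
    S.zm K (fun i => τ ^ r3dw S K M i * w i) = (τ ^ M) • S.zm K w := by
  funext i
  simp only [Data.Str.zm, r3dw, Pi.smul_apply, smul_eq_mul]
  by_cases hi : i ∈ K
  · rw [if_pos hi, if_pos hi, if_pos hi, zpow_natCast, mul_pow, ← pow_mul,
      Nat.div_mul_cancel (hM i (hK hi))]
    ring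
  · rw [if_neg hi, if_neg hi, if_neg hi, zpow_natCast]
    split_ifs
    · rw [mul_zero]
    · rfl

theorem chi_MF (χ : K0 →+* ℤ) (hχ : IsEulerChar χ) (η : Fin s → ℂ)
    (hη : ∀ i ∈ S.A2, η i ≠ 0) (K : Finset (Fin s)) (hK : K ⊆ S.A2) (hZ : S.Zb ⊆ K) (M : ℕ)
    (hM0 : 0 < M) (hM : ∀ i ∈ S.A2, D.d (S.lam i) ∣ M) :
    (M : ℤ) * χ (cls (S.MF η K)) =
      (D.m * M + ∑ i ∈ S.A2, D.b (S.lam i) * (M / D.d (S.lam i)) : ℕ) *
        ((∏ i ∈ K, (D.d (S.lam i) : ℤ)) * χ (cls (S.hset K))) := by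
  classical
  have hsum : ∑ i ∈ S.A2, D.b (S.lam i) * (M / D.d (S.lam i)) =
      ∑ i ∈ K, D.b (S.lam i) * (M / D.d (S.lam i)) := by
    symm
    apply Finset.sum_subset hK
    intro i hi hiK
    have : D.b (S.lam i) = 0 := by
      by_contra h
      exact hiK (hZ (by
        rw [Data.Str.Zb, Finset.mem_filter]
        exact ⟨hi, Nat.pos_of_ne_zero h⟩))
    rw [this, zero_mul]
  -- the two slices
  have hslice := Kum.chi_slice χ hχ (r3dE S K) (r3d_constr_E S K) (r3dw S K M)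
    (∑ i, C (S.a i) * r3dZ S K i)
    ((∏ i ∈ K, (C (η i)⁻¹ * X i) ^ D.b (S.lam i)) * (∑ i, C (S.a i) * r3dZ S K i) ^ D.m)
    M (D.m * M + ∑ i ∈ K, D.b (S.lam i) * (M / D.d (S.lam i))) hM0
    (Nat.add_pos_left (Nat.mul_pos D.hm hM0) _)
    (by
      intro w hw τ hτ
      obtain ⟨a1, a2, a3, a4⟩ := hw
      refine ⟨fun i hi => mul_ne_zero (zpow_ne_zero _ hτ) (a1 i hi), fun i hi hi' => ?_, ?_, ?_⟩
      · show τ ^ r3dw S K M i * w i = 0
        rw [a2 i hi hi', mul_zero]
      · rw [r3d_zm_smul S K hK M hM, dotProduct_smul, smul_assoc, ← smul_sub]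
        exact D.W.smul_mem _ a3
      · rw [r3d_zm_smul S K hK M hM, dotProduct_smul, smul_eq_mul]
        exact mul_ne_zero (pow_ne_zero _ hτ) a4)
    (by
      intro w hw
      rw [r3d_eval_dot, r3d_eval_Z]
      exact hw.2.2.2)
    (by
      intro w hw
      rw [map_mul, map_pow, r3d_eval_dot, r3d_eval_Z]
      refine mul_ne_zero ?_ (pow_ne_zero _ hw.2.2.2)
      rw [map_prod, Finset.prod_ne_zero_iff]
      intro i hi
      rw [map_pow, map_mul, eval_C, eval_X]
      exact pow_ne_zero _ (mul_ne_zero (inv_ne_zero (hη i (hK hi))) (hw.1 i hi)))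
    (by
      intro w hw τ hτ
      rw [r3d_eval_dot, r3d_eval_Z, r3d_eval_dot, r3d_eval_Z, r3d_zm_smul S K hK M hM,
        dotProduct_smul, smul_eq_mul])
    (by
      intro w hw τ hτ
      rw [map_mul, map_pow, r3d_eval_dot, r3d_eval_Z, map_mul, map_pow, r3d_eval_dot, r3d_eval_Z,
        r3d_zm_smul S K hK M hM, dotProduct_smul, smul_eq_mul, map_prod, map_prod]
      have : ∏ i ∈ K, eval (fun i => τ ^ r3dw S K M i * w i) ((C (η i)⁻¹ * X i) ^ D.b (S.lam i)) =
          τ ^ (∑ i ∈ K, D.b (S.lam i) * (M / D.d (S.lam i))) *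
            ∏ i ∈ K, eval w ((C (η i)⁻¹ * X i) ^ D.b (S.lam i)) := by
        rw [← Finset.prod_pow_eq_pow_sum, ← Finset.prod_mul_distrib]
        refine Finset.prod_congr rfl fun i hi => ?_
        rw [map_pow, map_mul, eval_C, eval_X, map_pow, map_mul, eval_C, eval_X, r3dw, if_pos hi,
          zpow_natCast, mul_comm (D.b (S.lam i)), pow_mul, ← mul_pow]
        ring
      rw [this, pow_add, mul_pow (τ ^ M), ← pow_mul, mul_comm M D.m]
      ring)
  have hF : {w | w ∈ r3dE S K ∧ eval w ((∏ i ∈ K, (C (η i)⁻¹ * X i) ^ D.b (S.lam i)) *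
      (∑ i, C (S.a i) * r3dZ S K i) ^ D.m) = 1} = S.MF η K := by
    ext w
    simp only [Set.mem_ofPred_eq]
    rw [map_mul, map_pow, r3d_eval_dot, r3d_eval_Z, map_prod]
    have : ∏ i ∈ K, eval w ((C (η i)⁻¹ * X i) ^ D.b (S.lam i)) =
        ∏ i ∈ K, (w i / η i) ^ D.b (S.lam i) := by
      refine Finset.prod_congr rfl fun i _ => ?_
      rw [map_pow, map_mul, eval_C, eval_X, div_eq_inv_mul]
    rw [this]
    constructor
    · rintro ⟨⟨a1, a2, a3, -⟩, a5⟩
      exact ⟨a1, a2, a3, a5⟩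
    · rintro ⟨a1, a2, a3, a5⟩
      refine ⟨⟨a1, a2, a3, ?_⟩, a5⟩
      intro h
      rw [h, zero_pow D.hm.ne', mul_zero] at a5
      exact zero_ne_one a5
  rw [hF] at hslice
  -- the second slice is an iterated covering
  set P : Set (Fin s → ℂ) := {y | (fun i => if i ∈ K then S.kap i * y i else y i) ∈ S.hset K}
    with hP
  have hPc : Constr P := by
    have h := (constr_hset S K).preimage
      (fun i => if i ∈ K then C (S.kap i) * (X i : MvPolynomial (Fin s) ℂ) else X i)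
    have e : {w : Fin s → ℂ | (fun i => eval w
        (if i ∈ K then C (S.kap i) * (X i : MvPolynomial (Fin s) ℂ) else X i)) ∈ S.hset K} = P := by
      ext w
      rw [hP]
      simp only [Set.mem_ofPred_eq]
      have : (fun i => eval w (if i ∈ K then C (S.kap i) * (X i : MvPolynomial (Fin s) ℂ)
          else X i)) = fun i => if i ∈ K then S.kap i * w i else w i := by
        funext i
        split_ifs <;> simp
      rw [this]
    rwa [e] at h
  have hPK : ∀ y ∈ P, ∀ j ∈ K, y j ≠ 0 := by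
    intro y hy j hj h0
    have h1 := (hy.2.2.2 j (hK hj)).1 hj
    simp only [if_pos hj, h0, mul_zero, ne_eq, not_true_eq_false] at h1
  have hiter := Kum.chi_kummer_iter χ hχ P hPc (fun i => D.d (S.lam i)) (fun i => D.hd _) K hPK
  have hset2 : {w | w ∈ r3dE S K ∧ eval w (∑ i, C (S.a i) * r3dZ S K i) = 1} =
      {v : Fin s → ℂ | (fun j => if j ∈ K then v j ^ D.d (S.lam j) else v j) ∈ P} := by
    ext w
    simp only [Set.mem_ofPred_eq]
    rw [r3d_eval_dot, r3d_eval_Z, hP]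
    simp only [Set.mem_ofPred_eq]
    have hz : (fun i => if i ∈ K then S.kap i * (if i ∈ K then w i ^ D.d (S.lam i) else w i)
        else (if i ∈ K then w i ^ D.d (S.lam i) else w i)) =
        fun i => if i ∈ K then S.kap i * w i ^ D.d (S.lam i) else w i := by
      funext i
      split_ifs <;> rfl
    rw [hz]
    constructor
    · rintro ⟨⟨a1, a2, a3, a4⟩, a5⟩
      have hzm : (fun i => if i ∈ K then S.kap i * w i ^ D.d (S.lam i) else w i) = S.zm K w := by
        funext i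
        unfold Data.Str.zm
        by_cases hi : i ∈ K
        · rw [if_pos hi, if_pos hi]
        · rw [if_neg hi, if_neg hi]
          by_cases hi' : i ∈ S.A2 ∨ i ∈ S.Ab
          · rw [if_pos hi', a2 i hi hi']
          · rw [if_neg hi']
      rw [hzm]
      refine ⟨a3, a5, fun i hi => ?_, fun i hi => ?_⟩
      · have hiK : i ∉ K := fun h => Finset.disjoint_left.1 S.disj (hK h) hi
        unfold Data.Str.zm
        rw [if_neg hiK, if_pos (Or.inr hi)]
      · unfold Data.Str.zm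
        by_cases hiK : i ∈ K
        · rw [if_pos hiK]
          exact ⟨fun _ => mul_ne_zero (r3d_kap_ne S i hi) (pow_ne_zero _ (a1 i hiK)),
            fun _ => hiK⟩
        · rw [if_neg hiK, if_pos (Or.inl hi)]
          exact ⟨fun h => absurd h hiK, fun h => absurd rfl h⟩
    · rintro ⟨a3, a5, a6, a7⟩
      have h2 : ∀ i, i ∉ K → i ∈ S.A2 ∨ i ∈ S.Ab → w i = 0 := by
        intro i hiK hi
        rcases hi with hi | hi
        · have h := a7 i hi
          simp only [if_neg hiK] at h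
          by_contra h0
          exact hiK (h.2 h0)
        · have h := a6 i hi
          simpa only [if_neg hiK] using h
      have hzm : (fun i => if i ∈ K then S.kap i * w i ^ D.d (S.lam i) else w i) = S.zm K w := by
        funext i
        unfold Data.Str.zm
        by_cases hi : i ∈ K
        · rw [if_pos hi, if_pos hi]
        · rw [if_neg hi, if_neg hi]
          by_cases hi' : i ∈ S.A2 ∨ i ∈ S.Ab
          · rw [if_pos hi', h2 i hi hi']
          · rw [if_neg hi']
      rw [hzm] at a3 a5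
      refine ⟨⟨fun i hi h0 => ?_, h2, a3, ?_⟩, a5⟩
      · have h := (a7 i (hK hi)).1 hi
        simp only [if_pos hi] at h
        rw [h0, zero_pow (D.hd _).ne', mul_zero] at h
        exact h rfl
      · rw [a5]
        exact one_ne_zero
  have hPh : χ (cls P) = χ (cls (S.hset K)) := by
    refine congrArg χ (cls_iso hPc (constr_hset S K) ?_)
    refine ⟨fun y i => if i ∈ K then S.kap i * y i else y i,
      fun z i => if i ∈ K then (S.kap i)⁻¹ * z i else z i, ?_, ?_, ?_, ?_, ?_, ?_⟩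
    · intro i
      by_cases hi : i ∈ K
      · simpa only [if_pos hi] using (regFun_const P (S.kap i)).mul (regFun_coord P i)
      · simpa only [if_neg hi] using regFun_coord P i
    · intro i
      by_cases hi : i ∈ K
      · simpa only [if_pos hi] using
          (regFun_const (S.hset K) (S.kap i)⁻¹).mul (regFun_coord (S.hset K) i)
      · simpa only [if_neg hi] using regFun_coord (S.hset K) i
    · intro y hy
      exact hy
    · intro z hz
      have : (fun i => if i ∈ K then S.kap i * (if i ∈ K then (S.kap i)⁻¹ * z i else z i)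
          else (if i ∈ K then (S.kap i)⁻¹ * z i else z i)) = z := by
        funext i
        by_cases hi : i ∈ K
        · rw [if_pos hi, if_pos hi, ← mul_assoc, mul_inv_cancel₀ (r3d_kap_ne S i (hK hi)), one_mul]
        · rw [if_neg hi, if_neg hi]
      rw [hP]
      simp only [Set.mem_ofPred_eq]
      rw [this]
      exact hz
    · intro y _
      funext i
      by_cases hi : i ∈ K
      · simp only [if_pos hi]
        rw [← mul_assoc, inv_mul_cancel₀ (r3d_kap_ne S i (hK hi)), one_mul]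
      · simp only [if_neg hi]
    · intro z _
      funext i
      by_cases hi : i ∈ K
      · simp only [if_pos hi]
        rw [← mul_assoc, mul_inv_cancel₀ (r3d_kap_ne S i (hK hi)), one_mul]
      · simp only [if_neg hi]
  rw [hslice, hset2, hiter, hPh, hsum]

end MotMono.Mon
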