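import Pool.Agent.Lib.MP_4e5fcd_ag.Mon.R2
import Pool.Agent.Lib.MP_4e5fcd_ag.Mon.R3b
import Pool.Agent.Lib.MP_4e5fcd_ag.Mon.R3c
import Pool.Agent.Lib.MP_4e5fcd_ag.Mon.R3d

/-! # MON-R3e: the Lefschetz numbers -/

open MvPolynomial

namespace MotMono.Mon

variable {N s : ℕ} {D : Data N s} (S : D.Str)

theorem R3e_MK_pos (K : Finset (Fin s)) : 0 < S.MK K := by
  refine Nat.pos_of_ne_zero fun h => ?_
  unfold Data.Str.MK at h
  rw [Finset.lcm_eq_zero_iff] at h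
  obtain ⟨i, _, h1⟩ := h
  exact (D.hd (S.lam i)).ne' h1

theorem nK_pos (K : Finset (Fin s)) : 0 < S.nK K := by
  have h1 := Nat.mul_pos D.hm (R3e_MK_pos S K)
  unfold Data.Str.nK
  omega

theorem R3e_dvd_MK {K : Finset (Fin s)} {i : Fin s} (hi : i ∈ K) : D.d (S.lam i) ∣ S.MK K :=
  Finset.dvd_lcm hi

theorem R3e_b_zero {K : Finset (Fin s)} (hZ : S.Zb ⊆ K) {i : Fin s} (hi : i ∈ S.A2) (hK : i ∉ K) :
    D.b (S.lam i) = 0 := by
  by_contra h
  apply hK
  apply hZ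
  unfold Data.Str.Zb
  rw [Finset.mem_filter]
  exact ⟨hi, Nat.pos_of_ne_zero h⟩

/-- multiples of `MK` -/
theorem R3e_mul {K : Finset (Fin s)} (hZ : S.Zb ⊆ K) (t : ℕ) :
    D.m * (S.MK K * t) + ∑ i ∈ S.A2, D.b (S.lam i) * (S.MK K * t / D.d (S.lam i)) =
      t * S.nK K := by
  have h1 : ∑ i ∈ S.A2, D.b (S.lam i) * (S.MK K * t / D.d (S.lam i)) =
      t * ∑ i ∈ S.A2, D.b (S.lam i) * (S.MK K / D.d (S.lam i)) := by
    rw [Finset.mul_sum]
    refine Finset.sum_congr rfl fun i hi => ?_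
    by_cases hK : i ∈ K
    · obtain ⟨c, hc⟩ := R3e_dvd_MK S hK
      have hd := D.hd (S.lam i)
      rw [hc, Nat.mul_assoc, Nat.mul_div_cancel_left _ hd, Nat.mul_div_cancel_left _ hd]
      ring
    · rw [R3e_b_zero S hZ hi hK]
      simp
  rw [h1]
  unfold Data.Str.nK
  ring

theorem R3e_chi_MF (χ : K0 →+* ℤ) (hχ : IsEulerChar χ) (η : Fin s → ℂ)
    (hη : ∀ i ∈ S.A2, η i ≠ 0) (K : Finset (Fin s)) (hK : K ⊆ S.A2) (hZ : S.Zb ⊆ K) :
    χ (cls (S.MF η K)) = ((((∏ i ∈ K, D.d (S.lam i)) / S.MK K : ℕ) : ℤ) *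
        χ (cls (S.hset K))) * S.nK K := by
  have hM0 : 0 < ∏ i ∈ S.A2, D.d (S.lam i) := Finset.prod_pos fun i _ => D.hd _
  have h1 := chi_MF S χ hχ η hη K hK hZ (∏ i ∈ S.A2, D.d (S.lam i)) hM0
    fun i hi => Finset.dvd_prod_of_mem (fun i => D.d (S.lam i)) hi
  have hMK : S.MK K ∣ ∏ i ∈ S.A2, D.d (S.lam i) :=
    Finset.lcm_dvd fun i hi => Finset.dvd_prod_of_mem (fun i => D.d (S.lam i)) (hK hi)
  obtain ⟨t, ht⟩ := hMK
  have hMK' : S.MK K ∣ ∏ i ∈ K, D.d (S.lam i) :=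
    Finset.lcm_dvd fun i hi => Finset.dvd_prod_of_mem (fun i => D.d (S.lam i)) hi
  obtain ⟨P, hP⟩ := hMK'
  have hMKp := R3e_MK_pos S K
  have ht0 : 0 < t := by
    rcases Nat.eq_zero_or_pos t with h | h
    · rw [h, mul_zero] at ht
      omega
    · exact h
  rw [ht, R3e_mul S hZ t] at h1
  have hP' : (∏ i ∈ K, (D.d (S.lam i) : ℤ)) = (S.MK K : ℤ) * P := by
    rw [← Nat.cast_prod, hP, Nat.cast_mul]
  rw [hP, Nat.mul_div_cancel_left _ hMKp]
  rw [hP'] at h1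
  push_cast at h1
  have h2 : ((S.MK K : ℤ) * t) ≠ 0 := by positivity
  apply mul_left_cancel₀ h2
  rw [h1]
  ring

theorem chi_contact (χ : K0 →+* ℤ) (hχ : IsEulerChar χ) (η : Fin s → ℂ)
    (hη : ∀ i ∈ S.A2, η i ≠ 0) (d : ℕ) (hd : 0 < d) :
    χ (cls (S.CA η d)) = ∑ K ∈ S.A2.powerset.filter (fun K => S.Zb ⊆ K),
      if S.nK K ∣ d then ((((∏ i ∈ K, D.d (S.lam i)) / S.MK K : ℕ) : ℤ) *
        χ (cls (S.hset K))) * S.nK K else 0 := by
  classical
  rw [chi_CA S χ hχ η d, cls_CD S η hη d, map_sum]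
  rw [Finset.sum_congr rfl fun q _ => by rw [cls_Cz S η (d + 1) (Nat.succ_pos d) q.1 q.2]]
  rw [← Finset.sum_filter_add_sum_filter_not (S.Idx d)
    (fun q => ∀ i ∈ S.A2, q.1 i ≤ d → D.d (S.lam i) * q.1 i = q.2)]
  rw [Finset.sum_eq_zero (s := (S.Idx d).filter fun q =>
    ¬ ∀ i ∈ S.A2, q.1 i ≤ d → D.d (S.lam i) * q.1 i = q.2) (fun q hq => by
      rw [Finset.mem_filter] at hq
      obtain ⟨h1, h2⟩ := hq
      push Not at h2
      obtain ⟨i, hi, hid, hne⟩ := h2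
      exact chi_Cv_zero S χ hχ η hη d q h1 i hi hid hne), add_zero]
  rw [← Finset.sum_filter]
  -- properties of the index of a good piece
  have good : ∀ q ∈ S.Idx d, (∀ i ∈ S.A2, q.1 i ≤ d → D.d (S.lam i) * q.1 i = q.2) →
      S.Zb ⊆ S.A2.filter (fun i => q.1 i ≤ d) ∧
      S.nK (S.A2.filter fun i => q.1 i ≤ d) ∣ d ∧
      S.MK (S.A2.filter fun i => q.1 i ≤ d) *
        (d / S.nK (S.A2.filter fun i => q.1 i ≤ d)) = q.2 := by
    intro q hq hg
    rw [R3a_mem_Idx] at hq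
    obtain ⟨⟨hq1, hq2⟩, ⟨hℓ, hℓd⟩, hs⟩ := hq
    have hZ : S.Zb ⊆ S.A2.filter (fun i => q.1 i ≤ d) := by
      intro i hi
      unfold Data.Str.Zb at hi
      rw [Finset.mem_filter] at hi ⊢
      refine ⟨hi.1, ?_⟩
      have h1 : D.b (S.lam i) * q.1 i ≤ ∑ i ∈ S.A2, D.b (S.lam i) * q.1 i :=
        Finset.single_le_sum (f := fun i => D.b (S.lam i) * q.1 i) (fun _ _ => Nat.zero_le _) hi.1
      have h2 : 1 * q.1 i ≤ D.b (S.lam i) * q.1 i := Nat.mul_le_mul_right _ hi.2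
      omega
    have hMK : S.MK (S.A2.filter fun i => q.1 i ≤ d) ∣ q.2 := by
      refine Finset.lcm_dvd fun i hi => ?_
      rw [Finset.mem_filter] at hi
      exact ⟨q.1 i, (hg i hi.1 hi.2).symm⟩
    obtain ⟨r, hr⟩ := hMK
    have h3 := R3e_mul S hZ r
    have h4 : ∑ i ∈ S.A2, D.b (S.lam i) *
        (S.MK (S.A2.filter fun i => q.1 i ≤ d) * r / D.d (S.lam i)) =
        ∑ i ∈ S.A2, D.b (S.lam i) * q.1 i := by
      refine Finset.sum_congr rfl fun i hi => ?_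
      by_cases hid : q.1 i ≤ d
      · rw [← hr, ← hg i hi hid, Nat.mul_div_cancel_left _ (D.hd _)]
      · rw [R3e_b_zero S hZ hi (fun h => hid (Finset.mem_filter.1 h).2), zero_mul, zero_mul]
    rw [h4, ← hr] at h3
    have h5 : r * S.nK (S.A2.filter fun i => q.1 i ≤ d) = d := by omega
    refine ⟨hZ, ⟨r, by rw [mul_comm]; exact h5.symm⟩, ?_⟩
    have h6 : d / S.nK (S.A2.filter fun i => q.1 i ≤ d) = r :=
      Nat.div_eq_of_eq_mul_left (nK_pos S _) h5.symm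
    rw [h6, ← hr]
  refine Finset.sum_nbij'
    (i := fun q => S.A2.filter fun i => q.1 i ≤ d)
    (j := fun K => (fun i => if i ∈ S.A2 then
      (if i ∈ K then S.MK K * (d / S.nK K) / D.d (S.lam i) else d + 1) else 0,
        S.MK K * (d / S.nK K))) ?_ ?_ ?_ ?_ ?_
  · intro q hq
    rw [Finset.mem_filter] at hq
    obtain ⟨h1, h2, -⟩ := good q hq.1 hq.2
    simp only [Finset.mem_filter, Finset.mem_powerset]
    exact ⟨⟨Finset.filter_subset _ _, h1⟩, h2⟩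
  · intro K hK
    simp only [Finset.mem_filter, Finset.mem_powerset] at hK
    obtain ⟨⟨hKA, hZ⟩, hn⟩ := hK
    have hr0 : 0 < d / S.nK K := Nat.div_pos (Nat.le_of_dvd hd hn) (nK_pos S K)
    have hMK := R3e_MK_pos S K
    have hℓ0 : 0 < S.MK K * (d / S.nK K) := Nat.mul_pos hMK hr0
    have h3 := R3e_mul S hZ (d / S.nK K)
    rw [Nat.div_mul_cancel hn] at h3
    have hℓd : S.MK K * (d / S.nK K) ≤ d := by
      have h4 : 1 * (S.MK K * (d / S.nK K)) ≤ D.m * (S.MK K * (d / S.nK K)) :=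
        Nat.mul_le_mul_right _ D.hm
      omega
    have hdv : ∀ i ∈ K, D.d (S.lam i) ∣ S.MK K * (d / S.nK K) := fun i hi =>
      dvd_mul_of_dvd_left (R3e_dvd_MK S hi) _
    rw [Finset.mem_filter, R3a_mem_Idx]
    refine ⟨⟨⟨fun i hi => ?_, fun i hi => ?_⟩, ⟨hℓ0, hℓd⟩, ?_⟩, fun i hi hid => ?_⟩
    · simp only [if_pos hi]
      by_cases hiK : i ∈ K
      · rw [if_pos hiK]
        refine ⟨Nat.div_pos (Nat.le_of_dvd hℓ0 (hdv i hiK)) (D.hd _), ?_⟩
        have := Nat.div_le_self (S.MK K * (d / S.nK K)) (D.d (S.lam i))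
        omega
      · rw [if_neg hiK]
        omega
    · simp only [if_neg hi]
    · have h5 : ∑ i ∈ S.A2, D.b (S.lam i) * (if i ∈ S.A2 then
          (if i ∈ K then S.MK K * (d / S.nK K) / D.d (S.lam i) else d + 1) else 0) =
          ∑ i ∈ S.A2, D.b (S.lam i) * (S.MK K * (d / S.nK K) / D.d (S.lam i)) := by
        refine Finset.sum_congr rfl fun i hi => ?_
        rw [if_pos hi]
        by_cases hiK : i ∈ K
        · rw [if_pos hiK]
        · rw [R3e_b_zero S hZ hi hiK, zero_mul, zero_mul]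
      simp only
      rw [h5, add_comm]
      exact h3
    · simp only [if_pos hi] at hid ⊢
      by_cases hiK : i ∈ K
      · rw [if_pos hiK]
        exact Nat.mul_div_cancel' (hdv i hiK)
      · rw [if_neg hiK] at hid
        omega
  · intro q hq
    rw [Finset.mem_filter] at hq
    obtain ⟨h1, h2, h3⟩ := good q hq.1 hq.2
    have hI := (R3a_mem_Idx S d q).1 hq.1
    refine Prod.ext ?_ h3
    funext i
    simp only
    rw [h3]
    by_cases hi : i ∈ S.A2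
    · rw [if_pos hi]
      by_cases hid : q.1 i ≤ d
      · rw [if_pos (Finset.mem_filter.2 ⟨hi, hid⟩), ← hq.2 i hi hid,
          Nat.mul_div_cancel_left _ (D.hd _)]
      · have hnm : i ∉ S.A2.filter (fun i => q.1 i ≤ d) := fun h =>
          hid (Finset.mem_filter.1 h).2
        rw [if_neg hnm]
        have := (hI.1.1 i hi).2
        omega
    · rw [if_neg hi, hI.1.2 i hi]
  · intro K hK
    simp only [Finset.mem_filter, Finset.mem_powerset] at hK
    obtain ⟨⟨hKA, hZ⟩, hn⟩ := hK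
    have h3 := R3e_mul S hZ (d / S.nK K)
    rw [Nat.div_mul_cancel hn] at h3
    have hℓd : S.MK K * (d / S.nK K) ≤ d := by
      have h4 : 1 * (S.MK K * (d / S.nK K)) ≤ D.m * (S.MK K * (d / S.nK K)) :=
        Nat.mul_le_mul_right _ D.hm
      omega
    ext i
    rw [Finset.mem_filter]
    constructor
    · rintro ⟨hi, hid⟩
      by_contra hiK
      simp only [if_pos hi, if_neg hiK] at hid
      omega
    · intro hiK
      refine ⟨hKA hiK, ?_⟩
      simp only [if_pos (hKA hiK), if_pos hiK]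
      have := Nat.div_le_self (S.MK K * (d / S.nK K)) (D.d (S.lam i))
      omega
  · intro q hq
    rw [Finset.mem_filter] at hq
    obtain ⟨h1, -, -⟩ := good q hq.1 hq.2
    rw [chi_Cv_main S χ hχ η hη d q hq.1 hq.2]
    exact R3e_chi_MF S χ hχ η hη _ (Finset.filter_subset _ _) h1

end MotMono.Mon
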