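import Pool.Agent.Lib.MP_4e5fcd_ag.Mon.R3d
import Pool.Agent.Lib.MP_4e5fcd_ag.H1
import Pool.Agent.Lib.MP_4e5fcd_ag.H2

/-! # MON-R4b: from the strata to the complements of arrangements -/

open MvPolynomial

namespace MotMono.Mon

variable {N s : ℕ} {D : Data N s} (S : D.Str)

theorem r4b_mem_Uab (z : Fin s → ℂ) (haz : S.a ⬝ᵥ z = 1) :
    z ∈ D.Uab S.x S.Ab ↔ z - (S.a ⬝ᵥ z) • S.x ∈ D.W ∧ ∀ i ∈ S.Ab, z i = 0 := by
  unfold Data.Uab
  rw [Submodule.mem_inf]
  have h1 : z ∈ cV S.Ab ↔ ∀ i ∈ S.Ab, z i = 0 := Iff.rfl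
  rw [h1]
  refine and_congr_left fun _ => ?_
  rw [Submodule.mem_sup]
  constructor
  · rintro ⟨w, hw, y, hy, rfl⟩
    obtain ⟨c, rfl⟩ := Submodule.mem_span_singleton.1 hy
    have h2 : S.a ⬝ᵥ (w + c • S.x) = c := by
      rw [dotProduct_add, S.a_ann w hw, zero_add, dotProduct_smul, S.ax, smul_eq_mul, mul_one]
    rw [h2, add_sub_cancel_right]
    exact hw
  · intro h
    refine ⟨z - (S.a ⬝ᵥ z) • S.x, h, (S.a ⬝ᵥ z) • S.x, ?_, by simp⟩
    exact Submodule.smul_mem _ _ (Submodule.mem_span_singleton_self _)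

theorem sum_hset (χ : K0 →+* ℤ) (hχ : IsEulerChar χ) (K₀ : Finset (Fin s)) (hK₀ : K₀ ⊆ S.A2) :
    ∑ K ∈ S.A2.powerset.filter (fun K => K₀ ⊆ K), χ (cls (S.hset K)) =
      -h2t (rk (D.Uab S.x S.Ab) (lamO S.a)) (Finset.insertNone K₀) := by
  classical
  unfold h2t
  rw [← chi_Bset χ hχ (D.Uab S.x S.Ab) (lamO S.a) (Finset.insertNone K₀) none
    (Finset.none_mem_insertNone),
    ← map_sum, ← cls_biUnion _ (fun K _ => constr_hset S K)]
  · congr 2
    ext v
    simp only [Set.mem_iUnion, exists_prop]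
    have hlam : ∀ j : Fin s, lamO S.a (some j) ⬝ᵥ v = v j := by
      intro j
      show (Pi.single j (1:ℂ) : Fin s → ℂ) ⬝ᵥ v = v j
      rw [single_dotProduct, one_mul]
    have hlam0 : lamO S.a none ⬝ᵥ v = S.a ⬝ᵥ v := rfl
    constructor
    · rintro ⟨K, hK, h1, h2, h3, h4⟩
      rw [Finset.mem_filter, Finset.mem_powerset] at hK
      refine ⟨(r4b_mem_Uab S v h2).2 ⟨h1, h3⟩, hlam0.trans h2, fun o ho => ?_⟩
      rcases o with _ | j
      · rw [hlam0, h2]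
        exact one_ne_zero
      · rw [Finset.some_mem_insertNone] at ho
        rw [hlam]
        exact (h4 j (hK₀ ho)).1 (hK.2 ho)
    · rintro ⟨h1, h2, h3⟩
      rw [hlam0] at h2
      obtain ⟨h4, h5⟩ := (r4b_mem_Uab S v h2).1 h1
      refine ⟨S.A2.filter fun j => v j ≠ 0, ?_, h4, h2, h5, ?_⟩
      · rw [Finset.mem_filter, Finset.mem_powerset]
        refine ⟨Finset.filter_subset _ _, fun j hj => ?_⟩
        rw [Finset.mem_filter]
        refine ⟨hK₀ hj, ?_⟩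
        have h6 := h3 (some j) (Finset.some_mem_insertNone.2 hj)
        rwa [hlam] at h6
      · intro j hj
        rw [Finset.mem_filter]
        exact ⟨fun h => h.2, fun h => ⟨hj, h⟩⟩
  · intro K hK K' hK' hne
    rw [Finset.mem_filter, Finset.mem_powerset] at hK hK'
    rw [Set.disjoint_left]
    rintro v ⟨-, -, -, h3⟩ ⟨-, -, -, h3'⟩
    apply hne
    ext j
    constructor
    · intro hj
      exact (h3' j (hK.1 hj)).2 ((h3 j (hK.1 hj)).1 hj)
    · intro hj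
      exact (h3 j (hK'.1 hj)).2 ((h3' j (hK'.1 hj)).1 hj)

end MotMono.Mon
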