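import Pool.Agent.Lib.MP_4e5fcd_ag.Mon.R4a
import Pool.Agent.Lib.MP_4e5fcd_ag.Mon.R4b
import Pool.Agent.Lib.MP_4e5fcd_ag.Mon.R3e

/-! # MON-R4: the multiplicity of an eigenvalue -/

open MvPolynomial

namespace MotMono.Mon

variable {N s : ℕ} {D : Data N s} (S : D.Str)

theorem r4_chars {s : ℕ} (dd : Fin s → ℕ) (hdd : ∀ i, 0 < dd i) (K Z : Finset (Fin s))
    (hK : K ⊆ Z) (x : ℚ) :
    chars dd K x = (chars dd Z x).filter (fun k => supp k ⊆ K) := by
  ext k
  rw [Finset.mem_filter, mem_chars dd hdd, mem_chars dd hdd]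
  constructor
  · rintro ⟨h1, h2, h3⟩
    refine ⟨⟨?_, fun j hj => h2 j fun h => hj (hK h), h3⟩, ?_⟩
    · intro j hj
      by_cases h : j ∈ K
      · exact h1 j h
      · rw [h2 j h]
        exact hdd j
    · intro j hj
      rw [supp, Finset.mem_filter] at hj
      by_contra h
      exact hj.2 (h2 j h)
  · rintro ⟨⟨h1, h2, h3⟩, h4⟩
    refine ⟨fun j hj => h1 j (hK hj), fun j hj => ?_, h3⟩
    by_contra h
    apply hj
    apply h4
    rw [supp, Finset.mem_filter]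
    exact ⟨Finset.mem_univ _, h⟩

theorem r4_nK (K : Finset (Fin s)) (hK : K ⊆ S.A2) (hZ : S.Zb ⊆ K) :
    (S.nK K : ℚ) = (D.m + ∑ i ∈ S.A2, (D.b (S.lam i) : ℚ) / D.d (S.lam i)) * S.MK K := by
  unfold Data.Str.nK
  push_cast
  rw [add_mul, Finset.sum_mul]
  congr 1
  refine Finset.sum_congr rfl fun i hi => ?_
  rcases Nat.eq_zero_or_pos (D.b (S.lam i)) with hb | hb
  · rw [hb]
    simp
  · have hiK : i ∈ K := hZ (by
      rw [Data.Str.Zb, Finset.mem_filter]
      exact ⟨hi, hb⟩)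
    have h1 : D.d (S.lam i) ∣ S.MK K := Finset.dvd_lcm (f := fun i => D.d (S.lam i)) hiK
    have hd : (D.d (S.lam i) : ℚ) ≠ 0 := by exact_mod_cast (D.hd _).ne'
    rw [Nat.cast_div h1 hd]
    field_simp

open Classical in
theorem mult_eq (χ : K0 →+* ℤ) (hχ : IsEulerChar χ) (s₀ : ℚ) :
    ∑ K ∈ S.A2.powerset.filter (fun K => S.Zb ⊆ K),
      (if ∃ z : ℤ, s₀ * S.nK K = z then
        (((∏ i ∈ K, D.d (S.lam i)) / S.MK K : ℕ) : ℤ) * χ (cls (S.hset K)) else 0) =
      -∑ k ∈ chars (fun i => D.d (S.lam i)) S.A2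
          (s₀ * (D.m + ∑ i ∈ S.A2, (D.b (S.lam i) : ℚ) / D.d (S.lam i))),
        h2t (rk (D.Uab S.x S.Ab) (lamO S.a)) (Finset.insertNone (supp k ∪ S.Zb)) := by
  have hdd : ∀ i, 0 < (fun i => D.d (S.lam i)) i := fun i => D.hd _
  set x : ℚ := s₀ * (D.m + ∑ i ∈ S.A2, (D.b (S.lam i) : ℚ) / D.d (S.lam i)) with hx
  have hstep : ∀ K ∈ S.A2.powerset.filter (fun K => S.Zb ⊆ K),
      (if ∃ z : ℤ, s₀ * S.nK K = z then
        (((∏ i ∈ K, D.d (S.lam i)) / S.MK K : ℕ) : ℤ) * χ (cls (S.hset K)) else 0) =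
      ∑ k ∈ chars (fun i => D.d (S.lam i)) S.A2 x,
        if supp k ⊆ K then χ (cls (S.hset K)) else 0 := by
    intro K hK
    rw [Finset.mem_filter, Finset.mem_powerset] at hK
    have h1 : s₀ * S.nK K = x * (K.lcm (fun i => D.d (S.lam i)) : ℕ) := by
      rw [r4_nK S K hK.1 hK.2, hx]
      unfold Data.Str.MK
      ring
    have h4 := card_chars (fun i => D.d (S.lam i)) hdd K x
    rw [← Finset.sum_filter, ← r4_chars _ hdd K S.A2 hK.1, Finset.sum_const, h4, h1, nsmul_eq_mul]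
    unfold Data.Str.MK
    split_ifs
    · rfl
    · simp
  rw [Finset.sum_congr rfl hstep, Finset.sum_comm, ← Finset.sum_neg_distrib]
  refine Finset.sum_congr rfl fun k hk => ?_
  rw [← Finset.sum_filter, Finset.filter_filter]
  have hsub : supp k ∪ S.Zb ⊆ S.A2 := by
    apply Finset.union_subset _ (Finset.filter_subset _ _)
    intro j hj
    rw [supp, Finset.mem_filter] at hj
    by_contra h
    exact hj.2 (((mem_chars _ hdd _ _ _).1 hk).2.1 j h)
  rw [← sum_hset S χ hχ _ hsub]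
  refine Finset.sum_congr ?_ fun _ _ => rfl
  ext K
  rw [Finset.mem_filter, Finset.mem_filter, Finset.union_subset_iff, and_comm (a := S.Zb ⊆ K)]

end MotMono.Mon
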