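import Pool.Agent.Lib.MP_4e5fcd_ag.Mon.R1
import Pool.Agent.Lib.MP_4e5fcd_ag.Mon.R4
import Pool.Agent.Lib.MP_4e5fcd_ag.Kum.E11

/-! # MON-R5: the monodromy zeta function at a stratum -/

open MvPolynomial

namespace MotMono.Mon

variable {N s : ℕ} {D : Data N s} (S : D.Str)

theorem r5_exp_pow (s₀ : ℚ) (n : ℕ) :
    Complex.exp (2 * Real.pi * Complex.I * s₀) ^ n = 1 ↔ ∃ z : ℤ, s₀ * n = z := by
  rw [← Complex.exp_nat_mul, Complex.exp_eq_one_iff]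
  have hpi : (2 * (Real.pi : ℂ) * Complex.I) ≠ 0 := Complex.two_pi_I_ne_zero
  constructor
  · rintro ⟨z, hz⟩
    refine ⟨z, ?_⟩
    have h1 : ((s₀ : ℂ) * n) * (2 * (Real.pi : ℂ) * Complex.I) =
        (z : ℂ) * (2 * (Real.pi : ℂ) * Complex.I) := by
      rw [← hz]; ring
    have h2 := mul_right_cancel₀ hpi h1
    exact_mod_cast h2
  · rintro ⟨z, hz⟩
    refine ⟨z, ?_⟩
    have h1 : (s₀ : ℂ) * n = z := by exact_mod_cast hz
    rw [← h1]; ring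

theorem zeta_of_str (s₀ : ℚ)
    (hne : ∑ k ∈ chars (fun i => D.d (S.lam i)) S.A2
          (s₀ * (D.m + ∑ i ∈ S.A2, (D.b (S.lam i) : ℚ) / D.d (S.lam i))),
        h2t (rk (D.Uab S.x S.Ab) (lamO S.a)) (Finset.insertNone (supp k ∪ S.Zb)) ≠ 0) :
    ∃ y : ConePoint D.I S.p, y.Nonzero ∧ ∀ χ : K0 →+* ℤ, IsEulerChar χ →
      ∃ Z, IsZeta (fun d => χ (cls (contactArcs D.I S.p y d))) Z ∧
        ZeroOrPole Z (Complex.exp (2 * Real.pi * Complex.I * s₀)) := by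
  classical
  obtain ⟨y, η, hy, hη, hC⟩ := exists_cone S
  refine ⟨y, hy, fun χ hχ => ?_⟩
  refine Kum.exists_zeta_prod (S.A2.powerset.filter (fun K => S.Zb ⊆ K)) (fun K => S.nK K)
    (fun K => (((∏ i ∈ K, D.d (S.lam i)) / S.MK K : ℕ) : ℤ) * χ (cls (S.hset K)))
    (fun K _ => nK_pos S K) _ ?_ _ ?_
  · intro d hd
    rw [hC d, chi_contact S χ hχ η (fun i hi => (hη i hi).1) d hd]
  · have h6 : -∑ k ∈ chars (fun i => D.d (S.lam i)) S.A2
          (s₀ * (D.m + ∑ i ∈ S.A2, (D.b (S.lam i) : ℚ) / D.d (S.lam i))),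
        h2t (rk (D.Uab S.x S.Ab) (lamO S.a)) (Finset.insertNone (supp k ∪ S.Zb)) ≠ 0 :=
      neg_ne_zero.2 hne
    rw [← mult_eq S χ hχ s₀, ← Finset.sum_filter] at h6
    convert h6 using 2
    refine Finset.filter_congr fun K _ => ?_
    exact r5_exp_pow s₀ _

end MotMono.Mon
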