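import Pool.Agent.Lib.MP_4e5fcd_ag.Mon.RDefs

/-! # MON-R7a: points with given values of the monomials -/

open MvPolynomial

namespace MotMono.Mon

variable {N s : ℕ} (D : Data N s)

theorem exists_p (pv : Fin s → Fin N) (hpv : ∀ i, D.β (pv i) = i) (Z : Finset (Fin N))
    (hZ : ∀ l ∈ Z, pv (D.β l) ∈ Z) (ε : ℝ) (hε : 0 < ε) :
    ∃ δ : ℝ, 0 < δ ∧ ∀ q : Fin s → ℂ, ‖q‖ < δ → (∀ l ∈ Z, q (D.β l) = 0) →
      ∃ p : Fin N → ℂ, ‖p‖ < ε ∧ (∀ l ∈ Z, p l = 0) ∧ (∀ l, l ∉ Z → l ≠ pv (D.β l) → p l ≠ 0) ∧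
        ∀ i, ∏ l ∈ D.B i, p l ^ D.d l = q i := by
  classical
  obtain ⟨e, he, he1, heε⟩ : ∃ e : ℝ, 0 < e ∧ e ≤ 1 ∧ e < ε := by
    refine ⟨min ε 1 / 2, by positivity, ?_, ?_⟩
    · linarith [min_le_right ε 1]
    · linarith [min_le_left ε 1]
  refine ⟨e ^ ∑ l, D.d l, pow_pos he _, fun q hq hqZ => ?_⟩
  have hpvB : ∀ i, pv i ∈ D.B i := fun i => Finset.mem_filter.2 ⟨Finset.mem_univ _, hpv i⟩
  have hc0 : ∀ i, (∏ l ∈ (D.B i).erase (pv i), (e : ℂ) ^ D.d l) ≠ 0 := fun i =>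
    Finset.prod_ne_zero_iff.2 fun l _ => pow_ne_zero _ (by exact_mod_cast he.ne')
  have hx : ∀ i, ∃ x : ℂ, x ^ D.d (pv i) * ∏ l ∈ (D.B i).erase (pv i), (e : ℂ) ^ D.d l = q i := by
    intro i
    obtain ⟨x, hx⟩ := IsAlgClosed.exists_pow_nat_eq
      (q i / ∏ l ∈ (D.B i).erase (pv i), (e : ℂ) ^ D.d l) (D.hd (pv i))
    exact ⟨x, by rw [hx, div_mul_cancel₀ _ (hc0 i)]⟩
  choose x hx using hx
  have hxn : ∀ i, ‖x i‖ < e := by
    intro i
    have h1 := congrArg norm (hx i)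
    rw [norm_mul, norm_pow, norm_prod] at h1
    have h2 : ∏ l ∈ (D.B i).erase (pv i), ‖(e : ℂ) ^ D.d l‖ =
        e ^ ∑ l ∈ (D.B i).erase (pv i), D.d l := by
      rw [← Finset.prod_pow_eq_pow_sum]
      refine Finset.prod_congr rfl fun l _ => ?_
      rw [norm_pow, Complex.norm_real, Real.norm_of_nonneg he.le]
    rw [h2] at h1
    have h3 : ‖q i‖ < e ^ ∑ l, D.d l := lt_of_le_of_lt (norm_le_pi_norm q i) hq
    have h4 : D.d (pv i) + ∑ l ∈ (D.B i).erase (pv i), D.d l ≤ ∑ l, D.d l := by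
      rw [Finset.add_sum_erase _ _ (hpvB i)]
      exact Finset.sum_le_sum_of_subset (Finset.subset_univ _)
    have h5 : e ^ ∑ l, D.d l ≤ e ^ D.d (pv i) * e ^ ∑ l ∈ (D.B i).erase (pv i), D.d l := by
      rw [← pow_add]
      exact pow_le_pow_of_le_one he.le he1 h4
    have h6 : ‖x i‖ ^ D.d (pv i) * e ^ ∑ l ∈ (D.B i).erase (pv i), D.d l <
        e ^ D.d (pv i) * e ^ ∑ l ∈ (D.B i).erase (pv i), D.d l := by
      rw [h1]
      exact lt_of_lt_of_le h3 h5
    exact lt_of_pow_lt_pow_left₀ _ he.le (lt_of_mul_lt_mul_right h6 (pow_pos he _).le)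
  refine ⟨fun l => if l ∈ Z then 0 else if l = pv (D.β l) then x (D.β l) else (e : ℂ), ?_, ?_,
    ?_, ?_⟩
  · rw [pi_norm_lt_iff hε]
    intro l
    by_cases hl : l ∈ Z
    · simp only [hl, if_true, norm_zero]
      exact hε
    · by_cases hl' : l = pv (D.β l)
      · have h1 : (if l ∈ Z then (0 : ℂ) else if l = pv (D.β l) then x (D.β l) else (e : ℂ)) =
            x (D.β l) := by rw [if_neg hl, if_pos hl']
        change ‖(if l ∈ Z then (0 : ℂ) else if l = pv (D.β l) then x (D.β l) else (e : ℂ))‖ < ε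
        rw [h1]
        exact (hxn _).trans heε
      · change ‖(if l ∈ Z then (0 : ℂ) else if l = pv (D.β l) then x (D.β l) else (e : ℂ))‖ < ε
        rw [if_neg hl, if_neg hl', Complex.norm_real, Real.norm_of_nonneg he.le]
        exact heε
  · intro l hl
    exact if_pos hl
  · intro l hl hl'
    change (if l ∈ Z then (0 : ℂ) else if l = pv (D.β l) then x (D.β l) else (e : ℂ)) ≠ 0
    rw [if_neg hl, if_neg hl']
    exact_mod_cast he.ne'
  · intro i
    rw [← Finset.mul_prod_erase _ _ (hpvB i)]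
    by_cases hi : pv i ∈ Z
    · have h1 : q i = 0 := by
        have := hqZ _ hi
        rwa [hpv] at this
      simp only [hi, if_true]
      rw [zero_pow (D.hd (pv i)).ne', zero_mul, h1]
    · have h1 : (if pv i ∈ Z then (0 : ℂ) else
          if pv i = pv (D.β (pv i)) then x (D.β (pv i)) else (e : ℂ)) = x i := by
        rw [if_neg hi, if_pos (by rw [hpv]), hpv]
      have h2 : ∏ l ∈ (D.B i).erase (pv i), (if l ∈ Z then (0 : ℂ) else
          if l = pv (D.β l) then x (D.β l) else (e : ℂ)) ^ D.d l =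
          ∏ l ∈ (D.B i).erase (pv i), (e : ℂ) ^ D.d l := by
        refine Finset.prod_congr rfl fun l hl => ?_
        rw [Finset.mem_erase] at hl
        have hβ : D.β l = i := (Finset.mem_filter.1 hl.2).2
        have hlZ : l ∉ Z := by
          intro h
          have := hZ l h
          rw [hβ] at this
          exact hi this
        rw [if_neg hlZ, if_neg (by rw [hβ]; exact hl.1)]
      change (if pv i ∈ Z then (0 : ℂ) else
          if pv i = pv (D.β (pv i)) then x (D.β (pv i)) else (e : ℂ)) ^ D.d (pv i) *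
        ∏ l ∈ (D.B i).erase (pv i), (if l ∈ Z then (0 : ℂ) else
          if l = pv (D.β l) then x (D.β l) else (e : ℂ)) ^ D.d l = q i
      rw [h1, h2, hx]

end MotMono.Mon
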