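import Pool.Agent.Lib.MP_4e5fcd_ag.Mon.RDefs
import Pool.Agent.Lib.MP_4e5fcd_ag.H2
import Pool.Agent.Lib.MP_4e5fcd_ag.H3

/-! # MON-R6b: deletion and contraction, and consequences of a nonzero invariant -/

open MvPolynomial

namespace MotMono.Mon

variable {N s : ℕ} (D : Data N s)

theorem rk_H2Rk (U : Submodule ℂ (Fin s → ℂ)) (a : Fin s → ℂ) : H2Rk (rk U (lamO a)) :=
  ⟨h3_rk_empty U _, fun A B h => h3_rk_mono U _ A B h, fun A j => h3_rk_step U _ A j,
    fun A B => h3_rk_sub U _ A B⟩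

theorem R6b_mem_KK_insert (a : Fin s → ℂ) (i : Fin s) (R : Finset (Option (Fin s)))
    (z : Fin s → ℂ) : z ∈ KK (lamO a) (insert (some i) R) ↔ z i = 0 ∧ z ∈ KK (lamO a) R := by
  have e : lamO a (some i) ⬝ᵥ z = z i := by
    show (Pi.single i 1 : Fin s → ℂ) ⬝ᵥ z = z i
    rw [single_dotProduct, one_mul]
  constructor
  · intro h
    refine ⟨?_, fun j hj => h j (Finset.mem_insert_of_mem hj)⟩
    have := h (some i) (Finset.mem_insert_self _ _)
    rwa [e] at this
  · rintro ⟨h1, h2⟩ j hj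
    rw [Finset.mem_insert] at hj
    rcases hj with rfl | hj
    · rw [e]; exact h1
    · exact h2 j hj

theorem R6b_inf (x a : Fin s → ℂ) (Ab : Finset (Fin s)) (i : Fin s)
    (R : Finset (Option (Fin s))) :
    (D.Uab x Ab ⊓ KK (lamO a) (insert (some i) R) : Submodule ℂ (Fin s → ℂ)) =
      D.Uab x (insert i Ab) ⊓ KK (lamO a) R := by
  ext z
  rw [Submodule.mem_inf, Submodule.mem_inf, R6b_mem_KK_insert]
  unfold Data.Uab
  rw [Submodule.mem_inf, Submodule.mem_inf]
  have : z ∈ cV (insert i Ab) ↔ z i = 0 ∧ z ∈ cV Ab := by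
    constructor
    · intro h
      exact ⟨h i (Finset.mem_insert_self _ _), fun j hj => h j (Finset.mem_insert_of_mem hj)⟩
    · rintro ⟨h1, h2⟩ j hj
      rw [Finset.mem_insert] at hj
      rcases hj with rfl | hj
      · exact h1
      · exact h2 j hj
  rw [this]
  tauto

/-- contraction of a coordinate -/
theorem h2c_rk_eq (x a : Fin s → ℂ) (Ab : Finset (Fin s)) (i : Fin s) :
    h2c (rk (D.Uab x Ab) (lamO a)) (some i) = rk (D.Uab x (insert i Ab)) (lamO a) := by
  funext R
  have h1 := R6b_inf D x a Ab i R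
  have h2 := R6b_inf D x a Ab i ∅
  rw [h3_KK_empty, inf_top_eq] at h2
  have h3 : ({some i} : Finset (Option (Fin s))) = insert (some i) ∅ := rfl
  have h4 : Module.finrank ℂ (D.Uab x (insert i Ab) ⊓ KK (lamO a) R : Submodule ℂ (Fin s → ℂ)) ≤
      Module.finrank ℂ (D.Uab x (insert i Ab)) := Submodule.finrank_mono inf_le_left
  have h5 : Module.finrank ℂ (D.Uab x (insert i Ab)) ≤ Module.finrank ℂ (D.Uab x Ab) := by
    rw [← h2]
    exact Submodule.finrank_mono inf_le_left
  unfold h2c rk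
  rw [h3, h1, h2]
  omega

theorem R6b_contr (x a : Fin s → ℂ) (A₀ A' : Finset (Fin s)) : ∀ Cc : Finset (Fin s),
    Disjoint A₀ A' →
    h2t (rk (D.Uab x Cc) (lamO a)) (Finset.insertNone (A₀ ∪ A')) ≠ 0 →
    ∃ Ab ⊆ A', h2t (rk (D.Uab x (Cc ∪ Ab)) (lamO a)) (Finset.insertNone A₀) ≠ 0 := by
  induction A' using Finset.induction_on with
  | empty =>
    intro Cc _ h
    refine ⟨∅, Finset.Subset.refl _, ?_⟩
    rwa [Finset.union_empty] at h ⊢
  | insert i A'' hi ih =>
    intro Cc hd h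
    rw [Finset.disjoint_insert_right] at hd
    have e1 : Finset.insertNone (A₀ ∪ insert i A'') =
        insert (some i) (Finset.insertNone (A₀ ∪ A'')) := by
      ext o
      cases o with
      | none => simp
      | some j => simp
    have e2 : some i ∉ Finset.insertNone (A₀ ∪ A'') := by
      simp [hd.1, hi]
    have e3 : (Finset.insertNone (A₀ ∪ A'')).Nonempty := ⟨none, by simp⟩
    rw [e1, h2t_insert (rk_H2Rk _ a) e2 e3, h2c_rk_eq] at h
    by_cases h1 : h2t (rk (D.Uab x Cc) (lamO a)) (Finset.insertNone (A₀ ∪ A'')) = 0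
    · rw [h1, zero_sub, neg_ne_zero] at h
      obtain ⟨Ab, hAb, h2⟩ := ih (insert i Cc) hd.2 h
      refine ⟨insert i Ab, Finset.insert_subset_insert i hAb, ?_⟩
      rwa [Finset.union_insert, ← Finset.insert_union]
    · obtain ⟨Ab, hAb, h2⟩ := ih Cc hd.2 h1
      exact ⟨Ab, hAb.trans (Finset.subset_insert _ _), h2⟩

/-- for each coordinate in `A'`: delete it or contract it -/
theorem exists_contr (x a : Fin s → ℂ) (A₀ A' : Finset (Fin s)) (hd : Disjoint A₀ A')
    (h : h2t (rk (D.Uab x ∅) (lamO a)) (Finset.insertNone (A₀ ∪ A')) ≠ 0) :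
    ∃ Ab ⊆ A', h2t (rk (D.Uab x Ab) (lamO a)) (Finset.insertNone A₀) ≠ 0 := by
  obtain ⟨Ab, hAb, h1⟩ := R6b_contr D x a A₀ A' ∅ hd h
  rw [Finset.empty_union] at h1
  exact ⟨Ab, hAb, h1⟩

/-- a nonzero invariant implies that there are no loops -/
theorem no_loop (r : Finset (Option (Fin s)) → ℕ) (hr : H2Rk r) (T : Finset (Option (Fin s)))
    (h : h2t r T ≠ 0) (j : Option (Fin s)) (hj : j ∈ T) : r {j} = 1 := by
  have h1 : r {j} ≤ 1 := by
    have := hr.step ∅ j
    rw [hr.zero] at this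
    simpa using this
  by_contra hne
  have h0 : r {j} = 0 := by omega
  have h2 : ∀ R, r (insert j R) = r R := by
    intro R
    have h3 := hr.sub {j} R
    rw [← Finset.insert_eq] at h3
    have h4 := hr.mono R (insert j R) (Finset.subset_insert _ _)
    omega
  apply h
  rw [← Finset.insert_erase hj, h2t, Finset.sum_powerset_insert (Finset.notMem_erase j T),
    ← Finset.sum_add_distrib]
  refine Finset.sum_eq_zero fun R hR => ?_
  have hjR : j ∉ R := fun h' => Finset.notMem_erase j T (Finset.mem_powerset.1 hR h')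
  rw [h2, Finset.card_insert_of_notMem hjR, pow_succ]
  ring

end MotMono.Mon
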