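import Pool.Agent.Lib.MP_4e5fcd_ag.Mon.R6a
import Pool.Agent.Lib.MP_4e5fcd_ag.Mon.R6b

/-! # MON-R7b: the coefficient vectors of the base point and of the direction -/

open MvPolynomial

namespace MotMono.Mon

variable {N s : ℕ} (D : Data N s)

theorem R7b_sup {x x' : Fin s → ℂ} {w : Fin s → ℂ} (hw : w ∈ D.W) (h : x' = w + x) :
    D.W ⊔ Submodule.span ℂ {x'} ≤ D.W ⊔ Submodule.span ℂ {x} := by
  refine sup_le le_sup_left ?_
  rw [Submodule.span_singleton_le_iff_mem, h]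
  exact Submodule.add_mem_sup hw (Submodule.mem_span_singleton_self x)

theorem R7b_decomp {x a v : Fin s → ℂ} (ha : a ∈ D.ann) (hax : a ⬝ᵥ x = 1)
    (hv : v ∈ D.W ⊔ Submodule.span ℂ {x}) : ∃ w ∈ D.W, v = w + (a ⬝ᵥ v) • x := by
  obtain ⟨w, hw, y, hy, hwy⟩ := Submodule.mem_sup.mp hv
  obtain ⟨c, rfl⟩ := Submodule.mem_span_singleton.mp hy
  refine ⟨w, hw, ?_⟩
  have h1 : a ⬝ᵥ w = 0 := ha w hw
  rw [← hwy, dotProduct_add, h1, dotProduct_smul, hax, zero_add, smul_eq_mul, mul_one]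

/-- the subspace does not depend on the direction -/
theorem Uab_eq (x x' a : Fin s → ℂ) (Ab : Finset (Fin s)) (ha : a ∈ D.ann) (hax : a ⬝ᵥ x = 1)
    (hx' : x' ∈ D.Uab x Ab) (hax' : a ⬝ᵥ x' = 1) : D.Uab x' Ab = D.Uab x Ab := by
  obtain ⟨w, hw, h⟩ := R7b_decomp D ha hax hx'.1
  rw [hax', one_smul] at h
  unfold Data.Uab
  refine congrArg (fun U => U ⊓ cV Ab) (le_antisymm (R7b_sup D hw h) ?_)
  refine R7b_sup D (D.W.neg_mem hw) ?_
  rw [h]
  abel

theorem R7b_dot (a v : Fin s → ℂ) (i : Fin s) : lamO a (some i) ⬝ᵥ v = v i := by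
  change Pi.single i 1 ⬝ᵥ v = v i
  rw [single_dotProduct, one_mul]

theorem inf_KK (x a : Fin s → ℂ) (A2 Ab : Finset (Fin s)) (ha : a ∈ D.ann) (hax : a ⬝ᵥ x = 1) :
    D.Uab x Ab ⊓ KK (lamO a) (Finset.insertNone A2) = D.VW (A2 ∪ Ab) := by
  ext v
  constructor
  · rintro ⟨⟨h1, h2⟩, h3⟩
    have h4 : a ⬝ᵥ v = 0 := h3 none (Finset.none_mem_insertNone)
    obtain ⟨w, hw, h⟩ := R7b_decomp D ha hax h1
    rw [h4, zero_smul, add_zero] at h
    refine ⟨h ▸ hw, fun i hi => ?_⟩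
    rcases Finset.mem_union.mp hi with hi | hi
    · rw [← R7b_dot a v i]
      exact h3 (some i) (Finset.some_mem_insertNone.mpr hi)
    · exact h2 i hi
  · rintro ⟨h1, h2⟩
    refine ⟨⟨Submodule.mem_sup_left h1, fun i hi => h2 i (Finset.mem_union_right _ hi)⟩, ?_⟩
    rintro (_ | i) hi
    · exact ha v h1
    · rw [R7b_dot]
      exact h2 i (Finset.mem_union_left _ (Finset.some_mem_insertNone.mp hi))

/-- a direction in `Uab` with nonzero coordinates -/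
theorem exists_x (x a : Fin s → ℂ) (ha : a ∈ D.ann) (A₀ Ab : Finset (Fin s))
    (h : ∀ j ∈ Finset.insertNone A₀, rk (D.Uab x Ab) (lamO a) {j} = 1) :
    ∃ x' ∈ D.Uab x Ab, a ⬝ᵥ x' = 1 ∧ ∀ i ∈ A₀, x' i ≠ 0 := by
  obtain ⟨v, hv, hv'⟩ := exists_avoid (Finset.insertNone A₀) (D.Uab x Ab)
    (fun j => KK (lamO a) {j}) (fun j hj hle => by
      have h1 := h j hj
      rw [rk, inf_eq_left.mpr hle, Nat.sub_self] at h1
      exact zero_ne_one h1)
  have hne : ∀ j ∈ Finset.insertNone A₀, lamO a j ⬝ᵥ v ≠ 0 := by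
    intro j hj h0
    refine hv' j hj ?_
    intro k hk
    rw [Finset.mem_singleton.mp hk]
    exact h0
  have hc : a ⬝ᵥ v ≠ 0 := hne none Finset.none_mem_insertNone
  refine ⟨(a ⬝ᵥ v)⁻¹ • v, Submodule.smul_mem _ _ hv, ?_, fun i hi => ?_⟩
  · rw [dotProduct_smul, smul_eq_mul, inv_mul_cancel₀ hc]
  · have h1 := hne (some i) (Finset.some_mem_insertNone.mpr hi)
    rw [R7b_dot] at h1
    rw [Pi.smul_apply, smul_eq_mul]
    exact mul_ne_zero (inv_ne_zero hc) h1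

/-- the values of the monomials at the base point -/
theorem exists_q (A A₀ A2 Ab : Finset (Fin s)) (hA : D.Cl A) (h2 : A2 ⊆ A) (hb : Ab ⊆ A)
    (x a : Fin s → ℂ) (ha : a ∈ D.ann) (hax : a ⬝ᵥ x = 1)
    (hr : ∀ i ∈ A₀, i ∉ A2 → rk (D.Uab x Ab) (lamO a) (insert (some i) (Finset.insertNone A2)) ≠
      rk (D.Uab x Ab) (lamO a) (Finset.insertNone A2)) (δ : ℝ) (hδ : 0 < δ) :
    ∃ q ∈ D.VW (A2 ∪ Ab), ‖q‖ < δ ∧ (∀ i ∈ A₀, i ∉ A2 → q i ≠ 0) ∧
      ∀ i, i ∉ A → ¬ D.Free i → q i ≠ 0 := by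
  classical
  obtain ⟨v, hv, hv'⟩ := exists_avoid
    ((A₀ \ A2) ∪ Finset.univ.filter fun i => i ∉ A ∧ ¬ D.Free i) (D.VW (A2 ∪ Ab))
    (fun i => cV {i}) (by
      intro i hi hle
      rcases Finset.mem_union.mp hi with hi | hi
      · rw [Finset.mem_sdiff] at hi
        refine hr i hi.1 hi.2 ?_
        rw [← inf_KK D x a A2 Ab ha hax] at hle
        have h1 : D.Uab x Ab ⊓ KK (lamO a) (insert (some i) (Finset.insertNone A2)) =
            D.Uab x Ab ⊓ KK (lamO a) (Finset.insertNone A2) := by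
          refine le_antisymm (inf_le_inf_left _ (h3_KK_anti _ (Finset.subset_insert _ _))) ?_
          intro u hu
          refine ⟨hu.1, fun j hj => ?_⟩
          rcases Finset.mem_insert.mp hj with rfl | hj
          · rw [R7b_dot]
            exact hle hu i (Finset.mem_singleton_self i)
          · exact hu.2 j hj
        unfold rk
        rw [h1]
      · rw [Finset.mem_filter] at hi
        refine hi.2.1 (hA i hi.2.2 (le_trans ?_ hle))
        refine inf_le_inf_left _ fun u hu j hj => hu j ?_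
        exact (Finset.union_subset h2 hb) hj)
  have hn : 0 < ‖v‖ + 1 := by positivity
  set c : ℂ := ((δ / (‖v‖ + 1) / 2 : ℝ) : ℂ) with hc
  have hcpos : 0 < δ / (‖v‖ + 1) / 2 := by positivity
  have hc0 : c ≠ 0 := by
    rw [hc]
    exact_mod_cast hcpos.ne'
  have hne : ∀ i ∈ (A₀ \ A2) ∪ Finset.univ.filter fun i => i ∉ A ∧ ¬ D.Free i,
      (c • v) i ≠ 0 := by
    intro i hi h0
    rw [Pi.smul_apply, smul_eq_mul] at h0
    refine hv' i hi fun j hj => ?_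
    rw [Finset.mem_singleton.mp hj]
    exact (mul_eq_zero.mp h0).resolve_left hc0
  refine ⟨c • v, Submodule.smul_mem _ _ hv, ?_, fun i hi hi2 => hne i ?_, fun i hi hi2 => hne i ?_⟩
  · rw [norm_smul, hc, Complex.norm_real, Real.norm_of_nonneg hcpos.le]
    have h1 : δ / (‖v‖ + 1) * (‖v‖ + 1) = δ := div_mul_cancel₀ δ hn.ne'
    have h3 : 0 < δ / (‖v‖ + 1) := by positivity
    nlinarith [norm_nonneg v]
  · exact Finset.mem_union_left _ (Finset.mem_sdiff.mpr ⟨hi, hi2⟩)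
  · exact Finset.mem_union_right _ (Finset.mem_filter.mpr ⟨Finset.mem_univ _, hi, hi2⟩)

end MotMono.Mon
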