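import Pool.Agent.Lib.MP_4e5fcd_ag.Mon.R6c
import Pool.Agent.Lib.MP_4e5fcd_ag.Mon.R7a
import Pool.Agent.Lib.MP_4e5fcd_ag.Mon.R7b
import Pool.Agent.Lib.MP_4e5fcd_ag.Mon.H2

/-! # MON-R7: the stratum which belongs to a pole -/

open MvPolynomial

namespace MotMono.Mon

variable {N s : ℕ} (D : Data N s)

/-- a block with a variable with `d = 1`, `b = 0` is free -/
theorem R7_free (l : Fin N) (h1 : D.d l = 1) (h2 : D.b l = 0) : D.Free (D.β l) := by
  have hne : (Finset.univ.filter fun l' : Fin N =>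
      D.β l' = D.β l ∧ (D.d l' = 1 ∧ D.b l' = 0)).Nonempty :=
    ⟨l, Finset.mem_filter.2 ⟨Finset.mem_univ _, rfl, h1, h2⟩⟩
  obtain ⟨l₀, hl₀, hmin⟩ := Finset.exists_min_image _ (fun l' : Fin N => l') hne
  obtain ⟨-, hβ, hdb⟩ := Finset.mem_filter.1 hl₀
  refine ⟨l₀, ?_, hβ⟩
  unfold Data.fr
  refine Finset.mem_filter.2 ⟨Finset.mem_univ _, hdb, fun l' hl' hβ' hc => ?_⟩
  have h3 := hmin l' (Finset.mem_filter.2 ⟨Finset.mem_univ _, hβ'.trans hβ, hc⟩)
  exact absurd hl' (not_lt.2 h3)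

/-- the pivot of a free block is a free variable -/
theorem R7_piv (i : Fin s) (h : D.Free i) : D.piv i ∈ D.fr := by
  have h' : ∃ l ∈ D.fr, D.β l = i := h
  unfold Data.piv
  rw [dif_pos h']
  exact h'.choose_spec.1

/-- the integrality condition -/
theorem R7_int (A A' : Finset (Fin s)) (hA' : A' ⊆ A) (lam : Fin s → Fin N)
    (h1 : ∀ i ∈ A', D.d (lam i) = 1) (s₀ : ℚ) (hs : s₀ * D.mult A lam = -D.theta A lam) :
    ∃ z : ℤ, ∑ i ∈ A \ A', (1 - 1 / ((D.d (lam i) : ℕ) : ℚ)) - s₀ * D.mult A lam = z := by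
  refine ⟨(s : ℤ) - Module.finrank ℂ (D.VW A), ?_⟩
  rw [hs]
  unfold Data.theta
  have h2 : ∑ i ∈ A, 1 / ((D.d (lam i) : ℕ) : ℚ) = ∑ i ∈ A \ A', 1 / ((D.d (lam i) : ℕ) : ℚ) +
      (A'.card : ℚ) := by
    rw [← Finset.sum_sdiff hA']
    congr 1
    rw [Finset.sum_congr rfl (fun i hi => by rw [h1 i hi, Nat.cast_one, div_one]),
      Finset.sum_const, nsmul_eq_mul, mul_one]
  have h3 : ((A \ A').card : ℚ) + (A'.card : ℚ) = (A.card : ℚ) := by
    rw [← Finset.card_sdiff_add_card_eq_card hA']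
    push_cast
    ring
  rw [h2, Finset.sum_sub_distrib, Finset.sum_const, nsmul_eq_mul, mul_one]
  push_cast
  linarith

theorem exists_str (A : Finset (Fin s)) (lam : Fin s → Fin N) (hCl : D.Cl A) (hCn : D.Cn A)
    (hlam : D.Choice A lam) (s₀ : ℚ) (hs : s₀ * D.mult A lam = -D.theta A lam) (ε : ℝ)
    (hε : 0 < ε) :
    ∃ S : D.Str, ‖S.p‖ < ε ∧ ∑ k ∈ chars (fun i => D.d (S.lam i)) S.A2
          (s₀ * (D.m + ∑ i ∈ S.A2, (D.b (S.lam i) : ℚ) / D.d (S.lam i))),
        h2t (rk (D.Uab S.x S.Ab) (lamO S.a)) (Finset.insertNone (supp k ∪ S.Zb)) ≠ 0 := by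
  classical
  obtain ⟨x, a, ha, hax, hx⟩ := exists_dir D A hCn
  have h0 := h2t_ne_of_dir D A x a ha hax hx
  set A' : Finset (Fin s) := A.filter (fun i => D.d (lam i) = 1 ∧ D.b (lam i) = 0) with hA'
  have hA'A : A' ⊆ A := Finset.filter_subset _ _
  set A₀ : Finset (Fin s) := A \ A' with hA₀
  have hA₀A : A₀ ⊆ A := Finset.sdiff_subset
  have hdis : Disjoint A₀ A' := Finset.sdiff_disjoint
  have hun : A₀ ∪ A' = A := Finset.sdiff_union_of_subset hA'A
  have hA'm : ∀ i ∈ A', i ∈ A ∧ D.d (lam i) = 1 ∧ D.b (lam i) = 0 := fun i hi =>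
    Finset.mem_filter.1 hi
  have hA₀m : ∀ i ∈ A₀, i ∈ A ∧ ¬ (D.d (lam i) = 1 ∧ D.b (lam i) = 0) := fun i hi => by
    obtain ⟨h1, h2⟩ := Finset.mem_sdiff.1 hi
    exact ⟨h1, fun h3 => h2 (Finset.mem_filter.2 ⟨h1, h3⟩)⟩
  rw [← hun] at h0
  obtain ⟨Ab, hAb, h4⟩ := exists_contr D x a A₀ A' hdis h0
  set r := rk (D.Uab x Ab) (lamO a) with hr
  have hrk : H2Rk r := rk_H2Rk _ _
  have hloop : ∀ j ∈ Finset.insertNone A₀, r {j} = 1 := fun j hj =>
    no_loop r hrk _ h4 j hj
  obtain ⟨x', hx'U, hax', hx'ne⟩ := exists_x D x a ha A₀ Ab hloop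
  have hUeq := Uab_eq D x x' a Ab ha hax hx'U hax'
  have hint := R7_int D A A' hA'A lam (fun i hi => (hA'm i hi).2.1) s₀ hs
  obtain ⟨A2, hA2, hbb, hrne, hsum⟩ := exists_min (fun i => D.d (lam i)) (fun i => D.b (lam i))
    (fun i => D.hd _) A₀ (fun i hi => by
      have h5 := (hA₀m i hi).2
      have h6 := D.hd (lam i)
      show 1 < D.d (lam i) ∨ 0 < D.b (lam i)
      by_contra hcon
      push Not at hcon
      exact h5 ⟨by omega, by omega⟩) r hrk h4 (s₀ * D.mult A lam) hint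
  have hA2A : A2 ⊆ A := hA2.trans hA₀A
  have hAbA : Ab ⊆ A := hAb.trans hA'A
  have hdis2 : Disjoint A2 Ab := Finset.disjoint_of_subset_left hA2 (Finset.disjoint_of_subset_right hAb hdis)
  -- the pivots and the vanishing coordinates
  set pv : Fin s → Fin N := fun i => if i ∈ A2 ∪ Ab then lam i else D.piv i with hpv
  have hpvβ : ∀ i, D.β (pv i) = i := by
    intro i
    simp only [hpv]
    split_ifs with h5
    · exact (hlam i (Finset.union_subset hA2A hAbA h5)).1
    · exact piv_spec D i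
  set Z : Finset (Fin N) := (A2 ∪ Ab).image lam ∪ Ab.image D.piv with hZ
  have hZm : ∀ l, l ∈ Z → D.β l ∈ A2 ∪ Ab ∧ (l = lam (D.β l) ∨ (D.β l ∈ Ab ∧ l = D.piv (D.β l))) := by
    intro l hl
    rcases Finset.mem_union.1 hl with h5 | h5
    · obtain ⟨i, hi, rfl⟩ := Finset.mem_image.1 h5
      have h6 := (hlam i (Finset.union_subset hA2A hAbA hi)).1
      rw [h6]
      exact ⟨hi, Or.inl rfl⟩
    · obtain ⟨i, hi, rfl⟩ := Finset.mem_image.1 h5
      have h6 := piv_spec D i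
      rw [h6]
      exact ⟨Finset.mem_union_right _ hi, Or.inr ⟨hi, rfl⟩⟩
  have hZlam : ∀ i ∈ A2 ∪ Ab, lam i ∈ Z := fun i hi =>
    Finset.mem_union_left _ (Finset.mem_image_of_mem _ hi)
  have hZpiv : ∀ i ∈ Ab, D.piv i ∈ Z := fun i hi =>
    Finset.mem_union_right _ (Finset.mem_image_of_mem _ hi)
  have hZpv : ∀ l ∈ Z, pv (D.β l) ∈ Z := by
    intro l hl
    have h5 := (hZm l hl).1
    simp only [hpv, if_pos h5]
    exact hZlam _ h5
  obtain ⟨δ, hδ, hp⟩ := exists_p D pv hpvβ Z hZpv ε hε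
  obtain ⟨q, hqV, hqδ, hq1, hq2⟩ := exists_q D A A₀ A2 Ab hCl hA2A hAbA x a ha hax hrne δ hδ
  have hq0 : ∀ i ∈ A2 ∪ Ab, q i = 0 := hqV.2
  obtain ⟨p, hpε, hpZ, hpne, hpq⟩ := hp q hqδ (fun l hl => hq0 _ (hZm l hl).1)
  have hfree : ∀ i ∈ A', D.Free i := fun i hi => by
    have h5 := hA'm i hi
    have h6 := R7_free D (lam i) h5.2.1 h5.2.2
    rwa [(hlam i h5.1).1] at h6
  let S : D.Str :=
    { A2 := A2
      Ab := Ab
      lam := lam
      lam' := D.piv
      pv := pv
      p := p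
      x := x'
      a := a
      disj := hdis2
      pv_block := hpvβ
      pv_lam := fun i hi => by
        simp only [hpv, if_pos (Finset.mem_union_left Ab hi)]
      p_lam := fun i hi => hpZ _ (hZlam i (Finset.mem_union_left _ hi))
      p_ne := fun l hl hl2 => by
        refine hpne l (fun hlZ => ?_) hl2
        obtain ⟨h5, h6⟩ := hZm l hlZ
        rcases h6 with h6 | h6
        · apply hl2
          simp only [hpv, if_pos h5]
          exact h6
        · exact hl h6.1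
      p_smooth := fun i hi1 hi2 => by
        have h5 : i ∉ A2 ∪ Ab := fun h6 => (Finset.mem_union.1 h6).elim hi1 hi2
        have h6 : pv i = D.piv i := by simp only [hpv, if_neg h5]
        rw [h6]
        by_cases hf : D.Free i
        · right
          exact (fr_spec D _ (R7_piv D i hf)).2
        · left
          have hqi : q i ≠ 0 := by
            by_cases hiA : i ∈ A
            · by_cases hiA' : i ∈ A'
              · exact absurd (hfree i hiA') hf
              · exact hq1 i (Finset.mem_sdiff.2 ⟨hiA, hiA'⟩) hi1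
            · exact hq2 i hiA hf
          intro hp0
          apply hqi
          rw [← hpq i]
          refine Finset.prod_eq_zero (i := D.piv i) ?_ ?_
          · exact Finset.mem_filter.2 ⟨Finset.mem_univ _, piv_spec D i⟩
          · rw [hp0, zero_pow (D.hd _).ne']
      deep1 := fun i hi => by
        have h5 := hA'm i (hAb hi)
        exact ⟨(hlam i h5.1).1, h5.2.1, h5.2.2, hpZ _ (hZlam i (Finset.mem_union_right _ hi))⟩
      deep2 := fun i hi => by
        have h5 := fr_spec D _ (R7_piv D i (hfree i (hAb hi)))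
        exact ⟨piv_spec D i, h5.2.1, h5.2.2, hpZ _ (hZpiv i hi)⟩
      deep_ne := fun i hi h5 => by
        have h6 := R7_piv D i (hfree i (hAb hi))
        rw [← h5] at h6
        exact (hlam i (hAbA hi)).2 h6
      deep_p := fun l hl h5 h6 => by
        refine hpne l (fun hlZ => ?_) ?_
        · rcases (hZm l hlZ).2 with h7 | h7
          · exact h5 h7
          · exact h6 h7.2
        · simp only [hpv, if_pos (Finset.mem_union_right A2 hl)]
          exact h5
      p_W := by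
        have h5 : (fun i => ∏ l ∈ D.B i, p l ^ D.d l) = q := funext hpq
        rw [h5]
        exact hqV.1
      a_ann := ha
      ax := hax'
      x_Ab := fun i hi => hx'U.2 i hi
      x_A2 := fun i hi => hx'ne i (hA2 hi) }
  refine ⟨S, hpε, ?_⟩
  have hmult : s₀ * ((D.m : ℚ) + ∑ i ∈ A2, (D.b (lam i) : ℚ) / D.d (lam i)) = s₀ * D.mult A lam := by
    unfold Data.mult
    congr 2
    refine Finset.sum_subset hA2A fun i hiA hi2 => ?_
    have hb0 : D.b (lam i) = 0 := by
      by_cases hiA' : i ∈ A'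
      · exact (hA'm i hiA').2.2
      · by_contra hb
        exact hi2 (hbb i (Finset.mem_sdiff.2 ⟨hiA, hiA'⟩) (Nat.pos_of_ne_zero hb))
    rw [hb0, Nat.cast_zero, zero_div]
  show ∑ k ∈ chars (fun i => D.d (lam i)) A2
          (s₀ * (D.m + ∑ i ∈ A2, (D.b (lam i) : ℚ) / D.d (lam i))),
        h2t (rk (D.Uab x' Ab) (lamO a)) (Finset.insertNone (supp k ∪ A2.filter fun i => 0 < D.b (lam i))) ≠ 0
  rw [hmult, hUeq]
  exact hsum

end MotMono.Mon
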