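import Pool.Agent.Lib.MP_4e5fcd_ag.Mon.R8
import Pool.Agent.Lib.MP_4e5fcd_ag.Kum.E11
import Pool.Agent.Lib.MP_4e5fcd_ag.Kum.E3b

/-! # MON-R8b: the pole `-1 / b_l` -/

open MvPolynomial

namespace MotMono.Mon

variable {N s : ℕ} (D : Data N s)

/-- the class of an affine hyperplane `v_l = 1` -/
theorem R8b_hyper (χ : K0 →+* ℤ) (hχ : IsEulerChar χ) (l : Fin N) :
    Constr {v : Fin N → ℂ | v l = 1} ∧ χ (cls {v : Fin N → ℂ | v l = 1}) = 1 := by
  classical
  have h1 : Constr {v : Fin N → ℂ | v l = 1} := by
    have := constr_eq (X l : MvPolynomial (Fin N) ℂ) 1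
    simpa using this
  refine ⟨h1, ?_⟩
  have h2 : RegIso {v : Fin N → ℂ | v l = 1} ((cV {l} : Submodule ℂ (Fin N → ℂ)) : Set (Fin N → ℂ)) := by
    apply RegIso.linear LinearMap.id LinearMap.id (-Pi.single l 1) (Pi.single l 1)
    · intro x hx i hi
      have hx' : x l = 1 := hx
      rw [Finset.mem_singleton] at hi
      subst hi
      simp [hx']
    · intro y hy
      have hy' : y l = 0 := hy l (Finset.mem_singleton_self l)
      change (LinearMap.id y + Pi.single l 1 : Fin N → ℂ) l = 1
      simp [hy']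
    · intro x _
      simp
    · intro y _
      simp
  rw [cls_iso h1 (constr_submodule _) h2, cls_submodule, map_pow, hχ.line, one_pow]

theorem R8b_roots (χ : K0 →+* ℤ) (hχ : IsEulerChar χ) (l : Fin N) (b : ℕ) (hb : 0 < b) :
    Constr {v : Fin N → ℂ | v l ^ b = 1} ∧ χ (cls {v : Fin N → ℂ | v l ^ b = 1}) = b := by
  classical
  obtain ⟨h1, h2⟩ := R8b_hyper χ hχ l
  have h3 : Constr {v : Fin N → ℂ | v l ^ b = 1} := by
    have := constr_eq (X l ^ b : MvPolynomial (Fin N) ℂ) 1
    simpa using this
  refine ⟨h3, ?_⟩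
  have h4 := Kum.chi_kummer_iter χ hχ {v : Fin N → ℂ | v l = 1} h1 (fun _ => b) (fun _ => hb) {l} (by
    intro y hy j hj
    rw [Finset.mem_singleton] at hj
    have hy' : y l = 1 := hy
    rw [hj, hy']
    exact one_ne_zero)
  rw [h2, mul_one, Finset.prod_singleton] at h4
  rw [← h4]
  congr 2
  ext v
  simp

theorem chi_simple (χ : K0 →+* ℤ) (hχ : IsEulerChar χ) (l : Fin N) (b : ℕ) (hb : 0 < b)
    (p : Fin N → ℂ) (hpl : p l = 0) (d : ℕ) (hd : 0 < d) :
    χ (cls {γ : Fin N × Fin (d + 1) → ℂ | (∀ l', γ (l', 0) = p l') ∧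
        b * ord1 (fun j => γ (l, j)) = d ∧ lead1 (fun j => γ (l, j)) ^ b = 1}) =
      if b ∣ d then (b : ℤ) else 0 := by
  classical
  by_cases hbd : b ∣ d
  · rw [if_pos hbd]
    obtain ⟨o, ho⟩ := hbd
    have ho0 : 0 < o := by
      rcases Nat.eq_zero_or_pos o with h | h
      · rw [h, mul_zero] at ho
        omega
      · exact h
    have hod : o ≤ d := by rw [ho]; exact Nat.le_mul_of_pos_left o hb
    set G : Fin (d + 1) → Set (Fin N → ℂ) := fun j =>
      if (j : ℕ) = 0 then {p} else if (j : ℕ) < o then ((cV {l} : Submodule ℂ (Fin N → ℂ)) : Set _)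
      else if (j : ℕ) = o then {v | v l ^ b = 1} else Set.univ with hG
    have hGc : ∀ j, Constr (G j) ∧ χ (cls (G j)) = if (j : ℕ) = o then (b : ℤ) else 1 := by
      intro j
      by_cases h1 : (j : ℕ) = 0
      · have h2 : G j = {p} := by simp only [hG, if_pos h1]
        rw [h2, cls_singleton, map_one, if_neg (by omega)]
        exact ⟨constr_singleton p, rfl⟩
      · by_cases h2 : (j : ℕ) < o
        · have h3 : G j = ((cV {l} : Submodule ℂ (Fin N → ℂ)) : Set _) := by
            simp only [hG, if_neg h1, if_pos h2]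
          rw [h3, cls_submodule, map_pow, hχ.line, one_pow, if_neg (by omega)]
          exact ⟨constr_submodule _, rfl⟩
        · by_cases h3 : (j : ℕ) = o
          · have h4 : G j = {v | v l ^ b = 1} := by
              simp only [hG, if_neg h1, if_neg h2, if_pos h3]
            rw [h4, if_pos h3]
            exact R8b_roots χ hχ l b hb
          · have h4 : G j = Set.univ := by
              simp only [hG, if_neg h1, if_neg h2, if_neg h3]
            rw [h4, cls_univ, map_pow, hχ.line, one_pow, if_neg h3]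
            exact ⟨constr_univ, rfl⟩
    have hset : {γ : Fin N × Fin (d + 1) → ℂ | (∀ l', γ (l', 0) = p l') ∧
        b * ord1 (fun j => γ (l, j)) = d ∧ lead1 (fun j => γ (l, j)) ^ b = 1} =
        {γ : Fin N × Fin (d + 1) → ℂ | ∀ j, (fun i => γ (i, j)) ∈ G j} := by
      ext γ
      simp only [Set.mem_ofPred_eq]
      constructor
      · rintro ⟨h0, h1, h2⟩ j
        have ho1 : ord1 (fun j => γ (l, j)) = o := by
          exact Nat.eq_of_mul_eq_mul_left hb (h1.trans ho)
        have h3 := (ord1_eq_iff (fun j => γ (l, j)) o (by omega)).mp ho1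
        have hlead : lead1 (fun j => γ (l, j)) = γ (l, ⟨o, by omega⟩) := by
          unfold lead1
          rw [dif_pos (by rw [ho1]; omega)]
          congr 2
        simp only [hG]
        split_ifs with c1 c2 c3
        · have hj : j = 0 := Fin.ext c1
          rw [hj]
          exact funext h0
        · intro i hi
          rw [Finset.mem_singleton] at hi
          rw [hi]
          exact h3.1 j c2
        · have hj : j = ⟨o, by omega⟩ := Fin.ext c3
          rw [hj]
          change γ (l, ⟨o, _⟩) ^ b = 1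
          rw [← hlead]
          exact h2
        · exact Set.mem_univ _
      · intro h
        have h0 : ∀ l', γ (l', 0) = p l' := by
          intro l'
          have h1 := h 0
          simp only [hG] at h1
          rw [if_pos (by simp)] at h1
          exact congrFun h1 l'
        have h1 : γ (l, ⟨o, by omega⟩) ^ b = 1 := by
          have h2 := h ⟨o, by omega⟩
          simp only [hG] at h2
          rw [if_neg (by omega), if_neg (by omega)] at h2
          simp only [if_true] at h2
          exact h2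
        have ho1 : ord1 (fun j => γ (l, j)) = o := by
          rw [ord1_eq_iff _ o (by omega)]
          constructor
          · intro j hj
            by_cases c1 : (j : ℕ) = 0
            · have hj0 : j = 0 := Fin.ext c1
              rw [hj0, h0, hpl]
            · have h2 := h j
              simp only [hG, if_neg c1, if_pos hj] at h2
              exact h2 l (Finset.mem_singleton_self l)
          · intro h' h2
            have h3 : γ (l, ⟨o, by omega⟩) = 0 := h2
            rw [h3, zero_pow hb.ne'] at h1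
            exact zero_ne_one h1
        refine ⟨h0, by rw [ho1, ho], ?_⟩
        have hlead : lead1 (fun j => γ (l, j)) = γ (l, ⟨o, by omega⟩) := by
          unfold lead1
          rw [dif_pos (by rw [ho1]; omega)]
          congr 2
        rw [hlead]
        exact h1
    rw [hset, cls_levels fun j => (hGc j).1, map_prod]
    rw [Finset.prod_congr rfl fun j _ => (hGc j).2]
    rw [Finset.prod_eq_single (⟨o, by omega⟩ : Fin (d + 1))]
    · simp
    · intro j _ hj
      rw [if_neg]
      intro h
      exact hj (Fin.ext h)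
    · intro h
      exact absurd (Finset.mem_univ _) h
  · rw [if_neg hbd]
    have hset : {γ : Fin N × Fin (d + 1) → ℂ | (∀ l', γ (l', 0) = p l') ∧
        b * ord1 (fun j => γ (l, j)) = d ∧ lead1 (fun j => γ (l, j)) ^ b = 1} = ∅ := by
      rw [Set.eq_empty_iff_forall_notMem]
      rintro γ ⟨_, h1, _⟩
      exact hbd ⟨_, h1.symm⟩
    rw [hset, cls_empty, map_zero]

theorem main_simple (l : Fin N) (hb : 0 < D.b l) (hW : ¬ cV {D.β l} ≤ D.W) (ε : ℝ)
    (hε : 0 < ε) :
    ∃ p : Fin N → ℂ, ‖p‖ < ε ∧ (∀ f ∈ D.I, eval p f = 0) ∧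
      ∃ y : ConePoint D.I p, y.Nonzero ∧ ∀ χ : K0 →+* ℤ, IsEulerChar χ →
        ∃ Z, IsZeta (fun d => χ (cls (contactArcs D.I p y d))) Z ∧
          ZeroOrPole Z (Complex.exp (2 * Real.pi * Complex.I * ((-1 / (D.b l : ℚ) : ℚ) : ℂ))) := by
  classical
  obtain ⟨p, hp1, hp2, hp3, hp4⟩ := exists_pt_simple D l hW ε hε
  obtain ⟨h1, y, hy, hcon⟩ := exists_cone_simple D l hb p hp2 hp3 hp4
  refine ⟨p, hp1, h1, y, hy, fun χ hχ => ?_⟩
  set α : ℂ := Complex.exp (2 * Real.pi * Complex.I * ((-1 / (D.b l : ℚ) : ℚ) : ℂ)) with hα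
  have hαb : α ^ D.b l = 1 := by
    rw [hα, ← Complex.exp_nat_mul]
    have hbC : ((D.b l : ℕ) : ℂ) ≠ 0 := by exact_mod_cast hb.ne'
    have h2 : ((D.b l : ℕ) : ℂ) * (2 * Real.pi * Complex.I * ((-1 / (D.b l : ℚ) : ℚ) : ℂ)) =
        ((-1 : ℤ) : ℂ) * (2 * Real.pi * Complex.I) := by
      push_cast
      field_simp
    rw [h2, Complex.exp_int_mul_two_pi_mul_I]
  apply Kum.exists_zeta_prod ({()} : Finset Unit) (fun _ => D.b l) (fun _ => 1) (fun _ _ => hb)
  · intro d hd
    rw [hcon d, chi_simple χ hχ l (D.b l) hb p hp2 d hd, Finset.sum_singleton, one_mul]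
  · rw [Finset.filter_true_of_mem fun _ _ => hαb, Finset.sum_singleton]
    exact one_ne_zero

end MotMono.Mon
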