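import Pool.Agent.Lib.MP_4e5fcd_ag.Mon.G0

/-! # MON-R9: principal monomial ideals -/

open MvPolynomial

namespace MotMono.Mon

variable {N s : ℕ} (D : Data N s)

theorem R9_pull (β : Fin N → Fin s) (d : Fin N → ℕ) (i : Fin s) :
    pullIdeal β d (cV {i}) = Ideal.span {blockMon β d i} := by
  classical
  apply le_antisymm
  · rw [pullIdeal, Ideal.span_le]
    rintro f ⟨a, rfl, ha⟩
    have h0 : ∀ j, j ≠ i → a j = 0 := by
      intro j hj
      have h1 := ha (Pi.single j 1) (by
        intro k hk
        rw [Finset.mem_singleton] at hk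
        subst hk
        exact Pi.single_eq_of_ne (Ne.symm hj) 1)
      simpa [Pi.single_apply] using h1
    have h2 : ∑ k, C (a k) * blockMon β d k = C (a i) * blockMon β d i := by
      apply Finset.sum_eq_single i
      · intro j _ hj
        rw [h0 j hj, C_0, zero_mul]
      · intro h
        exact absurd (Finset.mem_univ i) h
    rw [h2]
    exact Ideal.mul_mem_left _ _ (Ideal.mem_span_singleton_self _)
  · rw [Ideal.span_singleton_le_iff_mem]
    apply Ideal.subset_span
    refine ⟨Pi.single i 1, ?_, ?_⟩
    · rw [Finset.sum_eq_single i]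
      · rw [Pi.single_eq_same, C_1, one_mul]
      · intro j _ hj
        rw [Pi.single_eq_of_ne hj, C_0, zero_mul]
      · intro h
        exact absurd (Finset.mem_univ i) h
    · intro w hw
      rw [Finset.sum_eq_single i]
      · rw [Pi.single_eq_same, one_mul]
        exact hw i (Finset.mem_singleton_self i)
      · intro j _ hj
        rw [Pi.single_eq_of_ne hj, zero_mul]
      · intro h
        exact absurd (Finset.mem_univ i) h

theorem R9_mon (β : Fin N → Fin s) (d b : Fin N → ℕ) (i : Fin s) (m : ℕ) :
    monIdeal β d b (cV {i}) m =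
      Ideal.span {∏ l, (X l : MvPolynomial (Fin N) ℂ) ^ (b l + if β l = i then d l * m else 0)} := by
  classical
  rw [monIdeal, R9_pull, Ideal.span_singleton_pow, Ideal.span_singleton_mul_span_singleton]
  congr 2
  rw [blockMon, ← Finset.prod_pow, Finset.prod_filter, ← Finset.prod_mul_distrib]
  apply Finset.prod_congr rfl
  intro l _
  split_ifs with h
  · rw [pow_add, pow_mul]
  · rw [mul_one, add_zero]

/-- other data for the same ideal -/
theorem exists_good : ∃ (s' : ℕ) (D' : Data N s'), D'.I = D.I ∧
    ∀ l, 0 < D'.b l → ¬ cV {D'.β l} ≤ D'.W := by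
  classical
  by_cases hgood : ∀ l, 0 < D.b l → ¬ cV {D.β l} ≤ D.W
  · exact ⟨s, D, rfl, hgood⟩
  push Not at hgood
  obtain ⟨l₀, hl₀, hle⟩ := hgood
  -- `W = cV {β l₀}`
  have hW : D.W = cV {D.β l₀} := by
    refine le_antisymm ?_ hle
    by_contra hne
    apply D.hW
    rw [SetLike.not_le_iff_exists] at hne
    obtain ⟨w, hw, hw'⟩ := hne
    have hwi : w (D.β l₀) ≠ 0 := by
      intro h0
      apply hw'
      intro i hi
      rw [Finset.mem_singleton] at hi
      rw [hi, h0]
    rw [eq_top_iff]
    intro z _
    have h1 : z - (z (D.β l₀) / w (D.β l₀)) • w ∈ D.W := by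
      apply hle
      intro i hi
      rw [Finset.mem_singleton] at hi
      rw [hi, Pi.sub_apply, Pi.smul_apply, smul_eq_mul, div_mul_cancel₀ _ hwi, sub_self]
    have h2 := D.W.add_mem h1 (D.W.smul_mem (z (D.β l₀) / w (D.β l₀)) hw)
    rwa [sub_add_cancel] at h2
  refine ⟨N, {
    β := id
    d := fun _ => 1
    b := fun l => if l = l₀ then 0 else D.b l + if D.β l = D.β l₀ then D.d l * D.m else 0
    W := cV {l₀}
    m := D.b l₀ + D.d l₀ * D.m
    hβ := Function.surjective_id
    hd := fun _ => one_pos
    hW := ?_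
    hm := by omega }, ?_, ?_⟩
  · intro h
    have h1 : (Pi.single l₀ 1 : Fin N → ℂ) ∈ cV {l₀} := by rw [h]; exact Submodule.mem_top
    have h2 := h1 l₀ (Finset.mem_singleton_self l₀)
    rw [Pi.single_eq_same] at h2
    exact one_ne_zero h2
  · rw [Data.I, Data.I, hW, R9_mon, R9_mon]
    congr 2
    apply Finset.prod_congr rfl
    intro l _
    congr 1
    by_cases h : l = l₀
    · subst h
      simp
    · simp [h]
  · intro l hl h
    simp only [id] at h
    have hne : l ≠ l₀ := by
      intro h0
      simp [h0] at hl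
    have h1 : (Pi.single l₀ 1 : Fin N → ℂ) ∈ cV {l} := by
      intro k hk
      rw [Finset.mem_singleton] at hk
      rw [hk, Pi.single_eq_of_ne hne]
    have h2 := h h1 l₀ (Finset.mem_singleton_self l₀)
    rw [Pi.single_eq_same] at h2
    exact one_ne_zero h2

end MotMono.Mon
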