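import Pool.Agent.Lib.MP_4e5fcd_ag.Mon.P8
import Pool.Agent.Lib.MP_4e5fcd_ag.Mon.R5
import Pool.Agent.Lib.MP_4e5fcd_ag.Mon.R7
import Pool.Agent.Lib.MP_4e5fcd_ag.Mon.R8b
import Pool.Agent.Lib.MP_4e5fcd_ag.Mon.R9

/-! # MON: the main theorem -/

open MvPolynomial

namespace MotMono.Mon

variable {N s : ℕ} (D : Data N s)

theorem main_good (hgood : ∀ l, 0 < D.b l → ¬ cV {D.β l} ≤ D.W) (s₀ : ℚ)
    (hpole : IsPole (Zmot D.I) s₀) (ε : ℝ) (hε : 0 < ε) :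
    ∃ p : Fin N → ℂ, ‖p‖ < ε ∧ (∀ f ∈ D.I, eval p f = 0) ∧
      ∃ y : ConePoint D.I p, y.Nonzero ∧ ∀ χ : K0 →+* ℤ, IsEulerChar χ →
        ∃ Z, IsZeta (fun d => χ (cls (contactArcs D.I p y d))) Z ∧
          ZeroOrPole Z (Complex.exp (2 * Real.pi * Complex.I * s₀)) := by
  rcases exists_cand D s₀ hpole with ⟨l, hl, rfl⟩ | ⟨A, lam, hCl, hCn, hlam, hs⟩
  · exact main_simple D l hl (hgood l hl) ε hε
  · obtain ⟨S, hS, hne⟩ := exists_str D A lam hCl hCn hlam s₀ hs ε hε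
    obtain ⟨y, hy, hZ⟩ := zeta_of_str S s₀ hne
    exact ⟨S.p, hS, eval_eq_zero S, y, hy, hZ⟩

theorem main (s₀ : ℚ) (hpole : IsPole (Zmot D.I) s₀) (ε : ℝ) (hε : 0 < ε) :
    ∃ p : Fin N → ℂ, ‖p‖ < ε ∧ (∀ f ∈ D.I, eval p f = 0) ∧
      ∃ y : ConePoint D.I p, y.Nonzero ∧ ∀ χ : K0 →+* ℤ, IsEulerChar χ →
        ∃ Z, IsZeta (fun d => χ (cls (contactArcs D.I p y d))) Z ∧
          ZeroOrPole Z (Complex.exp (2 * Real.pi * Complex.I * s₀)) := by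
  obtain ⟨s', D', hI, hgood⟩ := exists_good D
  rw [← hI] at hpole ⊢
  exact main_good D' hgood s₀ hpole ε hε

end MotMono.Mon
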