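import Pool.Agent.Lib.MP_4e5fcd_ag.Mon.Defs

/-! # MON-P1: the path recursion is multilinear -/

open MvPolynomial

namespace MotMono.Mon

variable {N s : ℕ} (D : Data N s)

theorem FF_succ (c : ℕ) (A : Finset (Fin s)) (p : Seqs s) :
    D.FF (c + 1) A p = ∑ A' ∈ A.powerset, PowerSeries.C (D.gg A A') *
      (∏ i ∈ A \ A', (p i 0).1) * D.FF c A' (shift p) := rfl

theorem FF_zero (A : Finset (Fin s)) (p : Seqs s) : D.FF 0 A p = ∏ i ∈ A, (p i 0).2 := rfl

theorem FF_congr (c : ℕ) (A : Finset (Fin s)) (p q : Seqs s) (h : ∀ i ∈ A, p i = q i) :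
    D.FF c A p = D.FF c A q := by
  induction c generalizing A p q with
  | zero =>
    rw [FF_zero, FF_zero]
    exact Finset.prod_congr rfl fun i hi => by rw [h i hi]
  | succ c ih =>
    rw [FF_succ, FF_succ]
    refine Finset.sum_congr rfl fun A' hA' => ?_
    rw [Finset.mem_powerset] at hA'
    congr 1
    · congr 1
      exact Finset.prod_congr rfl fun i hi => by rw [h i (Finset.mem_sdiff.mp hi).1]
    · refine ih A' _ _ fun i hi => ?_
      funext n
      show p i (n + 1) = q i (n + 1)
      rw [h i (hA' hi)]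

private lemma p1_prod_mem (A : Finset (Fin s)) (p : Seqs s) (i : Fin s) (hi : i ∈ A)
    (f : ℕ → PowerSeries MC × PowerSeries MC)
    (F : (ℕ → PowerSeries MC × PowerSeries MC) → PowerSeries MC) :
    ∏ l ∈ A, F (Function.update p i f l) = F f * ∏ l ∈ A.erase i, F (p l) := by
  rw [← Finset.mul_prod_erase A _ hi, Function.update_self]
  congr 1
  refine Finset.prod_congr rfl fun l hl => ?_
  rw [Function.update_of_ne (Finset.ne_of_mem_erase hl)]

private lemma p1_prod_notMem (A : Finset (Fin s)) (p : Seqs s) (i : Fin s) (hi : i ∉ A)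
    (f : ℕ → PowerSeries MC × PowerSeries MC)
    (F : (ℕ → PowerSeries MC × PowerSeries MC) → PowerSeries MC) :
    ∏ l ∈ A, F (Function.update p i f l) = ∏ l ∈ A, F (p l) := by
  refine Finset.prod_congr rfl fun l hl => ?_
  rw [Function.update_of_ne]
  rintro rfl
  exact hi hl

private lemma p1_shift (p : Seqs s) (i : Fin s) (f : ℕ → PowerSeries MC × PowerSeries MC) :
    shift (Function.update p i f) = Function.update (shift p) i fun n => f (n + 1) := by
  funext l n
  by_cases h : l = i
  · subst h
    simp [shift]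
  · simp [shift, Function.update_of_ne h]

theorem FF_update_sum {κ : Type} (t : Finset κ) (c : ℕ) (A : Finset (Fin s)) (p : Seqs s)
    (i : Fin s) (hi : i ∈ A) (w : κ → PowerSeries MC)
    (r : κ → ℕ → PowerSeries MC × PowerSeries MC) :
    D.FF c A (Function.update p i fun n =>
        (∑ j ∈ t, w j * (r j n).1, ∑ j ∈ t, w j * (r j n).2)) =
      ∑ j ∈ t, w j * D.FF c A (Function.update p i (r j)) := by
  induction c generalizing A p r with
  | zero =>
    simp only [FF_zero]
    rw [p1_prod_mem A p i hi _ (fun f => (f 0).2), Finset.sum_mul]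
    refine Finset.sum_congr rfl fun j _ => ?_
    rw [p1_prod_mem A p i hi _ (fun f => (f 0).2)]
    ring
  | succ c ih =>
    simp only [FF_succ, Finset.mul_sum]
    rw [Finset.sum_comm]
    refine Finset.sum_congr rfl fun A' hA' => ?_
    rw [Finset.mem_powerset] at hA'
    by_cases hiA : i ∈ A'
    · have h1 : i ∉ A \ A' := fun h => (Finset.mem_sdiff.mp h).2 hiA
      rw [p1_prod_notMem (A \ A') p i h1 _ (fun f => (f 0).1), p1_shift,
        ih A' (shift p) hiA (fun j n => r j (n + 1)), Finset.mul_sum]
      refine Finset.sum_congr rfl fun j _ => ?_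
      rw [p1_prod_notMem (A \ A') p i h1 _ (fun f => (f 0).1), p1_shift]
      ring
    · have h1 : i ∈ A \ A' := Finset.mem_sdiff.mpr ⟨hi, hiA⟩
      have h2 : ∀ f : ℕ → PowerSeries MC × PowerSeries MC,
          D.FF c A' (shift (Function.update p i f)) = D.FF c A' (shift p) := by
        intro f
        refine FF_congr D c A' _ _ fun l hl => ?_
        rw [p1_shift, Function.update_of_ne]
        rintro rfl
        exact hiA hl
      rw [p1_prod_mem (A \ A') p i h1 _ (fun f => (f 0).1), h2, Finset.sum_mul, Finset.mul_sum,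
        Finset.sum_mul]
      refine Finset.sum_congr rfl fun j _ => ?_
      rw [p1_prod_mem (A \ A') p i h1 _ (fun f => (f 0).1), h2]
      ring

end MotMono.Mon
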