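import Pool.Agent.Lib.MP_4e5fcd_ag.Mon.P1

/-! # MON-P2: the recursion for the generating function -/

open MvPolynomial

namespace MotMono.Mon

variable {N s : ℕ} (D : Data N s)

/-- approximation of `Zs` by finite sums -/
theorem Zs_approx (A : Finset (Fin s)) (p : Seqs s) (K : ℕ) :
    ∃ E, D.Zs A p = ∑ c ∈ Finset.range K,
      PowerSeries.X ^ (D.m * c) * (D.FF c A p - D.FF (c + 1) A p) + PowerSeries.X ^ K * E := by
  have h : PowerSeries.X ^ K ∣ D.Zs A p - ∑ c ∈ Finset.range K,
      PowerSeries.X ^ (D.m * c) * (D.FF c A p - D.FF (c + 1) A p) := by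
    rw [PowerSeries.X_pow_dvd_iff]
    intro k hk
    rw [map_sub, map_sum, sub_eq_zero, Data.Zs, PowerSeries.coeff_mk]
    have h1 : ∀ c, (PowerSeries.coeff k) (PowerSeries.X ^ (D.m * c) *
        (D.FF c A p - D.FF (c + 1) A p)) = if D.m * c ≤ k then
        PowerSeries.coeff (k - D.m * c) (D.FF c A p - D.FF (c + 1) A p) else 0 := by
      intro c
      rw [PowerSeries.coeff_X_pow_mul']
    simp only [h1]
    refine Finset.sum_subset (Finset.range_subset_range.mpr hk) fun c _ hc => ?_
    rw [Finset.mem_range] at hc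
    rw [if_neg]
    intro h2
    have h3 : 1 * c ≤ D.m * c := Nat.mul_le_mul_right c D.hm
    omega
  obtain ⟨E, hE⟩ := h
  exact ⟨E, by rw [← hE]; ring⟩

/-- power series which are congruent modulo all powers of `X` are equal -/
theorem eq_of_approx (f g : PowerSeries MC)
    (h : ∀ K : ℕ, ∃ E, f = g + PowerSeries.X ^ K * E) : f = g := by
  ext k
  obtain ⟨E, hE⟩ := h (k + 1)
  rw [hE, map_add, PowerSeries.coeff_X_pow_mul', if_neg (by omega), add_zero]

theorem Zs_congr (A : Finset (Fin s)) (p q : Seqs s) (h : ∀ i ∈ A, p i = q i) :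
    D.Zs A p = D.Zs A q := by
  unfold Data.Zs
  congr 1
  funext k
  refine Finset.sum_congr rfl fun c _ => ?_
  rw [FF_congr D c A p q h, FF_congr D (c + 1) A p q h]

theorem Zs_update_sum {κ : Type} (t : Finset κ) (A : Finset (Fin s)) (p : Seqs s)
    (i : Fin s) (hi : i ∈ A) (w : κ → PowerSeries MC)
    (r : κ → ℕ → PowerSeries MC × PowerSeries MC) :
    D.Zs A (Function.update p i fun n =>
        (∑ j ∈ t, w j * (r j n).1, ∑ j ∈ t, w j * (r j n).2)) =
      ∑ j ∈ t, w j * D.Zs A (Function.update p i (r j)) := by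
  apply eq_of_approx
  intro K
  obtain ⟨E, hE⟩ := Zs_approx D A (Function.update p i fun n =>
        (∑ j ∈ t, w j * (r j n).1, ∑ j ∈ t, w j * (r j n).2)) K
  choose E' hE' using fun j => Zs_approx D A (Function.update p i (r j)) K
  refine ⟨E - ∑ j ∈ t, w j * E' j, ?_⟩
  rw [hE]
  have h1 : ∑ j ∈ t, w j * D.Zs A (Function.update p i (r j)) =
      ∑ c ∈ Finset.range K, PowerSeries.X ^ (D.m * c) *
        (∑ j ∈ t, w j * D.FF c A (Function.update p i (r j)) -
          ∑ j ∈ t, w j * D.FF (c + 1) A (Function.update p i (r j))) +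
        PowerSeries.X ^ K * ∑ j ∈ t, w j * E' j := by
    have h2 : ∀ j ∈ t, w j * D.Zs A (Function.update p i (r j)) =
        (∑ c ∈ Finset.range K, PowerSeries.X ^ (D.m * c) *
          (w j * D.FF c A (Function.update p i (r j)) -
            w j * D.FF (c + 1) A (Function.update p i (r j)))) +
          PowerSeries.X ^ K * (w j * E' j) := by
      intro j _
      rw [hE' j, mul_add, Finset.mul_sum]
      congr 1
      · refine Finset.sum_congr rfl fun c _ => ?_
        ring
      · ring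
    rw [Finset.sum_congr rfl h2, Finset.sum_add_distrib, Finset.mul_sum, Finset.sum_comm]
    congr 1
    refine Finset.sum_congr rfl fun c _ => ?_
    rw [← Finset.mul_sum, Finset.sum_sub_distrib]
  rw [h1]
  have h3 : ∀ c ∈ Finset.range K, PowerSeries.X ^ (D.m * c) *
      (D.FF c A (Function.update p i fun n =>
        (∑ j ∈ t, w j * (r j n).1, ∑ j ∈ t, w j * (r j n).2)) -
      D.FF (c + 1) A (Function.update p i fun n =>
        (∑ j ∈ t, w j * (r j n).1, ∑ j ∈ t, w j * (r j n).2))) =
      PowerSeries.X ^ (D.m * c) *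
        (∑ j ∈ t, w j * D.FF c A (Function.update p i (r j)) -
          ∑ j ∈ t, w j * D.FF (c + 1) A (Function.update p i (r j))) := by
    intro c _
    rw [FF_update_sum D t c A p i hi w r, FF_update_sum D t (c + 1) A p i hi w r]
  rw [Finset.sum_congr rfl h3]
  ring

theorem Zs_rec (A : Finset (Fin s)) (p : Seqs s) :
    D.Zs A p = D.FF 0 A p - D.FF 1 A p + PowerSeries.X ^ D.m *
      ∑ A' ∈ A.powerset, PowerSeries.C (D.gg A A') * (∏ i ∈ A \ A', (p i 0).1) *
        D.Zs A' (shift p) := by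
  apply eq_of_approx
  intro K
  obtain ⟨E, hE⟩ := Zs_approx D A p (K + 1)
  choose E' hE' using fun A' => Zs_approx D A' (shift p) K
  refine ⟨PowerSeries.X * E - PowerSeries.X ^ D.m * ∑ A' ∈ A.powerset, PowerSeries.C (D.gg A A') *
    (∏ i ∈ A \ A', (p i 0).1) * E' A', ?_⟩
  rw [hE, Finset.sum_range_succ']
  have h1 : ∑ A' ∈ A.powerset, PowerSeries.C (D.gg A A') * (∏ i ∈ A \ A', (p i 0).1) *
        D.Zs A' (shift p) = ∑ c ∈ Finset.range K, PowerSeries.X ^ (D.m * c) *
          (D.FF (c + 1) A p - D.FF (c + 1 + 1) A p) +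
        PowerSeries.X ^ K * ∑ A' ∈ A.powerset, PowerSeries.C (D.gg A A') *
          (∏ i ∈ A \ A', (p i 0).1) * E' A' := by
    have h2 : ∀ A' ∈ A.powerset, PowerSeries.C (D.gg A A') * (∏ i ∈ A \ A', (p i 0).1) *
        D.Zs A' (shift p) = (∑ c ∈ Finset.range K, PowerSeries.X ^ (D.m * c) *
          (PowerSeries.C (D.gg A A') * (∏ i ∈ A \ A', (p i 0).1) * D.FF c A' (shift p) -
            PowerSeries.C (D.gg A A') * (∏ i ∈ A \ A', (p i 0).1) *
              D.FF (c + 1) A' (shift p))) +
          PowerSeries.X ^ K * (PowerSeries.C (D.gg A A') * (∏ i ∈ A \ A', (p i 0).1) * E' A') := by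
      intro A' _
      rw [hE' A', mul_add, Finset.mul_sum]
      congr 1
      · refine Finset.sum_congr rfl fun c _ => ?_
        ring
      · ring
    rw [Finset.sum_congr rfl h2, Finset.sum_add_distrib, Finset.mul_sum, Finset.sum_comm]
    congr 1
    refine Finset.sum_congr rfl fun c _ => ?_
    rw [← Finset.mul_sum, Finset.sum_sub_distrib, FF_succ, FF_succ]
  rw [h1, mul_add, Finset.mul_sum]
  have h3 : ∑ c ∈ Finset.range K, PowerSeries.X ^ (D.m * (c + 1)) *
      (D.FF (c + 1) A p - D.FF (c + 1 + 1) A p) = ∑ c ∈ Finset.range K,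
        PowerSeries.X ^ D.m * (PowerSeries.X ^ (D.m * c) *
          (D.FF (c + 1) A p - D.FF (c + 1 + 1) A p)) := by
    refine Finset.sum_congr rfl fun c _ => ?_
    rw [mul_add, mul_one, pow_add]
    ring
  rw [h3, mul_zero, pow_zero, one_mul]
  ring

end MotMono.Mon
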