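import Pool.Agent.Lib.MP_4e5fcd_ag.Mon.P2
import Pool.Agent.Lib.MP_4e5fcd_ag.Mon.H7b

/-! # MON-P3: blocks which split off do not matter -/

open MvPolynomial

namespace MotMono.Mon

variable {N s : ℕ} (D : Data N s)

/-- the relation between the weights of the starting levels and of the tails -/
def Data.Consist (p : Seqs s) (A : Finset (Fin s)) : Prop :=
  ∀ i ∈ A, ∀ n, (p i n).2 - (p i (n + 1)).2 = PowerSeries.C (D.cc i) * (p i n).1

private theorem p3_sum {J M : Type*} [DecidableEq J] [AddCommMonoid M] (A B : Finset J)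
    (hAB : Disjoint A B) (f : Finset J → M) :
    ∑ S' ∈ (A ∪ B).powerset, f S' = ∑ A' ∈ A.powerset, ∑ B' ∈ B.powerset, f (A' ∪ B') := by
  rw [← Finset.sum_product' A.powerset B.powerset (fun A' B' => f (A' ∪ B'))]
  symm
  refine Finset.sum_nbij' (fun p => p.1 ∪ p.2) (fun S' => (S' ∩ A, S' ∩ B)) ?_ ?_ ?_ ?_ ?_
  · rintro ⟨A', B'⟩ hp
    simp only [Finset.mem_product, Finset.mem_powerset] at hp ⊢
    exact Finset.union_subset_union hp.1 hp.2
  · intro S' _
    simp only [Finset.mem_product, Finset.mem_powerset]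
    exact ⟨Finset.inter_subset_right, Finset.inter_subset_right⟩
  · rintro ⟨A', B'⟩ hp
    simp only [Finset.mem_product, Finset.mem_powerset] at hp
    have h1 : (A' ∪ B') ∩ A = A' := by
      ext x
      simp only [Finset.mem_inter, Finset.mem_union]
      constructor
      · rintro ⟨h | h, hA⟩
        · exact h
        · exact absurd (hp.2 h) (Finset.disjoint_left.mp hAB hA)
      · exact fun h => ⟨Or.inl h, hp.1 h⟩
    have h2 : (A' ∪ B') ∩ B = B' := by
      ext x
      simp only [Finset.mem_inter, Finset.mem_union]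
      constructor
      · rintro ⟨h | h, hB⟩
        · exact absurd hB (Finset.disjoint_left.mp hAB (hp.1 h))
        · exact h
      · exact fun h => ⟨Or.inr h, hp.2 h⟩
    simp only [h1, h2]
  · intro S' hS'
    rw [Finset.mem_powerset] at hS'
    ext x
    simp only [Finset.mem_union, Finset.mem_inter]
    constructor
    · rintro (h | h) <;> exact h.1
    · intro h
      rcases Finset.mem_union.mp (hS' h) with h1 | h1
      · exact Or.inl ⟨h, h1⟩
      · exact Or.inr ⟨h, h1⟩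
  · rintro ⟨A', B'⟩ _
    rfl

theorem FF_sep (A₁ A₂ : Finset (Fin s)) (hd : Disjoint A₁ A₂) (htop : D.VW A₁ ⊔ cV A₂ = ⊤)
    (c : ℕ) (p : Seqs s) (hp : D.Consist p A₂) :
    D.FF c (A₁ ∪ A₂) p = D.FF c A₁ p * ∏ i ∈ A₂, (p i 0).2 := by
  induction c generalizing A₁ A₂ p with
  | zero =>
    rw [FF_zero, FF_zero, Finset.prod_union hd]
  | succ c ih =>
    rw [FF_succ, p3_sum A₁ A₂ hd, FF_succ, Finset.sum_mul]
    refine Finset.sum_congr rfl fun A₁' h1 => ?_
    rw [Finset.mem_powerset] at h1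
    have h3 : ∏ i ∈ A₂, (p i 0).2 = ∑ A₂' ∈ A₂.powerset, (∏ i ∈ A₂', (p i 1).2) *
        ∏ i ∈ A₂ \ A₂', PowerSeries.C (D.cc i) * (p i 0).1 := by
      rw [← Finset.prod_add]
      refine Finset.prod_congr rfl fun i hi => ?_
      rw [← hp i hi 0]
      ring
    rw [h3, Finset.mul_sum]
    refine Finset.sum_congr rfl fun A₂' h2 => ?_
    rw [Finset.mem_powerset] at h2
    have hd' : Disjoint A₁' A₂' :=
      Finset.disjoint_of_subset_left h1 (Finset.disjoint_of_subset_right h2 hd)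
    have htop' : D.VW A₁' ⊔ cV A₂' = ⊤ := by
      rw [eq_top_iff, ← htop]
      refine sup_le_sup ?_ ?_
      · exact inf_le_inf_left _ fun z hz i hi => hz i (h1 hi)
      · exact fun z hz i hi => hz i (h2 hi)
    have hp' : D.Consist (shift p) A₂' := fun i hi n => hp i (h2 hi) (n + 1)
    have hsd : (A₁ ∪ A₂) \ (A₁' ∪ A₂') = (A₁ \ A₁') ∪ (A₂ \ A₂') := by
      ext x
      simp only [Finset.mem_sdiff, Finset.mem_union]
      constructor
      · rintro ⟨h | h, hn⟩
        · exact Or.inl ⟨h, fun h' => hn (Or.inl h')⟩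
        · exact Or.inr ⟨h, fun h' => hn (Or.inr h')⟩
      · rintro (⟨h, hn⟩ | ⟨h, hn⟩)
        · refine ⟨Or.inl h, ?_⟩
          rintro (h' | h')
          · exact hn h'
          · exact Finset.disjoint_left.mp hd h (h2 h')
        · refine ⟨Or.inr h, ?_⟩
          rintro (h' | h')
          · exact Finset.disjoint_left.mp hd (h1 h') h
          · exact hn h'
    have hd'' : Disjoint (A₁ \ A₁') (A₂ \ A₂') :=
      Finset.disjoint_of_subset_left Finset.sdiff_subset
        (Finset.disjoint_of_subset_right Finset.sdiff_subset hd)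
    rw [gg_mul D A₁ A₂ A₁' A₂' hd htop h1 h2, ih A₁' A₂' hd' htop' (shift p) hp', hsd,
      Finset.prod_union hd'', map_mul, map_prod, Finset.prod_mul_distrib]
    have h4 : ∏ i ∈ A₂', (shift p i 0).2 = ∏ i ∈ A₂', (p i 1).2 := rfl
    rw [h4]
    ring

theorem Zs_sep (A₁ A₂ : Finset (Fin s)) (hd : Disjoint A₁ A₂) (htop : D.VW A₁ ⊔ cV A₂ = ⊤)
    (p : Seqs s) (hp : D.Consist p A₂) :
    D.Zs (A₁ ∪ A₂) p = D.Zs A₁ p * ∏ i ∈ A₂, (p i 0).2 := by
  apply eq_of_approx
  intro K
  obtain ⟨E, hE⟩ := Zs_approx D (A₁ ∪ A₂) p K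
  obtain ⟨E', hE'⟩ := Zs_approx D A₁ p K
  refine ⟨E - E' * ∏ i ∈ A₂, (p i 0).2, ?_⟩
  rw [hE, hE', add_mul, Finset.sum_mul]
  have h1 : ∀ c ∈ Finset.range K, PowerSeries.X ^ (D.m * c) *
      (D.FF c (A₁ ∪ A₂) p - D.FF (c + 1) (A₁ ∪ A₂) p) =
      PowerSeries.X ^ (D.m * c) * (D.FF c A₁ p - D.FF (c + 1) A₁ p) *
        ∏ i ∈ A₂, (p i 0).2 := by
    intro c _
    rw [FF_sep D A₁ A₂ hd htop c p hp, FF_sep D A₁ A₂ hd htop (c + 1) p hp]
    ring
  rw [Finset.sum_congr rfl h1]
  ring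

end MotMono.Mon
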