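import Pool.Agent.Lib.MP_4e5fcd_ag.Mon.Defs

/-! # MON-P4: the sequences of weights -/

open MvPolynomial

namespace MotMono.Mon

variable {N s : ℕ} (D : Data N s)

theorem P4_coeff_Pser (l : Fin N) (n : ℕ) : PowerSeries.coeff n (D.Pser l) =
    if n ≠ 0 ∧ D.d l ∣ n then D.rho l ^ (n / D.d l) else 0 := by
  rw [Data.Pser, PowerSeries.coeff_mk]

theorem Pser_rel (l : Fin N) :
    D.Pser l = PowerSeries.C (D.rho l) * PowerSeries.X ^ D.d l * (1 + D.Pser l) := by
  have hd := D.hd l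
  ext1 n
  rw [mul_assoc, PowerSeries.coeff_C_mul, PowerSeries.coeff_X_pow_mul', P4_coeff_Pser]
  by_cases hn : D.d l ≤ n
  · obtain ⟨m, rfl⟩ := Nat.exists_eq_add_of_le hn
    rw [if_pos hn, Nat.add_sub_cancel_left, map_add, P4_coeff_Pser, PowerSeries.coeff_one]
    by_cases hm : m = 0
    · subst hm
      have h1 : D.d l + 0 ≠ 0 ∧ D.d l ∣ D.d l + 0 := ⟨by omega, by simp⟩
      rw [if_pos h1, if_pos rfl, if_neg (by simp)]
      rw [add_zero, Nat.div_self hd, pow_one, add_zero, mul_one]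
    · rw [if_neg hm, zero_add]
      by_cases hdv : D.d l ∣ m
      · have h1 : D.d l + m ≠ 0 ∧ D.d l ∣ D.d l + m := ⟨by omega, dvd_add (dvd_refl _) hdv⟩
        rw [if_pos h1, if_pos ⟨hm, hdv⟩, Nat.add_div_left _ hd, pow_succ, mul_comm]
      · have h1 : ¬ (D.d l + m ≠ 0 ∧ D.d l ∣ D.d l + m) := by
          rintro ⟨_, h2⟩
          exact hdv ((Nat.dvd_add_right (dvd_refl _)).1 h2)
        rw [if_neg h1, if_neg (fun h => hdv h.2), mul_zero]
  · rw [if_neg hn, mul_zero, if_neg]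
    rintro ⟨h1, h2⟩
    exact hn (Nat.le_of_dvd (Nat.pos_of_ne_zero h1) h2)

theorem P4_inv (l : Fin N) (hb : D.b l ≠ 0) :
    (1 - D.rho l) * PowerSeries.invOfUnit (1 - D.rho l) 1 = 1 := by
  apply PowerSeries.mul_invOfUnit
  rw [Data.rho, map_sub, map_mul, map_pow, PowerSeries.constantCoeff_X, zero_pow hb, mul_zero,
    map_one, sub_zero, Units.val_one]

theorem mass_rel (l : Fin N) :
    D.mass l = D.rho l * (PowerSeries.C (1 - Li) + D.mass l) := by
  by_cases hb : D.b l = 0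
  · rw [Data.mass, if_pos hb, Data.rho, hb, pow_zero, mul_one, ← map_add, sub_add_cancel, map_one,
      mul_one]
  · have h := P4_inv D l hb
    rw [Data.mass, if_neg hb]
    linear_combination (PowerSeries.C (1 - Li) * D.rho l) * h

theorem P4_dlt (i : Fin s) (Q : Finset (Fin N)) (l : Fin N) (hl : l ∈ Q) :
    D.dlt i Q = D.dlt i (Q.erase l) * D.Pser l := by
  rw [Data.dlt, Data.dlt, ← Finset.prod_erase_mul Q _ hl, mul_assoc]

theorem P4_coeff_dlt (i : Fin s) (Q : Finset (Fin N)) (l : Fin N) (hl : l ∈ Q) (n : ℕ) :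
    PowerSeries.coeff (n + D.d l) (D.dlt i Q) = D.rho l *
      (PowerSeries.coeff n (D.dlt i (Q.erase l)) + PowerSeries.coeff n (D.dlt i Q)) := by
  have h1 : D.dlt i Q = PowerSeries.C (D.rho l) *
      (PowerSeries.X ^ D.d l * (D.dlt i (Q.erase l) + D.dlt i Q)) := by
    have h2 := P4_dlt D i Q l hl
    have h3 := Pser_rel D l
    calc D.dlt i Q = D.dlt i (Q.erase l) * D.Pser l := h2
      _ = D.dlt i (Q.erase l) *
          (PowerSeries.C (D.rho l) * PowerSeries.X ^ D.d l * (1 + D.Pser l)) := by rw [← h3]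
      _ = PowerSeries.C (D.rho l) * (PowerSeries.X ^ D.d l *
          (D.dlt i (Q.erase l) + D.dlt i (Q.erase l) * D.Pser l)) := by ring
      _ = _ := by rw [← h2]
  conv_lhs => rw [h1]
  rw [PowerSeries.coeff_C_mul, PowerSeries.coeff_X_pow_mul', if_pos (Nat.le_add_left _ _),
    Nat.add_sub_cancel, map_add]

theorem P4_coeff_dlt_low (i : Fin s) (Q : Finset (Fin N)) (l : Fin N) (hl : l ∈ Q) (n : ℕ)
    (hn : n < D.d l) : PowerSeries.coeff n (D.dlt i Q) = 0 := by
  have h2 := P4_dlt D i Q l hl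
  have h3 := Pser_rel D l
  have h1 : D.dlt i Q = PowerSeries.X ^ D.d l *
      (D.dlt i (Q.erase l) * (PowerSeries.C (D.rho l) * (1 + D.Pser l))) := by
    calc D.dlt i Q = D.dlt i (Q.erase l) * D.Pser l := h2
      _ = D.dlt i (Q.erase l) *
          (PowerSeries.C (D.rho l) * PowerSeries.X ^ D.d l * (1 + D.Pser l)) := by rw [← h3]
      _ = _ := by ring
  rw [h1, PowerSeries.coeff_X_pow_mul', if_neg (not_le.2 hn)]

/-- the shift by `d_l` -/
theorem pr_rel (i : Fin s) (Q : Finset (Fin N)) (hQ : Q ⊆ D.Bp i) (l : Fin N) (hl : l ∈ Q)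
    (n : ℕ) :
    (D.pr i Q (n + D.d l)).1 = D.rho l * ((D.pr i (Q.erase l) n).1 + (D.pr i Q n).1) ∧
      (D.pr i Q (n + D.d l)).2 = D.rho l * ((D.pr i (Q.erase l) n).2 + (D.pr i Q n).2) := by
  refine ⟨P4_coeff_dlt D i Q l hl n, ?_⟩
  have hcard : (D.Bp i \ Q.erase l).card = (D.Bp i \ Q).card + 1 := by
    have h1 : D.Bp i \ Q.erase l = insert l (D.Bp i \ Q) := by
      ext x
      simp only [Finset.mem_sdiff, Finset.mem_erase, Finset.mem_insert]
      constructor
      · rintro ⟨h2, h3⟩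
        by_cases hx : x = l
        · exact Or.inl hx
        · exact Or.inr ⟨h2, fun h4 => h3 ⟨hx, h4⟩⟩
      · rintro (rfl | ⟨h2, h3⟩)
        · exact ⟨hQ hl, fun h4 => h4.1 rfl⟩
        · exact ⟨h2, fun h4 => h3 h4.2⟩
    rw [h1, Finset.card_insert_of_notMem]
    simp [hl]
  have hsum : ∑ n' ∈ Finset.range (n + D.d l), PowerSeries.coeff n' (D.dlt i Q) =
      D.rho l * (∑ n' ∈ Finset.range n, PowerSeries.coeff n' (D.dlt i (Q.erase l)) +
        ∑ n' ∈ Finset.range n, PowerSeries.coeff n' (D.dlt i Q)) := by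
    rw [add_comm n, Finset.sum_range_add, Finset.sum_eq_zero (fun x hx =>
      P4_coeff_dlt_low D i Q l hl x (Finset.mem_range.1 hx)), zero_add, ← Finset.sum_add_distrib,
      Finset.mul_sum]
    refine Finset.sum_congr rfl fun x _ => ?_
    rw [add_comm, P4_coeff_dlt D i Q l hl]
  have hmass : ∏ l' ∈ Q, D.mass l' = D.rho l * (PowerSeries.C (1 - Li) *
      ∏ l' ∈ Q.erase l, D.mass l' + ∏ l' ∈ Q, D.mass l') := by
    rw [← Finset.prod_erase_mul Q _ hl]
    have h := mass_rel D l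
    calc (∏ l' ∈ Q.erase l, D.mass l') * D.mass l
        = (∏ l' ∈ Q.erase l, D.mass l') * (D.rho l * (PowerSeries.C (1 - Li) + D.mass l)) := by
          rw [← h]
      _ = _ := by ring
  have hpow : (PowerSeries.C ((1 - Li) ^ (D.Bp i \ Q.erase l).card) : PowerSeries MC) =
      PowerSeries.C ((1 - Li) ^ (D.Bp i \ Q).card) * PowerSeries.C (1 - Li) := by
    rw [hcard, pow_succ, map_mul]
  change D.Tsq i Q (n + D.d l) = D.rho l * (D.Tsq i (Q.erase l) n + D.Tsq i Q n)
  rw [Data.Tsq, Data.Tsq, Data.Tsq, hsum, hpow]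
  linear_combination ((if D.Free i then PowerSeries.C Li else 1) *
    PowerSeries.C ((1 - Li) ^ (D.Bp i \ Q).card)) * hmass

theorem pr_consist (i : Fin s) (Q : Finset (Fin N)) (n : ℕ) :
    (D.pr i Q n).2 - (D.pr i Q (n + 1)).2 = PowerSeries.C (D.cc i) * (D.pr i Q n).1 := by
  change D.Tsq i Q n - D.Tsq i Q (n + 1) = PowerSeries.C (D.cc i) * PowerSeries.coeff n (D.dlt i Q)
  rw [Data.Tsq, Data.Tsq, Finset.sum_range_succ]
  ring

theorem pr_empty (i : Fin s) (n : ℕ) (hn : 2 ≤ n) : D.pr i ∅ n = (0, 0) := by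
  have hd : D.dlt i ∅ = if D.Free i then PowerSeries.C (PowerSeries.C Li) * PowerSeries.X else 1 := by
    rw [Data.dlt, Finset.prod_empty, mul_one]
  have h1 : ∀ k, 2 ≤ k → PowerSeries.coeff k (D.dlt i ∅) = 0 := by
    intro k hk
    rw [hd]
    split_ifs with h
    · rw [PowerSeries.coeff_C_mul, PowerSeries.coeff_X, if_neg (by omega), mul_zero]
    · rw [PowerSeries.coeff_one, if_neg (by omega)]
  have h2 : ∑ n' ∈ Finset.range n, PowerSeries.coeff n' (D.dlt i ∅) =
      if D.Free i then PowerSeries.C Li else 1 := by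
    obtain ⟨m, rfl⟩ := Nat.exists_eq_add_of_le hn
    rw [Finset.sum_range_add, Finset.sum_eq_zero (s := Finset.range m)
      (fun x _ => h1 (2 + x) (by omega)), add_zero, Finset.sum_range_succ, Finset.sum_range_one, hd]
    split_ifs with h
    · rw [PowerSeries.coeff_C_mul, PowerSeries.coeff_C_mul, PowerSeries.coeff_X,
        PowerSeries.coeff_X, if_neg (by omega), if_pos rfl, mul_zero, zero_add, mul_one]
    · rw [PowerSeries.coeff_one, PowerSeries.coeff_one, if_pos rfl, if_neg (by omega), add_zero]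
  refine Prod.ext (h1 n hn) ?_
  change D.Tsq i ∅ n = 0
  rw [Data.Tsq, h2, Finset.prod_empty, mul_one, Finset.sdiff_empty, Data.cc]
  ring

/-- the iterated shift -/
theorem pr_iter (i : Fin s) (Q : Finset (Fin N)) (hQ : Q ⊆ D.Bp i) (l : Fin N) (hl : l ∈ Q)
    (K n : ℕ) :
    (D.pr i Q (n + K * D.d l)).1 = D.rho l ^ K * (D.pr i Q n).1 +
        ∑ j ∈ Finset.range K, D.rho l ^ (j + 1) *
          (D.pr i (Q.erase l) (n + (K - 1 - j) * D.d l)).1 ∧
      (D.pr i Q (n + K * D.d l)).2 = D.rho l ^ K * (D.pr i Q n).2 +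
        ∑ j ∈ Finset.range K, D.rho l ^ (j + 1) *
          (D.pr i (Q.erase l) (n + (K - 1 - j) * D.d l)).2 := by
  have key : ∀ f g : ℕ → PowerSeries MC,
      (∀ n, f (n + D.d l) = D.rho l * (g n + f n)) → ∀ K, f (n + K * D.d l) = D.rho l ^ K * f n +
        ∑ j ∈ Finset.range K, D.rho l ^ (j + 1) * g (n + (K - 1 - j) * D.d l) := by
    intro f g h K
    induction K with
    | zero => simp
    | succ K ih =>
      have e1 : n + (K + 1) * D.d l = n + K * D.d l + D.d l := by ring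
      rw [e1, h, ih, Finset.sum_range_succ']
      have e2 : ∑ j ∈ Finset.range K, D.rho l ^ (j + 1 + 1) *
          g (n + (K + 1 - 1 - (j + 1)) * D.d l) =
          D.rho l * ∑ j ∈ Finset.range K, D.rho l ^ (j + 1) * g (n + (K - 1 - j) * D.d l) := by
        rw [Finset.mul_sum]
        refine Finset.sum_congr rfl fun j _ => ?_
        have e3 : K + 1 - 1 - (j + 1) = K - 1 - j := by omega
        rw [e3, pow_succ' _ (j + 1), mul_assoc]
      rw [e2]
      have e4 : K + 1 - 1 - 0 = K := by omega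
      rw [e4]
      ring
  exact ⟨key (fun n => (D.pr i Q n).1) (fun n => (D.pr i (Q.erase l) n).1)
      (fun n => (pr_rel D i Q hQ l hl n).1) K,
    key (fun n => (D.pr i Q n).2) (fun n => (D.pr i (Q.erase l) n).2)
      (fun n => (pr_rel D i Q hQ l hl n).2) K⟩

end MotMono.Mon
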