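import Pool.Agent.Lib.MP_4e5fcd_ag.Mon.P4

/-! # MON-P5: the weights have the expected poles -/

open MvPolynomial

namespace MotMono.Mon

variable {N s : ℕ} (D : Data N s)

theorem P5_poly (s₀ : ℚ) (P : Polynomial MC) : (P : PowerSeries MC) ∈ polarRing s₀ :=
  Subring.subset_closure (Or.inl ⟨P, rfl⟩)

theorem C_mem (s₀ : ℚ) (c : MC) : PowerSeries.C c ∈ polarRing s₀ := by
  have := P5_poly s₀ (Polynomial.C c)
  rwa [Polynomial.coe_C] at this

theorem X_mem (s₀ : ℚ) : (PowerSeries.X : PowerSeries MC) ∈ polarRing s₀ := by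
  have := P5_poly s₀ Polynomial.X
  rwa [Polynomial.coe_X] at this

theorem rho_mem (s₀ : ℚ) (l : Fin N) : D.rho l ∈ polarRing s₀ :=
  (polarRing s₀).mul_mem (C_mem s₀ _) ((polarRing s₀).pow_mem (X_mem s₀) _)

/-- division by an admissible factor -/
theorem mem_of_mul_mem (s₀ : ℚ) (a : ℤ) (b : ℕ) (hb : 0 < b) (hab : -(a : ℚ) / b ≠ s₀)
    (f : PowerSeries MC)
    (h : (1 - PowerSeries.C ((Lu ^ (-a) : MCˣ) : MC) * PowerSeries.X ^ b) * f ∈ polarRing s₀) :
    f ∈ polarRing s₀ := by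
  have h1 : (1 - PowerSeries.C ((Lu ^ (-a) : MCˣ) : MC) * PowerSeries.X ^ b) *
      PowerSeries.invOfUnit
        (1 - PowerSeries.C ((Lu ^ (-a) : MCˣ) : MC) * PowerSeries.X ^ b) 1 = 1 := by
    apply PowerSeries.mul_invOfUnit
    rw [map_sub, map_mul, map_pow, PowerSeries.constantCoeff_X, zero_pow hb.ne', mul_zero,
      map_one, sub_zero, Units.val_one]
  set g := PowerSeries.invOfUnit
    (1 - PowerSeries.C ((Lu ^ (-a) : MCˣ) : MC) * PowerSeries.X ^ b) 1 with hg
  have h2 : g ∈ polarRing s₀ := by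
    refine Subring.subset_closure (Or.inr ⟨a, b, hb, hab, ?_⟩)
    rw [mul_comm]
    exact h1
  have h3 : f = g * ((1 - PowerSeries.C ((Lu ^ (-a) : MCˣ) : MC) * PowerSeries.X ^ b) * f) := by
    rw [← mul_assoc, mul_comm g, h1, one_mul]
  rw [h3]
  exact (polarRing s₀).mul_mem h2 h

theorem mass_mem (s₀ : ℚ) (l : Fin N) (h : 0 < D.b l → s₀ ≠ -1 / (D.b l : ℚ)) :
    D.mass l ∈ polarRing s₀ := by
  by_cases hb : D.b l = 0
  · rw [Data.mass, if_pos hb]
    exact C_mem s₀ _
  · have hb' : 0 < D.b l := Nat.pos_of_ne_zero hb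
    have e : PowerSeries.C ((Lu ^ (-(1 : ℤ)) : MCˣ) : MC) * PowerSeries.X ^ D.b l = D.rho l := by
      rw [Data.rho, Li, zpow_neg_one]
    refine mem_of_mul_mem s₀ 1 (D.b l) hb' ?_ _ ?_
    · have := (h hb').symm
      simpa using this
    · rw [e]
      have h1 : (1 - D.rho l) * D.mass l = PowerSeries.C (1 - Li) * D.rho l := by
        have := mass_rel D l
        linear_combination this
      rw [h1]
      exact (polarRing s₀).mul_mem (C_mem s₀ _) (rho_mem D s₀ l)

theorem P5_coeff_mul (S : Subring (PowerSeries MC)) (f g : PowerSeries (PowerSeries MC))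
    (hf : ∀ n, PowerSeries.coeff n f ∈ S) (hg : ∀ n, PowerSeries.coeff n g ∈ S) (n : ℕ) :
    PowerSeries.coeff n (f * g) ∈ S := by
  rw [PowerSeries.coeff_mul]
  exact S.sum_mem fun x _ => S.mul_mem (hf _) (hg _)

theorem P5_coeff_prod (S : Subring (PowerSeries MC)) {κ : Type} (t : Finset κ)
    (f : κ → PowerSeries (PowerSeries MC))
    (hf : ∀ i ∈ t, ∀ n, PowerSeries.coeff n (f i) ∈ S) :
    ∀ n, PowerSeries.coeff n (∏ i ∈ t, f i) ∈ S := by
  classical
  induction t using Finset.induction_on with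
  | empty =>
    intro n
    rw [Finset.prod_empty, PowerSeries.coeff_one]
    split_ifs
    · exact S.one_mem
    · exact S.zero_mem
  | insert a t ha ih =>
    rw [Finset.prod_insert ha]
    exact P5_coeff_mul S _ _ (hf a (Finset.mem_insert_self a t))
      (ih fun i hi => hf i (Finset.mem_insert_of_mem hi))

theorem pr_mem (s₀ : ℚ) (h : ∀ l, 0 < D.b l → s₀ ≠ -1 / (D.b l : ℚ)) (i : Fin s)
    (Q : Finset (Fin N)) (n : ℕ) :
    (D.pr i Q n).1 ∈ polarRing s₀ ∧ (D.pr i Q n).2 ∈ polarRing s₀ := by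
  have h1 : ∀ n, PowerSeries.coeff n (D.dlt i Q) ∈ polarRing s₀ := by
    rw [Data.dlt]
    refine P5_coeff_mul (polarRing s₀) _ _ ?_ (P5_coeff_prod (polarRing s₀) Q _ ?_)
    · intro n
      split_ifs
      · rw [PowerSeries.coeff_C_mul, PowerSeries.coeff_X]
        refine (polarRing s₀).mul_mem (C_mem s₀ _) ?_
        split_ifs
        · exact (polarRing s₀).one_mem
        · exact (polarRing s₀).zero_mem
      · rw [PowerSeries.coeff_one]
        split_ifs
        · exact (polarRing s₀).one_mem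
        · exact (polarRing s₀).zero_mem
    · intro l _ n
      rw [P4_coeff_Pser]
      split_ifs
      · exact (polarRing s₀).pow_mem (rho_mem D s₀ l) _
      · exact (polarRing s₀).zero_mem
  refine ⟨h1 n, ?_⟩
  change D.Tsq i Q n ∈ polarRing s₀
  rw [Data.Tsq]
  refine (polarRing s₀).sub_mem ((polarRing s₀).mul_mem ?_ ((polarRing s₀).mul_mem (C_mem s₀ _)
    ((polarRing s₀).prod_mem fun l _ => mass_mem D s₀ l (h l))))
    ((polarRing s₀).mul_mem (C_mem s₀ _) ((polarRing s₀).sum_mem fun k _ => h1 k))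
  split_ifs
  · exact C_mem s₀ _
  · exact (polarRing s₀).one_mem

end MotMono.Mon
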