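import Pool.Agent.Lib.MP_4e5fcd_ag.Mon.P2
import Pool.Agent.Lib.MP_4e5fcd_ag.Mon.P5
import Pool.Agent.Lib.MP_4e5fcd_ag.Mon.H7a

/-! # MON-P6: many steps of the recursion -/

open MvPolynomial

namespace MotMono.Mon

variable {N s : ℕ} (D : Data N s)

/-- the iterated shift -/
def shiftN {s : ℕ} (k : ℕ) (p : Seqs s) : Seqs s := fun i n => p i (n + k)

theorem P6_shift (k : ℕ) (p : Seqs s) : shift (shiftN k p) = shiftN (k + 1) p := by
  funext i n
  have e : n + 1 + k = n + (k + 1) := by ring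
  change p i (n + 1 + k) = p i (n + (k + 1))
  rw [e]

/-- one step -/
theorem P6_step (s₀ : ℚ) (A : Finset (Fin s)) (hA : D.Cl A) (q : Seqs s)
    (hq : ∀ i n, (q i n).1 ∈ polarRing s₀ ∧ (q i n).2 ∈ polarRing s₀)
    (hlow : ∀ A' ⊂ A, D.Cl A' → D.Zs A' (shift q) ∈ polarRing s₀) :
    D.Zs A q - PowerSeries.C (D.gg A A) * PowerSeries.X ^ D.m * D.Zs A (shift q) ∈
      polarRing s₀ := by
  classical
  set R := polarRing s₀ with hR
  have h0 : D.FF 0 A q ∈ R := by
    rw [FF_zero]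
    exact R.prod_mem fun i _ => (hq i 0).2
  have h1 : D.FF 1 A q ∈ R := by
    rw [show (1 : ℕ) = 0 + 1 from rfl, FF_succ]
    refine R.sum_mem fun A' _ => R.mul_mem (R.mul_mem (C_mem s₀ _)
      (R.prod_mem fun i _ => (hq i 0).1)) ?_
    rw [FF_zero]
    exact R.prod_mem fun i _ => (hq i 1).2
  have hX : (PowerSeries.X : PowerSeries MC) ^ D.m ∈ R := R.pow_mem (X_mem s₀) _
  have hAm : A ∈ A.powerset := Finset.mem_powerset_self A
  rw [Zs_rec, ← Finset.sum_erase_add _ _ hAm, Finset.sdiff_self, Finset.prod_empty, mul_one]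
  have e : ∀ x y z w : PowerSeries MC, x - y + PowerSeries.X ^ D.m *
      (z + PowerSeries.C (D.gg A A) * w) -
      PowerSeries.C (D.gg A A) * PowerSeries.X ^ D.m * w = x - y + PowerSeries.X ^ D.m * z := by
    intro x y z w
    ring
  rw [e]
  refine R.add_mem (R.sub_mem h0 h1) (R.mul_mem hX (R.sum_mem fun A' hA' => ?_))
  obtain ⟨hne, hpow⟩ := Finset.mem_erase.1 hA'
  have hsub := Finset.mem_powerset.1 hpow
  by_cases hg : D.gg A A' = 0
  · rw [hg, map_zero, zero_mul, zero_mul]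
    exact R.zero_mem
  · refine R.mul_mem (R.mul_mem (C_mem s₀ _) (R.prod_mem fun i _ => (hq i 0).1)) ?_
    exact hlow A' (Finset.ssubset_iff_subset_ne.2 ⟨hsub, hne⟩) (Cl_of_gg_ne_zero D A A' hsub hA hg)

theorem Zs_iter (s₀ : ℚ) (A : Finset (Fin s)) (hA : D.Cl A) (p : Seqs s)
    (hp : ∀ i n, (p i n).1 ∈ polarRing s₀ ∧ (p i n).2 ∈ polarRing s₀)
    (hlow : ∀ A' ⊂ A, D.Cl A' → ∀ k, D.Zs A' (shiftN k p) ∈ polarRing s₀) (K : ℕ) :
    D.Zs A p - (PowerSeries.C (D.gg A A) * PowerSeries.X ^ D.m) ^ K * D.Zs A (shiftN K p) ∈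
      polarRing s₀ := by
  induction K with
  | zero =>
    have e : shiftN 0 p = p := rfl
    rw [pow_zero, one_mul, e, sub_self]
    exact (polarRing s₀).zero_mem
  | succ K ih =>
    have h1 := P6_step D s₀ A hA (shiftN K p) (fun i n => hp i (n + K)) (by
      intro A' hA' hcl
      rw [P6_shift]
      exact hlow A' hA' hcl (K + 1))
    rw [P6_shift] at h1
    have ha : (PowerSeries.C (D.gg A A) * PowerSeries.X ^ D.m) ^ K ∈ polarRing s₀ :=
      (polarRing s₀).pow_mem ((polarRing s₀).mul_mem (C_mem s₀ _)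
        ((polarRing s₀).pow_mem (X_mem s₀) _)) _
    have h2 := (polarRing s₀).add_mem ih ((polarRing s₀).mul_mem ha h1)
    have e : D.Zs A p - (PowerSeries.C (D.gg A A) * PowerSeries.X ^ D.m) ^ (K + 1) *
        D.Zs A (shiftN (K + 1) p) =
        D.Zs A p - (PowerSeries.C (D.gg A A) * PowerSeries.X ^ D.m) ^ K * D.Zs A (shiftN K p) +
        (PowerSeries.C (D.gg A A) * PowerSeries.X ^ D.m) ^ K *
          (D.Zs A (shiftN K p) - PowerSeries.C (D.gg A A) * PowerSeries.X ^ D.m *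
            D.Zs A (shiftN (K + 1) p)) := by
      rw [pow_succ]
      ring
    rw [e]
    exact h2

end MotMono.Mon
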