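import Pool.Agent.Lib.MP_4e5fcd_ag.Mon.P6

/-! # MON-P7: the induction step for a connected set -/

open MvPolynomial

namespace MotMono.Mon

variable {N s : ℕ} (D : Data N s)

/-- the tuple of sequences with the variables `Q i` and the shifts `k i` -/
noncomputable def Data.tup (Q : Fin s → Finset (Fin N)) (k : Fin s → ℕ) : Seqs s :=
  fun i n => D.pr i (Q i) (n + k i)

private theorem p7_step (s₀ : ℚ) (A : Finset (Fin s)) (Q : Fin s → Finset (Fin N))
    (hQ : ∀ i ∈ A, Q i ⊆ D.Bp i) (lam : Fin s → Fin N) (hlam : ∀ i ∈ A, lam i ∈ Q i)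
    (hlow : ∀ Q' : Fin s → Finset (Fin N), (∀ i ∈ A, Q' i ⊆ D.Bp i) →
      ∑ i ∈ A, (Q' i).card < ∑ i ∈ A, (Q i).card → ∀ k, D.Zs A (D.tup Q' k) ∈ polarRing s₀)
    (E : ℕ) (hE : ∀ i ∈ A, D.d (lam i) ∣ E) (k : Fin s → ℕ) (i₀ : Fin s) (hi₀ : i₀ ∈ A) :
    D.Zs A (D.tup Q (Function.update k i₀ (k i₀ + E))) -
      D.rho (lam i₀) ^ (E / D.d (lam i₀)) * D.Zs A (D.tup Q k) ∈ polarRing s₀ := by
  classical
  set l := lam i₀ with hl
  set K := E / D.d l with hK
  have hEK : E = K * D.d l := (Nat.div_mul_cancel (hE i₀ hi₀)).symm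
  let w : ℕ → PowerSeries MC := fun j => if j = 0 then D.rho l ^ K else D.rho l ^ j
  let r : ℕ → ℕ → PowerSeries MC × PowerSeries MC := fun j n =>
    if j = 0 then D.pr i₀ (Q i₀) (n + k i₀)
    else D.pr i₀ ((Q i₀).erase l) (n + k i₀ + (K - j) * D.d l)
  have h1 : D.tup Q (Function.update k i₀ (k i₀ + E)) =
      Function.update (D.tup Q k) i₀ (fun n =>
        (∑ j ∈ Finset.range (K + 1), w j * (r j n).1,
          ∑ j ∈ Finset.range (K + 1), w j * (r j n).2)) := by
    funext i
    by_cases hi : i = i₀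
    · subst hi
      rw [Function.update_self]
      funext n
      have h2 := pr_iter D i (Q i) (hQ i hi₀) l (hlam i hi₀) K (n + k i)
      change D.pr i (Q i) (n + Function.update k i (k i + E) i) = _
      rw [Function.update_self, hEK, ← add_assoc]
      have hr : ∀ j, r (j + 1) n = D.pr i ((Q i).erase l) (n + k i + (K - 1 - j) * D.d l) := by
        intro j
        simp only [r, Nat.succ_ne_zero, if_false]
        rw [show K - (j + 1) = K - 1 - j by omega]
      have hw : ∀ j, w (j + 1) = D.rho l ^ (j + 1) := fun j => rfl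
      have e1 : ∑ j ∈ Finset.range (K + 1), w j * (r j n).1 =
          D.rho l ^ K * (D.pr i (Q i) (n + k i)).1 + ∑ j ∈ Finset.range K, D.rho l ^ (j + 1) *
            (D.pr i ((Q i).erase l) (n + k i + (K - 1 - j) * D.d l)).1 := by
        rw [Finset.sum_range_succ', add_comm]
        refine congrArg₂ (· + ·) rfl (Finset.sum_congr rfl fun j _ => ?_)
        rw [hr j, hw j]
      have e2 : ∑ j ∈ Finset.range (K + 1), w j * (r j n).2 =
          D.rho l ^ K * (D.pr i (Q i) (n + k i)).2 + ∑ j ∈ Finset.range K, D.rho l ^ (j + 1) *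
            (D.pr i ((Q i).erase l) (n + k i + (K - 1 - j) * D.d l)).2 := by
        rw [Finset.sum_range_succ', add_comm]
        refine congrArg₂ (· + ·) rfl (Finset.sum_congr rfl fun j _ => ?_)
        rw [hr j, hw j]
      exact Prod.ext (h2.1.trans e1.symm) (h2.2.trans e2.symm)
    · rw [Function.update_of_ne hi]
      funext n
      change D.pr i (Q i) (n + Function.update k i₀ (k i₀ + E) i) = D.pr i (Q i) (n + k i)
      rw [Function.update_of_ne hi]
  rw [h1, Zs_update_sum D _ A _ i₀ hi₀ w r, Finset.sum_range_succ']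
  have h2 : Function.update (D.tup Q k) i₀ (r 0) = D.tup Q k := by
    apply Function.update_eq_self_iff.2
    rfl
  have hw0 : w 0 = D.rho l ^ K := rfl
  rw [h2, hw0, add_sub_cancel_right]
  refine Subring.sum_mem _ fun j _ => ?_
  refine Subring.mul_mem _ ?_ ?_
  · have hwj : w (j + 1) = D.rho l ^ (j + 1) := rfl
    rw [hwj]
    exact Subring.pow_mem _ (rho_mem D s₀ l) _
  · have h3 : Function.update (D.tup Q k) i₀ (r (j + 1)) =
        D.tup (Function.update Q i₀ ((Q i₀).erase l))
          (Function.update k i₀ (k i₀ + (K - (j + 1)) * D.d l)) := by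
      funext i
      by_cases hi : i = i₀
      · subst hi
        rw [Function.update_self]
        funext n
        change r (j + 1) n = D.pr i (Function.update Q i ((Q i).erase l) i)
          (n + Function.update k i (k i + (K - (j + 1)) * D.d l) i)
        rw [Function.update_self, Function.update_self, ← add_assoc]
        rfl
      · rw [Function.update_of_ne hi]
        funext n
        change D.pr i (Q i) (n + k i) = D.pr i (Function.update Q i₀ ((Q i₀).erase l) i)
          (n + Function.update k i₀ (k i₀ + (K - (j + 1)) * D.d l) i)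
        rw [Function.update_of_ne hi, Function.update_of_ne hi]
    rw [h3]
    refine hlow _ ?_ ?_ _
    · intro i hi
      by_cases hi' : i = i₀
      · subst hi'
        rw [Function.update_self]
        exact (Finset.erase_subset _ _).trans (hQ i hi)
      · rw [Function.update_of_ne hi']
        exact hQ i hi
    · refine Finset.sum_lt_sum (fun i _ => ?_) ⟨i₀, hi₀, ?_⟩
      · by_cases hi' : i = i₀
        · subst hi'
          rw [Function.update_self]
          exact Finset.card_le_card (Finset.erase_subset _ _)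
        · rw [Function.update_of_ne hi']
      · rw [Function.update_self]
        exact Finset.card_erase_lt_of_mem (hlam i₀ hi₀)

/-- replacing the shifted sequences in the blocks of `B` by multiples of the original ones -/
theorem Zs_tup_shift (s₀ : ℚ) (A : Finset (Fin s)) (Q : Fin s → Finset (Fin N))
    (hQ : ∀ i ∈ A, Q i ⊆ D.Bp i) (lam : Fin s → Fin N) (hlam : ∀ i ∈ A, lam i ∈ Q i)
    (hlow : ∀ Q' : Fin s → Finset (Fin N), (∀ i ∈ A, Q' i ⊆ D.Bp i) →
      ∑ i ∈ A, (Q' i).card < ∑ i ∈ A, (Q i).card → ∀ k, D.Zs A (D.tup Q' k) ∈ polarRing s₀)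
    (E : ℕ) (hE : ∀ i ∈ A, D.d (lam i) ∣ E) (k : Fin s → ℕ) :
    D.Zs A (shiftN E (D.tup Q k)) -
      (∏ i ∈ A, D.rho (lam i) ^ (E / D.d (lam i))) * D.Zs A (D.tup Q k) ∈ polarRing s₀ := by
  classical
  have key : ∀ B : Finset (Fin s), B ⊆ A →
      D.Zs A (D.tup Q fun i => if i ∈ B then k i + E else k i) -
        (∏ i ∈ B, D.rho (lam i) ^ (E / D.d (lam i))) * D.Zs A (D.tup Q k) ∈ polarRing s₀ := by
    intro B
    induction B using Finset.induction_on with
    | empty =>
      intro _
      rw [Finset.prod_empty, one_mul]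
      have h1 : (fun i => if i ∈ (∅ : Finset (Fin s)) then k i + E else k i) = k := by
        funext i
        rw [if_neg (Finset.notMem_empty i)]
      rw [h1, sub_self]
      exact Subring.zero_mem _
    | insert i₀ B hi₀ ih =>
      intro hB
      have h1 := ih fun i hi => hB (Finset.mem_insert_of_mem hi)
      have hi₀A : i₀ ∈ A := hB (Finset.mem_insert_self i₀ B)
      have h2 := p7_step D s₀ A Q hQ lam hlam hlow E hE
        (fun i => if i ∈ B then k i + E else k i) i₀ hi₀A
      have h3 : Function.update (fun i => if i ∈ B then k i + E else k i) i₀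
          ((fun i => if i ∈ B then k i + E else k i) i₀ + E) =
          fun i => if i ∈ insert i₀ B then k i + E else k i := by
        funext i
        by_cases hi : i = i₀
        · subst hi
          rw [Function.update_self, if_pos (Finset.mem_insert_self i B)]
          simp only [hi₀, if_false]
        · rw [Function.update_of_ne hi]
          by_cases hiB : i ∈ B
          · rw [if_pos hiB, if_pos (Finset.mem_insert_of_mem hiB)]
          · rw [if_neg hiB, if_neg]
            intro h4
            rcases Finset.mem_insert.1 h4 with h5 | h5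
            · exact hi h5
            · exact hiB h5
      rw [h3] at h2
      rw [Finset.prod_insert hi₀]
      have h4 := Subring.add_mem _ h2 (Subring.mul_mem _
        (Subring.pow_mem _ (rho_mem D s₀ (lam i₀)) (E / D.d (lam i₀))) h1)
      have h5 : ∀ a b c d e : PowerSeries MC, a - b * c + b * (c - d * e) = a - b * d * e := by
        intro a b c d e
        ring
      rw [h5] at h4
      exact h4
  have h1 := key A (Finset.Subset.refl A)
  have h2 : D.Zs A (shiftN E (D.tup Q k)) =
      D.Zs A (D.tup Q fun i => if i ∈ A then k i + E else k i) := by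
    apply Zs_congr
    intro i hi
    funext n
    change D.pr i (Q i) (n + E + k i) = D.pr i (Q i) (n + if i ∈ A then k i + E else k i)
    rw [if_pos hi]
    congr 1
    omega
  rw [h2]
  exact h1

private theorem p7_Li (n : ℕ) : (Li : MC) ^ n = ((Lu ^ (-(n : ℤ)) : MCˣ) : MC) := by
  unfold Li
  rw [← Units.val_pow_eq_pow_val, zpow_neg, zpow_natCast, inv_pow]

/-- the factor of one period -/
private theorem p7_factor (A : Finset (Fin s)) (lam : Fin s → Fin N) (E : ℕ) :
    (PowerSeries.C (D.gg A A) * PowerSeries.X ^ D.m) ^ E *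
      ∏ i ∈ A, D.rho (lam i) ^ (E / D.d (lam i)) =
    PowerSeries.C ((Lu ^ (-((E : ℤ) * ((s : ℤ) - Module.finrank ℂ (D.VW A) - A.card) +
      ∑ i ∈ A, ((E / D.d (lam i) : ℕ) : ℤ))) : MCˣ) : MC) *
      PowerSeries.X ^ (D.m * E + ∑ i ∈ A, D.b (lam i) * (E / D.d (lam i))) := by
  have h1 : ∏ i ∈ A, D.rho (lam i) ^ (E / D.d (lam i)) =
      PowerSeries.C (Li ^ ∑ i ∈ A, (E / D.d (lam i))) *
        PowerSeries.X ^ (∑ i ∈ A, D.b (lam i) * (E / D.d (lam i))) := by
    unfold Data.rho
    rw [← Finset.prod_pow_eq_pow_sum, ← Finset.prod_pow_eq_pow_sum, map_prod,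
      ← Finset.prod_mul_distrib]
    refine Finset.prod_congr rfl fun i _ => ?_
    rw [mul_pow, ← map_pow, pow_mul]
  rw [h1, mul_pow, ← map_pow, ← pow_mul]
  have h2 : ∀ a b c d : PowerSeries MC, a * b * (c * d) = a * c * (b * d) := by
    intro a b c d
    ring
  rw [h2, ← map_mul, ← pow_add]
  congr 2
  rw [gg_self, p7_Li, ← Units.val_pow_eq_pow_val, ← Units.val_mul]
  congr 1
  rw [← zpow_natCast, ← zpow_mul, ← zpow_add]
  congr 1
  push_cast
  ring

/-- the induction step -/
theorem Zs_mem_conn (s₀ : ℚ) (hb : ∀ l, 0 < D.b l → s₀ ≠ -1 / (D.b l : ℚ))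
    (A : Finset (Fin s)) (hA : D.Cl A)
    (hs : ∀ lam, D.Choice A lam → s₀ * D.mult A lam ≠ -D.theta A lam)
    (hlowA : ∀ A' ⊂ A, D.Cl A' → ∀ Q : Fin s → Finset (Fin N), (∀ i ∈ A', Q i ⊆ D.Bp i) →
      ∀ k, D.Zs A' (D.tup Q k) ∈ polarRing s₀)
    (Q : Fin s → Finset (Fin N)) (hQ : ∀ i ∈ A, Q i ⊆ D.Bp i)
    (hlow : ∀ Q' : Fin s → Finset (Fin N), (∀ i ∈ A, Q' i ⊆ D.Bp i) →
      ∑ i ∈ A, (Q' i).card < ∑ i ∈ A, (Q i).card → ∀ k, D.Zs A (D.tup Q' k) ∈ polarRing s₀)
    (k : Fin s → ℕ) : D.Zs A (D.tup Q k) ∈ polarRing s₀ := by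
  classical
  have hp : ∀ i n, (D.tup Q k i n).1 ∈ polarRing s₀ ∧ (D.tup Q k i n).2 ∈ polarRing s₀ :=
    fun i n => pr_mem D s₀ hb i (Q i) (n + k i)
  have hlow' : ∀ A' ⊂ A, D.Cl A' → ∀ k', D.Zs A' (shiftN k' (D.tup Q k)) ∈ polarRing s₀ := by
    intro A' hA' hcl k'
    have h1 : shiftN k' (D.tup Q k) = D.tup Q (fun i => k' + k i) := by
      funext i n
      change D.pr i (Q i) (n + k' + k i) = D.pr i (Q i) (n + (k' + k i))
      rw [add_assoc]
    rw [h1]
    exact hlowA A' hA' hcl Q (fun i hi => hQ i (hA'.1 hi)) _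
  by_cases hne : ∀ i ∈ A, (Q i).Nonempty
  · obtain ⟨lam, hlam⟩ : ∃ lam : Fin s → Fin N, ∀ i ∈ A, lam i ∈ Q i :=
      ⟨fun i => if h : (Q i).Nonempty then h.choose else D.piv i, fun i hi => by
        have h1 := hne i hi
        simp only [h1, dif_pos]
        exact h1.choose_spec⟩
    have hch : D.Choice A lam := by
      intro i hi
      have h1 := hQ i hi (hlam i hi)
      unfold Data.Bp Data.B at h1
      rw [Finset.mem_filter, Finset.mem_filter] at h1
      exact ⟨h1.1.2, h1.2⟩
    set E : ℕ := ∏ l, D.d l with hEdef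
    have hE0 : 0 < E := Finset.prod_pos fun l _ => D.hd l
    have hE : ∀ i ∈ A, D.d (lam i) ∣ E := fun i _ => Finset.dvd_prod_of_mem _ (Finset.mem_univ _)
    have h1 := Zs_iter D s₀ A hA (D.tup Q k) hp hlow' E
    have h2 := Zs_tup_shift D s₀ A Q hQ lam hlam hlow E hE k
    have hc : (PowerSeries.C (D.gg A A) * PowerSeries.X ^ D.m) ^ E ∈ polarRing s₀ :=
      Subring.pow_mem _ (Subring.mul_mem _ (C_mem s₀ _) (Subring.pow_mem _ (X_mem s₀) _)) _
    have h3 := Subring.add_mem _ h1 (Subring.mul_mem _ hc h2)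
    have h4 : ∀ a b c d : PowerSeries MC, a - b * c + b * (c - d * a) = (1 - b * d) * a := by
      intro a b c d
      ring
    rw [h4, p7_factor D A lam E] at h3
    have hbpos : 0 < D.m * E + ∑ i ∈ A, D.b (lam i) * (E / D.d (lam i)) :=
      Nat.add_pos_left (Nat.mul_pos D.hm hE0) _
    refine mem_of_mul_mem s₀ _ _ hbpos ?_ _ h3
    intro hs0
    apply hs lam hch
    have hdiv : ∀ i ∈ A, ((E / D.d (lam i) : ℕ) : ℚ) = (E : ℚ) / D.d (lam i) := by
      intro i hi
      rw [Nat.cast_div (hE i hi)]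
      exact_mod_cast (D.hd (lam i)).ne'
    have hEq : (E : ℚ) ≠ 0 := by exact_mod_cast hE0.ne'
    have ha : (((E : ℤ) * ((s : ℤ) - Module.finrank ℂ (D.VW A) - A.card) +
      ∑ i ∈ A, ((E / D.d (lam i) : ℕ) : ℤ) : ℤ) : ℚ) = E * D.theta A lam := by
      unfold Data.theta
      rw [Int.cast_add, Int.cast_sum, Int.cast_mul, Int.cast_sub, Int.cast_sub, Int.cast_natCast,
        Int.cast_natCast, Int.cast_natCast, Int.cast_natCast, mul_add, Finset.mul_sum]
      congr 1
      refine Finset.sum_congr rfl fun i hi => ?_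
      rw [Int.cast_natCast, hdiv i hi]
      ring
    have hb' : ((D.m * E + ∑ i ∈ A, D.b (lam i) * (E / D.d (lam i)) : ℕ) : ℚ) =
        E * D.mult A lam := by
      unfold Data.mult
      rw [Nat.cast_add, Nat.cast_mul, Nat.cast_sum, mul_add, Finset.mul_sum]
      congr 1
      · ring
      · refine Finset.sum_congr rfl fun i hi => ?_
        rw [Nat.cast_mul, hdiv i hi]
        ring
    have hmne : (E : ℚ) * D.mult A lam ≠ 0 := by
      rw [← hb']
      exact_mod_cast hbpos.ne'
    rw [ha, hb', div_eq_iff hmne] at hs0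
    have h5 : (E : ℚ) * (s₀ * D.mult A lam) = E * (-D.theta A lam) := by
      linear_combination -hs0
    exact mul_left_cancel₀ hEq h5
  · push Not at hne
    obtain ⟨i₀, hi₀, hQ0⟩ := hne
    have hQ0' : Q i₀ = ∅ := hQ0
    have h1 := Zs_iter D s₀ A hA (D.tup Q k) hp hlow' 2
    have h2 : D.Zs A (shiftN 2 (D.tup Q k)) = 0 := by
      have h3 : shiftN 2 (D.tup Q k) = Function.update (shiftN 2 (D.tup Q k)) i₀ (fun n =>
          (∑ j ∈ (∅ : Finset ℕ), (fun _ : ℕ => (0 : PowerSeries MC)) j *
              ((fun (_ : ℕ) (_ : ℕ) => ((0 : PowerSeries MC), (0 : PowerSeries MC))) j n).1,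
            ∑ j ∈ (∅ : Finset ℕ), (fun _ : ℕ => (0 : PowerSeries MC)) j *
              ((fun (_ : ℕ) (_ : ℕ) => ((0 : PowerSeries MC), (0 : PowerSeries MC))) j n).2)) := by
        symm
        apply Function.update_eq_self_iff.2
        funext n
        change (0, 0) = D.pr i₀ (Q i₀) (n + 2 + k i₀)
        rw [hQ0', pr_empty D i₀ _ (by omega)]
      rw [h3, Zs_update_sum D ∅ A _ i₀ hi₀ _ _, Finset.sum_empty]
    rw [h2, mul_zero, sub_zero] at h1
    exact h1

end MotMono.Mon
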