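import Pool.Agent.Lib.MP_4e5fcd_ag.Mon.P3
import Pool.Agent.Lib.MP_4e5fcd_ag.Mon.P7
import Pool.Agent.Lib.MP_4e5fcd_ag.Mon.H6

/-! # MON-P8: the candidate poles -/

open MvPolynomial

namespace MotMono.Mon

variable {N s : ℕ} (D : Data N s)

theorem Zs_mem (s₀ : ℚ) (hb : ∀ l, 0 < D.b l → s₀ ≠ -1 / (D.b l : ℚ))
    (hs : ∀ A, D.Cl A → D.Cn A → ∀ lam, D.Choice A lam → s₀ * D.mult A lam ≠ -D.theta A lam)
    (A : Finset (Fin s)) (hA : D.Cl A) (Q : Fin s → Finset (Fin N)) (hQ : ∀ i ∈ A, Q i ⊆ D.Bp i)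
    (k : Fin s → ℕ) : D.Zs A (D.tup Q k) ∈ polarRing s₀ := by
  classical
  induction A using Finset.strongInduction generalizing Q k with
  | H A ihA =>
    by_cases hc : D.Cn A
    · -- connected: induction on the number of variables
      have main : ∀ M : ℕ, ∀ Q : Fin s → Finset (Fin N), (∀ i ∈ A, Q i ⊆ D.Bp i) →
          ∑ i ∈ A, (Q i).card = M → ∀ k, D.Zs A (D.tup Q k) ∈ polarRing s₀ := by
        intro M
        induction M using Nat.strong_induction_on with
        | _ M ih =>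
          intro Q hQ hM k
          refine Zs_mem_conn D s₀ hb A hA (hs A hA hc) ?_ Q hQ ?_ k
          · intro A' hA' hcl Q' hQ' k'
            exact ihA A' hA' hcl Q' hQ' k'
          · intro Q' hQ' hlt k'
            exact ih _ (hM ▸ hlt) Q' hQ' rfl k'
      exact main _ Q hQ rfl k
    · obtain ⟨A₁, A₂, hdis, hun, hne, htop, hcl⟩ := exists_sep D A hA hc
      have hsub : A₁ ⊂ A := by
        refine Finset.ssubset_iff_subset_ne.2 ⟨hun ▸ Finset.subset_union_left, fun h => ?_⟩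
        obtain ⟨x, hx⟩ := hne
        have h1 : x ∈ A₁ := by
          rw [h, ← hun]
          exact Finset.mem_union_right _ hx
        exact Finset.disjoint_left.1 hdis h1 hx
      have hp : D.Consist (D.tup Q k) A₂ := by
        intro i _ n
        have h1 := pr_consist D i (Q i) (n + k i)
        have e : n + 1 + k i = n + k i + 1 := by ring
        change (D.pr i (Q i) (n + k i)).2 - (D.pr i (Q i) (n + 1 + k i)).2 =
          PowerSeries.C (D.cc i) * (D.pr i (Q i) (n + k i)).1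
        rw [e]
        exact h1
      rw [← hun, Zs_sep D A₁ A₂ hdis htop _ hp]
      refine (polarRing s₀).mul_mem ?_ ((polarRing s₀).prod_mem fun i _ =>
        (pr_mem D s₀ hb i (Q i) (0 + k i)).2)
      exact ihA A₁ hsub hcl Q (fun i hi => hQ i (hsub.1 hi)) k

theorem exists_cand (s₀ : ℚ) (h : IsPole (Zmot D.I) s₀) :
    (∃ l, 0 < D.b l ∧ s₀ = -1 / (D.b l : ℚ)) ∨
      ∃ A lam, D.Cl A ∧ D.Cn A ∧ D.Choice A lam ∧ s₀ * D.mult A lam = -D.theta A lam := by
  by_contra hcon
  rw [not_or] at hcon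
  obtain ⟨h1, h2⟩ := hcon
  apply h
  have e : (fun i n => D.pr i (D.Bp i) n : Seqs s) = D.tup D.Bp (fun _ => 0) := rfl
  rw [Zmot_eq, e]
  refine Zs_mem D s₀ (fun l hl he => h1 ⟨l, hl, he⟩) ?_ Finset.univ (Cl_univ D) _
    (fun i _ => Finset.Subset.refl _) _
  intro A hcl hcn lam hch he
  exact h2 ⟨A, lam, hcl, hcn, hch, he⟩

end MotMono.Mon
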