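import Pool.Agent.Lib.MP_4e5fcd_ag.Mon.RDefs

/-! # MON-R1b: the curve -/

open MvPolynomial

namespace MotMono.Mon

variable {N s : ℕ} {D : Data N s} (S : D.Str)

/-- order at least `n`, with coefficient `c` at the index `n` -/
def R1b_Lead (P : Polynomial ℂ) (n : ℕ) (c : ℂ) : Prop :=
  ∃ Q : Polynomial ℂ, P = Polynomial.X ^ n * Q ∧ Q.coeff 0 = c

theorem R1b_Lead.mul {P P' : Polynomial ℂ} {n n' : ℕ} {c c' : ℂ} (h : R1b_Lead P n c)
    (h' : R1b_Lead P' n' c') : R1b_Lead (P * P') (n + n') (c * c') := by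
  obtain ⟨Q, hQ, hc⟩ := h
  obtain ⟨Q', hQ', hc'⟩ := h'
  refine ⟨Q * Q', ?_, ?_⟩
  · rw [hQ, hQ']; ring
  · rw [Polynomial.mul_coeff_zero, hc, hc']

theorem R1b_Lead.one : R1b_Lead 1 0 1 := ⟨1, by simp, by simp⟩

theorem R1b_Lead.prod {ι : Type*} (t : Finset ι) {P : ι → Polynomial ℂ} {n : ι → ℕ} {c : ι → ℂ}
    (h : ∀ i ∈ t, R1b_Lead (P i) (n i) (c i)) :
    R1b_Lead (∏ i ∈ t, P i) (∑ i ∈ t, n i) (∏ i ∈ t, c i) := by
  classical
  induction t using Finset.induction_on with
  | empty => simpa using R1b_Lead.one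
  | insert a t ha ih =>
    rw [Finset.prod_insert ha, Finset.sum_insert ha, Finset.prod_insert ha]
    exact (h a (Finset.mem_insert_self a t)).mul
      (ih fun i hi => h i (Finset.mem_insert_of_mem hi))

theorem R1b_Lead.coeff {P : Polynomial ℂ} {n : ℕ} {c : ℂ} (h : R1b_Lead P n c) :
    P.coeff n = c := by
  obtain ⟨Q, hQ, hc⟩ := h
  rw [hQ, Polynomial.coeff_X_pow_mul']
  simp [hc]

theorem R1b_Lead.coeff_lt {P : Polynomial ℂ} {n : ℕ} {c : ℂ} (h : R1b_Lead P n c) {e : ℕ}
    (he : e < n) : P.coeff e = 0 := by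
  obtain ⟨Q, hQ, hc⟩ := h
  rw [hQ, Polynomial.coeff_X_pow_mul', if_neg (by omega)]

theorem R1b_coeff_zero {g : Fin N → Polynomial ℂ} {p : Fin N → ℂ}
    (hg : ∀ l, (g l).coeff 0 = p l) (h : MvPolynomial (Fin N) ℂ) :
    (aeval g h : Polynomial ℂ).coeff 0 = eval p h := by
  induction h using MvPolynomial.induction_on with
  | C a => simp [Polynomial.algebraMap_apply]
  | add f f' hf hf' => rw [map_add, map_add, Polynomial.coeff_add, hf, hf']
  | mul_X f l hf => rw [map_mul, map_mul, Polynomial.mul_coeff_zero, hf, aeval_X, eval_X, hg l]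

/-- A curve through `p` with direction `x`. -/
theorem exists_curve : ∃ (g : Fin N → Polynomial ℂ) (M : ℕ) (η : Fin s → ℂ) (u : ℂ),
    0 < M ∧ (∀ l, (g l).coeff 0 = S.p l) ∧
    (∀ i ∈ S.A2, η i ≠ 0 ∧ S.kap i * η i ^ D.d (S.lam i) = S.x i) ∧
    u = (∏ i ∈ S.A2, η i ^ D.b (S.lam i)) *
      ∏ l ∈ Finset.univ.filter (fun l => S.p l ≠ 0), S.p l ^ D.b l ∧
    (∀ f ∈ D.I, ∀ e < M, (aeval g f : Polynomial ℂ).coeff e = 0) ∧
    ∀ (h : MvPolynomial (Fin N) ℂ) (a : Fin D.m → Fin s → ℂ), (∀ j, a j ∈ D.ann) →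
      (aeval g (h * D.gen a) : Polynomial ℂ).coeff M = eval S.p h * (u * ∏ j, a j ⬝ᵥ S.x) := by
  classical
  -- basic facts
  have hlamβ : ∀ i ∈ S.A2, D.β (S.lam i) = i := by
    intro i hi
    rw [← S.pv_lam i hi]
    exact S.pv_block i
  have hA2Ab : ∀ i ∈ S.A2, i ∉ S.Ab := fun i hi => Finset.disjoint_left.mp S.disj hi
  have hkap : ∀ i ∈ S.A2, S.kap i ≠ 0 := by
    intro i hi
    unfold Data.Str.kap
    refine Finset.prod_ne_zero_iff.mpr fun l hl => pow_ne_zero _ ?_
    rw [Finset.mem_erase, Data.B, Finset.mem_filter] at hl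
    obtain ⟨hl1, -, hl2⟩ := hl
    refine S.p_ne l ?_ ?_
    · rw [hl2]; exact hA2Ab i hi
    · rw [hl2, S.pv_lam i hi]; exact hl1
  have hη : ∀ i, ∃ e : ℂ, i ∈ S.A2 → e ≠ 0 ∧ S.kap i * e ^ D.d (S.lam i) = S.x i := by
    intro i
    by_cases hi : i ∈ S.A2
    · obtain ⟨e, he⟩ := IsAlgClosed.exists_pow_nat_eq (S.x i / S.kap i) (D.hd (S.lam i))
      refine ⟨e, fun _ => ⟨?_, ?_⟩⟩
      · intro h0
        rw [h0, zero_pow (D.hd (S.lam i)).ne'] at he
        exact div_ne_zero (S.x_A2 i hi) (hkap i hi) he.symm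
      · rw [he, mul_div_cancel₀ _ (hkap i hi)]
    · exact ⟨0, fun h => absurd h hi⟩
  choose η hη using hη
  set E : ℕ := ∏ l, D.d l with hE
  have hE0 : 0 < E := Finset.prod_pos fun l _ => D.hd l
  have hEd : ∀ l, D.d l ∣ E := fun l => Finset.dvd_prod_of_mem D.d (Finset.mem_univ l)
  -- the derivatives
  set K : Fin s → ℂ := fun i => ∏ l ∈ (D.B i).erase (S.pv i), S.p l ^ D.d l with hK
  have hc : ∀ i, ∃ c : ℂ, i ∉ S.A2 → i ∉ S.Ab →
      (D.d (S.pv i) : ℂ) * S.p (S.pv i) ^ (D.d (S.pv i) - 1) * c * K i = S.x i := by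
    intro i
    by_cases hi : i ∉ S.A2 ∧ i ∉ S.Ab
    · obtain ⟨hi1, hi2⟩ := hi
      have hK0 : K i ≠ 0 := by
        refine Finset.prod_ne_zero_iff.mpr fun l hl => pow_ne_zero _ ?_
        rw [Finset.mem_erase, Data.B, Finset.mem_filter] at hl
        obtain ⟨hl1, -, hl2⟩ := hl
        refine S.p_ne l ?_ ?_
        · rw [hl2]; exact hi2
        · rw [hl2]; exact hl1
      have hp0 : S.p (S.pv i) ^ (D.d (S.pv i) - 1) ≠ 0 := by
        rcases S.p_smooth i hi1 hi2 with h | ⟨h, -⟩
        · exact pow_ne_zero _ h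
        · rw [h]; simp
      have hd0 : (D.d (S.pv i) : ℂ) ≠ 0 := by
        exact_mod_cast (D.hd (S.pv i)).ne'
      refine ⟨S.x i / ((D.d (S.pv i) : ℂ) * S.p (S.pv i) ^ (D.d (S.pv i) - 1) * K i),
        fun _ _ => ?_⟩
      field_simp
    · exact ⟨0, fun h1 h2 => absurd ⟨h1, h2⟩ hi⟩
  choose c hc using hc
  -- the curve
  set g : Fin N → Polynomial ℂ := fun l =>
    if D.β l ∈ S.A2 ∧ l = S.lam (D.β l) then
      Polynomial.C (η (D.β l)) * Polynomial.X ^ (E / D.d l)
    else if D.β l ∉ S.A2 ∧ D.β l ∉ S.Ab ∧ l = S.pv (D.β l) then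
      Polynomial.C (S.p l) + Polynomial.C (c (D.β l)) * Polynomial.X ^ E
    else Polynomial.C (S.p l) with hg
  have hEd0 : ∀ l, 0 < E / D.d l := fun l => Nat.div_pos (Nat.le_of_dvd hE0 (hEd l)) (D.hd l)
  have hg0 : ∀ l, (g l).coeff 0 = S.p l := by
    intro l
    simp only [hg]
    split_ifs with h1 h2
    · rw [Polynomial.mul_coeff_zero, Polynomial.coeff_X_pow, if_neg (hEd0 l).ne, mul_zero,
        h1.2, S.p_lam _ h1.1]
    · rw [Polynomial.coeff_add, Polynomial.coeff_C_zero, Polynomial.mul_coeff_zero,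
        Polynomial.coeff_X_pow, if_neg hE0.ne, mul_zero, add_zero]
    · rw [Polynomial.coeff_C_zero]
  -- the monomials along the curve
  have hM : ∀ i, ∃ R : Polynomial ℂ, ∏ l ∈ D.B i, g l ^ D.d l =
      Polynomial.C (∏ l ∈ D.B i, S.p l ^ D.d l) + Polynomial.C (S.x i) * Polynomial.X ^ E +
        Polynomial.X ^ (E + 1) * R := by
    intro i
    by_cases hi : i ∈ S.A2
    · have hmem : S.lam i ∈ D.B i := by
        rw [Data.B, Finset.mem_filter]
        exact ⟨Finset.mem_univ _, hlamβ i hi⟩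
      refine ⟨0, ?_⟩
      rw [← Finset.mul_prod_erase _ _ hmem, ← Finset.mul_prod_erase _ (fun l => S.p l ^ D.d l) hmem]
      have h1 : g (S.lam i) = Polynomial.C (η i) * Polynomial.X ^ (E / D.d (S.lam i)) := by
        simp only [hg]
        rw [hlamβ i hi, if_pos ⟨hi, rfl⟩]
      have h2 : ∀ l ∈ (D.B i).erase (S.lam i), g l ^ D.d l = Polynomial.C (S.p l ^ D.d l) := by
        intro l hl
        rw [Finset.mem_erase, Data.B, Finset.mem_filter] at hl
        obtain ⟨hl1, -, hl2⟩ := hl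
        simp only [hg]
        rw [if_neg (by rw [hl2]; exact fun h => hl1 h.2),
          if_neg (by rw [hl2]; exact fun h => h.1 hi), Polynomial.C_pow]
      rw [h1, Finset.prod_congr rfl h2, S.p_lam i hi, zero_pow (D.hd _).ne', zero_mul,
        ← map_prod Polynomial.C, mul_pow, ← pow_mul, Nat.div_mul_cancel (hEd _),
        ← Polynomial.C_pow]
      have h3 := (hη i hi).2
      rw [← h3]
      unfold Data.Str.kap
      rw [Polynomial.C_mul, Polynomial.C_0]
      ring
    · by_cases hi2 : i ∈ S.Ab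
      · obtain ⟨hb1, hb2, hb3, hb4⟩ := S.deep1 i hi2
        have hmem : S.lam i ∈ D.B i := by
          rw [Data.B, Finset.mem_filter]
          exact ⟨Finset.mem_univ _, hb1⟩
        refine ⟨0, ?_⟩
        have h1 : g (S.lam i) = 0 := by
          simp only [hg]
          rw [hb1, if_neg (fun h => hi h.1), if_neg (fun h => h.2.1 hi2), hb4, Polynomial.C_0]
        rw [← Finset.mul_prod_erase _ _ hmem,
          ← Finset.mul_prod_erase _ (fun l => S.p l ^ D.d l) hmem, h1, hb4, S.x_Ab i hi2, hb2]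
        simp
      · have hmem : S.pv i ∈ D.B i := by
          rw [Data.B, Finset.mem_filter]
          exact ⟨Finset.mem_univ _, S.pv_block i⟩
        have h1 : g (S.pv i) = Polynomial.C (S.p (S.pv i)) +
            Polynomial.C (c i) * Polynomial.X ^ E := by
          simp only [hg]
          rw [S.pv_block i, if_neg (fun h => hi h.1), if_pos ⟨hi, hi2, rfl⟩]
        have h2 : ∀ l ∈ (D.B i).erase (S.pv i), g l ^ D.d l = Polynomial.C (S.p l ^ D.d l) := by
          intro l hl
          rw [Finset.mem_erase, Data.B, Finset.mem_filter] at hl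
          obtain ⟨hl1, -, hl2⟩ := hl
          simp only [hg]
          rw [if_neg (by rw [hl2]; exact fun h => hi h.1),
            if_neg (by rw [hl2]; exact fun h => hl1 h.2.2), Polynomial.C_pow]
        obtain ⟨Q, hQ⟩ := Polynomial.powAddExpansion (Polynomial.C (S.p (S.pv i)))
          (Polynomial.C (c i) * Polynomial.X ^ E) (D.d (S.pv i))
        refine ⟨Q * Polynomial.C (c i) ^ 2 * Polynomial.X ^ (E - 1) * Polynomial.C (K i), ?_⟩
        rw [← Finset.mul_prod_erase _ _ hmem,
          ← Finset.mul_prod_erase _ (fun l => S.p l ^ D.d l) hmem, h1,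
          Finset.prod_congr rfl h2, ← map_prod Polynomial.C, hQ, ← hc i hi hi2]
        have h3 : (Polynomial.X : Polynomial ℂ) ^ (E + 1) * Polynomial.X ^ (E - 1) =
            (Polynomial.X ^ E) ^ 2 := by
          rw [← pow_add, ← pow_mul]
          congr 1
          omega
        have h4 : (∏ l ∈ (D.B i).erase (S.pv i), S.p l ^ D.d l) = K i := rfl
        rw [h4]
        simp only [Polynomial.C_mul, Polynomial.C_pow, Polynomial.C_eq_natCast]
        calc _ = Polynomial.C (S.p (S.pv i)) ^ D.d (S.pv i) * Polynomial.C (K i) +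
              (D.d (S.pv i) : Polynomial ℂ) * Polynomial.C (S.p (S.pv i)) ^ (D.d (S.pv i) - 1) *
                Polynomial.C (c i) * Polynomial.C (K i) * Polynomial.X ^ E +
              (Polynomial.X ^ E) ^ 2 * (Q * Polynomial.C (c i) ^ 2 * Polynomial.C (K i)) := by
              ring
          _ = _ := by
              rw [← h3]
              ring
  -- linear forms along the curve
  have hform : ∀ a ∈ D.ann, R1b_Lead (∑ i, Polynomial.C (a i) * ∏ l ∈ D.B i, g l ^ D.d l) E
      (a ⬝ᵥ S.x) := by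
    intro a ha
    choose R hR using hM
    refine ⟨Polynomial.C (a ⬝ᵥ S.x) + Polynomial.X * ∑ i, Polynomial.C (a i) * R i, ?_, by simp⟩
    have h1 := ha _ S.p_W
    calc ∑ i, Polynomial.C (a i) * ∏ l ∈ D.B i, g l ^ D.d l
        = ∑ i, (Polynomial.C (a i * ∏ l ∈ D.B i, S.p l ^ D.d l) +
            Polynomial.C (a i * S.x i) * Polynomial.X ^ E +
            Polynomial.X ^ (E + 1) * (Polynomial.C (a i) * R i)) := by
          refine Finset.sum_congr rfl fun i _ => ?_
          rw [hR i, Polynomial.C_mul, Polynomial.C_mul]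
          ring
      _ = Polynomial.C (a ⬝ᵥ fun i => ∏ l ∈ D.B i, S.p l ^ D.d l) +
            Polynomial.C (a ⬝ᵥ S.x) * Polynomial.X ^ E +
            Polynomial.X ^ (E + 1) * ∑ i, Polynomial.C (a i) * R i := by
          rw [Finset.sum_add_distrib, Finset.sum_add_distrib, ← Finset.sum_mul, ← map_sum,
            ← map_sum, Finset.mul_sum]
          rfl
      _ = _ := by
          rw [h1, Polynomial.C_0, pow_succ]
          ring
  -- the monomial factor along the curve
  set nn : Fin N → ℕ := fun l =>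
    if D.β l ∈ S.A2 ∧ l = S.lam (D.β l) then D.b l * (E / D.d l) else 0 with hnn
  set c1 : Fin N → ℂ := fun l =>
    if D.β l ∈ S.A2 ∧ l = S.lam (D.β l) then η (D.β l) ^ D.b l else 1 with hc1
  set c2 : Fin N → ℂ := fun l => if S.p l ≠ 0 then S.p l ^ D.b l else 1 with hc2
  have hmon : ∀ l, R1b_Lead (g l ^ D.b l) (nn l) (c1 l * c2 l) := by
    intro l
    by_cases h1 : D.β l ∈ S.A2 ∧ l = S.lam (D.β l)
    · have hp : S.p l = 0 := by
        rw [h1.2]; exact S.p_lam _ h1.1
      refine ⟨Polynomial.C (η (D.β l) ^ D.b l), ?_, ?_⟩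
      · simp only [hg, hnn]
        rw [if_pos h1, if_pos h1, mul_pow, ← pow_mul, Polynomial.C_pow, mul_comm (D.b l)]
        ring
      · simp only [hc1, hc2]
        rw [if_pos h1, if_neg (by simpa using hp), mul_one, Polynomial.coeff_C_zero]
    · refine ⟨g l ^ D.b l, ?_, ?_⟩
      · simp only [hnn]
        rw [if_neg h1, pow_zero, one_mul]
      · have h2 : (g l ^ D.b l).coeff 0 = S.p l ^ D.b l := by
          rw [Polynomial.coeff_zero_eq_eval_zero, Polynomial.eval_pow,
            ← Polynomial.coeff_zero_eq_eval_zero, hg0 l]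
        simp only [hc1, hc2]
        rw [if_neg h1, one_mul, h2]
        by_cases h3 : S.p l = 0
        · rw [if_neg (by simpa using h3)]
          have h4 : D.b l = 0 := by
            by_cases h5 : D.β l ∈ S.Ab
            · by_cases h6 : l = S.lam (D.β l)
              · rw [h6]; exact (S.deep1 _ h5).2.2.1
              · by_cases h7 : l = S.lam' (D.β l)
                · rw [h7]; exact (S.deep2 _ h5).2.2.1
                · exact absurd h3 (S.deep_p l h5 h6 h7)
            · have h6 : l = S.pv (D.β l) := by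
                by_contra h6
                exact S.p_ne l h5 h6 h3
              have h7 : D.β l ∉ S.A2 := by
                intro h8
                exact h1 ⟨h8, by rw [← S.pv_lam _ h8]; exact h6⟩
              rcases S.p_smooth _ h7 h5 with h8 | ⟨-, h8⟩
              · rw [← h6] at h8; exact absurd h3 h8
              · rw [← h6] at h8; exact h8
          rw [h4, pow_zero]
        · rw [if_pos h3]
  have hu : ∏ l, (c1 l * c2 l) = (∏ i ∈ S.A2, η i ^ D.b (S.lam i)) *
      ∏ l ∈ Finset.univ.filter (fun l => S.p l ≠ 0), S.p l ^ D.b l := by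
    rw [Finset.prod_mul_distrib]
    congr 1
    · simp only [hc1]
      rw [← Finset.prod_filter]
      have h1 : Finset.univ.filter (fun l => D.β l ∈ S.A2 ∧ l = S.lam (D.β l)) =
          S.A2.image S.lam := by
        ext l
        simp only [Finset.mem_filter, Finset.mem_univ, true_and, Finset.mem_image]
        constructor
        · intro h; exact ⟨D.β l, h.1, h.2.symm⟩
        · rintro ⟨i, hi, rfl⟩
          rw [hlamβ i hi]
          exact ⟨hi, rfl⟩
      rw [h1, Finset.prod_image]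
      · refine Finset.prod_congr rfl fun i hi => ?_
        rw [hlamβ i hi]
      · intro i hi j hj hij
        rw [← hlamβ i hi, ← hlamβ j hj, hij]
    · simp only [hc2]
      rw [← Finset.prod_filter]
  set u : ℂ := ∏ l, (c1 l * c2 l) with hu0
  set M : ℕ := ∑ l, nn l + ∑ _j : Fin D.m, E with hMdef
  have hM0 : 0 < M := by
    have h1 : 0 < ∑ _j : Fin D.m, E := by
      rw [Finset.sum_const, Finset.card_univ, Fintype.card_fin, smul_eq_mul]
      exact Nat.mul_pos D.hm hE0
    omega
  have hgen : ∀ (h : MvPolynomial (Fin N) ℂ) (a : Fin D.m → Fin s → ℂ), (∀ j, a j ∈ D.ann) →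
      R1b_Lead (aeval g (h * D.gen a)) M (eval S.p h * (u * ∏ j, a j ⬝ᵥ S.x)) := by
    intro h a ha
    have h1 : R1b_Lead (aeval g h) 0 (eval S.p h) :=
      ⟨aeval g h, by rw [pow_zero, one_mul], R1b_coeff_zero hg0 h⟩
    have h2 : aeval g (D.gen a) = (∏ l, g l ^ D.b l) *
        ∏ j, ∑ i, Polynomial.C (a j i) * ∏ l ∈ D.B i, g l ^ D.d l := by
      unfold Data.gen blockMon
      simp only [map_mul, map_prod, map_sum, map_pow, aeval_X, aeval_C,
        Polynomial.algebraMap_apply, Algebra.algebraMap_self, RingHom.id_apply]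
      rfl
    have h3 : R1b_Lead (aeval g (D.gen a)) M (u * ∏ j, a j ⬝ᵥ S.x) := by
      rw [h2]
      exact (R1b_Lead.prod _ fun l _ => hmon l).mul
        (R1b_Lead.prod _ fun j _ => hform (a j) (ha j))
    have h4 := h1.mul h3
    rw [zero_add, ← map_mul] at h4
    exact h4
  refine ⟨g, M, η, u, hM0, hg0, hη, hu, ?_, fun h a ha => (hgen h a ha).coeff⟩
  refine I_induction D ?_ ?_ ?_
  · intro e _
    rw [map_zero, Polynomial.coeff_zero]
  · intro f f' _ _ hf hf' e he
    rw [map_add, Polynomial.coeff_add, hf e he, hf' e he, add_zero]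
  · intro h a ha e he
    exact (hgen h a ha).coeff_lt he

end MotMono.Mon
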