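import Pool.Agent.Lib.MP_4e5fcd_ag.Mon.RDefs
import Pool.Agent.Lib.MP_4e5fcd_ag.Mon.G1
import Pool.Agent.Lib.MP_4e5fcd_ag.Mon.G2

/-! # MON-R1c: the contact condition -/

open MvPolynomial

namespace MotMono.Mon

variable {N s : ℕ} {D : Data N s} (S : D.Str)

theorem R1c_zero (l : Fin N) (hp : S.p l = 0) :
    (∃ i ∈ S.A2, S.lam i = l) ∨ D.b l = 0 := by
  by_cases h1 : D.β l ∈ S.Ab
  · right
    by_cases h2 : l = S.lam (D.β l)
    · rw [h2]
      exact (S.deep1 _ h1).2.2.1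
    by_cases h3 : l = S.lam' (D.β l)
    · rw [h3]
      exact (S.deep2 _ h1).2.2.1
    exact absurd hp (S.deep_p l h1 h2 h3)
  · have h2 : l = S.pv (D.β l) := by
      by_contra h
      exact S.p_ne l h1 h hp
    by_cases h3 : D.β l ∈ S.A2
    · left
      exact ⟨_, h3, by rw [← S.pv_lam _ h3, ← h2]⟩
    · right
      rcases S.p_smooth _ h3 h1 with h4 | h4
      · rw [← h2] at h4
        exact absurd hp h4
      · rw [← h2] at h4
        exact h4.2

theorem R1c_lam_inj : ∀ i ∈ S.A2, ∀ j ∈ S.A2, S.lam i = S.lam j → i = j := by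
  intro i hi j hj h
  rw [← S.pv_block i, ← S.pv_block j, S.pv_lam i hi, S.pv_lam j hj, h]

theorem R1c_ord {n : ℕ} (γ : Fin N × Fin n → ℂ) (hn : 0 < n)
    (hγ : ∀ l, lc (fun _ => 0) γ l = S.p l) (l : Fin N) (hp : S.p l ≠ 0) :
    ord1 (fun j => γ (l, j)) = 0 ∧ lead1 (fun j => γ (l, j)) = S.p l := by
  have h1 := hγ l
  unfold lc at h1
  rw [dif_pos hn] at h1
  have h2 : ord1 (fun j => γ (l, j)) = 0 := by
    rw [ord1_eq_iff _ 0 (Nat.zero_le _)]
    refine ⟨fun j hj => absurd hj (Nat.not_lt_zero _), fun h => ?_⟩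
    show γ (l, ⟨0, h⟩) ≠ 0
    rw [h1]
    exact hp
  refine ⟨h2, ?_⟩
  unfold lead1
  rw [dif_pos (by rw [h2]; exact hn)]
  rw [← h1]
  show γ (l, _) = γ (l, _)
  congr 2
  exact Fin.ext h2

/-- the monomial factor along a jet over `p` -/
theorem lead_PP {n : ℕ} (γ : Fin N × Fin n → ℂ) (hn : 0 < n)
    (hγ : ∀ l, lc (fun _ => 0) γ l = S.p l)
    (ho : ∀ i ∈ S.A2, 0 < D.b (S.lam i) → ord1 (fun j => γ (S.lam i, j)) < n) :
    (∑ l, D.b l * ord1 (fun j => γ (l, j)) =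
        ∑ i ∈ S.A2, D.b (S.lam i) * ord1 (fun j => γ (S.lam i, j))) ∧
      ∏ l, lead1 (fun j => γ (l, j)) ^ D.b l =
        (∏ i ∈ S.A2, lead1 (fun j => γ (S.lam i, j)) ^ D.b (S.lam i)) *
          ∏ l ∈ Finset.univ.filter (fun l => S.p l ≠ 0), S.p l ^ D.b l := by
  classical
  constructor
  · rw [← Finset.sum_image (f := fun l => D.b l * ord1 (fun j => γ (l, j))) (R1c_lam_inj S)]
    symm
    refine Finset.sum_subset (Finset.subset_univ _) fun l _ hl => ?_
    by_cases hp : S.p l = 0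
    · rcases R1c_zero S l hp with ⟨i, hi, h1⟩ | h1
      · exact absurd (Finset.mem_image.2 ⟨i, hi, h1⟩) hl
      · rw [h1, zero_mul]
    · rw [(R1c_ord S γ hn hγ l hp).1, mul_zero]
  · rw [← Finset.prod_filter_mul_prod_filter_not Finset.univ (fun l => S.p l ≠ 0), mul_comm]
    congr 1
    · rw [← Finset.prod_image (f := fun l => lead1 (fun j => γ (l, j)) ^ D.b l) (R1c_lam_inj S)]
      symm
      refine Finset.prod_subset ?_ fun l hl hl2 => ?_
      · intro l hl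
        obtain ⟨i, hi, h1⟩ := Finset.mem_image.1 hl
        rw [Finset.mem_filter, ← h1]
        exact ⟨Finset.mem_univ _, not_not.2 (S.p_lam i hi)⟩
      · rw [Finset.mem_filter, not_not] at hl
        rcases R1c_zero S l hl.2 with ⟨i, hi, h1⟩ | h1
        · exact absurd (Finset.mem_image.2 ⟨i, hi, h1⟩) hl2
        · rw [h1, pow_zero]
    · refine Finset.prod_congr rfl fun l hl => ?_
      rw [(R1c_ord S γ hn hγ l (Finset.mem_filter.1 hl).2).2]

theorem R1c_zc_zero {n : ℕ} (γ : Fin N × Fin n → ℂ) (hn : 0 < n) (h0 : ∀ l, γ (l, ⟨0, hn⟩) = S.p l) :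
    zc D.β D.d γ 0 ∈ D.W := by
  have h2 : zc D.β D.d γ 0 = fun i => ∏ l ∈ D.B i, S.p l ^ D.d l := by
    funext i
    unfold zc
    rw [Polynomial.coeff_zero_eq_eval_zero, Polynomial.eval_prod]
    refine Finset.prod_congr rfl fun l _ => ?_
    rw [Polynomial.eval_pow, ← Polynomial.coeff_zero_eq_eval_zero, arc_coeff, dif_pos hn, h0 l]
  rw [h2]
  exact S.p_W

/-- the jets with contact `d` -/
theorem contact_iff (η : Fin s → ℂ) (hη : ∀ i ∈ S.A2, η i ≠ 0) (u : ℂ)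
    (hu : u = (∏ i ∈ S.A2, η i ^ D.b (S.lam i)) *
      ∏ l ∈ Finset.univ.filter (fun l => S.p l ≠ 0), S.p l ^ D.b l)
    (y : MvPolynomial (Fin N) ℂ → ℂ) (y0 : y 0 = 0)
    (yadd : ∀ f ∈ D.I, ∀ g ∈ D.I, y (f + g) = y f + y g)
    (ygen : ∀ (h : MvPolynomial (Fin N) ℂ) (a : Fin D.m → Fin s → ℂ), (∀ j, a j ∈ D.ann) →
      y (h * D.gen a) = eval S.p h * (u * ∏ j, a j ⬝ᵥ S.x)) (d : ℕ)
    (γ : Fin N × Fin (d + 1) → ℂ) :
    ((∀ l, γ (l, 0) = S.p l) ∧ ∀ f ∈ D.I, (∀ e < d, (along f γ).coeff e = 0) ∧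
      (along f γ).coeff d = y f) ↔ γ ∈ S.CA η d := by
  have hQ : ∏ l ∈ Finset.univ.filter (fun l => S.p l ≠ 0), S.p l ^ D.b l ≠ 0 :=
    Finset.prod_ne_zero_iff.2 fun l hl => pow_ne_zero _ (Finset.mem_filter.1 hl).2
  have hE : ∏ i ∈ S.A2, η i ^ D.b (S.lam i) ≠ 0 :=
    Finset.prod_ne_zero_iff.2 fun i hi => pow_ne_zero _ (hη i hi)
  have hu0 : u ≠ 0 := by
    rw [hu]
    exact mul_ne_zero hE hQ
  have hlc : (∀ l, γ (l, 0) = S.p l) → ∀ l, lc (fun _ => 0) γ l = S.p l := by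
    intro h0 l
    unfold lc
    rw [dif_pos (Nat.succ_pos d)]
    exact h0 l
  -- the product of the leading coefficients
  have hprod : ∀ z : ℂ, (∏ i ∈ S.A2, (lead1 (fun j => γ (S.lam i, j)) / η i) ^ D.b (S.lam i)) *
      z = 1 ↔ (∏ i ∈ S.A2, lead1 (fun j => γ (S.lam i, j)) ^ D.b (S.lam i)) * z =
        ∏ i ∈ S.A2, η i ^ D.b (S.lam i) := by
    intro z
    have e : ∏ i ∈ S.A2, (lead1 (fun j => γ (S.lam i, j)) / η i) ^ D.b (S.lam i) =
        (∏ i ∈ S.A2, lead1 (fun j => γ (S.lam i, j)) ^ D.b (S.lam i)) /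
          ∏ i ∈ S.A2, η i ^ D.b (S.lam i) := by
      rw [← Finset.prod_div_distrib]
      exact Finset.prod_congr rfl fun i _ => div_pow _ _ _
    rw [e, div_mul_eq_mul_div, div_eq_one_iff_eq hE]
  constructor
  · rintro ⟨h0, hf⟩
    have hlc' := hlc h0
    have hfun : (fun l => lc (fun _ => 0) γ l) = S.p := funext hlc'
    have hg1 : ∀ a : Fin D.m → Fin s → ℂ, (∀ j, a j ∈ D.ann) →
        (along (1 * D.gen a) γ).coeff d = u * ∏ j, a j ⬝ᵥ S.x := by
      intro a ha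
      rw [(hf _ (gen_mem D 1 a ha)).2, ygen 1 a ha, map_one, one_mul]
    have hax : (along (1 * D.gen fun _ => S.a) γ).coeff d = u := by
      rw [hg1 _ fun _ => S.a_ann]
      rw [S.ax, Finset.prod_const_one, mul_one]
    obtain ⟨κ, c, hle, hP0, hPne, hW, hnW⟩ := exists_orders D γ d (Nat.lt_succ_self d)
      ⟨_, gen_mem D 1 _ fun _ => S.a_ann, by rw [hax]; exact hu0⟩
    obtain ⟨-, hco⟩ := coeff_along D γ κ c hP0 hW
    have hκ : κ + D.m * c = d := by
      obtain ⟨a', ha', h1⟩ := exists_ann D _ hnW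
      have h2 := hco 1 (fun _ => a') fun _ => ha'
      rw [h1, Finset.prod_const_one, mul_one, map_one] at h2
      by_contra hne
      have h3 := (hf _ (gen_mem D 1 (fun _ => a') fun _ => ha')).1 (κ + D.m * c)
        (lt_of_le_of_ne hle hne)
      rw [h3, one_mul] at h2
      exact hPne h2.symm
    have hc0 : 0 < c := by
      rcases Nat.eq_zero_or_pos c with h | h
      · subst h
        exact absurd (R1c_zc_zero S γ (Nat.succ_pos d) h0) hnW
      · exact h
    have hcd : c ≤ d := by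
      have h1 : 1 * c ≤ D.m * c := Nat.mul_le_mul_right c D.hm
      omega
    have hκd : κ < d + 1 := by omega
    have hsum := (PP_order_iff D γ κ hκd).1 ⟨hP0, hPne⟩
    have hol : ∀ l, 0 < D.b l → ord1 (fun j => γ (l, j)) < d + 1 := by
      intro l hl
      have h1 : D.b l * ord1 (fun j => γ (l, j)) ≤ κ := by
        rw [← hsum]
        exact Finset.single_le_sum (f := fun l => D.b l * ord1 (fun j => γ (l, j)))
          (fun _ _ => Nat.zero_le _) (Finset.mem_univ l)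
      have h2 : 1 * ord1 (fun j => γ (l, j)) ≤ D.b l * ord1 (fun j => γ (l, j)) :=
        Nat.mul_le_mul_right _ hl
      omega
    obtain ⟨hl1, hl2⟩ := lead_PP S γ (Nat.succ_pos d) hlc' fun i _ hb => hol _ hb
    obtain ⟨-, hPc, -⟩ := PP_coeff D γ hol
    rw [hsum, hl2] at hPc
    -- the basic identity
    have hid : ∀ a : Fin D.m → Fin s → ℂ, (∀ j, a j ∈ D.ann) →
        (D.PP γ).coeff κ * ∏ j, a j ⬝ᵥ zc D.β D.d γ c = u * ∏ j, a j ⬝ᵥ S.x := by
      intro a ha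
      have h1 := hco 1 a ha
      rw [hκ, hg1 a ha, map_one, one_mul] at h1
      exact h1.symm
    have hida : (D.PP γ).coeff κ * (S.a ⬝ᵥ zc D.β D.d γ c) ^ D.m = u := by
      have h1 := hid (fun _ => S.a) fun _ => S.a_ann
      rw [S.ax, Finset.prod_const_one, mul_one, Finset.prod_const, Finset.card_univ,
        Fintype.card_fin] at h1
      exact h1
    have haz : S.a ⬝ᵥ zc D.β D.d γ c ≠ 0 := by
      intro h1
      rw [h1, zero_pow D.hm.ne', mul_zero] at hida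
      exact hu0 hida.symm
    refine ⟨h0, c, hc0, hcd, hW, ?_, ?_, ?_⟩
    · refine mem_W_of_ann D _ fun r hr => ?_
      rw [dotProduct_sub, dotProduct_smul, smul_eq_mul, sub_eq_zero]
      have h1 := hid (fun j => if j = ⟨0, D.hm⟩ then r else S.a) (fun j => by
        by_cases h : j = ⟨0, D.hm⟩
        · rw [if_pos h]; exact hr
        · rw [if_neg h]; exact S.a_ann)
      have h2 : ∀ v : Fin s → ℂ, ∏ j : Fin D.m, (if j = ⟨0, D.hm⟩ then r else S.a) ⬝ᵥ v =
          (r ⬝ᵥ v) * (S.a ⬝ᵥ v) ^ (D.m - 1) := by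
        intro v
        rw [← Finset.mul_prod_erase Finset.univ _ (Finset.mem_univ (⟨0, D.hm⟩ : Fin D.m)),
          if_pos rfl]
        congr 1
        rw [Finset.prod_congr rfl (g := fun _ => S.a ⬝ᵥ v) (fun j hj => by
          rw [if_neg (Finset.ne_of_mem_erase hj)]), Finset.prod_const,
          Finset.card_erase_of_mem (Finset.mem_univ _), Finset.card_univ, Fintype.card_fin]
      rw [h2, h2, S.ax, one_pow, mul_one] at h1
      have h3 : (S.a ⬝ᵥ zc D.β D.d γ c) ^ D.m =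
          (S.a ⬝ᵥ zc D.β D.d γ c) ^ (D.m - 1) * (S.a ⬝ᵥ zc D.β D.d γ c) := by
        rw [← pow_succ, Nat.sub_add_cancel D.hm]
      rw [h3] at hida
      have h4 : u * (r ⬝ᵥ zc D.β D.d γ c) = u * ((S.a ⬝ᵥ zc D.β D.d γ c) * (r ⬝ᵥ S.x)) := by
        linear_combination (-(r ⬝ᵥ zc D.β D.d γ c)) * hida + (S.a ⬝ᵥ zc D.β D.d γ c) * h1
      exact mul_left_cancel₀ hu0 h4
    · rw [← hl1, hsum]
      exact hκ
    · rw [hprod]
      rw [hPc, hu, mul_right_comm] at hida
      exact mul_right_cancel₀ hQ hida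
  · rintro ⟨h0, ℓ, hℓ, hℓd, hW, hx, hs, hp⟩
    rw [hprod] at hp
    have hlc' := hlc h0
    have hfun : (fun l => lc (fun _ => 0) γ l) = S.p := funext hlc'
    have hoA : ∀ i ∈ S.A2, 0 < D.b (S.lam i) → ord1 (fun j => γ (S.lam i, j)) < d + 1 := by
      intro i hi hb
      have h1 : D.b (S.lam i) * ord1 (fun j => γ (S.lam i, j)) ≤
          ∑ i ∈ S.A2, D.b (S.lam i) * ord1 (fun j => γ (S.lam i, j)) :=
        Finset.single_le_sum (f := fun i => D.b (S.lam i) * ord1 (fun j => γ (S.lam i, j)))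
          (fun _ _ => Nat.zero_le _) hi
      have h2 : 1 * ord1 (fun j => γ (S.lam i, j)) ≤
          D.b (S.lam i) * ord1 (fun j => γ (S.lam i, j)) := Nat.mul_le_mul_right _ hb
      omega
    have hol : ∀ l, 0 < D.b l → ord1 (fun j => γ (l, j)) < d + 1 := by
      intro l hl
      by_cases hpl : S.p l = 0
      · rcases R1c_zero S l hpl with ⟨i, hi, h1⟩ | h1
        · rw [← h1] at hl ⊢
          exact hoA i hi hl
        · omega
      · rw [(R1c_ord S γ (Nat.succ_pos d) hlc' l hpl).1]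
        exact Nat.succ_pos d
    obtain ⟨hl1, hl2⟩ := lead_PP S γ (Nat.succ_pos d) hlc' hoA
    obtain ⟨hP0, hPc, -⟩ := PP_coeff D γ hol
    rw [hl1] at hP0 hPc
    rw [hl2] at hPc
    obtain ⟨hc1, hc2⟩ := coeff_along D γ _ ℓ hP0 hW
    rw [hs] at hc1 hc2
    refine ⟨h0, fun f hf => ⟨hc1 f hf, ?_⟩⟩
    refine I_induction D (P := fun f => (along f γ).coeff d = y f) ?_ ?_ ?_ f hf
    · rw [y0]
      unfold along
      rw [map_zero, Polynomial.coeff_zero]
    · intro f g hf hg h1 h2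
      rw [yadd f hf g hg, ← h1, ← h2]
      unfold along
      rw [map_add, Polynomial.coeff_add]
    · intro h a ha
      rw [hc2 h a ha, hfun, ygen h a ha, hPc]
      congr 1
      have h1 : ∏ j, a j ⬝ᵥ zc D.β D.d γ ℓ = (S.a ⬝ᵥ zc D.β D.d γ ℓ) ^ D.m * ∏ j, a j ⬝ᵥ S.x := by
        have h2 : ∀ j, a j ⬝ᵥ zc D.β D.d γ ℓ = (S.a ⬝ᵥ zc D.β D.d γ ℓ) * (a j ⬝ᵥ S.x) := by
          intro j
          have h3 := ha j _ hx
          rw [dotProduct_sub, dotProduct_smul, smul_eq_mul, sub_eq_zero] at h3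
          exact h3
        rw [Finset.prod_congr rfl fun j _ => h2 j, Finset.prod_mul_distrib, Finset.prod_const,
          Finset.card_univ, Fintype.card_fin]
      rw [h1, hu, ← hp]
      ring

end MotMono.Mon
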