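import Pool.Agent.Lib.MP_4e5fcd_ag.Mon.R1a
import Pool.Agent.Lib.MP_4e5fcd_ag.Mon.R1b
import Pool.Agent.Lib.MP_4e5fcd_ag.Mon.R1c

/-! # MON-R1: the point of the normal cone -/

open MvPolynomial

namespace MotMono.Mon

variable {N s : ℕ} {D : Data N s} (S : D.Str)

theorem exists_cone : ∃ (y : ConePoint D.I S.p) (η : Fin s → ℂ), y.Nonzero ∧
    (∀ i ∈ S.A2, η i ≠ 0 ∧ S.kap i * η i ^ D.d (S.lam i) = S.x i) ∧
    ∀ d, contactArcs D.I S.p y d = S.CA η d := by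
  obtain ⟨g, M, η, u, hM, hg, hη, hu, hv, hco⟩ := exists_curve S
  obtain ⟨y, hy⟩ := exists_conePoint D.I S.p g hg M hv
  have hy1 : ∀ f ∈ D.I, y.φ 1 f = (aeval g f : Polynomial ℂ).coeff M := by
    intro f hf
    rw [hy 1 f (by rw [pow_one]; exact hf), one_mul]
  have hu0 : u ≠ 0 := by
    rw [hu]
    refine mul_ne_zero (Finset.prod_ne_zero_iff.2 fun i hi => pow_ne_zero _ (hη i hi).1)
      (Finset.prod_ne_zero_iff.2 fun l hl => pow_ne_zero _ (Finset.mem_filter.1 hl).2)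
  refine ⟨y, η, ⟨_, gen_mem D 1 (fun _ => S.a) fun _ => S.a_ann, ?_⟩, hη, fun d => ?_⟩
  · rw [hy1 _ (gen_mem D 1 (fun _ => S.a) fun _ => S.a_ann), hco 1 _ fun _ => S.a_ann, S.ax,
      Finset.prod_const_one, mul_one, map_one, one_mul]
    exact hu0
  · ext γ
    rw [← contact_iff S η (fun i hi => (hη i hi).1) u hu (fun f => y.φ 1 f) ?_ ?_ ?_ d γ]
    · exact Iff.rfl
    · show y.φ 1 0 = 0
      rw [hy1 0 (Submodule.zero_mem _), map_zero, Polynomial.coeff_zero]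
    · intro f hf f' hf'
      exact y.add 1 f (by rw [pow_one]; exact hf) f' (by rw [pow_one]; exact hf')
    · intro h a ha
      show y.φ 1 (h * D.gen a) = _
      rw [hy1 _ (gen_mem D h a ha), hco h a ha]

theorem eval_eq_zero (f : MvPolynomial (Fin N) ℂ) (hf : f ∈ D.I) : eval S.p f = 0 := by
  obtain ⟨g, M, η, u, hM, hg, hη, hu, hv, hco⟩ := exists_curve S
  obtain ⟨y, hy⟩ := exists_conePoint D.I S.p g hg M hv
  rw [← y.base f, hy 0 f (by rw [pow_zero, Ideal.one_eq_top]; exact Submodule.mem_top), zero_mul]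
  exact hv f hf 0 hM

end MotMono.Mon
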