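import Pool.Agent.Lib.MP_4e5fcd_ag.K2

/-! # MON-R1a: points of the normal cone from curves -/

open MvPolynomial

namespace MotMono.Mon

theorem R1a_dvd {N : ℕ} (I : Ideal (MvPolynomial (Fin N) ℂ)) (g : Fin N → Polynomial ℂ) (M : ℕ)
    (h : ∀ f ∈ I, ∀ e < M, (aeval g f : Polynomial ℂ).coeff e = 0) (k : ℕ)
    (f : MvPolynomial (Fin N) ℂ) (hf : f ∈ I ^ k) :
    (Polynomial.X : Polynomial ℂ) ^ (k * M) ∣ (aeval g f : Polynomial ℂ) := by
  have h1 : I ≤ (Ideal.span {(Polynomial.X : Polynomial ℂ) ^ M}).comap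
      (aeval g : MvPolynomial (Fin N) ℂ →ₐ[ℂ] Polynomial ℂ) := by
    intro f hf
    rw [Ideal.mem_comap, Ideal.mem_span_singleton, Polynomial.X_pow_dvd_iff]
    exact h f hf
  have h2 := Ideal.pow_right_mono h1 k hf
  have h3 := Ideal.le_comap_pow (aeval g : MvPolynomial (Fin N) ℂ →ₐ[ℂ] Polynomial ℂ) k h2
  rw [Ideal.mem_comap, Ideal.span_singleton_pow, Ideal.mem_span_singleton, ← pow_mul,
    mul_comm M k] at h3
  exact h3

theorem exists_conePoint {N : ℕ} (I : Ideal (MvPolynomial (Fin N) ℂ)) (p : Fin N → ℂ)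
    (g : Fin N → Polynomial ℂ) (hg : ∀ l, (g l).coeff 0 = p l) (M : ℕ)
    (h : ∀ f ∈ I, ∀ e < M, (aeval g f : Polynomial ℂ).coeff e = 0) :
    ∃ y : ConePoint I p, ∀ k, ∀ f ∈ I ^ k, y.φ k f = (aeval g f : Polynomial ℂ).coeff (k * M) := by
  refine ⟨⟨fun k f => (aeval g f : Polynomial ℂ).coeff (k * M), ?_, ?_, ?_⟩, fun k f _ => rfl⟩
  · intro f
    show (aeval g f : Polynomial ℂ).coeff (0 * M) = eval p f
    rw [zero_mul, Polynomial.coeff_zero_eq_eval_zero]
    have h1 : p = fun l => (g l).eval 0 := by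
      funext l
      rw [← Polynomial.coeff_zero_eq_eval_zero, hg l]
    rw [h1]
    have h2 : (Polynomial.evalRingHom (0 : ℂ)).comp
        (aeval g : MvPolynomial (Fin N) ℂ →ₐ[ℂ] Polynomial ℂ).toRingHom =
        (eval fun l => (g l).eval 0 : MvPolynomial (Fin N) ℂ →+* ℂ) := by
      refine MvPolynomial.ringHom_ext (fun r => ?_) (fun l => ?_)
      · simp
      · simp
    exact congrArg (fun F : MvPolynomial (Fin N) ℂ →+* ℂ => F f) h2
  · intro k f _ f' _
    show (aeval g (f + f') : Polynomial ℂ).coeff (k * M) = _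
    rw [map_add, Polynomial.coeff_add]
  · intro k l f hf f' hf'
    show (aeval g (f * f') : Polynomial ℂ).coeff ((k + l) * M) =
      (aeval g f : Polynomial ℂ).coeff (k * M) * (aeval g f' : Polynomial ℂ).coeff (l * M)
    obtain ⟨P, hP⟩ := R1a_dvd I g M h k f hf
    obtain ⟨Q, hQ⟩ := R1a_dvd I g M h l f' hf'
    have e1 : ∀ (n : ℕ) (R : Polynomial ℂ), (Polynomial.X ^ n * R).coeff n = R.coeff 0 := by
      intro n R
      have := Polynomial.coeff_X_pow_mul R n 0
      rwa [zero_add] at this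
    have e2 : (Polynomial.X ^ (k * M) * P) * (Polynomial.X ^ (l * M) * Q) =
        Polynomial.X ^ ((k + l) * M) * (P * Q) := by
      rw [add_mul, pow_add]
      ring
    rw [map_mul, hP, hQ, e2, e1, e1, e1, Polynomial.mul_coeff_zero]

end MotMono.Mon
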