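import Pool.Agent.Lib.MP_4e5fcd_ag.Mon.RDefs
import Pool.Agent.Lib.MP_4e5fcd_ag.Mon.R2a
import Pool.Agent.Lib.MP_4e5fcd_ag.Mon.G2
import Pool.Agent.Lib.MP_4e5fcd_ag.Mon.T3

/-! # MON-R2: deep blocks -/

open MvPolynomial

namespace MotMono.Mon

variable {N s : ℕ} {D : Data N s} (S : D.Str)

theorem R2_constr_prop {σ : Type} (P : Prop) : Constr {_x : σ → ℂ | P} := by
  by_cases h : P
  · have h1 : {_x : σ → ℂ | P} = Set.univ := by
      ext x
      simp [h]
    rw [h1]
    exact constr_univ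
  · have h1 : {_x : σ → ℂ | P} = ∅ := by
      ext x
      simp [h]
    rw [h1]
    exact constr_empty

theorem R2_constr_mem {n : ℕ} (β : Fin N → Fin s) (d : Fin N → ℕ) (e : ℕ)
    (W : Submodule ℂ (Fin s → ℂ)) (a x : Fin s → ℂ) :
    Constr {γ : Fin N × Fin n → ℂ | zc β d γ e - (a ⬝ᵥ zc β d γ e) • x ∈ W} := by
  choose P hP using exists_poly_zc (n := n) β d e
  have h1 := (constr_submodule W).preimage fun j =>
    P j - (∑ k, C (a k) * P k) * C (x j)
  have h2 : {γ : Fin N × Fin n → ℂ | zc β d γ e - (a ⬝ᵥ zc β d γ e) • x ∈ W} =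
      {γ | (fun j => eval γ (P j - (∑ k, C (a k) * P k) * C (x j))) ∈ (W : Set (Fin s → ℂ))} := by
    ext γ
    simp only [Set.mem_ofPred_eq, SetLike.mem_coe]
    have h3 : (fun j => eval γ (P j - (∑ k, C (a k) * P k) * C (x j))) =
        zc β d γ e - (a ⬝ᵥ zc β d γ e) • x := by
      funext j
      rw [map_sub, map_mul, map_sum, hP, eval_C]
      simp only [map_mul, eval_C, hP]
      rfl
    rw [h3]
  rw [h2]
  exact h1

theorem R2_constr_mem' {n : ℕ} (β : Fin N → Fin s) (d : Fin N → ℕ) (e : ℕ)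
    (W : Submodule ℂ (Fin s → ℂ)) :
    Constr {γ : Fin N × Fin n → ℂ | zc β d γ e ∈ W} := by
  have h := R2_constr_mem (n := n) β d e W 0 0
  simpa only [smul_zero, sub_zero] using h

theorem constr_CA (η : Fin s → ℂ) (d : ℕ) : Constr (S.CA η d) := by
  have hz := fun e => exists_poly_zc (n := d + 1) D.β D.d e
  choose P hP using hz
  have h1 : Constr (⋂ l, {γ : Fin N × Fin (d + 1) → ℂ | γ (l, 0) = S.p l}) := by
    refine constr_iInter fun l => ?_
    have h := constr_eq (X (l, 0) : MvPolynomial (Fin N × Fin (d + 1)) ℂ) (C (S.p l))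
    simpa only [eval_X, eval_C] using h
  have h2 : ∀ o : Fin s → Fin (d + 2), Constr (⋂ i, {γ : Fin N × Fin (d + 1) → ℂ |
      ord1 (fun j => γ (S.lam i, j)) = o i}) := fun o =>
    constr_iInter fun i => constr_ord1 (S.lam i) (o i)
  have h3 : ∀ ℓ : Fin (d + 1), Constr (⋂ e : Fin ℓ, {γ : Fin N × Fin (d + 1) → ℂ |
      zc D.β D.d γ e ∈ D.W}) := fun ℓ => constr_iInter fun e => R2_constr_mem' _ _ _ _
  let F : Fin (d + 1) → (Fin s → Fin (d + 2)) → MvPolynomial (Fin N × Fin (d + 1)) ℂ :=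
    fun ℓ o => (∏ i ∈ S.A2, ((if h : (o i : ℕ) < d + 1 then X (S.lam i, ⟨o i, h⟩) else 0) *
      C (η i)⁻¹) ^ D.b (S.lam i)) * (∑ k, C (S.a k) * P ℓ k) ^ D.m
  have h4 : ∀ ℓ o, Constr {γ : Fin N × Fin (d + 1) → ℂ | eval γ (F ℓ o) = eval γ 1} :=
    fun ℓ o => constr_eq _ _
  have h5 := constr_iUnion (ι := Fin (d + 1) × (Fin s → Fin (d + 2))) (E := fun q =>
    (⋂ l, {γ : Fin N × Fin (d + 1) → ℂ | γ (l, 0) = S.p l}) ∩
    ((⋂ i, {γ : Fin N × Fin (d + 1) → ℂ | ord1 (fun j => γ (S.lam i, j)) = q.2 i}) ∩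
    ((⋂ e : Fin q.1, {γ : Fin N × Fin (d + 1) → ℂ | zc D.β D.d γ e ∈ D.W}) ∩
    ({γ : Fin N × Fin (d + 1) → ℂ |
        zc D.β D.d γ q.1 - (S.a ⬝ᵥ zc D.β D.d γ q.1) • S.x ∈ D.W} ∩
    ({γ : Fin N × Fin (d + 1) → ℂ | 0 < (q.1 : ℕ) ∧
        ∑ i ∈ S.A2, D.b (S.lam i) * (q.2 i : ℕ) + D.m * (q.1 : ℕ) = d} ∩
      {γ : Fin N × Fin (d + 1) → ℂ | eval γ (F q.1 q.2) = eval γ 1})))))
    fun q => h1.inter ((h2 q.2).inter ((h3 q.1).inter ((R2_constr_mem _ _ _ _ _ _).inter
      ((R2_constr_prop _).inter (h4 q.1 q.2)))))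
  have hF : ∀ (ℓ : Fin (d + 1)) (o : Fin s → Fin (d + 2)) (γ : Fin N × Fin (d + 1) → ℂ),
      (∀ i, ord1 (fun j => γ (S.lam i, j)) = o i) → eval γ (F ℓ o) =
      (∏ i ∈ S.A2, (lead1 (fun j => γ (S.lam i, j)) / η i) ^ D.b (S.lam i)) *
      (S.a ⬝ᵥ zc D.β D.d γ ℓ) ^ D.m := by
    intro ℓ o γ ho
    simp only [F]
    rw [map_mul, map_prod, map_pow, map_sum]
    congr 1
    · refine Finset.prod_congr rfl fun i _ => ?_
      rw [map_pow, map_mul, eval_C, div_eq_mul_inv]
      congr 2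
      unfold lead1
      by_cases h : (o i : ℕ) < d + 1
      · have h' : ord1 (fun j => γ (S.lam i, j)) < d + 1 := by rw [ho i]; exact h
        rw [dif_pos h, dif_pos h', eval_X]
        congr 2
        exact Fin.ext (ho i).symm
      · have h' : ¬ ord1 (fun j => γ (S.lam i, j)) < d + 1 := by rw [ho i]; exact h
        rw [dif_neg h, dif_neg h', map_zero]
    · congr 1
      simp only [map_mul, eval_C, hP]
      rfl
  have h6 : S.CA η d = ⋃ q : Fin (d + 1) × (Fin s → Fin (d + 2)),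
    ((⋂ l, {γ : Fin N × Fin (d + 1) → ℂ | γ (l, 0) = S.p l}) ∩
    ((⋂ i, {γ : Fin N × Fin (d + 1) → ℂ | ord1 (fun j => γ (S.lam i, j)) = q.2 i}) ∩
    ((⋂ e : Fin q.1, {γ : Fin N × Fin (d + 1) → ℂ | zc D.β D.d γ e ∈ D.W}) ∩
    ({γ : Fin N × Fin (d + 1) → ℂ |
        zc D.β D.d γ q.1 - (S.a ⬝ᵥ zc D.β D.d γ q.1) • S.x ∈ D.W} ∩
    ({γ : Fin N × Fin (d + 1) → ℂ | 0 < (q.1 : ℕ) ∧
        ∑ i ∈ S.A2, D.b (S.lam i) * (q.2 i : ℕ) + D.m * (q.1 : ℕ) = d} ∩
      {γ : Fin N × Fin (d + 1) → ℂ | eval γ (F q.1 q.2) = eval γ 1}))))) := by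
    ext γ
    constructor
    · rintro ⟨ha, ℓ, hℓ, hℓd, hb, hc, hd, he⟩
      let o : Fin s → Fin (d + 2) := fun i =>
        ⟨ord1 (fun j => γ (S.lam i, j)), Nat.lt_succ_of_le (ord1_le _)⟩
      have ho : ∀ i, ord1 (fun j => γ (S.lam i, j)) = o i := fun i => rfl
      refine Set.mem_iUnion.2 ⟨(⟨ℓ, Nat.lt_succ_of_le hℓd⟩, o), ?_⟩
      refine ⟨Set.mem_iInter.2 fun l => ha l, Set.mem_iInter.2 fun i => ho i,
        Set.mem_iInter.2 fun e => hb e e.2, hc, ⟨hℓ, hd⟩, ?_⟩
      show eval γ (F _ o) = eval γ 1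
      rw [hF _ o γ ho, map_one]
      exact he
    · intro hγ
      obtain ⟨q, ha, ho, hb, hc, ⟨hℓ, hd⟩, he⟩ := Set.mem_iUnion.1 hγ
      have ho' : ∀ i, ord1 (fun j => γ (S.lam i, j)) = q.2 i := fun i => Set.mem_iInter.1 ho i
      refine ⟨fun l => Set.mem_iInter.1 ha l, q.1, hℓ, Nat.le_of_lt_succ q.1.2, ?_, hc, ?_, ?_⟩
      · intro e he
        exact Set.mem_iInter.1 hb ⟨e, he⟩
      · simp only [ho']
        exact hd
      · have h7 : eval γ (F q.1 q.2) = eval γ 1 := he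
        rw [hF _ _ γ ho', map_one] at h7
        exact h7
  rw [h6]
  exact h5

/-- the weights of the torus action -/
noncomputable def R2wt (d : ℕ) (q : Fin N × Fin (d + 1)) : ℤ :=
  if D.β q.1 ∈ S.Ab then
    if q.1 = S.lam (D.β q.1) then 1 else if q.1 = S.lam' (D.β q.1) then -1 else 0
  else 0

theorem R2_zc {d : ℕ} (τ : ℂ) (hτ : τ ≠ 0) (γ : Fin N × Fin (d + 1) → ℂ) (e : ℕ) :
    zc D.β D.d (fun q => τ ^ R2wt S d q * γ q) e = zc D.β D.d γ e := by
  funext i
  unfold zc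
  have h1 : ∀ l, arc (fun q => τ ^ R2wt S d q * γ q) l =
      Polynomial.C (τ ^ R2wt S d (l, 0)) * arc γ l := by
    intro l
    unfold arc
    rw [Finset.mul_sum]
    refine Finset.sum_congr rfl fun j _ => ?_
    have h2 : R2wt S d (l, j) = R2wt S d (l, 0) := rfl
    show Polynomial.C (τ ^ R2wt S d (l, j) * γ (l, j)) * Polynomial.X ^ (j : ℕ) = _
    rw [h2, Polynomial.C_mul, mul_assoc]
  simp only [h1, mul_pow]
  rw [Finset.prod_mul_distrib]
  have h3 : ∏ l ∈ Finset.univ.filter (fun l => D.β l = i),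
      (Polynomial.C (τ ^ R2wt S d (l, 0)) : Polynomial ℂ) ^ D.d l = 1 := by
    by_cases hi : i ∈ S.Ab
    · have h4 : ∏ l ∈ Finset.univ.filter (fun l => D.β l = i),
          (Polynomial.C (τ ^ R2wt S d (l, 0)) : Polynomial ℂ) ^ D.d l =
          ∏ l ∈ ({S.lam i, S.lam' i} : Finset (Fin N)),
            (Polynomial.C (τ ^ R2wt S d (l, 0)) : Polynomial ℂ) ^ D.d l := by
        symm
        refine Finset.prod_subset ?_ ?_
        · intro l hl
          rw [Finset.mem_insert, Finset.mem_singleton] at hl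
          rw [Finset.mem_filter]
          rcases hl with rfl | rfl
          · exact ⟨Finset.mem_univ _, (S.deep1 i hi).1⟩
          · exact ⟨Finset.mem_univ _, (S.deep2 i hi).1⟩
        · intro l hl hl'
          rw [Finset.mem_filter] at hl
          rw [Finset.mem_insert, Finset.mem_singleton, not_or] at hl'
          have h5 : R2wt S d (l, 0) = 0 := by
            unfold R2wt
            simp only [hl.2]
            rw [if_pos hi, if_neg hl'.1, if_neg hl'.2]
          rw [h5, zpow_zero, Polynomial.C_1, one_pow]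
      rw [h4, Finset.prod_pair (S.deep_ne i hi), (S.deep1 i hi).2.1, (S.deep2 i hi).2.1, pow_one,
        pow_one, ← Polynomial.C_mul]
      have h5 : R2wt S d (S.lam i, 0) = 1 := by
        unfold R2wt
        simp only [(S.deep1 i hi).1]
        rw [if_pos hi, if_true]
      have h6 : R2wt S d (S.lam' i, 0) = -1 := by
        unfold R2wt
        simp only [(S.deep2 i hi).1]
        rw [if_pos hi, if_neg (S.deep_ne i hi).symm, if_true]
      rw [h5, h6, zpow_one, zpow_neg_one, mul_inv_cancel₀ hτ, Polynomial.C_1]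
    · refine Finset.prod_eq_one fun l hl => ?_
      rw [Finset.mem_filter] at hl
      have h5 : R2wt S d (l, 0) = 0 := by
        unfold R2wt
        simp only [hl.2]
        rw [if_neg hi]
      rw [h5, zpow_zero, Polynomial.C_1, one_pow]
  rw [h3, one_mul]

theorem chi_CA (χ : K0 →+* ℤ) (hχ : IsEulerChar χ) (η : Fin s → ℂ) (d : ℕ) :
    χ (cls (S.CA η d)) = χ (cls (S.CD η d)) := by
  rw [chi_fixed χ hχ (S.CA η d) (constr_CA S η d) (R2wt S d)]
  · congr 2
    ext γ
    constructor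
    · rintro ⟨h1, h2⟩
      refine ⟨h1, fun i hi j => ⟨h2 (S.lam i, j) ?_, h2 (S.lam' i, j) ?_⟩⟩
      · unfold R2wt
        simp only [(S.deep1 i hi).1]
        rw [if_pos hi, if_true]
        exact one_ne_zero
      · unfold R2wt
        simp only [(S.deep2 i hi).1]
        rw [if_pos hi, if_neg (S.deep_ne i hi).symm, if_true]
        exact neg_ne_zero.2 one_ne_zero
    · rintro ⟨h1, h2⟩
      refine ⟨h1, ?_⟩
      rintro ⟨l, j⟩ hw
      unfold R2wt at hw
      simp only at hw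
      by_cases hi : D.β l ∈ S.Ab
      · rw [if_pos hi] at hw
        by_cases hl : l = S.lam (D.β l)
        · have h3 := (h2 _ hi j).1
          rwa [← hl] at h3
        · rw [if_neg hl] at hw
          by_cases hl' : l = S.lam' (D.β l)
          · have h3 := (h2 _ hi j).2
            rwa [← hl'] at h3
          · rw [if_neg hl'] at hw
            exact absurd rfl hw
      · rw [if_neg hi] at hw
        exact absurd rfl hw
  · rintro γ ⟨h1, ℓ, hℓ, hℓd, hb, hc, hd, he⟩ τ hτ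
    have hA : ∀ i ∈ S.A2, (fun j => τ ^ R2wt S d (S.lam i, j) * γ (S.lam i, j)) =
        fun j => γ (S.lam i, j) := by
      intro i hi
      have h2 : D.β (S.lam i) = i := by
        rw [← S.pv_lam i hi]
        exact S.pv_block i
      funext j
      have h3 : R2wt S d (S.lam i, j) = 0 := by
        unfold R2wt
        simp only [h2]
        rw [if_neg (Finset.disjoint_left.1 S.disj hi)]
      rw [h3, zpow_zero, one_mul]
    refine ⟨?_, ℓ, hℓ, hℓd, ?_, ?_, ?_, ?_⟩
    · intro l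
      show τ ^ R2wt S d (l, 0) * γ (l, 0) = S.p l
      by_cases hi : D.β l ∈ S.Ab
      · by_cases hl : l = S.lam (D.β l)
        · have h3 := (S.deep1 _ hi).2.2.2
          rw [← hl] at h3
          rw [h1 l, h3, mul_zero]
        · by_cases hl' : l = S.lam' (D.β l)
          · have h3 := (S.deep2 _ hi).2.2.2
            rw [← hl'] at h3
            rw [h1 l, h3, mul_zero]
          · have h3 : R2wt S d (l, 0) = 0 := by
              unfold R2wt
              rw [if_pos hi, if_neg hl, if_neg hl']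
            rw [h3, zpow_zero, one_mul, h1 l]
      · have h3 : R2wt S d (l, 0) = 0 := by
          unfold R2wt
          rw [if_neg hi]
        rw [h3, zpow_zero, one_mul, h1 l]
    · intro e he
      rw [R2_zc S τ hτ]
      exact hb e he
    · rw [R2_zc S τ hτ]
      exact hc
    · refine Eq.trans ?_ hd
      congr 1
      refine Finset.sum_congr rfl fun i hi => ?_
      rw [hA i hi]
    · rw [R2_zc S τ hτ, ← he]
      congr 1
      refine Finset.prod_congr rfl fun i hi => ?_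
      rw [hA i hi]

end MotMono.Mon
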