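import Pool.Agent.Lib.MP_4e5fcd_ag.Mon.RDefs
import Pool.Agent.Lib.MP_4e5fcd_ag.Mon.G2
import Pool.Agent.Lib.MP_4e5fcd_ag.Mon.T3

/-! # MON-R3a: decomposition of the contact set -/

open MvPolynomial

namespace MotMono.Mon

variable {N s : ℕ} {D : Data N s} (S : D.Str)

theorem Cond_PC (η : Fin s → ℂ) (n : ℕ) (o : Fin s → ℕ) (ℓ : ℕ) :
    PC fun (c : Fin N → ℂ) (z : Fin n → Fin s → ℂ) => S.Cond η n o ℓ c z := by
  unfold Data.Str.Cond
  refine PC.and (PC.all fun l => PC.imp _ ?_) (PC.and (PC.all fun e => PC.imp _ (PC.imp _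
    (PC.mem D.W e))) ?_)
  · have h := PC.eq (n := n) (s := s) (X (Sum.inl l) : MvPolynomial (Fin N ⊕ Fin n × Fin s) ℂ)
      (C (S.p l))
    simpa using h
  · by_cases h : ℓ < n
    swap
    · have h2 : (fun (c : Fin N → ℂ) (z : Fin n → Fin s → ℂ) => ∀ h : ℓ < n,
          z ⟨ℓ, h⟩ - (S.a ⬝ᵥ z ⟨ℓ, h⟩) • S.x ∈ D.W ∧
          (∏ i ∈ S.A2, (c (S.lam i) / η i) ^ D.b (S.lam i)) * (S.a ⬝ᵥ z ⟨ℓ, h⟩) ^ D.m = 1) =
          fun _ _ => True := by
        funext c z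
        exact propext ⟨fun _ => trivial, fun _ h' => absurd h' h⟩
      rw [h2]
      exact PC.const True
    have h2 : (fun (c : Fin N → ℂ) (z : Fin n → Fin s → ℂ) => ∀ h : ℓ < n,
          z ⟨ℓ, h⟩ - (S.a ⬝ᵥ z ⟨ℓ, h⟩) • S.x ∈ D.W ∧
          (∏ i ∈ S.A2, (c (S.lam i) / η i) ^ D.b (S.lam i)) * (S.a ⬝ᵥ z ⟨ℓ, h⟩) ^ D.m = 1) =
          fun c z => z ⟨ℓ, h⟩ - (S.a ⬝ᵥ z ⟨ℓ, h⟩) • S.x ∈ D.W ∧
          (∏ i ∈ S.A2, (c (S.lam i) / η i) ^ D.b (S.lam i)) * (S.a ⬝ᵥ z ⟨ℓ, h⟩) ^ D.m = 1 := by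
      funext c z
      exact propext ⟨fun k => k h, fun k _ => k⟩
    rw [h2]
    refine PC.and ?_ ?_
    · let L : (Fin s → ℂ) →ₗ[ℂ] (Fin s → ℂ) :=
        { toFun := fun z => z - (S.a ⬝ᵥ z) • S.x
          map_add' := by
            intro y z
            rw [dotProduct_add, add_smul]
            abel
          map_smul' := by
            intro r z
            rw [dotProduct_smul, RingHom.id_apply, smul_sub, smul_assoc] }
      exact PC.mem (N := N) (D.W.comap L) ⟨ℓ, h⟩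
    · have h3 := PC.eq (n := n) (s := s) ((∏ i ∈ S.A2, (X (Sum.inl (S.lam i)) * C (η i)⁻¹) ^
          D.b (S.lam i)) * (∑ j, C (S.a j) * X (Sum.inr (⟨ℓ, h⟩, j))) ^ D.m :
            MvPolynomial (Fin N ⊕ Fin n × Fin s) ℂ) 1
      convert h3 using 4
      · simp only [map_mul, map_prod, map_pow, map_sum, eval_X, eval_C, Sum.elim_inl, Sum.elim_inr,
          dotProduct, div_eq_mul_inv]
      · simp

theorem cls_Cz (η : Fin s → ℂ) (n : ℕ) (hn : 0 < n) (o : Fin s → ℕ) (ℓ : ℕ) :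
    cls (S.Cz η n o ℓ) = cls (S.Cv η n o ℓ) := by
  refine cls_theta D.β D.d D.hd S.pv S.pv_block S.Fr ?_ (S.oo n o) _ (Cond_PC S η n o ℓ)
  intro l hl
  simp only [Data.Str.Fr, Finset.mem_filter, Finset.mem_univ, true_and] at hl
  obtain ⟨h1, h2, h3, h4⟩ := hl
  refine ⟨h3, ?_⟩
  rcases S.p_smooth (D.β l) h1 h2 with h5 | h5
  · rw [← h3] at h5
    exact absurd h4 h5
  · rw [← h3] at h5
    exact h5.1

/-- the orders and the contact which occur -/
noncomputable def Data.Str.Idx (d : ℕ) : Finset ((Fin s → ℕ) × ℕ) :=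
  ((Fintype.piFinset fun i => if i ∈ S.A2 then Finset.Icc 1 (d + 1) else {0}) ×ˢ
    Finset.Icc 1 d).filter fun q => ∑ i ∈ S.A2, D.b (S.lam i) * q.1 i + D.m * q.2 = d

theorem R3a_mem_Idx (d : ℕ) (q : (Fin s → ℕ) × ℕ) : q ∈ S.Idx d ↔
    ((∀ i ∈ S.A2, 1 ≤ q.1 i ∧ q.1 i ≤ d + 1) ∧ ∀ i, i ∉ S.A2 → q.1 i = 0) ∧ (1 ≤ q.2 ∧ q.2 ≤ d) ∧
      ∑ i ∈ S.A2, D.b (S.lam i) * q.1 i + D.m * q.2 = d := by
  simp only [Data.Str.Idx, Finset.mem_filter, Finset.mem_product, Fintype.mem_piFinset,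
    Finset.mem_Icc, and_assoc]
  constructor
  · rintro ⟨h1, h2, h3, h4⟩
    refine ⟨fun i hi => ?_, fun i hi => ?_, h2, h3, h4⟩
    · have := h1 i
      rw [if_pos hi, Finset.mem_Icc] at this
      exact this
    · have := h1 i
      rw [if_neg hi, Finset.mem_singleton] at this
      exact this
  · rintro ⟨h1, h1', h2, h3, h4⟩
    refine ⟨fun i => ?_, h2, h3, h4⟩
    by_cases hi : i ∈ S.A2
    · rw [if_pos hi, Finset.mem_Icc]
      exact h1 i hi
    · rw [if_neg hi, Finset.mem_singleton]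
      exact h1' i hi

theorem R3a_lam_block {i : Fin s} (hi : i ∈ S.A2) : D.β (S.lam i) = i := by
  rw [← S.pv_lam i hi, S.pv_block]

theorem R3a_not_Ab {i : Fin s} (hi : i ∈ S.A2) : i ∉ S.Ab := fun h =>
  (Finset.disjoint_left.1 S.disj) hi h

theorem R3a_oo_lam (n : ℕ) (o : Fin s → ℕ) {i : Fin s} (hi : i ∈ S.A2) :
    S.oo n o (S.lam i) = o i := by
  have h1 := R3a_lam_block S hi
  unfold Data.Str.oo
  rw [h1, if_neg (fun h => R3a_not_Ab S hi h.1), if_pos ⟨hi, rfl⟩]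

theorem R3a_oo_deep (n : ℕ) (o : Fin s → ℕ) {i : Fin s} (hi : i ∈ S.Ab) :
    S.oo n o (S.lam i) = n ∧ S.oo n o (S.lam' i) = n := by
  have h1 := (S.deep1 i hi).1
  have h2 := (S.deep2 i hi).1
  unfold Data.Str.oo
  constructor
  · rw [if_pos ⟨by rw [h1]; exact hi, Or.inl (by rw [h1])⟩]
  · rw [if_pos ⟨by rw [h2]; exact hi, Or.inr (by rw [h2])⟩]

/-- the three kinds of coordinates -/
theorem R3a_cases (n : ℕ) (o : Fin s → ℕ) (l : Fin N) :
    (∃ i ∈ S.Ab, (l = S.lam i ∨ l = S.lam' i) ∧ S.oo n o l = n ∧ S.p l = 0) ∨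
    (∃ i ∈ S.A2, l = S.lam i ∧ S.oo n o l = o i ∧ S.p l = 0) ∨
    (S.oo n o l = 0 ∧ (l ∉ S.Fr → S.p l ≠ 0)) := by
  by_cases h1 : D.β l ∈ S.Ab
  · by_cases h2 : l = S.lam (D.β l)
    · left
      refine ⟨_, h1, Or.inl h2, ?_, ?_⟩
      · rw [h2]
        rw [← h2]
        exact (congrArg (S.oo n o) h2).trans (R3a_oo_deep S n o h1).1
      · exact (congrArg S.p h2).trans (S.deep1 _ h1).2.2.2
    by_cases h3 : l = S.lam' (D.β l)
    · left
      refine ⟨_, h1, Or.inr h3, ?_, ?_⟩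
      · exact (congrArg (S.oo n o) h3).trans (R3a_oo_deep S n o h1).2
      · exact (congrArg S.p h3).trans (S.deep2 _ h1).2.2.2
    right; right
    refine ⟨?_, fun _ => S.deep_p l h1 h2 h3⟩
    unfold Data.Str.oo
    rw [if_neg (by rintro ⟨_, h | h⟩; exacts [h2 h, h3 h]), if_neg]
    rintro ⟨h4, _⟩
    exact R3a_not_Ab S h4 h1
  · by_cases h2 : D.β l ∈ S.A2
    · by_cases h3 : l = S.lam (D.β l)
      · right; left
        refine ⟨_, h2, h3, ?_, ?_⟩
        · exact (congrArg (S.oo n o) h3).trans (R3a_oo_lam S n o h2)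
        · exact (congrArg S.p h3).trans (S.p_lam _ h2)
      · right; right
        refine ⟨?_, fun _ => S.p_ne l h1 ?_⟩
        · unfold Data.Str.oo
          rw [if_neg (fun h => h1 h.1), if_neg (fun h => h3 h.2)]
        · rw [S.pv_lam _ h2]
          exact h3
    · right; right
      refine ⟨?_, fun h3 => ?_⟩
      · unfold Data.Str.oo
        rw [if_neg (fun h => h1 h.1), if_neg (fun h => h2 h.1)]
      · by_cases h4 : l = S.pv (D.β l)
        · intro h5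
          apply h3
          simp only [Data.Str.Fr, Finset.mem_filter, Finset.mem_univ, true_and]
          exact ⟨h2, h1, h4, h5⟩
        · exact S.p_ne l h1 h4

theorem R3a_lam_not_Fr {i : Fin s} (hi : i ∈ S.A2) : S.lam i ∉ S.Fr := by
  intro h
  simp only [Data.Str.Fr, Finset.mem_filter, Finset.mem_univ, true_and] at h
  rw [R3a_lam_block S hi] at h
  exact h.1 hi

theorem R3a_ord1 {n : ℕ} {o : Fin s → ℕ} {γ : Fin N × Fin n → ℂ}
    (h : γ ∈ Yset S.Fr (S.oo n o) n) {i : Fin s} (hi : i ∈ S.A2) (ho : o i ≤ n) :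
    ord1 (fun j => γ (S.lam i, j)) = o i := by
  rw [ord1_eq_iff _ _ ho]
  have e := R3a_oo_lam S n o hi
  constructor
  · intro j hj
    exact h.1 _ j (by rw [e]; exact hj)
  · intro h2
    have := h.2 (S.lam i) (R3a_lam_not_Fr S hi) (by rw [e]; exact h2)
    simpa only [e] using this

theorem R3a_lc {n : ℕ} {o : Fin s → ℕ} {γ : Fin N × Fin n → ℂ} {i : Fin s} (hi : i ∈ S.A2)
    (h : ord1 (fun j => γ (S.lam i, j)) = o i) :
    lc (S.oo n o) γ (S.lam i) = lead1 (fun j => γ (S.lam i, j)) := by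
  have e := R3a_oo_lam S n o hi
  unfold lc lead1
  simp only [e, h]

theorem R3a_mem_CD (η : Fin s → ℂ) (d : ℕ) (γ : Fin N × Fin (d + 1) → ℂ) :
    γ ∈ S.CD η d ↔ ∃ q ∈ S.Idx d, γ ∈ S.Cz η (d + 1) q.1 q.2 := by
  constructor
  · rintro ⟨⟨h0, ℓ, hℓ, hℓd, hz, hzℓ, hs, hp⟩, hdeep⟩
    set o : Fin s → ℕ := fun i => if i ∈ S.A2 then ord1 (fun j => γ (S.lam i, j)) else 0 with ho
    have ho1 : ∀ i ∈ S.A2, o i = ord1 (fun j => γ (S.lam i, j)) := fun i hi => by
      rw [ho]; exact if_pos hi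
    have hpos : ∀ i ∈ S.A2, 1 ≤ ord1 (fun j => γ (S.lam i, j)) := by
      intro i hi
      by_contra hc
      have h1 : ord1 (fun j => γ (S.lam i, j)) = 0 := by omega
      have h2 := ((ord1_eq_iff _ 0 (Nat.zero_le _)).1 h1).2 (Nat.succ_pos d)
      apply h2
      have h3 := h0 (S.lam i)
      rw [S.p_lam i hi] at h3
      exact h3
    refine ⟨(o, ℓ), ?_, ?_, ?_⟩
    · rw [R3a_mem_Idx]
      refine ⟨⟨fun i hi => ?_, fun i hi => ?_⟩, ⟨hℓ, hℓd⟩, ?_⟩
      · show 1 ≤ o i ∧ o i ≤ d + 1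
        rw [ho1 i hi]
        exact ⟨hpos i hi, ord1_le _⟩
      · show o i = 0
        rw [ho]; exact if_neg hi
      · rw [← hs]
        congr 1
        refine Finset.sum_congr rfl fun i hi => ?_
        show _ * o i = _
        rw [ho1 i hi]
    · constructor
      · intro l j hj
        rcases R3a_cases S (d + 1) o l with ⟨i, hi, h1, h2, h3⟩ | ⟨i, hi, h1, h2, h3⟩ | ⟨h1, h2⟩
        · rcases h1 with h1 | h1
          · rw [h1]; exact (hdeep i hi j).1
          · rw [h1]; exact (hdeep i hi j).2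
        · have h4 : S.oo (d + 1) o l = ord1 (fun j => γ (S.lam i, j)) := by rw [h2, ho1 i hi]
          have hj' : (j : ℕ) < S.oo (d + 1) o l := hj
          rw [h4] at hj'
          rw [h1]
          exact eq_zero_of_lt_ord1 (fun j => γ (S.lam i, j)) j hj'
        · have hj' : (j : ℕ) < S.oo (d + 1) o l := hj
          rw [h1] at hj'
          exact absurd hj' (Nat.not_lt_zero _)
      · intro l hl hlt
        have hlt' : S.oo (d + 1) o l < d + 1 := hlt
        rcases R3a_cases S (d + 1) o l with ⟨i, hi, h1, h2, h3⟩ | ⟨i, hi, h1, h2, h3⟩ | ⟨h1, h2⟩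
        · rw [h2] at hlt'
          exact absurd hlt' (lt_irrefl _)
        · have h4 : S.oo (d + 1) o l = ord1 (fun j => γ (S.lam i, j)) := by rw [h2, ho1 i hi]
          have h5 := ((ord1_eq_iff (fun j => γ (S.lam i, j)) _ (ord1_le _)).1 rfl).2
            (by rw [← h4]; exact hlt')
          have h6 : (⟨S.oo (d + 1) (o, ℓ).1 l, hlt⟩ : Fin (d + 1)) =
              ⟨ord1 (fun j => γ (S.lam i, j)), by rw [← h4]; exact hlt'⟩ := Fin.ext h4
          have h7 : γ (l, ⟨S.oo (d + 1) (o, ℓ).1 l, hlt⟩) =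
              γ (S.lam i, ⟨ord1 (fun j => γ (S.lam i, j)), by rw [← h4]; exact hlt'⟩) := by
            rw [h6]
            exact congrArg (fun l' => γ (l', _)) h1
          rw [h7]
          exact h5
        · have h6 : (⟨S.oo (d + 1) (o, ℓ).1 l, hlt⟩ : Fin (d + 1)) = 0 := Fin.ext h1
          rw [h6, h0 l]
          exact h2 hl
    · refine ⟨fun l hl => ?_, fun e he1 he2 => hz e he2, fun h => ⟨hzℓ, ?_⟩⟩
      · have h6 : lc (S.oo (d + 1) (o, ℓ).1) γ l = γ (l, 0) := by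
          unfold lc
          rw [dif_pos (by rw [hl]; exact Nat.succ_pos d)]
          congr 2
          exact Fin.ext hl
        rw [h6, h0 l]
      · rw [← hp]
        congr 1
        refine Finset.prod_congr rfl fun i hi => ?_
        rw [R3a_lc S hi (ho1 i hi).symm]
  · rintro ⟨q, hq, hY, hc1, hc2, hc3⟩
    rw [R3a_mem_Idx] at hq
    obtain ⟨⟨hq1, hq2⟩, ⟨hℓ, hℓd⟩, hs⟩ := hq
    have h0 : ∀ l, γ (l, 0) = S.p l := by
      intro l
      by_cases h1 : S.oo (d + 1) q.1 l = 0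
      · have h2 := hc1 l h1
        rw [← h2]
        unfold lc
        rw [dif_pos (by rw [h1]; exact Nat.succ_pos d)]
        congr 2
        exact Fin.ext h1.symm
      · have h2 := hY.1 l 0 (Nat.pos_of_ne_zero h1)
        rw [h2]
        rcases R3a_cases S (d + 1) q.1 l with ⟨i, hi, h3, h4, h5⟩ | ⟨i, hi, h3, h4, h5⟩ | ⟨h3, h4⟩
        · exact h5.symm
        · exact h5.symm
        · exact absurd h3 h1
    have ho : ∀ i ∈ S.A2, ord1 (fun j => γ (S.lam i, j)) = q.1 i := fun i hi =>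
      R3a_ord1 S hY hi (hq1 i hi).2
    have hlt : q.2 < d + 1 := by omega
    refine ⟨⟨h0, q.2, hℓ, hℓd, fun e he => ?_, (hc3 hlt).1, ?_, ?_⟩, fun i hi j => ?_⟩
    · rcases Nat.eq_zero_or_pos e with h1 | h1
      · subst h1
        have h2 : zc D.β D.d γ 0 = fun i => ∏ l ∈ D.B i, S.p l ^ D.d l := by
          funext i
          have h3 := zc_eq D.β D.d (fun _ => 0) D.hd γ (fun l j hj => absurd hj (Nat.not_lt_zero _)) i
          have h4 : nuv D.β D.d (fun _ => 0) i = 0 := by simp [nuv]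
          rw [h4] at h3
          rw [h3]
          refine Finset.prod_congr rfl fun l _ => ?_
          congr 1
          rw [← h0 l]
          unfold lc
          rw [dif_pos (Nat.succ_pos d)]
          rfl
        rw [h2]
        exact S.p_W
      · exact hc2 ⟨e, by omega⟩ h1 he
    · refine Eq.trans ?_ hs
      congr 1
      refine Finset.sum_congr rfl fun i hi => ?_
      rw [ho i hi]
    · have h1 := (hc3 hlt).2
      rw [← h1]
      congr 1
      refine Finset.prod_congr rfl fun i hi => ?_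
      rw [R3a_lc S hi (ho i hi)]
    · have h1 := R3a_oo_deep S (d + 1) q.1 hi
      exact ⟨hY.1 _ j (by rw [h1.1]; exact j.2), hY.1 _ j (by rw [h1.2]; exact j.2)⟩

theorem cls_CD (η : Fin s → ℂ) (hη : ∀ i ∈ S.A2, η i ≠ 0) (d : ℕ) :
    cls (S.CD η d) = ∑ q ∈ S.Idx d, cls (S.Cz η (d + 1) q.1 q.2) := by
  have h1 : S.CD η d = ⋃ q ∈ S.Idx d, S.Cz η (d + 1) q.1 q.2 := by
    ext γ
    rw [R3a_mem_CD]
    simp only [Set.mem_iUnion, exists_prop]
  rw [h1]
  refine cls_biUnion _ (fun q _ => constr_zc D.β D.d S.Fr _ _ (Cond_PC S η (d + 1) q.1 q.2)) ?_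
  have key : ∀ q ∈ S.Idx d, ∀ q' ∈ S.Idx d, q.2 < q'.2 → ∀ γ, γ ∈ S.Cz η (d + 1) q.1 q.2 →
      γ ∈ S.Cz η (d + 1) q'.1 q'.2 → False := by
    intro q hq q' hq' hlt γ h2 h3
    rw [R3a_mem_Idx] at hq hq'
    have hl : q.2 < d + 1 := by omega
    have h4 := h3.2.2.1 ⟨q.2, hl⟩ hq.2.1.1 hlt
    have h5 := (h2.2.2.2 hl).2
    have h6 : S.a ⬝ᵥ zc D.β D.d γ q.2 = 0 := S.a_ann _ h4
    have h7 : (∏ i ∈ S.A2, (lc (S.oo (d + 1) q.1) γ (S.lam i) / η i) ^ D.b (S.lam i)) *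
        (S.a ⬝ᵥ zc D.β D.d γ q.2) ^ D.m = 1 := h5
    rw [h6, zero_pow D.hm.ne', mul_zero] at h7
    exact zero_ne_one h7
  intro q hq q' hq' hne
  rw [Set.disjoint_left]
  intro γ h2 h3
  rcases lt_trichotomy q.2 q'.2 with h4 | h4 | h4
  · exact key q hq q' hq' h4 γ h2 h3
  · apply hne
    refine Prod.ext ?_ h4
    funext i
    rw [R3a_mem_Idx] at hq hq'
    by_cases hi : i ∈ S.A2
    · rw [← R3a_ord1 S h2.1 hi (hq.1.1 i hi).2, ← R3a_ord1 S h3.1 hi (hq'.1.1 i hi).2]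
    · rw [hq.1.2 i hi, hq'.1.2 i hi]
  · exact key q' hq' q hq h4 γ h3 h2

end MotMono.Mon
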