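import Pool.Agent.Lib.MP_4e5fcd_ag.Mon.RDefs
import Pool.Agent.Lib.MP_4e5fcd_ag.Kum.E9

/-! # MON-R4a: counting characters -/

open MvPolynomial

namespace MotMono.Mon

theorem mem_chars {s : ℕ} (dd : Fin s → ℕ) (hdd : ∀ i, 0 < dd i) (K : Finset (Fin s)) (x : ℚ)
    (k : Fin s → ℕ) :
    k ∈ chars dd K x ↔ (∀ j ∈ K, k j < dd j) ∧ (∀ j, j ∉ K → k j = 0) ∧
      ∃ z : ℤ, ∑ j, (k j : ℚ) / dd j - x = z := by
  classical
  unfold chars
  rw [Finset.mem_filter, Fintype.mem_piFinset]
  constructor
  · rintro ⟨h, hz⟩
    refine ⟨fun j hj => ?_, fun j hj => ?_, hz⟩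
    · have := h j
      rw [if_pos hj, Finset.mem_range] at this
      exact this
    · have := h j
      rw [if_neg hj, Finset.mem_singleton] at this
      exact this
  · rintro ⟨h1, h2, hz⟩
    refine ⟨fun j => ?_, hz⟩
    by_cases hj : j ∈ K
    · rw [if_pos hj, Finset.mem_range]
      exact h1 j hj
    · rw [if_neg hj, Finset.mem_singleton]
      exact h2 j hj

theorem R4a_dvd {s : ℕ} (dd : Fin s → ℕ) (K : Finset (Fin s)) : K.lcm dd ∣ ∏ j ∈ K, dd j := by
  exact Finset.lcm_dvd fun j hj => Finset.dvd_prod_of_mem _ hj

theorem R4a_pos {s : ℕ} (dd : Fin s → ℕ) (hdd : ∀ i, 0 < dd i) (K : Finset (Fin s)) :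
    0 < K.lcm dd := by
  rw [Nat.pos_iff_ne_zero, Ne, Finset.lcm_eq_zero_iff]
  rintro ⟨j, hj, h⟩
  exact (hdd j).ne' h

open Classical in
theorem card_chars {s : ℕ} (dd : Fin s → ℕ) (hdd : ∀ i, 0 < dd i) (K : Finset (Fin s))
    (x : ℚ) : (chars dd K x).card =
      if ∃ z : ℤ, x * (K.lcm dd : ℕ) = z then (∏ j ∈ K, dd j) / K.lcm dd else 0 := by
  induction K using Finset.induction_on generalizing x with
  | empty =>
    have h1 : ((∅ : Finset (Fin s)).lcm dd : ℕ) = 1 := by simp
    rw [h1]
    simp only [Finset.prod_empty, Nat.div_self one_pos, Nat.cast_one, mul_one]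
    by_cases hx : ∃ z : ℤ, x = z
    · rw [if_pos hx]
      obtain ⟨z, hz⟩ := hx
      rw [Finset.card_eq_one]
      refine ⟨fun _ => 0, ?_⟩
      ext k
      rw [mem_chars dd hdd, Finset.mem_singleton]
      constructor
      · rintro ⟨-, h, -⟩
        funext j
        exact h j (by simp)
      · rintro rfl
        refine ⟨by simp, by simp, -z, ?_⟩
        simp [hz]
    · rw [if_neg hx, Finset.card_eq_zero, Finset.eq_empty_iff_forall_notMem]
      intro k hk
      rw [mem_chars dd hdd] at hk
      obtain ⟨-, h, z, hz⟩ := hk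
      apply hx
      refine ⟨-z, ?_⟩
      have : ∑ j, (k j : ℚ) / dd j = 0 := Finset.sum_eq_zero fun j _ => by simp [h j (by simp)]
      rw [this] at hz
      push_cast
      linarith
  | insert j0 K hj0 ih =>
    -- fibres over the value at j0
    have hcard : (chars dd (insert j0 K) x).card =
        ∑ c ∈ Finset.range (dd j0), (chars dd K (x - (c : ℚ) / dd j0)).card := by
      rw [Finset.card_eq_sum_card_fiberwise (f := fun k => k j0) (t := Finset.range (dd j0))]
      · refine Finset.sum_congr rfl fun c hc => ?_
        rw [Finset.mem_range] at hc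
        refine Finset.card_bij' (fun k _ => Function.update k j0 0)
          (fun k _ => Function.update k j0 c) ?_ ?_ ?_ ?_
        · intro k hk
          rw [Finset.mem_filter, mem_chars dd hdd] at hk
          obtain ⟨⟨h1, h2, z, hz⟩, h3⟩ := hk
          rw [mem_chars dd hdd]
          refine ⟨fun j hj => ?_, fun j hj => ?_, z, ?_⟩
          · have : j ≠ j0 := fun h => hj0 (h ▸ hj)
            rw [Function.update_of_ne this]
            exact h1 j (Finset.mem_insert_of_mem hj)
          · by_cases h : j = j0
            · rw [h, Function.update_self]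
            · rw [Function.update_of_ne h]
              exact h2 j (by rw [Finset.mem_insert]; tauto)
          · rw [← hz]
            have e1 : ∑ j, (k j : ℚ) / dd j = ∑ j, ((Function.update k j0 0 j : ℕ) : ℚ) / dd j +
                (c : ℚ) / dd j0 := by
              rw [← Finset.add_sum_erase _ _ (Finset.mem_univ j0),
                ← Finset.add_sum_erase (f := fun j => ((Function.update k j0 0 j : ℕ) : ℚ) / dd j)
                  _ (Finset.mem_univ j0)]
              rw [Function.update_self, h3]
              have : ∑ x ∈ Finset.univ.erase j0, (k x : ℚ) / dd x =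
                  ∑ x ∈ Finset.univ.erase j0, ((Function.update k j0 0 x : ℕ) : ℚ) / dd x := by
                refine Finset.sum_congr rfl fun j hj => ?_
                rw [Function.update_of_ne (Finset.ne_of_mem_erase hj)]
              rw [this]
              push_cast
              ring
            rw [e1]
            ring
        · intro k hk
          rw [mem_chars dd hdd] at hk
          obtain ⟨h1, h2, z, hz⟩ := hk
          rw [Finset.mem_filter, mem_chars dd hdd, Function.update_self]
          refine ⟨⟨fun j hj => ?_, fun j hj => ?_, z, ?_⟩, rfl⟩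
          · by_cases h : j = j0
            · rw [h, Function.update_self]; exact hc
            · rw [Function.update_of_ne h]
              exact h1 j ((Finset.mem_insert.1 hj).resolve_left h)
          · rw [Finset.mem_insert, not_or] at hj
            rw [Function.update_of_ne hj.1]
            exact h2 j hj.2
          · rw [← hz]
            have e1 : ∑ j, ((Function.update k j0 c j : ℕ) : ℚ) / dd j = ∑ j, (k j : ℚ) / dd j +
                (c : ℚ) / dd j0 := by
              rw [← Finset.add_sum_erase (f := fun j => (k j : ℚ) / dd j) _ (Finset.mem_univ j0),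
                ← Finset.add_sum_erase (f := fun j => ((Function.update k j0 c j : ℕ) : ℚ) / dd j)
                  _ (Finset.mem_univ j0)]
              rw [Function.update_self, h2 j0 hj0]
              have : ∑ x ∈ Finset.univ.erase j0, (k x : ℚ) / dd x =
                  ∑ x ∈ Finset.univ.erase j0, ((Function.update k j0 c x : ℕ) : ℚ) / dd x := by
                refine Finset.sum_congr rfl fun j hj => ?_
                rw [Function.update_of_ne (Finset.ne_of_mem_erase hj)]
              rw [this]
              push_cast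
              ring
            rw [e1]
            ring
        · intro k hk
          rw [Finset.mem_filter] at hk
          simp only [Function.update_idem]
          rw [← hk.2, Function.update_eq_self]
        · intro k hk
          rw [mem_chars dd hdd] at hk
          simp only [Function.update_idem]
          rw [← hk.2.1 j0 hj0, Function.update_eq_self]
      · intro k hk
        have hk' := (mem_chars dd hdd _ _ _).1 (Finset.mem_coe.1 hk)
        rw [Finset.coe_range, Set.mem_Iio]
        exact hk'.1 j0 (Finset.mem_insert_self _ _)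
    have hMK : ((insert j0 K).lcm dd : ℕ) = Nat.lcm (dd j0) (K.lcm dd) := by
      rw [Finset.lcm_insert]
      rfl
    rw [hcard]
    simp only [ih]
    rw [← Finset.sum_filter, Finset.sum_const, smul_eq_mul]
    by_cases hx : ∃ z : ℤ, x * ((insert j0 K).lcm dd : ℕ) = z
    · rw [if_pos hx]
      rw [hMK] at hx
      rw [Kum.E9_count ((K.lcm dd : ℕ)) (dd j0) (R4a_pos dd hdd K) (hdd j0) x hx, hMK, Finset.prod_insert hj0]
      obtain ⟨q, hq⟩ := R4a_dvd dd K
      rw [hq, Nat.mul_div_cancel_left _ (R4a_pos dd hdd K)]
      have h7 : dd j0 * ((K.lcm dd : ℕ) * q) =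
          (Nat.gcd (dd j0) ((K.lcm dd : ℕ)) * q) * Nat.lcm (dd j0) ((K.lcm dd : ℕ)) := by
        rw [← mul_assoc, ← Nat.gcd_mul_lcm (dd j0) ((K.lcm dd : ℕ))]
        ring
      rw [h7, Nat.mul_div_cancel _ (Nat.lcm_pos (hdd j0) (R4a_pos dd hdd K))]
    · rw [if_neg hx]
      have : (Finset.range (dd j0)).filter
          (fun c : ℕ => ∃ z : ℤ, (x - (c : ℚ) / dd j0) * (K.lcm dd : ℕ) = z) = ∅ := by
        rw [Finset.filter_eq_empty_iff]
        rintro c hc ⟨z, hz⟩
        apply hx
        rw [hMK]
        obtain ⟨u, hu⟩ := Nat.dvd_lcm_left (dd j0) ((K.lcm dd : ℕ))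
        obtain ⟨v, hv⟩ := Nat.dvd_lcm_right (dd j0) ((K.lcm dd : ℕ))
        refine ⟨z * v + c * u, ?_⟩
        have hd0 : (dd j0 : ℚ) ≠ 0 := by exact_mod_cast (hdd j0).ne'
        have h1 : ((Nat.lcm (dd j0) ((K.lcm dd : ℕ)) : ℕ) : ℚ) = (K.lcm dd : ℕ) * v := by exact_mod_cast hv
        have h2 : ((Nat.lcm (dd j0) ((K.lcm dd : ℕ)) : ℕ) : ℚ) = dd j0 * u := by exact_mod_cast hu
        have h3 : x = (x - (c : ℚ) / dd j0) + (c : ℚ) / dd j0 := by ring
        rw [h3, add_mul]
        nth_rewrite 1 [h1]
        rw [h2, ← mul_assoc, hz]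
        push_cast
        field_simp
      rw [this]
      simp

end MotMono.Mon
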