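import Pool.Agent.Lib.MP_4e5fcd_ag.Mon.RDefs
import Pool.Agent.Lib.MP_4e5fcd_ag.H2
import Pool.Agent.Lib.MP_4e5fcd_ag.H3

/-! # MON-R6a: a generic direction and a connected matroid -/

open MvPolynomial

namespace MotMono.Mon

variable {N s : ℕ} (D : Data N s)

/-- a vector which avoids finitely many proper subspaces -/
theorem exists_avoid {n : ℕ} {κ : Type} (t : Finset κ) (V : Submodule ℂ (Fin n → ℂ))
    (V' : κ → Submodule ℂ (Fin n → ℂ)) (h : ∀ k ∈ t, ¬ V ≤ V' k) :
    ∃ v ∈ V, ∀ k ∈ t, v ∉ V' k := by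
  classical
  have h1 : (⊤ : Submodule ℂ V) ∉ t.image (fun k => (V' k).comap V.subtype) := by
    intro hmem
    rw [Finset.mem_image] at hmem
    obtain ⟨k, hk, hk'⟩ := hmem
    apply h k hk
    intro v hv
    have : (⟨v, hv⟩ : V) ∈ (V' k).comap V.subtype := by rw [hk']; trivial
    exact this
  have h2 := Subspace.biUnion_ne_univ_of_top_notMem h1
  rw [Ne, Set.eq_univ_iff_forall] at h2
  push Not at h2
  obtain ⟨v, hv⟩ := h2
  refine ⟨v, v.2, fun k hk hvk => hv ?_⟩
  simp only [Set.mem_iUnion]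
  exact ⟨_, Finset.mem_image_of_mem _ hk, hvk⟩

theorem exists_dir (A : Finset (Fin s)) (hA : D.Cn A) :
    ∃ x a : Fin s → ℂ, a ∈ D.ann ∧ a ⬝ᵥ x = 1 ∧
      ∀ A' ⊆ A, A'.Nonempty → x ∉ D.VW (A \ A') ⊔ cV A' := by
  classical
  obtain ⟨x, -, hx⟩ := exists_avoid (insert none (A.powerset.image some)) (⊤ : Submodule ℂ (Fin s → ℂ))
    (fun o : Option (Finset (Fin s)) => o.elim D.W fun A' =>
      if A'.Nonempty then D.VW (A \ A') ⊔ cV A' else D.W) (by
      intro k hk hle
      rw [Finset.mem_insert, Finset.mem_image] at hk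
      rcases hk with rfl | ⟨A', hA', rfl⟩
      · exact D.hW (top_le_iff.1 hle)
      · simp only [Option.elim_some] at hle
        split_ifs at hle with hne
        · exact hA A' (Finset.mem_powerset.1 hA') hne (top_le_iff.1 hle)
        · exact D.hW (top_le_iff.1 hle))
  have hxW : x ∉ D.W := hx none (Finset.mem_insert_self _ _)
  obtain ⟨a, ha, hax⟩ := exists_ann D x hxW
  refine ⟨x, a, ha, hax, fun A' hA' hne => ?_⟩
  have := hx (some A') (Finset.mem_insert_of_mem (Finset.mem_image_of_mem _ (Finset.mem_powerset.2 hA')))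
  simp only [Option.elim_some, if_pos hne] at this
  exact this

theorem R6a_mem_U (x a z : Fin s → ℂ) (ha : a ∈ D.ann) (hax : a ⬝ᵥ x = 1)
    (hz : z ∈ D.Uab x ∅) (h0 : a ⬝ᵥ z = 0) : z ∈ D.W := by
  obtain ⟨h1, -⟩ := Submodule.mem_inf.1 hz
  obtain ⟨w, hw, y, hy, rfl⟩ := Submodule.mem_sup.1 h1
  obtain ⟨c, rfl⟩ := Submodule.mem_span_singleton.1 hy
  rw [dotProduct_add, dotProduct_smul, hax, ha w hw, zero_add, smul_eq_mul, mul_one] at h0
  rw [h0, zero_smul, add_zero]
  exact hw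

theorem R6a_x_mem (x : Fin s → ℂ) : x ∈ D.Uab x ∅ := by
  refine Submodule.mem_inf.2 ⟨Submodule.mem_sup_right (Submodule.mem_span_singleton_self x), ?_⟩
  intro i hi
  exact absurd hi (Finset.notMem_empty i)

theorem R6a_lam (a z : Fin s → ℂ) (i : Fin s) : lamO a (some i) ⬝ᵥ z = z i := by
  show (Pi.single i 1 : Fin s → ℂ) ⬝ᵥ z = z i
  rw [single_dotProduct, one_mul]

theorem R6a_key (A : Finset (Fin s)) (x a : Fin s → ℂ) (ha : a ∈ D.ann) (hax : a ⬝ᵥ x = 1)
    (hx : ∀ A' ⊆ A, A'.Nonempty → x ∉ D.VW (A \ A') ⊔ cV A')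
    (B B' : Finset (Option (Fin s))) (hB' : B'.Nonempty) (hd : Disjoint B B')
    (hu : B ∪ B' = Finset.insertNone A) (hnone : none ∈ B) :
    rk (D.Uab x ∅) (lamO a) (Finset.insertNone A) <
        rk (D.Uab x ∅) (lamO a) B + rk (D.Uab x ∅) (lamO a) B' := by
  classical
  by_contra hle
  push Not at hle
  set U := D.Uab x ∅ with hU
  have hdim := h3_dims U (lamO a) B B'
  rw [hu] at hdim
  have h1 := h3_finrank_le U (lamO a) B
  have h2 := h3_finrank_le U (lamO a) B'
  have h3 := h3_finrank_le U (lamO a) (Finset.insertNone A)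
  unfold rk at hle
  have h4 : (U ⊓ KK (lamO a) B) ⊔ (U ⊓ KK (lamO a) B') ≤ U := sup_le inf_le_left inf_le_left
  have h5 : (U ⊓ KK (lamO a) B) ⊔ (U ⊓ KK (lamO a) B') = U := by
    refine Submodule.eq_of_le_of_finrank_le h4 ?_
    omega
  have hxU : x ∈ (U ⊓ KK (lamO a) B) ⊔ (U ⊓ KK (lamO a) B') := by
    rw [h5]; exact R6a_x_mem D x
  obtain ⟨y, hy, y', hy', hyy⟩ := Submodule.mem_sup.1 hxU
  obtain ⟨hy1, hy2⟩ := Submodule.mem_inf.1 hy
  obtain ⟨hy1', hy2'⟩ := Submodule.mem_inf.1 hy'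
  set A' : Finset (Fin s) := A.filter (fun i => some i ∈ B') with hA'
  have hmem : ∀ o, o ∈ B ∨ o ∈ B' ↔ o ∈ Finset.insertNone A := fun o => by
    rw [← hu, Finset.mem_union]
  have hA'ne : A'.Nonempty := by
    obtain ⟨o, ho⟩ := hB'
    cases o with
    | none => exact absurd ho (Finset.disjoint_left.1 hd hnone)
    | some i =>
      refine ⟨i, Finset.mem_filter.2 ⟨?_, ho⟩⟩
      have := (hmem (some i)).1 (Or.inr ho)
      simpa using this
  apply hx A' (Finset.filter_subset _ _) hA'ne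
  rw [← hyy]
  refine Submodule.add_mem_sup ?_ ?_
  · refine Submodule.mem_inf.2 ⟨?_, ?_⟩
    · exact R6a_mem_U D x a y ha hax hy1 (hy2 none hnone)
    · intro i hi
      rw [Finset.mem_sdiff, hA', Finset.mem_filter] at hi
      have h6 : some i ∈ B ∨ some i ∈ B' := (hmem (some i)).2 (by simpa using hi.1)
      have h7 : some i ∈ B := by
        rcases h6 with h6 | h6
        · exact h6
        · exact absurd ⟨hi.1, h6⟩ hi.2
      have := hy2 (some i) h7
      rwa [R6a_lam] at this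
  · intro i hi
    rw [hA', Finset.mem_filter] at hi
    have := hy2' (some i) hi.2
    rwa [R6a_lam] at this

theorem conn_of_dir (A : Finset (Fin s)) (x a : Fin s → ℂ) (ha : a ∈ D.ann) (hax : a ⬝ᵥ x = 1)
    (hx : ∀ A' ⊆ A, A'.Nonempty → x ∉ D.VW (A \ A') ⊔ cV A') :
    (∀ B B' : Finset (Option (Fin s)), B.Nonempty → B'.Nonempty → Disjoint B B' →
      B ∪ B' = Finset.insertNone A → rk (D.Uab x ∅) (lamO a) (Finset.insertNone A) <
        rk (D.Uab x ∅) (lamO a) B + rk (D.Uab x ∅) (lamO a) B') ∧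
    ∀ j ∈ Finset.insertNone A, rk (D.Uab x ∅) (lamO a) {j} = 1 := by
  classical
  constructor
  · intro B B' hB hB' hd hu
    have hnone : none ∈ B ∨ none ∈ B' := by
      rw [← Finset.mem_union, hu]; simp
    rcases hnone with h | h
    · exact R6a_key D A x a ha hax hx B B' hB' hd hu h
    · rw [add_comm]
      exact R6a_key D A x a ha hax hx B' B hB hd.symm (by rw [Finset.union_comm]; exact hu) h
  · intro j hj
    have h1 : rk (D.Uab x ∅) (lamO a) {j} ≤ 1 := by
      have := h3_rk_step (D.Uab x ∅) (lamO a) ∅ j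
      rw [h3_rk_empty] at this
      simpa using this
    by_contra hne
    have h0 : rk (D.Uab x ∅) (lamO a) {j} = 0 := by omega
    have h2 := h3_finrank_le (D.Uab x ∅) (lamO a) {j}
    have h3 : D.Uab x ∅ ⊓ KK (lamO a) {j} = D.Uab x ∅ := by
      refine Submodule.eq_of_le_of_finrank_le inf_le_left ?_
      unfold rk at h0
      omega
    have h4 : x ∈ D.Uab x ∅ ⊓ KK (lamO a) {j} := by
      rw [h3]; exact R6a_x_mem D x
    have h5 := (Submodule.mem_inf.1 h4).2 j (Finset.mem_singleton_self j)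
    cases j with
    | none =>
      have h6 : a ⬝ᵥ x = 0 := h5
      rw [hax] at h6
      exact one_ne_zero h6
    | some i =>
      rw [R6a_lam] at h5
      have hiA : i ∈ A := by simpa using hj
      refine hx {i} (Finset.singleton_subset_iff.2 hiA) ⟨i, Finset.mem_singleton_self i⟩ ?_
      refine Submodule.mem_sup_right ?_
      intro k hk
      rw [Finset.mem_singleton] at hk
      rw [hk]; exact h5

theorem h2t_ne_of_dir (A : Finset (Fin s)) (x a : Fin s → ℂ) (ha : a ∈ D.ann)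
    (hax : a ⬝ᵥ x = 1) (hx : ∀ A' ⊆ A, A'.Nonempty → x ∉ D.VW (A \ A') ⊔ cV A') :
    h2t (rk (D.Uab x ∅) (lamO a)) (Finset.insertNone A) ≠ 0 := by
  obtain ⟨h1, h2⟩ := conn_of_dir D A x a ha hax hx
  exact crapo_ne_zero _ (h3_rk_empty _ _) (fun B B' h => h3_rk_mono _ _ B B' h)
    (fun B j => h3_rk_step _ _ B j) (fun B B' => h3_rk_sub _ _ B B') (Finset.insertNone A)
    ⟨none, by simp⟩ h2 h1

end MotMono.Mon
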