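import Pool.Agent.Lib.MP_4e5fcd_ag.Mon.R4a
import Pool.Agent.Lib.MP_4e5fcd_ag.Mon.R6b

/-! # MON-R6c: the choice of the stratum -/

open MvPolynomial

namespace MotMono.Mon

variable {s : ℕ}

theorem R6c_closure {J : Type} [DecidableEq J] (r : Finset J → ℕ) (hr : H2Rk r) (T C : Finset J)
    (h : ∀ j ∈ C, r (insert j T) = r T) : r (T ∪ C) = r T := by
  induction C using Finset.induction_on with
  | empty => rw [Finset.union_empty]
  | insert j C hj ih =>
    have h1 := ih fun i hi => h i (Finset.mem_insert_of_mem hi)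
    have h2 := h j (Finset.mem_insert_self _ _)
    have h3 := hr.sub (T ∪ C) (insert j T)
    have e1 : (T ∪ C) ∪ insert j T = T ∪ insert j C := by
      ext z; simp only [Finset.mem_union, Finset.mem_insert]; tauto
    rw [e1, h1, h2] at h3
    have h4 : r T ≤ r ((T ∪ C) ∩ insert j T) :=
      hr.mono _ _ (Finset.subset_inter Finset.subset_union_left (Finset.subset_insert _ _))
    have h5 : r T ≤ r (T ∪ insert j C) := hr.mono _ _ Finset.subset_union_left
    omega

theorem exists_min (dd bb : Fin s → ℕ) (hdd : ∀ i, 0 < dd i) (A₀ : Finset (Fin s))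
    (hA₀ : ∀ i ∈ A₀, 1 < dd i ∨ 0 < bb i) (r : Finset (Option (Fin s)) → ℕ) (hr : H2Rk r)
    (h : h2t r (Finset.insertNone A₀) ≠ 0) (x₀ : ℚ)
    (hx₀ : ∃ z : ℤ, ∑ i ∈ A₀, (1 - 1 / (dd i : ℚ)) - x₀ = z) :
    ∃ A2 ⊆ A₀, (∀ i ∈ A₀, 0 < bb i → i ∈ A2) ∧
      (∀ i ∈ A₀, i ∉ A2 → r (insert (some i) (Finset.insertNone A2)) ≠ r (Finset.insertNone A2)) ∧
      ∑ k ∈ chars dd A2 x₀,
        h2t r (Finset.insertNone (supp k ∪ A2.filter fun i => 0 < bb i)) ≠ 0 := by
  classical
  set Zb : Finset (Fin s) := A₀.filter fun i => 0 < bb i with hZb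
  set k₀ : Fin s → ℕ := fun i => if i ∈ A₀ then dd i - 1 else 0 with hk₀
  have hk₀mem : k₀ ∈ chars dd A₀ x₀ := by
    rw [mem_chars dd hdd]
    refine ⟨fun j hj => ?_, fun j hj => ?_, ?_⟩
    · simp only [hk₀, if_pos hj]
      have := hdd j
      omega
    · simp only [hk₀, if_neg hj]
    · obtain ⟨z, hz⟩ := hx₀
      refine ⟨z, ?_⟩
      rw [← hz]
      congr 1
      rw [← Finset.sum_filter_add_sum_filter_not Finset.univ (fun j => j ∈ A₀)]
      have e1 : Finset.univ.filter (fun j => j ∈ A₀) = A₀ := by ext j; simp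
      have e2 : ∑ j ∈ Finset.univ.filter (fun j => ¬ j ∈ A₀), (k₀ j : ℚ) / dd j = 0 := by
        refine Finset.sum_eq_zero fun j hj => ?_
        rw [Finset.mem_filter] at hj
        simp only [hk₀, if_neg hj.2]
        simp
      rw [e1, e2, add_zero]
      refine Finset.sum_congr rfl fun j hj => ?_
      simp only [hk₀, if_pos hj]
      have h1 : (1 : ℕ) ≤ dd j := hdd j
      have h2 : (dd j : ℚ) ≠ 0 := by exact_mod_cast (hdd j).ne'
      rw [Nat.cast_sub h1]
      field_simp
      push_cast
      ring
  have hk₀supp : supp k₀ ∪ Zb = A₀ := by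
    ext i
    simp only [supp, hZb, Finset.mem_union, Finset.mem_filter, Finset.mem_univ, true_and]
    constructor
    · rintro (h1 | h1)
      · by_contra hi
        apply h1
        simp only [hk₀, if_neg hi]
      · exact h1.1
    · intro hi
      rcases hA₀ i hi with h1 | h1
      · left
        simp only [hk₀, if_pos hi]
        omega
      · right; exact ⟨hi, h1⟩
  have hne : ((chars dd A₀ x₀).filter fun k => h2t r (Finset.insertNone (supp k ∪ Zb)) ≠ 0).Nonempty :=
    ⟨k₀, Finset.mem_filter.2 ⟨hk₀mem, by rw [hk₀supp]; exact h⟩⟩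
  obtain ⟨k', hk', hmin⟩ := Finset.exists_min_image _
    (fun k : Fin s → ℕ => r (Finset.insertNone (supp k ∪ Zb))) hne
  rw [Finset.mem_filter] at hk'
  obtain ⟨hk'mem, hk'ne⟩ := hk'
  set T : Finset (Option (Fin s)) := Finset.insertNone (supp k' ∪ Zb) with hT
  set A2 : Finset (Fin s) := A₀.filter fun i => r (insert (some i) T) = r T with hA2
  have hsub : A2 ⊆ A₀ := Finset.filter_subset _ _
  have hk'c := (mem_chars dd hdd A₀ x₀ k').1 hk'mem
  have hsuppsub : supp k' ⊆ A₀ := by
    intro i hi
    by_contra hi'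
    simp only [supp, Finset.mem_filter, Finset.mem_univ, true_and] at hi
    exact hi (hk'c.2.1 i hi')
  have hTsub : supp k' ∪ Zb ⊆ A2 := by
    intro i hi
    rw [hA2, Finset.mem_filter]
    refine ⟨?_, ?_⟩
    · rw [Finset.mem_union] at hi
      rcases hi with hi | hi
      · exact hsuppsub hi
      · exact Finset.filter_subset _ _ hi
    · rw [Finset.insert_eq_self.2]
      rw [hT]
      simpa using hi
  have hZb2 : A2.filter (fun i => 0 < bb i) = Zb := by
    ext i
    simp only [hZb, Finset.mem_filter]
    constructor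
    · rintro ⟨h1, h2⟩; exact ⟨hsub h1, h2⟩
    · rintro ⟨h1, h2⟩
      exact ⟨hTsub (Finset.mem_union_right _ (Finset.mem_filter.2 ⟨h1, h2⟩)), h2⟩
  have hrk : r (Finset.insertNone A2) = r T := by
    have e1 : Finset.insertNone A2 = T ∪ A2.image some := by
      ext o
      cases o with
      | none => simp [hT]
      | some i =>
        simp only [Finset.some_mem_insertNone, Finset.mem_union, Finset.mem_image,
          Option.some.injEq, exists_eq_right, hT]
        constructor
        · intro hi; right; exact hi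
        · rintro (hi | hi)
          · exact hTsub (Finset.mem_union.2 hi)
          · exact hi
    rw [e1]
    refine R6c_closure r hr T _ fun o ho => ?_
    rw [Finset.mem_image] at ho
    obtain ⟨i, hi, rfl⟩ := ho
    exact (Finset.mem_filter.1 hi).2
  refine ⟨A2, hsub, fun i hi hb => ?_, fun i hi hi2 heq => ?_, ?_⟩
  · exact hTsub (Finset.mem_union_right _ (Finset.mem_filter.2 ⟨hi, hb⟩))
  · apply hi2
    rw [hA2, Finset.mem_filter]
    refine ⟨hi, ?_⟩
    have h1 : T ⊆ Finset.insertNone A2 := by
      intro o ho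
      cases o with
      | none => simp
      | some j =>
        rw [hT, Finset.some_mem_insertNone] at ho
        rw [Finset.some_mem_insertNone]
        exact hTsub ho
    have h2 := hr.mono _ _ (Finset.insert_subset_insert (some i) h1)
    have h3 := hr.mono T _ (Finset.subset_insert (some i) T)
    omega
  · rw [hZb2]
    have hcle : ∀ k ∈ chars dd A2 x₀, k ∈ chars dd A₀ x₀ := by
      intro k hk
      rw [mem_chars dd hdd] at hk ⊢
      refine ⟨fun j hj => ?_, fun j hj => hk.2.1 j fun hj' => hj (hsub hj'), hk.2.2⟩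
      by_cases hj2 : j ∈ A2
      · exact hk.1 j hj2
      · rw [hk.2.1 j hj2]; exact hdd j
    have hnn : ∀ k ∈ chars dd A2 x₀,
        0 ≤ (-1 : ℤ) ^ (r T) * h2t r (Finset.insertNone (supp k ∪ Zb)) := by
      intro k hk
      by_cases h0 : h2t r (Finset.insertNone (supp k ∪ Zb)) = 0
      · rw [h0, mul_zero]
      · have h1 := hmin k (Finset.mem_filter.2 ⟨hcle k hk, h0⟩)
        have h2 : Finset.insertNone (supp k ∪ Zb) ⊆ Finset.insertNone A2 := by
          intro o ho
          cases o with
          | none => simp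
          | some j =>
            rw [Finset.some_mem_insertNone, Finset.mem_union] at ho
            rw [Finset.some_mem_insertNone]
            rcases ho with ho | ho
            · by_contra hj
              simp only [supp, Finset.mem_filter, Finset.mem_univ, true_and] at ho
              exact ho (((mem_chars dd hdd A2 x₀ k).1 hk).2.1 j hj)
            · exact hTsub (Finset.mem_union_right _ ho)
        have h3 := hr.mono _ _ h2
        have h4 : r (Finset.insertNone (supp k ∪ Zb)) = r T := by
          have h1' : r T ≤ r (Finset.insertNone (supp k ∪ Zb)) := h1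
          omega
        have h5 := (h2_main _ (Finset.insertNone (supp k ∪ Zb)) rfl r hr).1
        rwa [h4] at h5
    have hk'2 : k' ∈ chars dd A2 x₀ := by
      rw [mem_chars dd hdd]
      refine ⟨fun j hj => hk'c.1 j (hsub hj), fun j hj => ?_, hk'c.2.2⟩
      by_contra h0
      apply hj
      apply hTsub
      rw [Finset.mem_union]
      left
      simp only [supp, Finset.mem_filter, Finset.mem_univ, true_and]
      exact h0
    have hpos : 0 < (-1 : ℤ) ^ (r T) * h2t r (Finset.insertNone (supp k' ∪ Zb)) := by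
      refine lt_of_le_of_ne (hnn k' hk'2) (Ne.symm (mul_ne_zero ?_ hk'ne))
      exact pow_ne_zero _ (by norm_num)
    have hsum : 0 < (-1 : ℤ) ^ (r T) *
        ∑ k ∈ chars dd A2 x₀, h2t r (Finset.insertNone (supp k ∪ Zb)) := by
      rw [Finset.mul_sum]
      exact Finset.sum_pos' hnn ⟨k', hk'2, hpos⟩
    intro h0
    rw [h0, mul_zero] at hsum
    exact lt_irrefl _ hsum

end MotMono.Mon
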