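import Pool.Agent.Lib.MP_4e5fcd_ag.Mon.G1
import Pool.Agent.Lib.MP_4e5fcd_ag.Mon.G2
import Pool.Agent.Lib.MP_4e5fcd_ag.Mon.R1a
import Pool.Agent.Lib.MP_4e5fcd_ag.Mon.R7a
import Pool.Agent.Lib.MP_4e5fcd_ag.Mon.R6a

/-! # MON-R8: generic points of a coordinate hyperplane -/

open MvPolynomial

namespace MotMono.Mon

variable {N s : ℕ} (D : Data N s)

/-- a point where only the coordinate `l` vanishes, with `(M_1, ..., M_s)` not in `W` -/
theorem exists_pt_simple (l : Fin N) (hW : ¬ cV {D.β l} ≤ D.W) (ε : ℝ) (hε : 0 < ε) :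
    ∃ p : Fin N → ℂ, ‖p‖ < ε ∧ p l = 0 ∧ (∀ l', l' ≠ l → p l' ≠ 0) ∧
      (fun i => ∏ l ∈ D.B i, p l ^ D.d l) ∉ D.W := by
  classical
  obtain ⟨v, hv, hv'⟩ := exists_avoid (Finset.univ.filter fun o : Option (Fin s) => o ≠ some (D.β l))
    (cV {D.β l}) (fun o : Option (Fin s) => o.elim D.W fun i => cV {i}) (by
      intro o ho
      rw [Finset.mem_filter] at ho
      rcases o with _ | i
      · exact hW
      · intro h
        have hne : i ≠ D.β l := fun h0 => ho.2 (by rw [h0])
        have h1 : (Pi.single i 1 : Fin s → ℂ) ∈ cV {D.β l} := by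
          intro k hk
          rw [Finset.mem_singleton] at hk
          rw [hk, Pi.single_eq_of_ne (Ne.symm hne)]
        have h2 := h h1 i (Finset.mem_singleton_self i)
        rw [Pi.single_eq_same] at h2
        exact one_ne_zero h2)
  have hvl : v (D.β l) = 0 := hv _ (Finset.mem_singleton_self _)
  have hvW : v ∉ D.W := hv' none (by rw [Finset.mem_filter]; exact ⟨Finset.mem_univ _, by simp⟩)
  have hvi : ∀ i, i ≠ D.β l → v i ≠ 0 := by
    intro i hi h0
    apply hv' (some i) (by
      rw [Finset.mem_filter]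
      exact ⟨Finset.mem_univ _, fun h => hi (Option.some_injective _ h)⟩)
    intro k hk
    rw [Finset.mem_singleton] at hk
    rw [hk, h0]
  set pv : Fin s → Fin N := fun i => if i = D.β l then l else (D.hβ i).choose with hpvdef
  have hpvl : pv (D.β l) = l := by simp [hpvdef]
  have hpv : ∀ i, D.β (pv i) = i := by
    intro i
    by_cases h : i = D.β l
    · rw [h, hpvl]
    · simp only [hpvdef, if_neg h]
      exact (D.hβ i).choose_spec
  obtain ⟨δ, hδ, H⟩ := exists_p D pv hpv {l} (by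
    intro l' hl'
    rw [Finset.mem_singleton] at hl'
    rw [hl', hpvl]
    exact Finset.mem_singleton_self l) ε hε
  have hc : ∃ c : ℝ, 0 < c ∧ c * ‖v‖ < δ := by
    refine ⟨δ / (‖v‖ + 1), by positivity, ?_⟩
    rw [div_mul_eq_mul_div, div_lt_iff₀ (by positivity)]
    nlinarith [norm_nonneg v]
  obtain ⟨c, hc0, hc⟩ := hc
  have hcC : (c : ℂ) ≠ 0 := by exact_mod_cast hc0.ne'
  obtain ⟨p, hp1, hp2, hp3, hp4⟩ := H ((c : ℂ) • v) (by
    rw [norm_smul, Complex.norm_real, Real.norm_eq_abs, abs_of_pos hc0]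
    exact hc) (by
    intro l' hl'
    rw [Finset.mem_singleton] at hl'
    rw [hl', Pi.smul_apply, hvl, smul_zero])
  refine ⟨p, hp1, hp2 l (Finset.mem_singleton_self l), ?_, ?_⟩
  · intro l' hl'
    by_cases h : l' = pv (D.β l')
    · have hne : D.β l' ≠ D.β l := by
        intro h0
        apply hl'
        rw [h, h0, hpvl]
      intro h0
      have h1 := hp4 (D.β l')
      rw [Finset.prod_eq_zero (i := l') (by simp [Data.B]) (by rw [h0]; exact zero_pow (D.hd l').ne'),
        Pi.smul_apply, smul_eq_mul] at h1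
      rcases mul_eq_zero.mp h1.symm with h2 | h2
      · exact hcC h2
      · exact hvi _ hne h2
    · exact hp3 l' (by rwa [Finset.mem_singleton]) h
  · have h1 : (fun i => ∏ l ∈ D.B i, p l ^ D.d l) = (c : ℂ) • v := funext hp4
    rw [h1]
    intro h2
    apply hvW
    have h3 := D.W.smul_mem (c : ℂ)⁻¹ h2
    rwa [smul_smul, inv_mul_cancel₀ hcC, one_smul] at h3

/-- the curve -/
noncomputable def R8g {N : ℕ} (l : Fin N) (p : Fin N → ℂ) (l' : Fin N) : Polynomial ℂ :=
  if l' = l then Polynomial.X else Polynomial.C (p l')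

theorem R8_gen (l : Fin N) (p : Fin N → ℂ) (hpl : p l = 0) (h : MvPolynomial (Fin N) ℂ)
    (a : Fin D.m → Fin s → ℂ) :
    ∃ R : Polynomial ℂ, (aeval (R8g l p) (h * D.gen a) : Polynomial ℂ) = Polynomial.X ^ D.b l * R ∧
      R.coeff 0 = eval p h * ((∏ l' ∈ Finset.univ.erase l, p l' ^ D.b l') *
        ∏ j, a j ⬝ᵥ (fun i => ∏ l ∈ D.B i, p l ^ D.d l)) := by
  classical
  have hg0 : ∀ l', (R8g l p l').eval 0 = p l' := by
    intro l'
    unfold R8g
    split_ifs with h0
    · rw [Polynomial.eval_X, h0, hpl]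
    · rw [Polynomial.eval_C]
  have hgl : R8g l p l = Polynomial.X := by simp [R8g]
  refine ⟨(aeval (R8g l p) h : Polynomial ℂ) *
    ((∏ l' ∈ Finset.univ.erase l, R8g l p l' ^ D.b l') *
      ∏ j, ∑ i, Polynomial.C (a j i) *
        ∏ l' ∈ Finset.univ.filter (fun l => D.β l = i), R8g l p l' ^ D.d l'), ?_, ?_⟩
  · rw [map_mul, Data.gen, map_mul, map_prod, map_prod]
    simp only [map_pow, aeval_X, map_sum, map_mul, blockMon, map_prod]
    rw [← Finset.mul_prod_erase Finset.univ _ (Finset.mem_univ l), hgl]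
    simp only [aeval_C, Polynomial.algebraMap_eq]
    ring
  · rw [Polynomial.coeff_zero_eq_eval_zero, Polynomial.eval_mul, Polynomial.eval_mul,
      Polynomial.eval_prod, Polynomial.eval_prod]
    simp only [Polynomial.eval_pow, Polynomial.eval_finsetSum, Polynomial.eval_mul,
      Polynomial.eval_C, Polynomial.eval_prod, hg0]
    congr 1
    · have h1 : ∀ f : MvPolynomial (Fin N) ℂ,
          (aeval (R8g l p) f : Polynomial ℂ).eval 0 = eval p f := by
        intro f
        induction f using MvPolynomial.induction_on with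
        | C c => simp
        | add f g hf hg => rw [map_add, Polynomial.eval_add, hf, hg, map_add]
        | mul_X f i hf => rw [map_mul, Polynomial.eval_mul, hf, aeval_X, hg0, map_mul, eval_X]
      exact h1 h

theorem R8_ord1 {n : ℕ} (x : Fin (n + 1) → ℂ) (h : x 0 ≠ 0) : ord1 x = 0 ∧ lead1 x = x 0 := by
  have h1 : ord1 x = 0 := by
    rw [ord1_eq_iff x 0 (Nat.zero_le _)]
    exact ⟨fun j hj => absurd hj (Nat.not_lt_zero _), fun h' => h⟩
  refine ⟨h1, ?_⟩
  unfold lead1
  rw [dif_pos (by rw [h1]; exact Nat.succ_pos n)]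
  congr 1
  exact Fin.ext h1

/-- orders and leading coefficients of the monomial factor -/
theorem R8_sum (l : Fin N) (p : Fin N → ℂ) (hp : ∀ l', l' ≠ l → p l' ≠ 0) {n : ℕ}
    (γ : Fin N × Fin (n + 1) → ℂ) (hγ : ∀ l', γ (l', 0) = p l') :
    ∑ l', D.b l' * ord1 (fun j => γ (l', j)) = D.b l * ord1 (fun j => γ (l, j)) ∧
      ∏ l', lead1 (fun j => γ (l', j)) ^ D.b l' = lead1 (fun j => γ (l, j)) ^ D.b l *
        ∏ l' ∈ Finset.univ.erase l, p l' ^ D.b l' := by
  classical
  have h0 : ∀ l', l' ≠ l → ord1 (fun j => γ (l', j)) = 0 ∧ lead1 (fun j => γ (l', j)) = p l' := by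
    intro l' hl'
    have h1 := R8_ord1 (fun j => γ (l', j)) (by simp only [hγ]; exact hp l' hl')
    refine ⟨h1.1, ?_⟩
    rw [h1.2, hγ]
  constructor
  · apply Finset.sum_eq_single l
    · intro l' _ hl'
      rw [(h0 l' hl').1, mul_zero]
    · intro h
      exact absurd (Finset.mem_univ l) h
  · rw [← Finset.mul_prod_erase Finset.univ _ (Finset.mem_univ l)]
    congr 1
    apply Finset.prod_congr rfl
    intro l' hl'
    rw [(h0 l' (Finset.ne_of_mem_erase hl')).2]

theorem R8_zc {n : ℕ} (p : Fin N → ℂ) (γ : Fin N × Fin (n + 1) → ℂ) (hγ : ∀ l', γ (l', 0) = p l') :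
    zc D.β D.d γ 0 = fun i => ∏ l ∈ D.B i, p l ^ D.d l := by
  funext i
  unfold zc Data.B
  rw [Polynomial.coeff_zero_eq_eval_zero, Polynomial.eval_prod]
  apply Finset.prod_congr rfl
  intro l _
  rw [Polynomial.eval_pow, ← Polynomial.coeff_zero_eq_eval_zero, arc_coeff,
    dif_pos (Nat.succ_pos n)]
  congr 1
  exact hγ l

theorem R8_lc {n : ℕ} (p : Fin N → ℂ) (γ : Fin N × Fin (n + 1) → ℂ) (hγ : ∀ l', γ (l', 0) = p l') :
    (fun l => lc (fun _ => 0) γ l) = p := by
  funext l
  unfold lc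
  rw [dif_pos (Nat.succ_pos n)]
  exact hγ l

/-- the point of the normal cone, and the contact jets -/
theorem exists_cone_simple (l : Fin N) (hb : 0 < D.b l) (p : Fin N → ℂ) (hpl : p l = 0)
    (hp : ∀ l', l' ≠ l → p l' ≠ 0) (hpW : (fun i => ∏ l ∈ D.B i, p l ^ D.d l) ∉ D.W) :
    (∀ f ∈ D.I, eval p f = 0) ∧ ∃ y : ConePoint D.I p, y.Nonzero ∧
      ∀ d, contactArcs D.I p y d = {γ | (∀ l', γ (l', 0) = p l') ∧
        D.b l * ord1 (fun j => γ (l, j)) = d ∧ lead1 (fun j => γ (l, j)) ^ D.b l = 1} := by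
  classical
  set z : Fin s → ℂ := fun i => ∏ l ∈ D.B i, p l ^ D.d l with hz
  set P0 : ℂ := ∏ l' ∈ Finset.univ.erase l, p l' ^ D.b l' with hP0
  have hP0ne : P0 ≠ 0 := by
    rw [hP0, Finset.prod_ne_zero_iff]
    intro l' hl'
    exact pow_ne_zero _ (hp l' (Finset.ne_of_mem_erase hl'))
  have hlow : ∀ f ∈ D.I, ∀ e < D.b l, (aeval (R8g l p) f : Polynomial ℂ).coeff e = 0 := by
    refine I_induction D (P := fun f => ∀ e < D.b l,
      (aeval (R8g l p) f : Polynomial ℂ).coeff e = 0) ?_ ?_ ?_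
    · intro e _
      rw [map_zero, Polynomial.coeff_zero]
    · intro f g _ _ hf hg e he
      rw [map_add, Polynomial.coeff_add, hf e he, hg e he, add_zero]
    · intro h a _ e he
      obtain ⟨R, hR, _⟩ := R8_gen D l p hpl h a
      rw [hR, Polynomial.coeff_X_pow_mul', if_neg (not_le.mpr he)]
  have hgen : ∀ (h : MvPolynomial (Fin N) ℂ) (a : Fin D.m → Fin s → ℂ),
      (aeval (R8g l p) (h * D.gen a) : Polynomial ℂ).coeff (D.b l) =
        eval p h * (P0 * ∏ j, a j ⬝ᵥ z) := by
    intro h a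
    obtain ⟨R, hR, hR0⟩ := R8_gen D l p hpl h a
    rw [hR, Polynomial.coeff_X_pow_mul', if_pos le_rfl, Nat.sub_self, hR0]
  obtain ⟨y, hy⟩ := exists_conePoint D.I p (R8g l p) (by
    intro l'
    unfold R8g
    split_ifs with h0
    · rw [Polynomial.coeff_X_zero, h0, hpl]
    · rw [Polynomial.coeff_C_zero]) (D.b l) hlow
  have hy1 : ∀ f ∈ D.I, y.φ 1 f = (aeval (R8g l p) f : Polynomial ℂ).coeff (D.b l) := by
    intro f hf
    rw [hy 1 f (by rwa [pow_one]), one_mul]
  obtain ⟨a, ha, haz⟩ := exists_ann D z hpW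
  have hfI : (1 : MvPolynomial (Fin N) ℂ) * D.gen (fun _ => a) ∈ D.I := gen_mem D 1 _ fun _ => ha
  have hf1 : y.φ 1 (1 * D.gen (fun _ => a)) = P0 := by
    rw [hy1 _ hfI, hgen, map_one, one_mul, haz, Finset.prod_const_one, mul_one]
  refine ⟨?_, y, ⟨_, hfI, by rw [hf1]; exact hP0ne⟩, ?_⟩
  · intro f hf
    have h1 := hlow f hf 0 hb
    rw [Polynomial.coeff_zero_eq_eval_zero] at h1
    have h2 : ∀ f : MvPolynomial (Fin N) ℂ,
        (aeval (R8g l p) f : Polynomial ℂ).eval 0 = eval p f := by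
      intro f
      have hg0 : ∀ l', (R8g l p l').eval 0 = p l' := by
        intro l'
        unfold R8g
        split_ifs with h0
        · rw [Polynomial.eval_X, h0, hpl]
        · rw [Polynomial.eval_C]
      induction f using MvPolynomial.induction_on with
      | C c => simp
      | add f g hf hg => rw [map_add, Polynomial.eval_add, hf, hg, map_add]
      | mul_X f i hf => rw [map_mul, Polynomial.eval_mul, hf, aeval_X, hg0, map_mul, eval_X]
    rwa [h2] at h1
  · intro d
    ext γ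
    simp only [contactArcs, Set.mem_ofPred_eq]
    constructor
    · rintro ⟨hγ, hcon⟩
      refine ⟨hγ, ?_⟩
      obtain ⟨κ, c, hκc, hPlow, hPne, hzc, hzc'⟩ := exists_orders D γ d (Nat.lt_succ_self d)
        ⟨_, hfI, by rw [(hcon _ hfI).2, hf1]; exact hP0ne⟩
      have hc : c = 0 := by
        by_contra h0
        apply hpW
        have h1 := hzc 0 (Nat.pos_of_ne_zero h0)
        rw [R8_zc D p γ hγ] at h1
        exact h1
      subst hc
      have hκd : κ ≤ d := by omega
      have hco0 := (coeff_along D γ κ 0 hPlow (fun e he => absurd he (Nat.not_lt_zero e))).2 1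
        (fun _ => a) (fun _ => ha)
      have hco : (along (1 * D.gen (fun _ => a)) γ).coeff κ = (D.PP γ).coeff κ := by
        rw [mul_zero, add_zero] at hco0
        rw [hco0, R8_lc p γ hγ, R8_zc D p γ hγ, ← hz, map_one, one_mul]
        simp only [haz, Finset.prod_const_one, mul_one]
      have hκ : κ = d := by
        by_contra h0
        have h1 : κ < d := lt_of_le_of_ne hκd h0
        rw [(hcon _ hfI).1 κ h1] at hco
        exact hPne hco.symm
      subst hκ
      have hsum := (PP_order_iff D γ κ (Nat.lt_succ_self κ)).mp ⟨hPlow, hPne⟩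
      have hS := R8_sum D l p hp γ hγ
      have hord : D.b l * ord1 (fun j => γ (l, j)) = κ := by rw [← hS.1]; exact hsum
      refine ⟨hord, ?_⟩
      have hlt : ∀ l', 0 < D.b l' → ord1 (fun j => γ (l', j)) < κ + 1 := by
        intro l' _
        by_cases h0 : l' = l
        · rw [h0]
          nlinarith [Nat.zero_le (ord1 fun j => γ (l, j))]
        · rw [(R8_ord1 (fun j => γ (l', j)) (by simp only [hγ]; exact hp l' h0)).1]
          exact Nat.succ_pos κ
      have hPP := (PP_coeff D γ hlt).2.1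
      rw [hsum, hS.2, ← hco, (hcon _ hfI).2, hf1] at hPP
      have h3 : lead1 (fun j => γ (l, j)) ^ D.b l * P0 = 1 * P0 := by rw [one_mul]; exact hPP.symm
      exact mul_right_cancel₀ hP0ne h3
    · rintro ⟨hγ, hord, hlead⟩
      refine ⟨hγ, ?_⟩
      have hS := R8_sum D l p hp γ hγ
      have hlt : ∀ l', 0 < D.b l' → ord1 (fun j => γ (l', j)) < d + 1 := by
        intro l' _
        by_cases h0 : l' = l
        · rw [h0]
          nlinarith [Nat.zero_le (ord1 fun j => γ (l, j))]
        · rw [(R8_ord1 (fun j => γ (l', j)) (by simp only [hγ]; exact hp l' h0)).1]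
          exact Nat.succ_pos d
      obtain ⟨hPlow, hPd, -⟩ := PP_coeff D γ hlt
      rw [hS.1, hord] at hPlow
      rw [hS.1, hord, hS.2, hlead, one_mul, ← hP0] at hPd
      obtain ⟨hA, hB⟩ := coeff_along D γ d 0 hPlow (fun e he => absurd he (Nat.not_lt_zero e))
      rw [mul_zero, add_zero] at hA hB
      rw [R8_lc p γ hγ, R8_zc D p γ hγ, ← hz, hPd] at hB
      intro f hf
      refine ⟨hA f hf, ?_⟩
      rw [hy1 f hf]
      revert f
      have key : ∀ f ∈ D.I, f ∈ D.I ∧ (along f γ).coeff d =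
          (aeval (R8g l p) f : Polynomial ℂ).coeff (D.b l) := by
        refine I_induction D (P := fun f => f ∈ D.I ∧ (along f γ).coeff d =
          (aeval (R8g l p) f : Polynomial ℂ).coeff (D.b l)) ?_ ?_ ?_
        · refine ⟨Ideal.zero_mem _, ?_⟩
          rw [along, map_zero, map_zero, Polynomial.coeff_zero, Polynomial.coeff_zero]
        · rintro f g hf hg ⟨_, h1⟩ ⟨_, h2⟩
          refine ⟨Ideal.add_mem _ hf hg, ?_⟩
          rw [along] at h1 h2
          rw [along, map_add, map_add, Polynomial.coeff_add, Polynomial.coeff_add, h1, h2]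
        · intro h a ha
          exact ⟨gen_mem D h a ha, by rw [hB h a ha, hgen]⟩
      exact fun f hf => (key f hf).2

end MotMono.Mon
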