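import Pool.Agent.Lib.MP_4e5fcd_ag.Mon.G0

/-!
# MON-RDefs: strata, contact sets

A stratum is given by a point `p` of `V(I)` such that in each block `i ∈ A2` exactly one
coordinate `lam i` vanishes, in each block `i ∈ Ab` two coordinates `lam i`, `lam' i` with `d = 1`
and `b = 0`, and in the other blocks none or one with `d = 1`, `b = 0`; and by a direction `x`.
-/

open MvPolynomial

namespace MotMono.Mon

variable {N s : ℕ} (D : Data N s)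

/-- strata -/
structure Data.Str : Type where
  /-- the blocks where one coordinate vanishes at `p` -/
  A2 : Finset (Fin s)
  /-- the deep blocks -/
  Ab : Finset (Fin s)
  /-- the (first) vanishing coordinate -/
  lam : Fin s → Fin N
  /-- the second vanishing coordinate of a deep block -/
  lam' : Fin s → Fin N
  /-- pivots -/
  pv : Fin s → Fin N
  /-- the point -/
  p : Fin N → ℂ
  /-- the direction -/
  x : Fin s → ℂ
  /-- a linear form which vanishes on `W` -/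
  a : Fin s → ℂ
  disj : Disjoint A2 Ab
  pv_block : ∀ i, D.β (pv i) = i
  pv_lam : ∀ i ∈ A2, pv i = lam i
  p_lam : ∀ i ∈ A2, p (lam i) = 0
  p_ne : ∀ l, D.β l ∉ Ab → l ≠ pv (D.β l) → p l ≠ 0
  p_smooth : ∀ i, i ∉ A2 → i ∉ Ab → p (pv i) ≠ 0 ∨ (D.d (pv i) = 1 ∧ D.b (pv i) = 0)
  deep1 : ∀ i ∈ Ab, D.β (lam i) = i ∧ D.d (lam i) = 1 ∧ D.b (lam i) = 0 ∧ p (lam i) = 0
  deep2 : ∀ i ∈ Ab, D.β (lam' i) = i ∧ D.d (lam' i) = 1 ∧ D.b (lam' i) = 0 ∧ p (lam' i) = 0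
  deep_ne : ∀ i ∈ Ab, lam i ≠ lam' i
  deep_p : ∀ l, D.β l ∈ Ab → l ≠ lam (D.β l) → l ≠ lam' (D.β l) → p l ≠ 0
  p_W : (fun i => ∏ l ∈ D.B i, p l ^ D.d l) ∈ D.W
  a_ann : a ∈ D.ann
  ax : a ⬝ᵥ x = 1
  x_Ab : ∀ i ∈ Ab, x i = 0
  x_A2 : ∀ i ∈ A2, x i ≠ 0

variable {D} (S : D.Str)

/-- the value of the other coordinates of a block in `A2` -/
noncomputable def Data.Str.kap (i : Fin s) : ℂ := ∏ l ∈ (D.B i).erase (S.lam i), S.p l ^ D.d l

/-- The contact set: jets over `p` whose first coefficient vectors are in `W`, the coefficient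
vector with index `ℓ` is in `c x + W`, and a condition on the product of the leading
coefficients. -/
def Data.Str.CA (η : Fin s → ℂ) (d : ℕ) : Set (Fin N × Fin (d + 1) → ℂ) :=
  {γ | (∀ l, γ (l, 0) = S.p l) ∧ ∃ ℓ, 0 < ℓ ∧ ℓ ≤ d ∧ (∀ e < ℓ, zc D.β D.d γ e ∈ D.W) ∧
    zc D.β D.d γ ℓ - (S.a ⬝ᵥ zc D.β D.d γ ℓ) • S.x ∈ D.W ∧
    ∑ i ∈ S.A2, D.b (S.lam i) * ord1 (fun j => γ (S.lam i, j)) + D.m * ℓ = d ∧
    (∏ i ∈ S.A2, (lead1 (fun j => γ (S.lam i, j)) / η i) ^ D.b (S.lam i)) *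
      (S.a ⬝ᵥ zc D.β D.d γ ℓ) ^ D.m = 1}

/-- the part where the two coordinates vanish in each deep block -/
def Data.Str.CD (η : Fin s → ℂ) (d : ℕ) : Set (Fin N × Fin (d + 1) → ℂ) :=
  {γ | γ ∈ S.CA η d ∧ ∀ i ∈ S.Ab, ∀ j, γ (S.lam i, j) = 0 ∧ γ (S.lam' i, j) = 0}

/-- the orders of the coordinates, given those of the blocks in `A2` -/
def Data.Str.oo (n : ℕ) (o : Fin s → ℕ) (l : Fin N) : ℕ :=
  if D.β l ∈ S.Ab ∧ (l = S.lam (D.β l) ∨ l = S.lam' (D.β l)) then n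
  else if D.β l ∈ S.A2 ∧ l = S.lam (D.β l) then o (D.β l) else 0

/-- the vanishing coordinates in the remaining blocks -/
noncomputable def Data.Str.Fr : Finset (Fin N) := by
  classical
  exact Finset.univ.filter fun l => D.β l ∉ S.A2 ∧ D.β l ∉ S.Ab ∧ l = S.pv (D.β l) ∧ S.p l = 0

/-- the condition defining the pieces of the contact set -/
def Data.Str.Cond (η : Fin s → ℂ) (n : ℕ) (o : Fin s → ℕ) (ℓ : ℕ) (c : Fin N → ℂ)
    (z : Fin n → Fin s → ℂ) : Prop :=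
  (∀ l, S.oo n o l = 0 → c l = S.p l) ∧ (∀ e : Fin n, 1 ≤ (e : ℕ) → (e : ℕ) < ℓ → z e ∈ D.W) ∧
    ∀ h : ℓ < n, z ⟨ℓ, h⟩ - (S.a ⬝ᵥ z ⟨ℓ, h⟩) • S.x ∈ D.W ∧
      (∏ i ∈ S.A2, (c (S.lam i) / η i) ^ D.b (S.lam i)) * (S.a ⬝ᵥ z ⟨ℓ, h⟩) ^ D.m = 1

/-- the pieces of the contact set -/
def Data.Str.Cz (η : Fin s → ℂ) (n : ℕ) (o : Fin s → ℕ) (ℓ : ℕ) : Set (Fin N × Fin n → ℂ) :=
  {γ | γ ∈ Yset S.Fr (S.oo n o) n ∧ S.Cond η n o ℓ (lc (S.oo n o) γ) fun e => zc D.β D.d γ e}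

/-- the same in the coordinates which straighten the coefficient vectors -/
def Data.Str.Cv (η : Fin s → ℂ) (n : ℕ) (o : Fin s → ℕ) (ℓ : ℕ) : Set (Fin N × Fin n → ℂ) :=
  {v | v ∈ Yset S.Fr (S.oo n o) n ∧
    S.Cond η n o ℓ (lc (S.oo n o) v) fun e => zv D.β D.d S.pv (S.oo n o) v e}

/-- the coefficient vector in the model -/
noncomputable def Data.Str.zm (K : Finset (Fin s)) (w : Fin s → ℂ) (i : Fin s) : ℂ :=
  if i ∈ K then S.kap i * w i ^ D.d (S.lam i) else if i ∈ S.A2 ∨ i ∈ S.Ab then 0 else w i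

/-- the model of the main pieces -/
def Data.Str.MF (η : Fin s → ℂ) (K : Finset (Fin s)) : Set (Fin s → ℂ) :=
  {w | (∀ i ∈ K, w i ≠ 0) ∧ (∀ i, i ∉ K → i ∈ S.A2 ∨ i ∈ S.Ab → w i = 0) ∧
    S.zm K w - (S.a ⬝ᵥ S.zm K w) • S.x ∈ D.W ∧
    (∏ i ∈ K, (w i / η i) ^ D.b (S.lam i)) * (S.a ⬝ᵥ S.zm K w) ^ D.m = 1}

/-- slices of the complement of the arrangement -/
def Data.Str.hset (K : Finset (Fin s)) : Set (Fin s → ℂ) :=
  {z | z - (S.a ⬝ᵥ z) • S.x ∈ D.W ∧ S.a ⬝ᵥ z = 1 ∧ (∀ i ∈ S.Ab, z i = 0) ∧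
    ∀ i ∈ S.A2, (i ∈ K ↔ z i ≠ 0)}

/-- the blocks of `A2` with positive `b` -/
def Data.Str.Zb : Finset (Fin s) := S.A2.filter fun i => 0 < D.b (S.lam i)

/-- the least common multiple of the exponents -/
def Data.Str.MK (K : Finset (Fin s)) : ℕ := K.lcm fun i => D.d (S.lam i)

/-- the order belonging to `K` -/
def Data.Str.nK (K : Finset (Fin s)) : ℕ :=
  D.m * S.MK K + ∑ i ∈ S.A2, D.b (S.lam i) * (S.MK K / D.d (S.lam i))

/-- characters: tuples `k` with `k_i < dd_i`, `k_i = 0` outside `K`, `∑ k_i / dd_i ≡ x mod 1` -/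
noncomputable def chars {s : ℕ} (dd : Fin s → ℕ) (K : Finset (Fin s)) (x : ℚ) :
    Finset (Fin s → ℕ) := by
  classical
  exact (Fintype.piFinset fun j => if j ∈ K then Finset.range (dd j) else {0}).filter
    fun k => ∃ z : ℤ, ∑ j, (k j : ℚ) / dd j - x = z

/-- the support -/
def supp {s : ℕ} (k : Fin s → ℕ) : Finset (Fin s) := Finset.univ.filter fun j => k j ≠ 0

/-- the linear forms of the arrangement: `a` and the coordinates -/
noncomputable def lamO {s : ℕ} (a : Fin s → ℂ) (o : Option (Fin s)) : Fin s → ℂ :=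
  o.elim a fun i => Pi.single i 1

/-- the subspace `(W + ℂ x) ∩ {z_i = 0, i ∈ Ab}` -/
noncomputable def Data.Uab (D : Data N s) (x : Fin s → ℂ) (Ab : Finset (Fin s)) :
    Submodule ℂ (Fin s → ℂ) :=
  (D.W ⊔ Submodule.span ℂ {x}) ⊓ cV Ab

end MotMono.Mon
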