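import Pool.Agent.Lib.MP_4e5fcd_ag.Mon.Defs
import Pool.Agent.Lib.MP_4e5fcd_ag.A1

/-! # MON-T1: the coefficient vectors of a jet with given orders -/

open MvPolynomial

namespace MotMono.Mon

variable {N s n : ℕ}

/-- the jet with the coefficients of index `≥ j` in the coordinate `π` replaced by zero -/
noncomputable def cut (π : Fin N) (j : ℕ) (γ : Fin N × Fin n → ℂ) (q : Fin N × Fin n) : ℂ :=
  if q.1 = π ∧ j ≤ (q.2 : ℕ) then 0 else γ q

private theorem T1_factor (β : Fin N → Fin s) (d o : Fin N → ℕ) (γ : Fin N × Fin n → ℂ)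
    (h0 : ∀ l (j : Fin n), (j : ℕ) < o l → γ (l, j) = 0) (i : Fin s) :
    ∃ y : Fin N → Polynomial ℂ, (∀ l j, (y l).coeff j = (arc γ l).coeff (o l + j)) ∧
      (∀ j, zc β d γ (nuv β d o i + j) i =
        (∏ l ∈ Finset.univ.filter (fun l => β l = i), y l ^ d l).coeff j) ∧
      ∀ e < nuv β d o i, zc β d γ e i = 0 := by
  have hdvd : ∀ l, Polynomial.X ^ o l ∣ arc γ l := by
    intro l
    rw [Polynomial.X_pow_dvd_iff]
    intro e he
    rw [a1_arc_coeff]
    split_ifs with h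
    · exact h0 l ⟨e, h⟩ he
    · rfl
  choose y hy using hdvd
  have hprod : ∏ l ∈ Finset.univ.filter (fun l => β l = i), arc γ l ^ d l =
      Polynomial.X ^ nuv β d o i * ∏ l ∈ Finset.univ.filter (fun l => β l = i), y l ^ d l := by
    rw [nuv, ← Finset.prod_pow_eq_pow_sum, ← Finset.prod_mul_distrib]
    refine Finset.prod_congr rfl fun l _ => ?_
    rw [hy l, mul_pow, ← pow_mul, Nat.mul_comm (o l)]
  refine ⟨y, fun l j => ?_, fun j => ?_, fun e he => ?_⟩
  · conv_rhs => rw [hy l]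
    rw [Nat.add_comm, Polynomial.coeff_X_pow_mul]
  · rw [zc, hprod, Nat.add_comm, Polynomial.coeff_X_pow_mul]
  · rw [zc, hprod, Polynomial.coeff_X_pow_mul', if_neg (by omega)]

private theorem T1_coeff_zero (o : Fin N → ℕ) (γ : Fin N × Fin n → ℂ) (l : Fin N) :
    (arc γ l).coeff (o l + 0) = lc o γ l := by
  rw [a1_arc_coeff, lc]
  rfl

theorem zc_lt (β : Fin N → Fin s) (d o : Fin N → ℕ) (γ : Fin N × Fin n → ℂ)
    (h0 : ∀ l (j : Fin n), (j : ℕ) < o l → γ (l, j) = 0) (i : Fin s) (e : ℕ)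
    (he : e < nuv β d o i) : zc β d γ e i = 0 := by
  obtain ⟨y, _, _, h⟩ := T1_factor β d o γ h0 i
  exact h e he

theorem zc_eq (β : Fin N → Fin s) (d o : Fin N → ℕ) (hd : ∀ l, 0 < d l) (γ : Fin N × Fin n → ℂ)
    (h0 : ∀ l (j : Fin n), (j : ℕ) < o l → γ (l, j) = 0) (i : Fin s) :
    zc β d γ (nuv β d o i) i =
      ∏ l ∈ Finset.univ.filter (fun l => β l = i), lc o γ l ^ d l := by
  obtain ⟨y, h1, h2, _⟩ := T1_factor β d o γ h0 i
  have h3 := h2 0
  rw [Nat.add_zero] at h3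
  rw [h3, Polynomial.coeff_zero_eq_eval_zero, Polynomial.eval_prod]
  refine Finset.prod_congr rfl fun l _ => ?_
  rw [Polynomial.eval_pow, ← Polynomial.coeff_zero_eq_eval_zero, h1, T1_coeff_zero]

/-- The dependence of a coefficient on the coefficient with the same index in one variable. -/
theorem zc_step (β : Fin N → Fin s) (d o : Fin N → ℕ) (hd : ∀ l, 0 < d l)
    (γ : Fin N × Fin n → ℂ) (h0 : ∀ l (j : Fin n), (j : ℕ) < o l → γ (l, j) = 0) (i : Fin s)
    (π : Fin N) (hπ : β π = i) (j : ℕ) (hj : 0 < j) (hjn : o π + j < n) :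
    zc β d γ (nuv β d o i + j) i = zc β d (cut π (o π + j) γ) (nuv β d o i + j) i +
      (d π * lc o γ π ^ (d π - 1) *
        ∏ l ∈ (Finset.univ.filter (fun l => β l = i)).erase π, lc o γ l ^ d l) *
          γ (π, ⟨o π + j, hjn⟩) := by
  have h0' : ∀ l (j' : Fin n), (j' : ℕ) < o l → cut π (o π + j) γ (l, j') = 0 := by
    intro l j' hj'
    unfold cut
    split_ifs
    · rfl
    · exact h0 l j' hj'
  obtain ⟨y, h1, h2, _⟩ := T1_factor β d o γ h0 i
  obtain ⟨y', h1', h2', _⟩ := T1_factor β d o (cut π (o π + j) γ) h0' i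
  rw [h2, h2']
  -- other coordinates agree
  have hne : ∀ l, l ≠ π → y' l = y l := by
    intro l hl
    ext k
    rw [h1, h1', a1_arc_coeff, a1_arc_coeff]
    split_ifs with h
    · unfold cut
      rw [if_neg]
      rintro ⟨h3, _⟩
      exact hl h3
    · rfl
  have hlow : ∀ k < j, (y' π).coeff k = (y π).coeff k := by
    intro k hk
    rw [h1, h1', a1_arc_coeff, a1_arc_coeff]
    split_ifs with h
    · unfold cut
      rw [if_neg]
      rintro ⟨_, h3⟩
      simp only at h3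
      omega
    · rfl
  have hhigh : (y' π).coeff j = 0 := by
    rw [h1', a1_arc_coeff, dif_pos hjn]
    unfold cut
    exact if_pos ⟨rfl, le_rfl⟩
  obtain ⟨u, hu⟩ : Polynomial.X ^ j ∣ y π - y' π := by
    rw [Polynomial.X_pow_dvd_iff]
    intro k hk
    rw [Polynomial.coeff_sub, hlow k hk, sub_self]
  have hu0 : u.coeff 0 = γ (π, ⟨o π + j, hjn⟩) := by
    have h3 : (y π - y' π).coeff j = u.coeff 0 := by
      rw [hu]
      have := Polynomial.coeff_X_pow_mul u j 0
      rwa [Nat.zero_add] at this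
    rw [← h3, Polynomial.coeff_sub, hhigh, sub_zero, h1, a1_arc_coeff, dif_pos hjn]
  have hyπ : y π = y' π + Polynomial.X ^ j * u := by rw [← hu]; ring
  have hy0 : (y' π).coeff 0 = lc o γ π := by
    rw [hlow 0 hj, h1, T1_coeff_zero]
  obtain ⟨k, hk⟩ := Polynomial.powAddExpansion (y' π) (Polynomial.X ^ j * u) (d π)
  have hmem : π ∈ Finset.univ.filter (fun l => β l = i) := by simp [hπ]
  rw [← Finset.mul_prod_erase _ _ hmem, ← Finset.mul_prod_erase _ _ hmem]
  have hQ : ∏ l ∈ (Finset.univ.filter (fun l => β l = i)).erase π, y' l ^ d l =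
      ∏ l ∈ (Finset.univ.filter (fun l => β l = i)).erase π, y l ^ d l :=
    Finset.prod_congr rfl fun l hl => by rw [hne l (Finset.ne_of_mem_erase hl)]
  rw [hQ]
  set Q := ∏ l ∈ (Finset.univ.filter (fun l => β l = i)).erase π, y l ^ d l with hQdef
  have hQ0 : Q.coeff 0 =
      ∏ l ∈ (Finset.univ.filter (fun l => β l = i)).erase π, lc o γ l ^ d l := by
    rw [hQdef, Polynomial.coeff_zero_eq_eval_zero, Polynomial.eval_prod]
    refine Finset.prod_congr rfl fun l _ => ?_
    rw [Polynomial.eval_pow, ← Polynomial.coeff_zero_eq_eval_zero, h1, T1_coeff_zero]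
  have hexp : y π ^ d π * Q = y' π ^ d π * Q +
      Polynomial.X ^ j * (((d π : Polynomial ℂ) * y' π ^ (d π - 1) * u * Q) +
        Polynomial.X ^ j * (k * u ^ 2 * Q)) := by
    rw [hyπ, hk]
    ring
  rw [hexp, Polynomial.coeff_add]
  congr 1
  have h4 := Polynomial.coeff_X_pow_mul (((d π : Polynomial ℂ) * y' π ^ (d π - 1) * u * Q) +
        Polynomial.X ^ j * (k * u ^ 2 * Q)) j 0
  rw [Nat.zero_add] at h4
  rw [h4, Polynomial.coeff_add, Polynomial.coeff_X_pow_mul', if_neg (by omega), add_zero,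
    Polynomial.mul_coeff_zero, Polynomial.mul_coeff_zero, Polynomial.mul_coeff_zero, hQ0, hu0,
    Polynomial.coeff_zero_eq_eval_zero ((y' π) ^ (d π - 1)), Polynomial.eval_pow,
    ← Polynomial.coeff_zero_eq_eval_zero, hy0, Polynomial.natCast_coeff_zero]
  ring

/-- coefficients depend only on the coefficients with smaller index -/
theorem zc_congr (β : Fin N → Fin s) (d o : Fin N → ℕ) (hd : ∀ l, 0 < d l)
    (γ γ' : Fin N × Fin n → ℂ) (h0 : ∀ l (j : Fin n), (j : ℕ) < o l → γ (l, j) = 0)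
    (h0' : ∀ l (j : Fin n), (j : ℕ) < o l → γ' (l, j) = 0) (i : Fin s) (j : ℕ)
    (h : ∀ l, β l = i → ∀ j' : Fin n, (j' : ℕ) ≤ o l + j → γ (l, j') = γ' (l, j')) :
    zc β d γ (nuv β d o i + j) i = zc β d γ' (nuv β d o i + j) i := by
  obtain ⟨y, h1, h2, _⟩ := T1_factor β d o γ h0 i
  obtain ⟨y', h1', h2', _⟩ := T1_factor β d o γ' h0' i
  rw [h2, h2']
  have hq : ∀ l, β l = i → Ideal.Quotient.mk (Ideal.span {(Polynomial.X : Polynomial ℂ) ^ (j + 1)})
      (y l) = Ideal.Quotient.mk (Ideal.span {(Polynomial.X : Polynomial ℂ) ^ (j + 1)}) (y' l) := by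
    intro l hl
    rw [Ideal.Quotient.eq, Ideal.mem_span_singleton, Polynomial.X_pow_dvd_iff]
    intro k hk
    rw [Polynomial.coeff_sub, h1, h1', a1_arc_coeff, a1_arc_coeff]
    split_ifs with h3
    · rw [h l hl ⟨o l + k, h3⟩ (by simp only; omega), sub_self]
    · rw [sub_self]
  have h3 : Ideal.Quotient.mk (Ideal.span {(Polynomial.X : Polynomial ℂ) ^ (j + 1)})
      (∏ l ∈ Finset.univ.filter (fun l => β l = i), y l ^ d l) =
      Ideal.Quotient.mk (Ideal.span {(Polynomial.X : Polynomial ℂ) ^ (j + 1)})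
      (∏ l ∈ Finset.univ.filter (fun l => β l = i), y' l ^ d l) := by
    rw [map_prod, map_prod]
    refine Finset.prod_congr rfl fun l hl => ?_
    rw [map_pow, map_pow, hq l (Finset.mem_filter.mp hl).2]
  rw [Ideal.Quotient.eq, Ideal.mem_span_singleton, Polynomial.X_pow_dvd_iff] at h3
  have h4 := h3 j (Nat.lt_succ_self j)
  rw [Polynomial.coeff_sub] at h4
  exact sub_eq_zero.mp h4

/-- the coefficients are polynomial functions of the jet -/
theorem exists_poly_zc (β : Fin N → Fin s) (d : Fin N → ℕ) (e : ℕ) (i : Fin s) :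
    ∃ P : MvPolynomial (Fin N × Fin n) ℂ, ∀ γ, eval γ P = zc β d γ e i := by
  refine ⟨(∏ l ∈ Finset.univ.filter (fun l => β l = i), (∑ j : Fin n,
    Polynomial.C (X (l, j) : MvPolynomial (Fin N × Fin n) ℂ) * Polynomial.X ^ (j : ℕ)) ^ d l).coeff e,
    fun γ => ?_⟩
  rw [zc, ← Polynomial.coeff_map]
  congr 1
  rw [Polynomial.map_prod]
  refine Finset.prod_congr rfl fun l _ => ?_
  rw [Polynomial.map_pow, arc]
  congr 1
  rw [Polynomial.map_sum]
  refine Finset.sum_congr rfl fun j _ => ?_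
  rw [Polynomial.map_mul, Polynomial.map_C, Polynomial.map_pow, Polynomial.map_X, eval_X]

end MotMono.Mon
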