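import Pool.Agent.Lib.MP_4e5fcd_ag.Mon.T1

/-! # MON-T2: the triangular change of variables -/

open MvPolynomial

namespace MotMono.Mon

variable {N s n : ℕ}

/-- the coefficient of the new coordinate -/
private noncomputable def T2a (β : Fin N → Fin s) (d o : Fin N → ℕ) (v : Fin N × Fin n → ℂ)
    (l : Fin N) : ℂ :=
  (d l : ℂ) * lc o v l ^ (d l - 1) *
    ∏ l' ∈ (Finset.univ.filter (fun l' => β l' = β l)).erase l, lc o v l' ^ d l'

/-- the coordinates which are replaced -/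
private def T2sp (β : Fin N → Fin s) (d : Fin N → ℕ) (piv : Fin s → Fin N) (o : Fin N → ℕ)
    (q : Fin N × Fin n) : Prop :=
  q.1 = piv (β q.1) ∧ o q.1 < (q.2 : ℕ) ∧ nuv β d o (β q.1) + ((q.2 : ℕ) - o q.1) < n

open Classical in
private noncomputable def T2f (β : Fin N → Fin s) (d : Fin N → ℕ) (piv : Fin s → Fin N)
    (o : Fin N → ℕ) (x : Fin N × Fin n → ℂ) (q : Fin N × Fin n) : ℂ :=
  if T2sp β d piv o q then zc β d x (nuv β d o (β q.1) + ((q.2 : ℕ) - o q.1)) (β q.1) else x q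

open Classical in
private noncomputable def T2g (β : Fin N → Fin s) (d : Fin N → ℕ) (piv : Fin s → Fin N)
    (o : Fin N → ℕ) : ℕ → (Fin N × Fin n → ℂ) → Fin N × Fin n → ℂ
  | 0, v => v
  | K + 1, v => fun q => if T2sp β d piv o q ∧ (q.2 : ℕ) = o q.1 + (K + 1) then
      (v q - zc β d (cut q.1 (o q.1 + (K + 1)) (T2g β d piv o K v))
        (nuv β d o (β q.1) + (K + 1)) (β q.1)) * (T2a β d o v q.1)⁻¹
      else T2g β d piv o K v q

section

variable (β : Fin N → Fin s) (d : Fin N → ℕ) (piv : Fin s → Fin N) (o : Fin N → ℕ)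

open Classical in
private theorem T2g_succ (K : ℕ) (v : Fin N × Fin n → ℂ) (q : Fin N × Fin n) :
    T2g β d piv o (K + 1) v q = if T2sp β d piv o q ∧ (q.2 : ℕ) = o q.1 + (K + 1) then
      (v q - zc β d (cut q.1 (o q.1 + (K + 1)) (T2g β d piv o K v))
        (nuv β d o (β q.1) + (K + 1)) (β q.1)) * (T2a β d o v q.1)⁻¹
      else T2g β d piv o K v q := rfl

private theorem T2_L1 (K : ℕ) (v : Fin N × Fin n → ℂ) (q : Fin N × Fin n)
    (h : ¬ T2sp β d piv o q) : T2g β d piv o K v q = v q := by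
  induction K with
  | zero => rfl
  | succ K ih =>
    rw [T2g_succ, if_neg (fun h' => h h'.1), ih]

private theorem T2_L3 (K M : ℕ) (v : Fin N × Fin n → ℂ) (q : Fin N × Fin n)
    (h : (q.2 : ℕ) ≤ o q.1 + K) : T2g β d piv o (K + M) v q = T2g β d piv o K v q := by
  induction M with
  | zero => rfl
  | succ M ih =>
    rw [← Nat.add_assoc, T2g_succ, if_neg (fun h' => by omega), ih]

private theorem T2_low (K : ℕ) (v : Fin N × Fin n → ℂ) (q : Fin N × Fin n)
    (h : (q.2 : ℕ) ≤ o q.1) : T2g β d piv o K v q = v q :=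
  T2_L1 β d piv o K v q fun h' => by
    have := h'.2.1
    omega

private theorem T2f_low (v : Fin N × Fin n → ℂ) (q : Fin N × Fin n)
    (h : (q.2 : ℕ) ≤ o q.1) : T2f β d piv o v q = v q := by
  rw [T2f, if_neg]
  intro h'
  have := h'.2.1
  omega

private theorem T2_lc_congr {x y : Fin N × Fin n → ℂ}
    (h : ∀ q : Fin N × Fin n, (q.2 : ℕ) ≤ o q.1 → x q = y q) : lc o x = lc o y := by
  funext l
  unfold lc
  split_ifs with h1
  · exact h (l, ⟨o l, h1⟩) le_rfl
  · rfl

private theorem T2_Y_congr {Fr : Finset (Fin N)} {x y : Fin N × Fin n → ℂ}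
    (h : ∀ q : Fin N × Fin n, (q.2 : ℕ) ≤ o q.1 → x q = y q) (hy : y ∈ Yset Fr o n) :
    x ∈ Yset Fr o n := by
  refine ⟨fun l j hj => ?_, fun l hl h1 => ?_⟩
  · rw [h (l, j) hj.le]
    exact hy.1 l j hj
  · rw [h (l, ⟨o l, h1⟩) le_rfl]
    exact hy.2 l hl h1

private theorem T2_cut0 {x : Fin N × Fin n → ℂ}
    (h0 : ∀ l (j : Fin n), (j : ℕ) < o l → x (l, j) = 0) (π : Fin N) (k : ℕ) :
    ∀ l (j : Fin n), (j : ℕ) < o l → cut π k x (l, j) = 0 := by
  intro l j hj
  unfold cut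
  split_ifs
  · rfl
  · exact h0 l j hj

/-- `zc` of two jets which agree below -/
private theorem T2_L7 (hd : ∀ l, 0 < d l) {x y : Fin N × Fin n → ℂ}
    (hx : ∀ l (j : Fin n), (j : ℕ) < o l → x (l, j) = 0)
    (hy : ∀ l (j : Fin n), (j : ℕ) < o l → y (l, j) = 0) (q : Fin N × Fin n)
    (hq : T2sp β d piv o q) (K : ℕ)
    (h : ∀ q' : Fin N × Fin n, (¬ T2sp β d piv o q' ∨ (q'.2 : ℕ) ≤ o q'.1 + K) → x q' = y q') :
    zc β d (cut q.1 (o q.1 + (K + 1)) x) (nuv β d o (β q.1) + (K + 1)) (β q.1) =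
      zc β d (cut q.1 (o q.1 + (K + 1)) y) (nuv β d o (β q.1) + (K + 1)) (β q.1) := by
  refine zc_congr β d o hd _ _ (T2_cut0 o hx _ _) (T2_cut0 o hy _ _) _ _ fun l hl j' hj' => ?_
  unfold cut
  by_cases h1 : l = q.1
  · by_cases h2 : o q.1 + (K + 1) ≤ (j' : ℕ)
    · rw [if_pos ⟨h1, h2⟩, if_pos ⟨h1, h2⟩]
    · rw [if_neg (fun h' => h2 h'.2), if_neg (fun h' => h2 h'.2)]
      refine h _ (Or.inr ?_)
      subst h1
      simp only
      omega
  · rw [if_neg (fun h' => h1 h'.1), if_neg (fun h' => h1 h'.1)]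
    refine h _ (Or.inl fun h' => h1 ?_)
    have h2 : l = piv (β l) := h'.1
    rw [h2, hl]
    exact hq.1.symm

private theorem T2_step (hd : ∀ l, 0 < d l) {x : Fin N × Fin n → ℂ}
    (hx : ∀ l (j : Fin n), (j : ℕ) < o l → x (l, j) = 0) (q : Fin N × Fin n) (K : ℕ)
    (hK : (q.2 : ℕ) = o q.1 + (K + 1)) :
    zc β d x (nuv β d o (β q.1) + (K + 1)) (β q.1) =
      zc β d (cut q.1 (o q.1 + (K + 1)) x) (nuv β d o (β q.1) + (K + 1)) (β q.1) +
        T2a β d o x q.1 * x q := by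
  have hlt : o q.1 + (K + 1) < n := hK ▸ q.2.2
  have h := zc_step β d o hd x hx (β q.1) q.1 rfl (K + 1) (Nat.succ_pos K) hlt
  rw [h]
  congr 2
  have hq : q = (q.1, ⟨o q.1 + (K + 1), hlt⟩) := by
    ext
    · rfl
    · exact hK
  exact congrArg x hq.symm

private theorem T2_a_ne (hd : ∀ l, 0 < d l) (Fr : Finset (Fin N))
    (hFr : ∀ l ∈ Fr, l = piv (β l) ∧ d l = 1) {v : Fin N × Fin n → ℂ} (hv : v ∈ Yset Fr o n)
    (q : Fin N × Fin n) (hq : T2sp β d piv o q) : T2a β d o v q.1 ≠ 0 := by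
  have hlc : ∀ l, l ∉ Fr → o l < n → lc o v l ≠ 0 := by
    intro l hl h
    rw [lc, dif_pos h]
    exact hv.2 l hl h
  refine mul_ne_zero (mul_ne_zero ?_ ?_) ?_
  · exact_mod_cast (hd q.1).ne'
  · by_cases h : q.1 ∈ Fr
    · rw [(hFr q.1 h).2]
      simp
    · refine pow_ne_zero _ (hlc _ h ?_)
      exact lt_trans hq.2.1 q.2.2
  · refine Finset.prod_ne_zero_iff.mpr fun l' hl' => ?_
    rw [Finset.mem_erase, Finset.mem_filter] at hl'
    refine pow_ne_zero _ (hlc _ (fun h => hl'.1 ?_) ?_)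
    · rw [(hFr l' h).1, hl'.2.2]
      exact hq.1.symm
    · have h1 : d l' * o l' ≤ nuv β d o (β q.1) :=
        Finset.single_le_sum (f := fun l => d l * o l) (fun _ _ => Nat.zero_le _)
          (Finset.mem_filter.mpr ⟨Finset.mem_univ _, hl'.2.2⟩)
      have h2 : o l' ≤ d l' * o l' := Nat.le_mul_of_pos_left _ (hd l')
      have h3 := hq.2.2
      omega

private theorem T2_gf (hd : ∀ l, 0 < d l) (Fr : Finset (Fin N))
    (hFr : ∀ l ∈ Fr, l = piv (β l) ∧ d l = 1) {x : Fin N × Fin n → ℂ} (hx : x ∈ Yset Fr o n)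
    (K : ℕ) : ∀ q : Fin N × Fin n, (¬ T2sp β d piv o q ∨ (q.2 : ℕ) ≤ o q.1 + K) →
      T2g β d piv o K (T2f β d piv o x) q = x q := by
  have hfY : T2f β d piv o x ∈ Yset Fr o n := T2_Y_congr o (T2f_low β d piv o x) hx
  induction K with
  | zero =>
    intro q hq
    show T2f β d piv o x q = x q
    rw [T2f, if_neg]
    intro h
    rcases hq with hq | hq
    · exact hq h
    · have := h.2.1
      omega
  | succ K ih =>
    intro q hq
    rw [T2g_succ]
    split_ifs with h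
    · obtain ⟨h1, h2⟩ := h
      have e1 : T2f β d piv o x q =
          zc β d x (nuv β d o (β q.1) + (K + 1)) (β q.1) := by
        rw [T2f, if_pos h1]
        congr 2
        omega
      have e2 := T2_L7 β d piv o hd (x := T2g β d piv o K (T2f β d piv o x)) (y := x)
        (T2_Y_congr o (T2_low β d piv o K _) hfY).1 hx.1 q h1 K ih
      have e3 : T2a β d o (T2f β d piv o x) q.1 = T2a β d o x q.1 := by
        unfold T2a
        rw [T2_lc_congr o (T2f_low β d piv o x)]
      rw [e1, e2, e3, T2_step β d o hd hx.1 q K h2, add_sub_cancel_left, mul_comm,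
        ← mul_assoc, inv_mul_cancel₀ (T2_a_ne β d piv o hd Fr hFr hx q h1), one_mul]
    · refine ih q ?_
      rcases hq with hq | hq
      · exact Or.inl hq
      · by_cases h1 : T2sp β d piv o q
        · right
          have : (q.2 : ℕ) ≠ o q.1 + (K + 1) := fun h2 => h ⟨h1, h2⟩
          omega
        · exact Or.inl h1

private theorem T2_fg (hd : ∀ l, 0 < d l) (Fr : Finset (Fin N))
    (hFr : ∀ l ∈ Fr, l = piv (β l) ∧ d l = 1) {y : Fin N × Fin n → ℂ} (hy : y ∈ Yset Fr o n) :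
    T2f β d piv o (T2g β d piv o n y) = y := by
  have hgY : ∀ K, T2g β d piv o K y ∈ Yset Fr o n := fun K =>
    T2_Y_congr o (T2_low β d piv o K y) hy
  funext q
  rw [T2f]
  split_ifs with h
  · obtain ⟨K, hK⟩ : ∃ K, (q.2 : ℕ) = o q.1 + (K + 1) :=
      ⟨(q.2 : ℕ) - o q.1 - 1, by have := h.2.1; omega⟩
    have e0 : (q.2 : ℕ) - o q.1 = K + 1 := by omega
    have hKn : K + 1 ≤ n := by have := q.2.2; omega
    have e1 : T2g β d piv o n y q =
        (y q - zc β d (cut q.1 (o q.1 + (K + 1)) (T2g β d piv o K y))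
          (nuv β d o (β q.1) + (K + 1)) (β q.1)) * (T2a β d o y q.1)⁻¹ := by
      have h1 := T2_L3 β d piv o (K + 1) (n - (K + 1)) y q (by omega)
      rw [Nat.add_sub_cancel' hKn] at h1
      rw [h1, T2g_succ, if_pos ⟨h, hK⟩]
    have e2 := T2_L7 β d piv o hd (x := T2g β d piv o n y) (y := T2g β d piv o K y)
      (hgY n).1 (hgY K).1 q h K (by
        intro q' hq'
        rcases hq' with h2 | h2
        · rw [T2_L1 β d piv o _ _ _ h2, T2_L1 β d piv o _ _ _ h2]
        · have h3 := T2_L3 β d piv o K (n - K) y q' h2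
          rwa [Nat.add_sub_cancel' (by omega)] at h3)
    have e3 : T2a β d o (T2g β d piv o n y) q.1 = T2a β d o y q.1 := by
      unfold T2a
      rw [T2_lc_congr o (T2_low β d piv o n y)]
    rw [e0, T2_step β d o hd (hgY n).1 q K hK, e2, e3, e1, mul_comm (T2a β d o y q.1), mul_assoc,
      inv_mul_cancel₀ (T2_a_ne β d piv o hd Fr hFr hy q h), mul_one, add_sub_cancel]
  · exact T2_L1 β d piv o n y q h

private theorem T2_reg_zc (E : Set (Fin N × Fin n → ℂ)) (e : ℕ) (i : Fin s) :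
    RegFun E (fun γ => zc β d γ e i) := by
  obtain ⟨P, hP⟩ := exists_poly_zc (n := n) β d e i
  exact (regFun_poly E P).congr fun γ _ => hP γ

private theorem T2_reg_a (E : Set (Fin N × Fin n → ℂ)) (l : Fin N) :
    RegFun E (fun γ => T2a β d o γ l) := by
  set Q : Fin N → MvPolynomial (Fin N × Fin n) ℂ := fun l =>
    if h : o l < n then X (l, ⟨o l, h⟩) else 0 with hQ
  have hQe : ∀ l γ, eval γ (Q l) = lc o γ l := by
    intro l γ
    rw [hQ, lc]
    simp only
    split_ifs with h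
    · rw [eval_X]
    · rw [map_zero]
  refine (regFun_poly E (C (d l : ℂ) * Q l ^ (d l - 1) *
    ∏ l' ∈ (Finset.univ.filter (fun l' => β l' = β l)).erase l, Q l' ^ d l')).congr fun γ _ => ?_
  rw [map_mul, map_mul, eval_C, map_pow, hQe, map_prod, T2a]
  congr 1
  refine Finset.prod_congr rfl fun l' _ => ?_
  rw [map_pow, hQe]

private theorem T2_reg_f (E : Set (Fin N × Fin n → ℂ)) : RegularOn E (T2f β d piv o) := by
  intro q
  by_cases h : T2sp β d piv o q
  · refine (T2_reg_zc β d E (nuv β d o (β q.1) + ((q.2 : ℕ) - o q.1)) (β q.1)).congr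
      fun γ _ => ?_
    rw [T2f, if_pos h]
  · refine (regFun_coord E q).congr fun γ _ => ?_
    rw [T2f, if_neg h]

private theorem T2_reg_g (hd : ∀ l, 0 < d l) (Fr : Finset (Fin N))
    (hFr : ∀ l ∈ Fr, l = piv (β l) ∧ d l = 1) (K : ℕ) :
    RegularOn (Yset Fr o n) (T2g β d piv o K) := by
  induction K with
  | zero => exact fun q => regFun_coord _ q
  | succ K ih =>
    intro q
    by_cases h : T2sp β d piv o q ∧ (q.2 : ℕ) = o q.1 + (K + 1)
    · have h1 : RegularOn (Yset Fr o n)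
          (fun v => cut q.1 (o q.1 + (K + 1)) (T2g β d piv o K v)) := by
        intro q'
        by_cases h2 : q'.1 = q.1 ∧ o q.1 + (K + 1) ≤ (q'.2 : ℕ)
        · refine (regFun_const _ 0).congr fun γ _ => ?_
          exact (if_pos h2).symm
        · refine (ih q').congr fun γ _ => ?_
          exact (if_neg h2).symm
      have h2 := RegFun.comp h1 (T2_reg_zc β d Set.univ (nuv β d o (β q.1) + (K + 1)) (β q.1))
        (fun _ _ => Set.mem_univ _)
      refine (((regFun_coord _ q).sub h2).mul ((T2_reg_a β d o _ q.1).inv fun v hv =>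
        T2_a_ne β d piv o hd Fr hFr hv q h.1)).congr fun γ _ => ?_
      exact (if_pos h).symm
    · refine (ih q).congr fun γ _ => ?_
      exact (if_neg h).symm

end

theorem exists_theta (β : Fin N → Fin s) (d : Fin N → ℕ) (hd : ∀ l, 0 < d l)
    (piv : Fin s → Fin N) (hpiv : ∀ i, β (piv i) = i) (Fr : Finset (Fin N))
    (hFr : ∀ l ∈ Fr, l = piv (β l) ∧ d l = 1) (o : Fin N → ℕ) :
    ∃ f g : (Fin N × Fin n → ℂ) → (Fin N × Fin n → ℂ),
      RegularOn (Yset Fr o n) f ∧ RegularOn (Yset Fr o n) g ∧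
      (∀ x ∈ Yset Fr o n, f x ∈ Yset Fr o n) ∧ (∀ y ∈ Yset Fr o n, g y ∈ Yset Fr o n) ∧
      (∀ x ∈ Yset Fr o n, g (f x) = x) ∧ (∀ y ∈ Yset Fr o n, f (g y) = y) ∧
      (∀ x ∈ Yset Fr o n, lc o (f x) = lc o x) ∧
      ∀ x ∈ Yset Fr o n, ∀ e < n, zc β d x e = zv β d piv o (f x) e := by
  refine ⟨T2f β d piv o, T2g β d piv o n, T2_reg_f β d piv o _, T2_reg_g β d piv o hd Fr hFr n,
    fun x hx => T2_Y_congr o (T2f_low β d piv o x) hx,
    fun y hy => T2_Y_congr o (T2_low β d piv o n y) hy, fun x hx => ?_,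
    fun y hy => T2_fg β d piv o hd Fr hFr hy,
    fun x _ => T2_lc_congr o (T2f_low β d piv o x), fun x hx e he => ?_⟩
  · funext q
    refine T2_gf β d piv o hd Fr hFr hx n q (Or.inr ?_)
    have := q.2.2
    omega
  · funext i
    rw [zv]
    split_ifs with h1 h2 h3
    · exact zc_lt β d o x hx.1 i e h1
    · rw [h2, zc_eq β d o hd x hx.1 i, T2_lc_congr o (T2f_low β d piv o x)]
    · have h4 : T2sp β d piv o (piv i, (⟨e - nuv β d o i + o (piv i), h3⟩ : Fin n)) := by
        refine ⟨by rw [hpiv], ?_, ?_⟩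
        · simp only
          omega
        · simp only [hpiv]
          omega
      rw [T2f, if_pos h4]
      simp only [hpiv]
      congr 1
      omega
    · exfalso
      have h5 : d (piv i) * o (piv i) ≤ nuv β d o i :=
        Finset.single_le_sum (f := fun l => d l * o l) (fun _ _ => Nat.zero_le _)
          (Finset.mem_filter.mpr ⟨Finset.mem_univ _, hpiv i⟩)
      have h6 : o (piv i) ≤ d (piv i) * o (piv i) := Nat.le_mul_of_pos_left _ (hd _)
      omega

end MotMono.Mon
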